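import Pool.Agent.Lib.MP_d1f1b5_nt.TB.Spec

section
/-!
# BIL

The bilinear large sieve with the condition `Y₁ < kd ≤ Y₂`.
-/
set_option autoImplicit false

namespace Pool.Agent.Lib.MP_d1f1b5_nt.TB

open Finset Filter Topology
open scoped Classical

noncomputable section

namespace BILM

theorem dsum_mono (q : ℕ) (Φ Ψ : DirichletCharacter ℂ q → ℝ) (h : ∀ χ, Φ χ ≤ Ψ χ) :
    dsum q Φ ≤ dsum q Ψ := by
  rcases Nat.eq_zero_or_pos q with h0 | h0
  · unfold dsum
    rw [dif_pos h0, dif_pos h0]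
  · have : NeZero q := ⟨h0.ne'⟩
    rw [dsum_eq, dsum_eq]
    exact Finset.sum_le_sum fun χ _ => h χ

theorem dsum_nonneg (q : ℕ) (Φ : DirichletCharacter ℂ q → ℝ) (h : ∀ χ, 0 ≤ Φ χ) :
    0 ≤ dsum q Φ := by
  rcases Nat.eq_zero_or_pos q with h0 | h0
  · unfold dsum
    rw [dif_pos h0]
  · have : NeZero q := ⟨h0.ne'⟩
    rw [dsum_eq]
    exact Finset.sum_nonneg fun χ _ => h χ

theorem dsum_sum (q : ℕ) (s : Finset ℕ) (Φ : ℕ → DirichletCharacter ℂ q → ℝ) :
    dsum q (fun χ => ∑ i ∈ s, Φ i χ) = ∑ i ∈ s, dsum q (Φ i) := by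
  rcases Nat.eq_zero_or_pos q with h0 | h0
  · unfold dsum
    rw [dif_pos h0]
    simp [dif_pos h0]
  · have : NeZero q := ⟨h0.ne'⟩
    rw [dsum_eq, Finset.sum_comm]
    exact Finset.sum_congr rfl fun i _ => (dsum_eq q (Φ i)).symm

theorem dsum_cs (q : ℕ) (F G : DirichletCharacter ℂ q → ℝ) :
    dsum q (fun χ => F χ * G χ) ≤ √(dsum q (fun χ => F χ ^ 2)) * √(dsum q (fun χ => G χ ^ 2)) := by
  rcases Nat.eq_zero_or_pos q with h0 | h0
  · unfold dsum
    rw [dif_pos h0]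
    positivity
  · have : NeZero q := ⟨h0.ne'⟩
    rw [dsum_eq, dsum_eq, dsum_eq]
    exact Real.sum_mul_le_sqrt_mul_sqrt _ _ _

theorem cs (s : Finset ℕ) (F G : ∀ q : ℕ, DirichletCharacter ℂ q → ℝ) :
    ∑ q ∈ s, dsum q (fun χ => F q χ * G q χ)
      ≤ √(∑ q ∈ s, dsum q (fun χ => F q χ ^ 2)) * √(∑ q ∈ s, dsum q (fun χ => G q χ ^ 2)) := by
  refine (Finset.sum_le_sum fun q _ => dsum_cs q (F q) (G q)).trans ?_
  exact Real.sum_sqrt_mul_sqrt_le _ (fun q => dsum_nonneg q _ fun χ => sq_nonneg _)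
    (fun q => dsum_nonneg q _ fun χ => sq_nonneg _)

theorem inv_sum_le (M : ℕ) : ∑ h ∈ range M, (1 : ℝ) / (1 + ((min h (M - h) : ℕ) : ℝ))
    ≤ 2 * (1 + Real.log M) := by
  have h1 : ∑ h ∈ range M, (1 : ℝ) / (1 + (h : ℝ)) ≤ 1 + Real.log M := by
    have h := harmonic_le_one_add_log M
    unfold harmonic at h
    push_cast at h
    refine le_trans (le_of_eq ?_) h
    apply Finset.sum_congr rfl
    intro i _
    rw [one_div, add_comm]
  have h2 : ∑ h ∈ range M, (1 : ℝ) / (1 + ((M - h : ℕ) : ℝ)) ≤ 1 + Real.log M := by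
    refine le_trans ?_ h1
    rw [← Finset.sum_range_reflect]
    apply Finset.sum_le_sum
    intro i hi
    rw [Finset.mem_range] at hi
    apply one_div_le_one_div_of_le (by positivity)
    have : i ≤ M - (M - 1 - i) := by omega
    have : ((i : ℕ) : ℝ) ≤ ((M - (M - 1 - i) : ℕ) : ℝ) := by exact_mod_cast this
    linarith
  calc ∑ h ∈ range M, (1 : ℝ) / (1 + ((min h (M - h) : ℕ) : ℝ))
      ≤ ∑ h ∈ range M, ((1 : ℝ) / (1 + (h : ℝ)) + (1 : ℝ) / (1 + ((M - h : ℕ) : ℝ))) := by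
        apply Finset.sum_le_sum
        intro h _
        rcases le_total h (M - h) with hc | hc
        · rw [min_eq_left hc]
          have : (0 : ℝ) ≤ (1 : ℝ) / (1 + ((M - h : ℕ) : ℝ)) := by positivity
          linarith
        · rw [min_eq_right hc]
          have : (0 : ℝ) ≤ (1 : ℝ) / (1 + (h : ℝ)) := by positivity
          linarith
    _ = _ := Finset.sum_add_distrib
    _ ≤ 2 * (1 + Real.log M) := by linarith

/-- the expansion of the bilinear sum -/
theorem expand (q K M Y₁ Y₂ : ℕ) (a b : ℕ → ℝ) (χ : DirichletCharacter ℂ q) (c : ℕ → ℕ → ℂ)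
    (hc : ∀ k ∈ Ioc K (2 * K), ∀ n : ℕ, 1 ≤ n → n ≤ M →
      ∑ h ∈ range M, c k h * Complex.exp (2 * Real.pi * Complex.I * ((h : ℂ) * n / M))
        = if Y₁ / k < n ∧ n ≤ Y₂ / k then 1 else 0) :
    ∑ k ∈ Ioc K (2 * K), ∑ d ∈ (Icc 1 M).filter (fun d => Y₁ < k * d ∧ k * d ≤ Y₂),
        ((a k * b d : ℝ) : ℂ) * (χ (k : ZMod q) * χ (d : ZMod q))
      = ∑ h ∈ range M, (∑ k ∈ Ioc K (2 * K), (((a k : ℝ) : ℂ) * c k h) * χ (k : ZMod q)) *
          ∑ d ∈ Icc 1 M, (((b d : ℝ) : ℂ) *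
            Complex.exp (2 * Real.pi * Complex.I * ((h : ℂ) * d / M))) * χ (d : ZMod q) := by
  have e1 : ∀ k ∈ Ioc K (2 * K), ∑ d ∈ (Icc 1 M).filter (fun d => Y₁ < k * d ∧ k * d ≤ Y₂),
        ((a k * b d : ℝ) : ℂ) * (χ (k : ZMod q) * χ (d : ZMod q))
      = ∑ d ∈ Icc 1 M, ∑ h ∈ range M, ((((a k : ℝ) : ℂ) * c k h) * χ (k : ZMod q)) *
          ((((b d : ℝ) : ℂ) *
            Complex.exp (2 * Real.pi * Complex.I * ((h : ℂ) * d / M))) * χ (d : ZMod q)) := by
    intro k hk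
    rw [Finset.sum_filter]
    apply Finset.sum_congr rfl
    intro d hd
    rw [Finset.mem_Icc] at hd
    have hkk := hk
    rw [Finset.mem_Ioc] at hkk
    have hk0 : 0 < k := by omega
    have h1 := hc k hk d hd.1 hd.2
    have h2 : (Y₁ < k * d ∧ k * d ≤ Y₂) ↔ (Y₁ / k < d ∧ d ≤ Y₂ / k) := by
      rw [Nat.div_lt_iff_lt_mul hk0, Nat.le_div_iff_mul_le hk0, mul_comm d k]
    have h3 : (if (Y₁ < k * d ∧ k * d ≤ Y₂) then
        ((a k * b d : ℝ) : ℂ) * (χ (k : ZMod q) * χ (d : ZMod q)) else 0)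
        = (if Y₁ / k < d ∧ d ≤ Y₂ / k then 1 else 0) *
          (((a k * b d : ℝ) : ℂ) * (χ (k : ZMod q) * χ (d : ZMod q))) := by
      by_cases hh : (Y₁ < k * d ∧ k * d ≤ Y₂)
      · rw [if_pos hh, if_pos (h2.mp hh), one_mul]
      · rw [if_neg hh, if_neg (fun h => hh (h2.mpr h)), zero_mul]
    rw [h3, ← h1, Finset.sum_mul]
    apply Finset.sum_congr rfl
    intro h _
    push_cast
    ring
  rw [Finset.sum_congr rfl e1]
  rw [Finset.sum_congr rfl (fun k _ => Finset.sum_comm), Finset.sum_comm]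
  apply Finset.sum_congr rfl
  intro h _
  rw [Finset.sum_mul_sum]

end BILM

theorem specBIL (hLSI : SpecLSI) (hDFT : SpecDFT) : SpecBIL := by
  obtain ⟨CL, hCL, hL⟩ := hLSI
  obtain ⟨CD, hCD, hD⟩ := hDFT
  refine ⟨2 * CL * CD, by positivity, fun R K M Y₁ Y₂ a b hR hK hM hY hYKM => ?_⟩
  have hex : ∀ k : ℕ, ∃ c : ℕ → ℂ, k ∈ Ioc K (2 * K) →
      (∀ h < M, ‖c h‖ ≤ CD / (1 + ((min h (M - h) : ℕ) : ℝ))) ∧
      ∀ n : ℕ, 1 ≤ n → n ≤ M →
        ∑ h ∈ range M, c h * Complex.exp (2 * Real.pi * Complex.I * ((h : ℂ) * n / M))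
          = if Y₁ / k < n ∧ n ≤ Y₂ / k then 1 else 0 := by
    intro k
    by_cases hk : k ∈ Ioc K (2 * K)
    · rw [Finset.mem_Ioc] at hk
      have h1 : Y₂ / k ≤ M := by
        apply Nat.div_le_of_le_mul
        exact hYKM.trans (Nat.mul_le_mul_right M hk.1.le)
      obtain ⟨c, hc⟩ := hD M (Y₁ / k) (Y₂ / k) hM (Nat.div_le_div_right hY) h1
      exact ⟨c, fun _ => hc⟩
    · exact ⟨0, fun h => absurd h hk⟩
  choose c hc using hex
  set SA : ℝ := ∑ k ∈ Ioc K (2 * K), (a k) ^ 2 with hSA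
  set SB : ℝ := ∑ d ∈ Icc 1 M, (b d) ^ 2 with hSB
  have hSA0 : 0 ≤ SA := Finset.sum_nonneg fun _ _ => sq_nonneg _
  have hSB0 : 0 ≤ SB := Finset.sum_nonneg fun _ _ => sq_nonneg _
  let A : ℕ → ∀ q : ℕ, DirichletCharacter ℂ q → ℝ := fun h q χ =>
    ‖∑ k ∈ Ioc K (2 * K), (((a k : ℝ) : ℂ) * c k h) * χ (k : ZMod q)‖
  let B : ℕ → ∀ q : ℕ, DirichletCharacter ℂ q → ℝ := fun h q χ =>
    ‖∑ d ∈ Icc 1 M, (((b d : ℝ) : ℂ) *
            Complex.exp (2 * Real.pi * Complex.I * ((h : ℂ) * d / M))) * χ (d : ZMod q)‖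
  have step1 : ∑ q ∈ PR R, dsum q (fun χ => ‖∑ k ∈ Ioc K (2 * K),
      ∑ d ∈ (Icc 1 M).filter (fun d => Y₁ < k * d ∧ k * d ≤ Y₂),
        ((a k * b d : ℝ) : ℂ) * (χ (k : ZMod q) * χ (d : ZMod q))‖)
      ≤ ∑ h ∈ range M, ∑ q ∈ PR R, dsum q (fun χ => A h q χ * B h q χ) := by
    rw [Finset.sum_comm]
    apply Finset.sum_le_sum
    intro q _
    rw [← BILM.dsum_sum]
    apply BILM.dsum_mono
    intro χ
    rw [BILM.expand q K M Y₁ Y₂ a b χ c (fun k hk => (hc k hk).2)]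
    refine (norm_sum_le _ _).trans ?_
    apply Finset.sum_le_sum
    intro h _
    rw [norm_mul]
  have step2 : ∀ h ∈ range M, ∑ q ∈ PR R, dsum q (fun χ => A h q χ * B h q χ)
      ≤ (CL * CD * √(((K : ℝ) + (R : ℝ) ^ 2) * ((M : ℝ) + (R : ℝ) ^ 2)) * √(SA * SB)) *
        (1 / (1 + ((min h (M - h) : ℕ) : ℝ))) := by
    intro h hh
    rw [Finset.mem_range] at hh
    set w : ℝ := 1 / (1 + ((min h (M - h) : ℕ) : ℝ)) with hw
    have hw0 : 0 ≤ w := by positivity
    refine (BILM.cs (PR R) (A h) (B h)).trans ?_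
    have hA : ∑ q ∈ PR R, dsum q (fun χ => A h q χ ^ 2)
        ≤ CL * ((K : ℝ) + (R : ℝ) ^ 2) * ((CD * w) ^ 2 * SA) := by
      have h1 := hL R K K (fun k => ((a k : ℝ) : ℂ) * c k h) hR hK
      rw [← two_mul] at h1
      refine h1.trans ?_
      apply mul_le_mul_of_nonneg_left _ (by positivity)
      rw [hSA, Finset.mul_sum]
      apply Finset.sum_le_sum
      intro k hk
      have h2 := (hc k hk).1 h hh
      rw [norm_mul, Complex.norm_real, mul_pow, Real.norm_eq_abs, sq_abs, mul_comm]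
      apply mul_le_mul_of_nonneg_right _ (sq_nonneg _)
      apply pow_le_pow_left₀ (norm_nonneg _)
      rw [hw, mul_one_div]
      exact h2
    have hB : ∑ q ∈ PR R, dsum q (fun χ => B h q χ ^ 2)
        ≤ CL * ((M : ℝ) + (R : ℝ) ^ 2) * SB := by
      have h1 := hL R 0 M (fun d => ((b d : ℝ) : ℂ) *
            Complex.exp (2 * Real.pi * Complex.I * ((h : ℂ) * d / M))) hR hM
      have h0 : Ioc 0 (0 + M) = Icc 1 M := by
        ext x; simp only [Finset.mem_Ioc, Finset.mem_Icc]; omega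
      rw [h0] at h1
      refine h1.trans ?_
      apply mul_le_mul_of_nonneg_left _ (by positivity)
      rw [hSB]
      apply le_of_eq
      apply Finset.sum_congr rfl
      intro d _
      have h3 : ‖Complex.exp (2 * Real.pi * Complex.I * ((h : ℂ) * d / M))‖ = 1 := by
        have : (2 * Real.pi * Complex.I * ((h : ℂ) * d / M))
            = Complex.I * ((2 * Real.pi * ((h : ℝ) * d / M) : ℝ) : ℂ) := by
          push_cast; ring
        rw [this]
        exact Complex.norm_exp_I_mul_ofReal _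
      rw [norm_mul, h3, mul_one, Complex.norm_real, Real.norm_eq_abs, sq_abs]
    calc √(∑ q ∈ PR R, dsum q (fun χ => A h q χ ^ 2)) * √(∑ q ∈ PR R, dsum q (fun χ => B h q χ ^ 2))
        ≤ √(CL * ((K : ℝ) + (R : ℝ) ^ 2) * ((CD * w) ^ 2 * SA)) *
          √(CL * ((M : ℝ) + (R : ℝ) ^ 2) * SB) := by
          apply mul_le_mul (Real.sqrt_le_sqrt hA) (Real.sqrt_le_sqrt hB) (Real.sqrt_nonneg _)
            (Real.sqrt_nonneg _)
      _ = √((CL * (CD * w)) ^ 2 * ((((K : ℝ) + (R : ℝ) ^ 2) * ((M : ℝ) + (R : ℝ) ^ 2)) * (SA * SB))) := by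
          rw [← Real.sqrt_mul (by positivity)]
          congr 1
          ring
      _ = (CL * (CD * w)) * (√(((K : ℝ) + (R : ℝ) ^ 2) * ((M : ℝ) + (R : ℝ) ^ 2)) * √(SA * SB)) := by
          rw [Real.sqrt_mul (by positivity), Real.sqrt_sq (by positivity),
            Real.sqrt_mul (by positivity)]
      _ = _ := by ring
  refine step1.trans ((Finset.sum_le_sum step2).trans ?_)
  rw [← Finset.mul_sum]
  calc (CL * CD * √(((K : ℝ) + (R : ℝ) ^ 2) * ((M : ℝ) + (R : ℝ) ^ 2)) * √(SA * SB)) *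
        ∑ h ∈ range M, (1 / (1 + ((min h (M - h) : ℕ) : ℝ)))
      ≤ (CL * CD * √(((K : ℝ) + (R : ℝ) ^ 2) * ((M : ℝ) + (R : ℝ) ^ 2)) * √(SA * SB)) *
        (2 * (1 + Real.log M)) :=
        mul_le_mul_of_nonneg_left (BILM.inv_sum_le M) (by positivity)
    _ = _ := by ring

end

end Pool.Agent.Lib.MP_d1f1b5_nt.TB
end

section
/-!
# DFT

The finite Fourier expansion of the indicator function of an interval.
-/
set_option autoImplicit false

namespace Pool.Agent.Lib.MP_d1f1b5_nt.TB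

open Finset Filter Topology
open scoped Classical

noncomputable section

namespace DFTM

/-- the exponential -/
def ex (t : ℝ) : ℂ := Complex.exp (Complex.I * (t : ℂ))

theorem ex_zero : ex 0 = 1 := by simp [ex]

theorem ex_add (s t : ℝ) : ex (s + t) = ex s * ex t := by
  unfold ex
  rw [← Complex.exp_add]
  congr 1
  push_cast
  ring

theorem ex_pow (t : ℝ) (n : ℕ) : ex t ^ n = ex (n * t) := by
  unfold ex
  rw [← Complex.exp_nat_mul]
  congr 1
  push_cast
  ring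

theorem norm_ex (t : ℝ) : ‖ex t‖ = 1 := by
  unfold ex
  exact Complex.norm_exp_I_mul_ofReal t

theorem ex_two_pi_int (k : ℤ) : ex (2 * Real.pi * k) = 1 := by
  unfold ex
  rw [Complex.exp_eq_one_iff]
  exact ⟨k, by push_cast; ring⟩

theorem orth (M n m : ℕ) (hM : 1 ≤ M) (hn : 1 ≤ n) (hnM : n ≤ M) (hm : 1 ≤ m) (hmM : m ≤ M) :
    ∑ h ∈ range M, (ex (2 * Real.pi * (((n : ℝ) - m) / M))) ^ h = if m = n then (M : ℂ) else 0 := by
  have hM0 : (M : ℝ) ≠ 0 := by positivity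
  split_ifs with e
  · subst e
    simp [ex_zero]
  · have h1 : ex (2 * Real.pi * (((n : ℝ) - m) / M)) ≠ 1 := by
      unfold ex
      intro h
      rw [Complex.exp_eq_one_iff] at h
      obtain ⟨k, hk⟩ := h
      have h2 : ((n : ℝ) - m) / M = k := by
        have hp : (2 * Real.pi * Complex.I : ℂ) ≠ 0 := Complex.two_pi_I_ne_zero
        have : (2 * Real.pi * Complex.I : ℂ) * ((((n : ℝ) - m) / M : ℝ) : ℂ)
            = (2 * Real.pi * Complex.I : ℂ) * (k : ℂ) := by
          rw [mul_comm _ (k : ℂ), ← hk]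
          push_cast
          ring
        have h3 := mul_left_cancel₀ hp this
        exact_mod_cast h3
      rw [div_eq_iff hM0] at h2
      have h4 : (n : ℤ) - m = k * M := by exact_mod_cast h2
      have h5 : k = 0 := by
        by_contra hk0
        rcases lt_or_gt_of_ne hk0 with h | h
        · have : k * M ≤ -1 * M := by
            apply mul_le_mul_of_nonneg_right _ (by positivity)
            omega
          omega
        · have : 1 * (M : ℤ) ≤ k * M := by
            apply mul_le_mul_of_nonneg_right _ (by positivity)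
            omega
          omega
      rw [h5] at h4
      omega
    rw [geom_sum_eq h1, ex_pow]
    have h6 : (M : ℝ) * (2 * Real.pi * (((n : ℝ) - m) / M)) = 2 * Real.pi * (((n : ℤ) - m : ℤ) : ℝ) := by
      push_cast
      field_simp
    rw [h6, ex_two_pi_int]
    simp

theorem geo (x : ℂ) (hx : ‖x‖ = 1) (h1 : x ≠ 1) (a b : ℕ) (hab : a ≤ b) :
    ‖∑ m ∈ Ioc a b, x ^ m‖ ≤ 2 / ‖x - 1‖ := by
  have e : ∑ m ∈ Ioc a b, x ^ m = x ^ (a + 1) * ((x ^ (b - a) - 1) / (x - 1)) := by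
    rw [← geom_sum_eq h1, Finset.mul_sum]
    refine Finset.sum_bij' (fun m _ => m - (a + 1)) (fun m _ => a + 1 + m) ?_ ?_ ?_ ?_ ?_
    · intro m hm; rw [Finset.mem_Ioc] at hm; rw [Finset.mem_range]; omega
    · intro m hm; rw [Finset.mem_range] at hm; rw [Finset.mem_Ioc]; omega
    · intro m hm; rw [Finset.mem_Ioc] at hm; omega
    · intro m hm; omega
    · intro m hm
      rw [Finset.mem_Ioc] at hm
      rw [← pow_add]
      congr 1
      omega
  rw [e, norm_mul, norm_pow, hx, one_pow, one_mul, norm_div]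
  apply div_le_div_of_nonneg_right _ (norm_nonneg _)
  calc ‖x ^ (b - a) - 1‖ ≤ ‖x ^ (b - a)‖ + ‖(1 : ℂ)‖ := norm_sub_le _ _
    _ = 2 := by rw [norm_pow, hx, one_pow, norm_one]; norm_num

theorem low (M h : ℕ) (h0 : 1 ≤ h) (hM : h < M) :
    4 * (((min h (M - h) : ℕ) : ℝ)) / M ≤ ‖ex (-(2 * Real.pi * (h / M))) - 1‖ := by
  have hM0 : (0 : ℝ) < M := by exact_mod_cast (by omega : 0 < M)
  have hh : (h : ℝ) < M := by exact_mod_cast hM
  unfold ex
  rw [Complex.norm_exp_I_mul_ofReal_sub_one]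
  have e1 : -(2 * Real.pi * ((h : ℝ) / M)) / 2 = -(Real.pi * (h / M)) := by ring
  rw [e1, Real.sin_neg, mul_neg, norm_neg, norm_mul]
  have h2 : ‖(2 : ℝ)‖ = 2 := by norm_num
  rw [h2, Real.norm_eq_abs]
  have key : 2 * (((min h (M - h) : ℕ) : ℝ)) / M ≤ |Real.sin (Real.pi * (h / M))| := by
    refine le_trans ?_ (le_abs_self _)
    rcases le_total (2 * h) M with hc | hc
    · have hm : min h (M - h) = h := by omega
      rw [hm]
      have h3 : Real.pi * ((h : ℝ) / M) ≤ Real.pi / 2 := by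
        have : (h : ℝ) / M ≤ 1 / 2 := by
          rw [div_le_div_iff₀ hM0 (by norm_num)]
          have : ((2 * h : ℕ) : ℝ) ≤ M := by exact_mod_cast hc
          push_cast at this
          linarith
        nlinarith [Real.pi_pos]
      have h4 := Real.mul_le_sin (x := Real.pi * ((h : ℝ) / M)) (by positivity) h3
      have h5 : 2 / Real.pi * (Real.pi * ((h : ℝ) / M)) = 2 * (h : ℝ) / M := by
        have := Real.pi_pos.ne'
        field_simp
      linarith
    · have hm : min h (M - h) = M - h := by omega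
      rw [hm, ← Real.sin_pi_sub, Nat.cast_sub hM.le]
      have h3 : Real.pi - Real.pi * ((h : ℝ) / M) ≤ Real.pi / 2 := by
        have : 1 / 2 ≤ (h : ℝ) / M := by
          rw [div_le_div_iff₀ (by norm_num) hM0]
          have : (M : ℝ) ≤ ((2 * h : ℕ) : ℝ) := by exact_mod_cast hc
          push_cast at this
          linarith
        nlinarith [Real.pi_pos]
      have h3' : 0 ≤ Real.pi - Real.pi * ((h : ℝ) / M) := by
        have : (h : ℝ) / M ≤ 1 := by rw [div_le_one hM0]; exact hh.le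
        nlinarith [Real.pi_pos]
      have h4 := Real.mul_le_sin h3' h3
      have h5 : 2 / Real.pi * (Real.pi - Real.pi * ((h : ℝ) / M)) = 2 * ((M : ℝ) - h) / M := by
        have := Real.pi_pos.ne'
        field_simp
      linarith
  calc 4 * (((min h (M - h) : ℕ) : ℝ)) / M = 2 * (2 * (((min h (M - h) : ℕ) : ℝ)) / M) := by ring
    _ ≤ _ := mul_le_mul_of_nonneg_left key (by norm_num)

theorem specDFTaux : ∃ C : ℝ, 0 < C ∧ ∀ M a b : ℕ, 1 ≤ M → a ≤ b → b ≤ M → ∃ c : ℕ → ℂ,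
    (∀ h < M, ‖c h‖ ≤ C / (1 + ((min h (M - h) : ℕ) : ℝ))) ∧
    ∀ n : ℕ, 1 ≤ n → n ≤ M →
      ∑ h ∈ range M, c h * Complex.exp (2 * Real.pi * Complex.I * ((h : ℂ) * n / M))
        = if a < n ∧ n ≤ b then 1 else 0 := by
  refine ⟨1, one_pos, fun M a b hM hab hbM => ?_⟩
  have hM0 : (0 : ℝ) < M := by exact_mod_cast hM
  have hMc : (M : ℂ) ≠ 0 := by exact_mod_cast hM0.ne'
  refine ⟨fun h => (1 / (M : ℂ)) * ∑ m ∈ Ioc a b, ex (-(2 * Real.pi * (h / M))) ^ m, ?_, ?_⟩
  · intro h hh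
    rw [norm_mul, norm_div, norm_one, Complex.norm_natCast]
    rcases Nat.eq_zero_or_pos h with h0 | h0
    · subst h0
      simp only [Nat.zero_min, Nat.cast_zero, add_zero, div_one, zero_div, mul_zero, neg_zero,
        ex_zero, one_pow, Finset.sum_const, Nat.card_Ioc, nsmul_eq_mul, mul_one]
      rw [Complex.norm_natCast, one_div, inv_mul_le_iff₀ hM0, mul_one]
      exact_mod_cast (by omega : b - a ≤ M)
    · have hl := low M h h0 hh
      have hmin : (1 : ℝ) ≤ ((min h (M - h) : ℕ) : ℝ) := by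
        exact_mod_cast (by omega : 1 ≤ min h (M - h))
      set mn : ℝ := ((min h (M - h) : ℕ) : ℝ) with hmn
      have hpos : 0 < ‖ex (-(2 * Real.pi * (h / M))) - 1‖ := by
        refine lt_of_lt_of_le ?_ hl
        positivity
      have hne : ex (-(2 * Real.pi * (h / M))) ≠ 1 := by
        intro e
        rw [e] at hpos
        simp at hpos
      have hg := geo (ex (-(2 * Real.pi * (h / M)))) (norm_ex _) hne a b hab
      calc 1 / (M : ℝ) * ‖∑ m ∈ Ioc a b, ex (-(2 * Real.pi * (h / M))) ^ m‖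
          ≤ 1 / (M : ℝ) * (2 / ‖ex (-(2 * Real.pi * (h / M))) - 1‖) :=
            mul_le_mul_of_nonneg_left hg (by positivity)
        _ ≤ 1 / (M : ℝ) * (2 / (4 * mn / M)) := by
            apply mul_le_mul_of_nonneg_left _ (by positivity)
            apply div_le_div_of_nonneg_left (by norm_num) (by positivity) hl
        _ = 1 / (2 * mn) := by field_simp; norm_num
        _ ≤ 1 / (1 + mn) := by
            apply one_div_le_one_div_of_le (by linarith)
            linarith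
  · intro n hn hnM
    have e1 : ∀ h ∈ range M, (1 / (M : ℂ)) * (∑ m ∈ Ioc a b, ex (-(2 * Real.pi * (h / M))) ^ m) *
        Complex.exp (2 * Real.pi * Complex.I * ((h : ℂ) * n / M))
        = (1 / (M : ℂ)) * ∑ m ∈ Ioc a b, (ex (2 * Real.pi * (((n : ℝ) - m) / M))) ^ h := by
      intro h _
      rw [mul_assoc, Finset.sum_mul]
      congr 1
      apply Finset.sum_congr rfl
      intro m _
      have : Complex.exp (2 * Real.pi * Complex.I * ((h : ℂ) * n / M))
          = ex (2 * Real.pi * ((h : ℝ) * n / M)) := by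
        unfold ex
        congr 1
        push_cast
        ring
      rw [this, ex_pow, ex_pow, ← ex_add]
      congr 1
      ring
    rw [Finset.sum_congr rfl e1, ← Finset.mul_sum, Finset.sum_comm]
    have e2 : ∀ m ∈ Ioc a b, ∑ h ∈ range M, (ex (2 * Real.pi * (((n : ℝ) - m) / M))) ^ h
        = if m = n then (M : ℂ) else 0 := by
      intro m hm
      rw [Finset.mem_Ioc] at hm
      exact orth M n m hM hn hnM (by omega) (by omega)
    rw [Finset.sum_congr rfl e2, Finset.sum_ite_eq']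
    simp only [Finset.mem_Ioc]
    split_ifs
    · rw [one_div, inv_mul_cancel₀ hMc]
    · simp

end DFTM

theorem specDFT : SpecDFT := DFTM.specDFTaux

end

end Pool.Agent.Lib.MP_d1f1b5_nt.TB
end

section
/-!
# Module BQ: the sieve bound for `Bq q X`
-/
set_option autoImplicit false
set_option linter.all false

namespace Pool.Agent.Lib.MP_d1f1b5_nt.TB

open Finset Filter Topology
open scoped Classical

namespace BQM

/-- the numerical facts on `D` -/
theorem exists_D (q X : ℕ) (hq : 3 ≤ q) (hX : q ^ 10 ≤ X) :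
    ∃ D : ℕ, 1 ≤ D ∧ (D : ℝ) ^ 4 ≤ X / (q : ℝ) ^ 2 ∧ (1 / 6) * Real.log X ≤ Real.log D := by
  have hq3 : (3 : ℝ) ≤ q := by exact_mod_cast hq
  have hXR : (q : ℝ) ^ 10 ≤ X := by exact_mod_cast hX
  have hX3 : (3 : ℝ) ^ 10 ≤ X := (pow_le_pow_left₀ (by norm_num) hq3 10).trans hXR
  have hX0 : (0 : ℝ) < X := by
    have : (0 : ℝ) < 3 ^ 10 := by norm_num
    linarith
  obtain ⟨t, ht⟩ : ∃ t, t = (X : ℝ) ^ (1 / 30 : ℝ) := ⟨_, rfl⟩
  have ht0 : 0 < t := by rw [ht]; exact Real.rpow_pos_of_pos hX0 _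
  have ht30 : t ^ 30 = X := by
    rw [ht, ← Real.rpow_natCast, ← Real.rpow_mul hX0.le]
    norm_num
  have ht1 : 1.4 ≤ t := by
    by_contra h
    push Not at h
    have h1 : t ^ 30 < 1.4 ^ 30 := pow_lt_pow_left₀ h ht0.le (by norm_num)
    have h2 : (1.4 : ℝ) ^ 30 < 3 ^ 10 := by norm_num
    rw [ht30] at h1
    linarith
  have hqt : (q : ℝ) ≤ t ^ 3 := by
    rw [← pow_le_pow_iff_left₀ (by positivity) (by positivity) (show (10 : ℕ) ≠ 0 by norm_num),
      ← pow_mul]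
    norm_num
    rw [ht30]
    exact hXR
  set Y : ℝ := X / (q : ℝ) ^ 2 with hY
  have hY0 : 0 < Y := by positivity
  have hYt : t ^ 24 ≤ Y := by
    rw [hY, le_div_iff₀ (by positivity), ← ht30]
    have : (q : ℝ) ^ 2 ≤ (t ^ 3) ^ 2 := pow_le_pow_left₀ (by positivity) hqt 2
    calc t ^ 24 * (q : ℝ) ^ 2 ≤ t ^ 24 * (t ^ 3) ^ 2 :=
          mul_le_mul_of_nonneg_left this (by positivity)
      _ = t ^ 30 := by ring
  have hY4 : t ^ 6 ≤ Y ^ (1 / 4 : ℝ) := by
    have h1 : (t ^ 24) ^ (1 / 4 : ℝ) ≤ Y ^ (1 / 4 : ℝ) :=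
      Real.rpow_le_rpow (by positivity) hYt (by norm_num)
    have h2 : (t ^ 24) ^ (1 / 4 : ℝ) = t ^ 6 := by
      rw [← Real.rpow_natCast, ← Real.rpow_mul ht0.le, ← Real.rpow_natCast]
      norm_num
    rwa [h2] at h1
  have h5 : t ^ 5 ≤ t ^ 6 - 1 := by
    have h1 : (1.4 : ℝ) ^ 5 ≤ t ^ 5 := pow_le_pow_left₀ (by norm_num) ht1 5
    have h2 : (1.4 : ℝ) ^ 5 * 0.4 ≤ t ^ 5 * (t - 1) :=
      mul_le_mul h1 (by linarith) (by norm_num) (by positivity)
    have h3 : (1 : ℝ) ≤ 1.4 ^ 5 * 0.4 := by norm_num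
    have h4 : t ^ 6 = t ^ 5 * (t - 1) + t ^ 5 := by ring
    linarith
  have hfl := Nat.lt_floor_add_one (Y ^ (1 / 4 : ℝ))
  have hD5 : t ^ 5 ≤ (⌊Y ^ (1 / 4 : ℝ)⌋₊ : ℝ) := by linarith
  refine ⟨⌊Y ^ (1 / 4 : ℝ)⌋₊, ?_, ?_, ?_⟩
  · have h1 : (1 : ℝ) ≤ t ^ 5 := one_le_pow₀ (by linarith)
    have h2 : (1 : ℝ) ≤ (⌊Y ^ (1 / 4 : ℝ)⌋₊ : ℝ) := h1.trans hD5
    exact_mod_cast h2
  · have h1 : (⌊Y ^ (1 / 4 : ℝ)⌋₊ : ℝ) ≤ Y ^ (1 / 4 : ℝ) := Nat.floor_le (by positivity)
    have h2 := pow_le_pow_left₀ (by positivity) h1 4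
    refine h2.trans (le_of_eq ?_)
    rw [← Real.rpow_natCast, ← Real.rpow_mul hY0.le]
    norm_num
  · have h1 : Real.log (t ^ 5) ≤ Real.log (⌊Y ^ (1 / 4 : ℝ)⌋₊ : ℝ) :=
      Real.log_le_log (by positivity) hD5
    refine le_trans (le_of_eq ?_) h1
    rw [Real.log_pow, ← ht30, Real.log_pow]
    push_cast
    ring

/-- the weights of the sieve -/
noncomputable def gg (q l : ℕ) : ℝ := if l % q = 1 then (q : ℝ) / (l - q) else 1 / ((l : ℝ) - 1)

theorem lt_of_mod {q l : ℕ} (hq : 2 ≤ q) (hl : 2 ≤ l) (h : l % q = 1) : q < l := by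
  by_contra hc
  push Not at hc
  rcases Nat.lt_or_ge l q with h1 | h1
  · rw [Nat.mod_eq_of_lt h1] at h; omega
  · have : l = q := le_antisymm hc h1
    rw [this, Nat.mod_self] at h
    omega

theorem gg_ge (q l : ℕ) (hq : 3 ≤ q) (hl : l.Prime) : 1 / ((l : ℝ) - 1) ≤ gg q l := by
  unfold gg
  split_ifs with h
  · have h1 := lt_of_mod (by omega) hl.two_le h
    have h2 : (q : ℝ) < l := by exact_mod_cast h1
    have h3 : (3 : ℝ) ≤ q := by exact_mod_cast hq
    rw [div_le_div_iff₀ (by linarith) (by linarith)]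
    nlinarith
  · exact le_rfl

theorem gg_ge2 (q l : ℕ) (hq : 3 ≤ q) (hl : l.Prime) (h : l % q = 1) :
    0 ≤ ((q : ℝ) - 1) / l ∧ 1 / ((l : ℝ) - 1) + ((q : ℝ) - 1) / l ≤ gg q l := by
  unfold gg
  rw [if_pos h]
  have h1 := lt_of_mod (by omega) hl.two_le h
  have h2 : (q : ℝ) < l := by exact_mod_cast h1
  have h3 : (3 : ℝ) ≤ q := by exact_mod_cast hq
  have hl0 : (0 : ℝ) < l := by linarith
  refine ⟨div_nonneg (by linarith) hl0.le, ?_⟩
  have e1 : (q : ℝ) / (l - q) - (1 / ((l : ℝ) - 1) + ((q : ℝ) - 1) / l) =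
      (q : ℝ) ^ 2 / (l * (l - q)) - 1 / (l * ((l : ℝ) - 1)) := by
    have a1 : (l : ℝ) - q ≠ 0 := by linarith
    have a2 : (l : ℝ) - 1 ≠ 0 := by linarith
    field_simp
    ring
  have e2 : 1 / (l * ((l : ℝ) - 1)) ≤ (q : ℝ) ^ 2 / (l * (l - q)) := by
    rw [div_le_div_iff₀ (by nlinarith) (by nlinarith)]
    have b1 : (1 : ℝ) ≤ (q : ℝ) ^ 2 := by nlinarith
    have b2 : (l : ℝ) * (l - q) ≤ l * (l - 1) := mul_le_mul_of_nonneg_left (by linarith) hl0.le
    have b3 : (0 : ℝ) ≤ l * (l - 1) := by nlinarith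
    nlinarith
  linarith

end BQM

open BQM in
/-- BQ -/
theorem specBQ (hCLS : SpecCLS) (hECD : SpecECD) (hKUM : SpecKUM) (hMLS : SpecMLS)
    (hRAN : SpecRAN) (hGLB : SpecGLB) (hPEX : SpecPEX) : SpecBQ := by
  obtain ⟨C, hC, hM⟩ := hMLS
  refine ⟨36 * C * Real.exp 4, by positivity, ?_⟩
  intro q X C₁ z S hq hq2 hqX hC1 hz hS hSs hzX
  have hq3 : 3 ≤ q := by
    have := hq.two_le
    omega
  have hq3R : (3 : ℝ) ≤ q := by exact_mod_cast hq3
  obtain ⟨D, hD1, hD4, hDlog⟩ := exists_D q X hq3 hqX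
  have hXR : (q : ℝ) ^ 10 ≤ X := by exact_mod_cast hqX
  have hX3 : (3 : ℝ) ^ 10 ≤ X := (pow_le_pow_left₀ (by norm_num) hq3R 10).trans hXR
  have hX1 : (1 : ℝ) < X := by
    have : (1 : ℝ) < 3 ^ 10 := by norm_num
    linarith
  have hX0 : (0 : ℝ) < X := by linarith
  have hlX : 0 < Real.log X := Real.log_pos hX1
  have hlz : 0 < Real.log z := Real.log_pos (by linarith)
  have hD2X : ((D ^ 2 : ℕ) : ℝ) ≤ √(X : ℝ) := by
    apply Real.le_sqrt_of_sq_le
    push_cast
    have h1 : ((D : ℝ) ^ 2) ^ 2 = (D : ℝ) ^ 4 := by ring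
    rw [h1]
    refine hD4.trans ?_
    rw [div_le_iff₀ (by positivity)]
    have h2 : (1 : ℝ) ≤ (q : ℝ) ^ 2 := by nlinarith
    have h3 := mul_le_mul_of_nonneg_left h2 hX0.le
    linarith
  set P : Finset ℕ := (Icc 1 (D ^ 2)).filter (fun l => l.Prime ∧ l ≠ q) with hP
  have hPmem : ∀ l, l ∈ P ↔ l.Prime ∧ l ≤ D ^ 2 ∧ l ≠ q := by
    intro l
    rw [hP, Finset.mem_filter, Finset.mem_Icc]
    constructor
    · rintro ⟨⟨h1, h2⟩, h3, h4⟩
      exact ⟨h3, h2, h4⟩
    · rintro ⟨h1, h2, h3⟩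
      exact ⟨⟨h1.one_lt.le, h2⟩, h1, h3⟩
  have hSq : ∀ l ∈ S, q < l := fun l hl => lt_of_mod (by omega) (hS l hl).1.two_le (hS l hl).2.1
  -- the lower bound for the sieve sum
  set Sg : ℝ := ∑ l ∈ S, ((q : ℝ) - 1) / l with hSg
  set GG : ℝ := ∑ d ∈ (Icc 1 (D ^ 2)).filter (fun d => Squarefree d ∧ d.primeFactors ⊆ P),
    ∏ l ∈ d.primeFactors, gg q l with hGG
  have hG : Real.log X * Real.exp (Sg - 4) / 18 ≤ GG := by
    have h1 := hGLB q D S P (gg q) (fun l => ((q : ℝ) - 1) / l) hq hD1 hPmem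
      (fun l hl => ⟨(hS l hl).1, fun h => by have := hSq l hl; omega⟩)
      (fun l hl => gg_ge q l hq3 ((hPmem l).1 hl).1)
      (fun l hl => gg_ge2 q l hq3 (hS l hl).1 (hS l hl).2.1)
    have hw : ∀ l ∈ S, 0 ≤ ((q : ℝ) - 1) / l * (1 - 1 / (l : ℝ)) ∧
        ((q : ℝ) - 1) / l * (1 - 1 / (l : ℝ)) ≤ (q : ℝ) / l := by
      intro l hl
      have hl1 : (1 : ℝ) < l := by exact_mod_cast (hS l hl).1.one_lt
      have hl0 : (0 : ℝ) < l := by linarith
      have a1 : 0 ≤ 1 - 1 / (l : ℝ) := by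
        rw [sub_nonneg, div_le_one hl0]; exact hl1.le
      have a2 : 1 - 1 / (l : ℝ) ≤ 1 := by
        have : 0 ≤ 1 / (l : ℝ) := by positivity
        linarith
      have a3 : 0 ≤ ((q : ℝ) - 1) / l := div_nonneg (by linarith) hl0.le
      refine ⟨mul_nonneg a3 a1, ?_⟩
      calc ((q : ℝ) - 1) / l * (1 - 1 / (l : ℝ)) ≤ ((q : ℝ) - 1) / l * 1 :=
            mul_le_mul_of_nonneg_left a2 a3
        _ ≤ (q : ℝ) / l := by
            rw [mul_one]
            exact div_le_div_of_nonneg_right (by linarith) hl0.le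
    have h2 := hRAN S (fun l => ((q : ℝ) - 1) / l * (1 - 1 / (l : ℝ))) C₁ z D (by linarith) hz
      (by exact_mod_cast hD1)
      (fun l hl => ⟨(hS l hl).1.two_le, (hS l hl).2.2, (hw l hl).1⟩) (by
        refine le_trans (Finset.sum_le_sum fun l hl => ?_) hSs
        have hl1 : (1 : ℝ) < l := by exact_mod_cast (hS l hl).1.one_lt
        have := mul_le_mul_of_nonneg_right (hw l hl).2 (Real.log_pos hl1).le
        refine this.trans (le_of_eq ?_)
        ring) (by nlinarith)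
    have h3 := hPEX q S hq3 (fun l hl => ⟨hSq l hl, (hS l hl).2.1⟩)
    have h4 : (1 / 2) * Real.exp (Sg - 4) ≤
        ∑ T ∈ S.powerset.filter (fun T => ((∏ l ∈ T, l : ℕ) : ℝ) ≤ D),
          ∏ l ∈ T, (((q : ℝ) - 1) / l * (1 - 1 / (l : ℝ))) := by
      refine le_trans ?_ h2
      exact mul_le_mul_of_nonneg_left h3 (by norm_num)
    refine le_trans ?_ h1
    have h5 : (2 : ℝ) / 3 ≤ 1 - 1 / (q : ℝ) := by
      have : 1 / (q : ℝ) ≤ 1 / 3 := one_div_le_one_div_of_le (by norm_num) hq3R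
      linarith
    have h6 : (2 / 3) * ((1 / 6) * Real.log X) ≤ (1 - 1 / (q : ℝ)) * Real.log D :=
      mul_le_mul h5 hDlog (by positivity) (by linarith)
    have h7 := mul_le_mul h6 h4 (by positivity) (by
      have : 0 ≤ (2 / 3) * ((1 / 6) * Real.log X) := by positivity
      linarith)
    refine le_trans (le_of_eq ?_) h7
    ring
  have hGpos : 0 < Real.log X * Real.exp (Sg - 4) / 18 := by positivity
  -- the residue classes
  obtain ⟨CC, hCC1, hCC2, hCC3⟩ := hKUM q hq hq2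
  set N : ℕ := X / q ^ 2 with hN
  have hqq : 0 < q ^ 2 := by positivity
  have hN1 : 1 ≤ N := by
    rw [hN, Nat.le_div_iff_mul_le hqq, one_mul]
    exact (Nat.pow_le_pow_right (by omega) (by norm_num)).trans hqX
  have hNR : (N : ℝ) ≤ X / (q : ℝ) ^ 2 := by
    have := Nat.cast_div_le (α := ℝ) (m := X) (n := q ^ 2)
    rw [hN]
    push_cast at this
    exact this
  let A : ℕ → Finset ℕ := fun a => (range (N + 1)).filter
    (fun m => a + q ^ 2 * m ∈ Bq q X ∧ √(X : ℝ) < ((a + q ^ 2 * m : ℕ) : ℝ))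
  have hA : ∀ a, ((A a).card : ℝ) ≤
      (36 * C * Real.exp 4) * X / ((q : ℝ) ^ 2 * Real.log X) * Real.exp (-Sg) := by
    intro a
    let E : ℕ → Finset ℕ := fun l => (range l).filter (fun m => (a + q ^ 2 * m) % l ∈ EE q l)
    have hEc : ∀ l ∈ P, (E l).card = if l % q = 1 then q else 1 := by
      intro l hl
      have h := (hPmem l).1 hl
      exact hECD q l a hq hq2 h.1 h.2.2
    have hElt : ∀ l ∈ P, (E l).card < l := by
      intro l hl
      rw [hEc l hl]
      split_ifs with h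
      · exact lt_of_mod (by omega) ((hPmem l).1 hl).1.two_le h
      · exact ((hPmem l).1 hl).1.one_lt
    have h1 := hM (A a) N (D ^ 2) P E hN1 (Nat.one_le_pow _ _ hD1)
      (fun n hn => by
        have := (Finset.mem_filter.1 hn).1
        rw [Finset.mem_range] at this
        omega)
      (fun l hl => by
        refine ⟨((hPmem l).1 hl).1, Finset.filter_subset _ _, hElt l hl, ?_⟩
        intro n hn hcon
        obtain ⟨hn1, hn2, hn3⟩ := Finset.mem_filter.1 hn
        have hcon2 := (Finset.mem_filter.1 hcon).2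
        have hlp : l < a + q ^ 2 * n := by
          have h2 : (l : ℝ) ≤ ((D ^ 2 : ℕ) : ℝ) := by exact_mod_cast ((hPmem l).1 hl).2.1
          have h3 : (l : ℝ) < ((a + q ^ 2 * n : ℕ) : ℝ) := lt_of_le_of_lt (h2.trans hD2X) hn3
          exact_mod_cast h3
        unfold Bq at hn2
        rw [Finset.mem_filter] at hn2
        obtain ⟨-, hb1, hb2, hb3, hb4⟩ := hn2
        refine hCLS _ q l hb1 hq hb2 hq2 hb3 hb4 ((hPmem l).1 hl).1 hlp ?_
        have e : (a + q ^ 2 * n) % l = (a + q ^ 2 * (n % l)) % l := by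
          rw [Nat.add_mod, Nat.mul_mod, Nat.add_mod a (q ^ 2 * (n % l)) l,
            Nat.mul_mod (q ^ 2) (n % l) l, Nat.mod_mod]
        rw [e]
        exact hcon2)
    have h2 : ∑ d ∈ (Icc 1 (D ^ 2)).filter (fun d => Squarefree d ∧ d.primeFactors ⊆ P),
        ∏ l ∈ d.primeFactors, ((E l).card : ℝ) / ((l : ℝ) - (E l).card) = GG := by
      rw [hGG]
      refine Finset.sum_congr rfl fun d hd => ?_
      refine Finset.prod_congr rfl fun l hl => ?_
      have hlP := (Finset.mem_filter.1 hd).2.2 hl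
      rw [hEc l hlP]
      unfold gg
      split_ifs with h
      · rfl
      · rw [Nat.cast_one]
    rw [h2] at h1
    have h3 : (N : ℝ) + ((D ^ 2 : ℕ) : ℝ) ^ 2 ≤ 2 * (X / (q : ℝ) ^ 2) := by
      have : ((D ^ 2 : ℕ) : ℝ) ^ 2 = (D : ℝ) ^ 4 := by push_cast; ring
      rw [this]
      linarith
    have h4 : ((A a).card : ℝ) * (Real.log X * Real.exp (Sg - 4) / 18) ≤
        C * (2 * (X / (q : ℝ) ^ 2)) := by
      refine le_trans ?_ (h1.trans (mul_le_mul_of_nonneg_left h3 hC.le))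
      exact mul_le_mul_of_nonneg_left hG (by positivity)
    rw [← le_div_iff₀ hGpos] at h4
    refine h4.trans (le_of_eq ?_)
    have e1 : Real.exp (Sg - 4) = Real.exp Sg / Real.exp 4 := Real.exp_sub _ _
    have e2 : Real.exp (-Sg) = 1 / Real.exp Sg := by rw [Real.exp_neg, one_div]
    rw [e1, e2]
    have a1 := Real.exp_pos Sg
    have a2 := Real.exp_pos 4
    have a3 : (q : ℝ) ≠ 0 := by linarith
    field_simp
    ring
  -- the count
  have hcount : ((Bq q X).card : ℝ) ≤ √(X : ℝ) + ∑ a ∈ CC, ((A a).card : ℝ) := by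
    have hsub : Bq q X ⊆ Icc 1 ⌊√(X : ℝ)⌋₊ ∪ CC.biUnion
        (fun a => (A a).image (fun m => a + q ^ 2 * m)) := by
      intro p hp
      have hp' := hp
      unfold Bq at hp'
      rw [Finset.mem_filter, Finset.mem_Icc] at hp'
      rw [Finset.mem_union]
      rcases le_or_gt (p : ℝ) (√(X : ℝ)) with h | h
      · left
        rw [Finset.mem_Icc]
        exact ⟨hp'.1.1, Nat.le_floor h⟩
      · right
        rw [Finset.mem_biUnion]
        refine ⟨p % q ^ 2, hCC3 X p hp, ?_⟩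
        rw [Finset.mem_image]
        have e : p % q ^ 2 + q ^ 2 * (p / q ^ 2) = p := Nat.mod_add_div p (q ^ 2)
        refine ⟨p / q ^ 2, ?_, e⟩
        rw [Finset.mem_filter, Finset.mem_range, e]
        refine ⟨?_, hp, h⟩
        have := Nat.div_le_div_right (c := q ^ 2) hp'.1.2
        omega
    have h1 : (Bq q X).card ≤ ⌊√(X : ℝ)⌋₊ + ∑ a ∈ CC, (A a).card := by
      refine (Finset.card_le_card hsub).trans ((Finset.card_union_le _ _).trans ?_)
      apply Nat.add_le_add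
      · simp
      · exact Finset.card_biUnion_le.trans (Finset.sum_le_sum fun a _ => Finset.card_image_le)
    have h2 : ((Bq q X).card : ℝ) ≤ (⌊√(X : ℝ)⌋₊ : ℝ) + ∑ a ∈ CC, ((A a).card : ℝ) := by
      exact_mod_cast h1
    have h3 : (⌊√(X : ℝ)⌋₊ : ℝ) ≤ √(X : ℝ) := Nat.floor_le (Real.sqrt_nonneg _)
    linarith
  have hsum : ∑ a ∈ CC, ((A a).card : ℝ) ≤
      (36 * C * Real.exp 4) * X / (q * Real.log X) * Real.exp (-Sg) := by
    have h1 : ∑ a ∈ CC, ((A a).card : ℝ) ≤ CC.card •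
        ((36 * C * Real.exp 4) * X / ((q : ℝ) ^ 2 * Real.log X) * Real.exp (-Sg)) :=
      Finset.sum_le_card_nsmul _ _ _ (fun a _ => hA a)
    rw [nsmul_eq_mul] at h1
    refine h1.trans ?_
    have h2 : (CC.card : ℝ) ≤ q := by
      have : CC.card ≤ q := hCC2.trans (Nat.sub_le _ _)
      exact_mod_cast this
    have h3 : 0 ≤ (36 * C * Real.exp 4) * X / ((q : ℝ) ^ 2 * Real.log X) * Real.exp (-Sg) := by
      positivity
    refine (mul_le_mul_of_nonneg_right h2 h3).trans (le_of_eq ?_)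
    have a3 : (q : ℝ) ≠ 0 := by linarith
    field_simp
  linarith

end Pool.Agent.Lib.MP_d1f1b5_nt.TB
end

section
/-!
# CCB: the trivial bounds for the coefficients in Vaughan's identity
-/
set_option autoImplicit false

namespace Pool.Agent.Lib.MP_d1f1b5_nt.TB

open Finset Filter Topology
open scoped Classical

theorem CCBM.abs_moebius_le (d : ℕ) : |(ArithmeticFunction.moebius d : ℝ)| ≤ 1 := by
  have h := ArithmeticFunction.abs_moebius_le_one (n := d)
  have h2 : ((|ArithmeticFunction.moebius d| : ℤ) : ℝ) ≤ ((1 : ℤ) : ℝ) := by exact_mod_cast h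
  rw [Int.cast_abs] at h2
  simpa using h2

theorem specCCB : SpecCCB := by
  constructor
  · intro U V e he
    unfold cc
    calc |∑ d ∈ e.divisors.filter (fun d => d ≤ V ∧ e / d ≤ U),
            (ArithmeticFunction.moebius d : ℝ) * ArithmeticFunction.vonMangoldt (e / d)|
        ≤ ∑ d ∈ e.divisors.filter (fun d => d ≤ V ∧ e / d ≤ U),
            |(ArithmeticFunction.moebius d : ℝ) * ArithmeticFunction.vonMangoldt (e / d)| :=
          Finset.abs_sum_le_sum_abs _ _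
      _ ≤ ∑ d ∈ e.divisors.filter (fun d => d ≤ V ∧ e / d ≤ U),
            ArithmeticFunction.vonMangoldt (e / d) := by
          apply Finset.sum_le_sum
          intro d _
          rw [abs_mul, abs_of_nonneg (ArithmeticFunction.vonMangoldt_nonneg (n := e / d))]
          calc |(ArithmeticFunction.moebius d : ℝ)| * ArithmeticFunction.vonMangoldt (e / d)
              ≤ 1 * ArithmeticFunction.vonMangoldt (e / d) :=
                mul_le_mul_of_nonneg_right (CCBM.abs_moebius_le d)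
                  ArithmeticFunction.vonMangoldt_nonneg
            _ = _ := one_mul _
      _ ≤ ∑ d ∈ e.divisors, ArithmeticFunction.vonMangoldt (e / d) := by
          apply Finset.sum_le_sum_of_subset_of_nonneg (Finset.filter_subset _ _)
          intro d _ _
          exact ArithmeticFunction.vonMangoldt_nonneg
      _ = ∑ d ∈ e.divisors, ArithmeticFunction.vonMangoldt d :=
          Nat.sum_div_divisors e (fun d => ArithmeticFunction.vonMangoldt d)
      _ = Real.log e := ArithmeticFunction.vonMangoldt_sum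
  · intro V k
    unfold bb
    calc |∑ d ∈ k.divisors.filter (fun d => V < d), (ArithmeticFunction.moebius d : ℝ)|
        ≤ ∑ d ∈ k.divisors.filter (fun d => V < d), |(ArithmeticFunction.moebius d : ℝ)| :=
          Finset.abs_sum_le_sum_abs _ _
      _ ≤ ∑ d ∈ k.divisors.filter (fun d => V < d), (1 : ℝ) :=
          Finset.sum_le_sum (fun d _ => CCBM.abs_moebius_le d)
      _ ≤ ∑ d ∈ k.divisors, (1 : ℝ) :=
          Finset.sum_le_sum_of_subset_of_nonneg (Finset.filter_subset _ _)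
            (fun _ _ _ => zero_le_one)
      _ = (k.divisors.card : ℝ) := by
          rw [Finset.sum_const, nsmul_eq_mul, mul_one]

end Pool.Agent.Lib.MP_d1f1b5_nt.TB
end

section
/-!
# CHB: Chebyshev's bound
-/
set_option autoImplicit false

namespace Pool.Agent.Lib.MP_d1f1b5_nt.TB

open Finset Filter Topology
open scoped Classical

theorem CHBM.pi_le {x : ℝ} (hx : 2 ≤ x) :
    (Nat.primeCounting ⌊x⌋₊ : ℝ) ≤ (2 * Real.log 4 + 2) * x / Real.log x := by
  have h1 := Chebyshev.pi_le_log4_mul_div (x := x) (by linarith)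
  have hlog : 0 < Real.log x := Real.log_pos (by linarith)
  have hs : 0 ≤ √x := Real.sqrt_nonneg x
  have hxx : √x * √x = x := Real.mul_self_sqrt (by linarith)
  have h2 : Real.log √x = Real.log x / 2 := Real.log_sqrt (by linarith)
  have h3 : Real.log √x ≤ √x := by
    have := Real.log_le_sub_one_of_pos (x := √x) (Real.sqrt_pos.mpr (by linarith))
    linarith
  rw [h2] at h1 h3
  have h4 : √x ≤ 2 * x / Real.log x := by
    rw [le_div_iff₀ hlog]
    nlinarith
  have h5 : Real.log 4 * x / (Real.log x / 2) = 2 * Real.log 4 * x / Real.log x := by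
    field_simp
  rw [h5] at h1
  calc (Nat.primeCounting ⌊x⌋₊ : ℝ) ≤ 2 * Real.log 4 * x / Real.log x + √x := h1
    _ ≤ 2 * Real.log 4 * x / Real.log x + 2 * x / Real.log x := by linarith
    _ = _ := by ring

theorem CHBM.card_primes (n : ℕ) :
    ((Icc 1 n).filter Nat.Prime).card = Nat.primeCounting n := by
  have h : (Icc 1 n).filter Nat.Prime = (Finset.range (n + 1)).filter Nat.Prime := by
    ext p
    simp only [Finset.mem_filter, Finset.mem_Icc, Finset.mem_range]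
    constructor
    · rintro ⟨⟨_, h2⟩, h3⟩
      exact ⟨by omega, h3⟩
    · rintro ⟨h2, h3⟩
      exact ⟨⟨h3.one_lt.le, by omega⟩, h3⟩
  rw [h, Nat.primeCounting, Nat.primeCounting', Nat.count_eq_card_filter_range]

theorem specCHB : SpecCHB := by
  have hl4 : 0 < Real.log 4 := Real.log_pos (by norm_num)
  refine ⟨2 * (2 * Real.log 4 + 2), by positivity, ?_, ?_⟩
  · intro R hR
    have hR' : (2 : ℝ) ≤ R := by exact_mod_cast hR
    have hlog : 0 < Real.log R := Real.log_pos (by linarith)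
    have h1 : (PR R).card ≤ Nat.primeCounting (2 * R) := by
      rw [← CHBM.card_primes]
      apply Finset.card_le_card
      intro p hp
      unfold PR at hp
      rw [Finset.mem_filter, Finset.mem_Ioc] at hp
      rw [Finset.mem_filter, Finset.mem_Icc]
      exact ⟨⟨hp.2.one_lt.le, hp.1.2⟩, hp.2⟩
    have h2 := CHBM.pi_le (x := ((2 * R : ℕ) : ℝ)) (by push_cast; linarith)
    rw [Nat.floor_natCast] at h2
    have h3 : Real.log R ≤ Real.log ((2 * R : ℕ) : ℝ) := by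
      apply Real.log_le_log (by linarith)
      push_cast
      linarith
    calc ((PR R).card : ℝ) ≤ (Nat.primeCounting (2 * R) : ℝ) := by exact_mod_cast h1
      _ ≤ (2 * Real.log 4 + 2) * ((2 * R : ℕ) : ℝ) / Real.log ((2 * R : ℕ) : ℝ) := h2
      _ ≤ (2 * Real.log 4 + 2) * ((2 * R : ℕ) : ℝ) / Real.log R := by
          apply div_le_div_of_nonneg_left _ hlog h3
          positivity
      _ = _ := by push_cast; ring
  · intro X hX
    have hX' : (2 : ℝ) ≤ X := by exact_mod_cast hX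
    have hlog : 0 < Real.log X := Real.log_pos (by linarith)
    rw [CHBM.card_primes]
    have h2 := CHBM.pi_le (x := (X : ℝ)) hX'
    rw [Nat.floor_natCast] at h2
    refine h2.trans ?_
    apply div_le_div_of_nonneg_right _ hlog.le
    apply mul_le_mul_of_nonneg_right _ (by linarith)
    linarith

end Pool.Agent.Lib.MP_d1f1b5_nt.TB
end

section
/-!
# CLS: avoided residue classes
-/
set_option autoImplicit false

namespace Pool.Agent.Lib.MP_d1f1b5_nt.TB

/-- Avoided classes. -/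
theorem specCLS : SpecCLS := by
  intro p q l hp hq _ _ _ hbad hl hlp hmem
  unfold Bad at hbad
  unfold EE at hmem
  rw [Finset.mem_filter] at hmem
  obtain ⟨-, h0 | ⟨h1, h2, h3⟩⟩ := hmem
  · have h4 : l ∣ p := Nat.dvd_of_mod_eq_zero h0
    rcases (Nat.dvd_prime hp).1 h4 with h5 | h5
    · exact hl.one_lt.ne' h5
    · omega
  · have : Fact l.Prime := ⟨hl⟩
    have hq1 := hq.one_lt
    have hl1 := hl.one_lt
    -- q < l
    have hql : q < l := by
      by_contra h
      push Not at h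
      rcases Nat.lt_or_ge l q with h4 | h4
      · rw [Nat.mod_eq_of_lt h4] at h1
        omega
      · have h5 : l = q := le_antisymm h h4
        rw [h5, Nat.mod_self] at h1
        omega
    have hx : (p : ZMod l) ^ q = 1 := by
      have h4 : (((p % l) ^ q : ℕ) : ZMod l) = ((1 : ℕ) : ZMod l) := by
        rw [ZMod.natCast_eq_natCast_iff']
        rw [h3, Nat.mod_eq_of_lt hl1]
      rw [Nat.cast_pow, ZMod.natCast_mod, Nat.cast_one] at h4
      exact h4
    have hx1 : (p : ZMod l) ≠ 1 := by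
      intro h4
      have h5 : ((p : ℕ) : ZMod l) = ((1 : ℕ) : ZMod l) := by rw [h4, Nat.cast_one]
      rw [ZMod.natCast_eq_natCast_iff', Nat.mod_eq_of_lt hl1] at h5
      exact h2 h5
    -- the geometric sums
    have hp2 : 2 ≤ p := hp.two_le
    rw [← Nat.geomSum_eq hp2, ← Nat.geomSum_eq hq.two_le] at hbad
    have h6 : ((∑ k ∈ Finset.range q, p ^ k : ℕ) : ZMod l) = 0 := by
      have h7 : (∑ k ∈ Finset.range q, (p : ZMod l) ^ k) * ((p : ZMod l) - 1) = (p : ZMod l) ^ q - 1 :=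
        geom_sum_mul _ _
      rw [hx, sub_self] at h7
      rcases mul_eq_zero.1 h7 with h8 | h8
      · rw [Nat.cast_sum]
        simpa using h8
      · exact absurd (sub_eq_zero.1 h8) hx1
    have h9 : l ∣ ∑ k ∈ Finset.range p, q ^ k :=
      ((ZMod.natCast_eq_zero_iff _ _).1 h6).trans hbad
    have h10 : (∑ k ∈ Finset.range p, (q : ZMod l) ^ k) = 0 := by
      have := (ZMod.natCast_eq_zero_iff _ _).2 h9
      rw [Nat.cast_sum] at this
      simpa using this
    have h11 : (q : ZMod l) ^ p = 1 := by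
      have h12 : (∑ k ∈ Finset.range p, (q : ZMod l) ^ k) * ((q : ZMod l) - 1) =
        (q : ZMod l) ^ p - 1 := geom_sum_mul _ _
      rw [h10, zero_mul] at h12
      exact (sub_eq_zero.1 h12.symm)
    have h13 : (q : ZMod l) ≠ 1 := by
      intro h4
      have h5 : ((q : ℕ) : ZMod l) = ((1 : ℕ) : ZMod l) := by rw [h4, Nat.cast_one]
      rw [ZMod.natCast_eq_natCast_iff', Nat.mod_eq_of_lt hl1, Nat.mod_eq_of_lt hql] at h5
      omega
    have h14 : (q : ZMod l) ≠ 0 := by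
      intro h4
      rw [ZMod.natCast_eq_zero_iff] at h4
      have := Nat.le_of_dvd (by omega) h4
      omega
    have : Fact p.Prime := ⟨hp⟩
    have h15 : orderOf (q : ZMod l) = p := orderOf_eq_prime h11 h13
    have h16 := ZMod.orderOf_dvd_card_sub_one h14
    rw [h15] at h16
    have := Nat.le_of_dvd (by omega) h16
    omega

end Pool.Agent.Lib.MP_d1f1b5_nt.TB
end

section
/-!
# Module CNT of the project TB: the number of bad `q`
-/
set_option autoImplicit false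

namespace Pool.Agent.Lib.MP_d1f1b5_nt.TB

open Finset Filter Topology
open scoped Classical

noncomputable section

theorem specCNT (hGOO : SpecGOO) : SpecCNT := by
  intro η hη0 hη1
  obtain ⟨C, hC, y₀, H⟩ := hGOO η hη0 hη1
  refine ⟨64 * C + |y₀| + 1, by positivity, ?_⟩
  intro R hR
  have hR1 : (1 : ℝ) ≤ R := by exact_mod_cast hR
  have hsq : 1 ≤ √(R : ℝ) := Real.one_le_sqrt.2 hR1
  by_cases hy : y₀ ≤ (R : ℝ) ^ 10
  · set r : ℝ := (R : ℝ) ^ (1 / 12 : ℝ) with hr
    have hr1 : 1 ≤ r := Real.one_le_rpow hR1 (by norm_num)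
    have hlog0 : 0 ≤ Real.log (1 + η) := Real.log_nonneg (by linarith)
    have hlog1 : Real.log (1 + η) ≤ 1 := by
      have := Real.log_le_sub_one_of_pos (show (0 : ℝ) < 1 + η by linarith)
      linarith
    set f : ℕ → Finset ℕ := fun j => (PR R).filter (fun q =>
      ∑ l ∈ P1 q ((1 + η) ^ j) ((1 + η) * (1 + η) ^ j), Real.log l
        < (1 - η) * (η * (1 + η) ^ j) / ((q : ℝ) - 1)) with hf
    set J := (range (⌊r⌋₊ + 1)).filter (fun j : ℕ => (R : ℝ) ^ 10 ≤ (1 + η) ^ j) with hJ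
    have hsub : BB η R ⊆ J.biUnion f := by
      intro q hq
      unfold BB at hq
      rw [Finset.mem_filter] at hq
      obtain ⟨hq, j, hj1, hj2, hj3⟩ := hq
      rw [Finset.mem_biUnion]
      refine ⟨j, ?_, ?_⟩
      · rw [hJ, Finset.mem_filter, Finset.mem_range, Nat.lt_succ_iff]
        exact ⟨Nat.le_floor hj2, hj1⟩
      · rw [hf, Finset.mem_filter]
        refine ⟨hq, ?_⟩
        rw [← pow_succ']
        exact hj3
    have hcard : ∀ j ∈ J, ((f j).card : ℝ) ≤ C * (1 + r) ^ 5 := by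
      intro j hj
      rw [hJ, Finset.mem_filter, Finset.mem_range, Nat.lt_succ_iff] at hj
      have hjr : (j : ℝ) ≤ r := (Nat.cast_le.2 hj.1).trans (Nat.floor_le (by linarith))
      refine (H R ((1 + η) ^ j) hR hj.2 (hy.trans hj.2)).trans ?_
      rw [Real.log_pow]
      apply mul_le_mul_of_nonneg_left _ hC.le
      have h1 : (j : ℝ) * Real.log (1 + η) ≤ r := by
        have hj0 : (0 : ℝ) ≤ j := Nat.cast_nonneg j
        nlinarith
      have h2 : 0 ≤ (j : ℝ) * Real.log (1 + η) := mul_nonneg (Nat.cast_nonneg j) hlog0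
      exact pow_le_pow_left₀ (by linarith) (by linarith) 5
    have h1 : ((BB η R).card : ℝ) ≤ ∑ j ∈ J, ((f j).card : ℝ) := by
      have := (Finset.card_le_card hsub).trans Finset.card_biUnion_le
      exact_mod_cast this
    have hJcard : (J.card : ℝ) ≤ 1 + r := by
      have h2 : J.card ≤ ⌊r⌋₊ + 1 := by
        have := Finset.card_le_card (Finset.filter_subset
          (fun j : ℕ => (R : ℝ) ^ 10 ≤ (1 + η) ^ j) (range (⌊r⌋₊ + 1)))
        rwa [Finset.card_range] at this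
      have h3 : (J.card : ℝ) ≤ (⌊r⌋₊ : ℝ) + 1 := by exact_mod_cast h2
      have h4 : (⌊r⌋₊ : ℝ) ≤ r := Nat.floor_le (by linarith)
      linarith
    have h2 : ∑ j ∈ J, ((f j).card : ℝ) ≤ (1 + r) * (C * (1 + r) ^ 5) := by
      refine (Finset.sum_le_card_nsmul J _ _ hcard).trans ?_
      rw [nsmul_eq_mul]
      exact mul_le_mul_of_nonneg_right hJcard (by positivity)
    have h3 : (1 + r) * (C * (1 + r) ^ 5) ≤ 64 * C * √(R : ℝ) := by
      have h4 : (1 + r) ^ 6 ≤ (2 * r) ^ 6 := pow_le_pow_left₀ (by linarith) (by linarith) 6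
      have h5 : r ^ 6 = √(R : ℝ) := by
        rw [hr, ← Real.rpow_natCast, ← Real.rpow_mul (by linarith), Real.sqrt_eq_rpow]
        norm_num
      calc (1 + r) * (C * (1 + r) ^ 5) = C * (1 + r) ^ 6 := by ring
        _ ≤ C * (2 * r) ^ 6 := mul_le_mul_of_nonneg_left h4 hC.le
        _ = 64 * C * r ^ 6 := by ring
        _ = _ := by rw [h5]
    have h6 : 0 ≤ |y₀| * √(R : ℝ) := by positivity
    nlinarith [h1, h2, h3, h6, hsq]
  · push Not at hy
    have h1 : ((BB η R).card : ℝ) ≤ R := by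
      have h2 : (BB η R).card ≤ R := by
        have h3 : BB η R ⊆ Ioc R (2 * R) := by
          intro q hq
          unfold BB PR at hq
          exact (Finset.mem_filter.1 (Finset.mem_filter.1 hq).1).1
        have h4 := Finset.card_le_card h3
        rw [Nat.card_Ioc] at h4
        omega
      exact_mod_cast h2
    have h2 : (R : ℝ) ≤ (R : ℝ) ^ 10 := by
      calc (R : ℝ) = (R : ℝ) ^ 1 := (pow_one _).symm
        _ ≤ (R : ℝ) ^ 10 := pow_le_pow_right₀ hR1 (by norm_num)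
    have h3 : (R : ℝ) ≤ |y₀| := (h2.trans hy.le).trans (le_abs_self _)
    have h4 : |y₀| ≤ |y₀| * √(R : ℝ) := le_mul_of_one_le_right (abs_nonneg _) hsq
    have h5 : 0 ≤ 64 * C * √(R : ℝ) := by positivity
    nlinarith [h1, h3, h4, h5, hsq]

end

end Pool.Agent.Lib.MP_d1f1b5_nt.TB
end

section
/-!
# DIV

The second moment of the number of divisors.
-/
set_option autoImplicit false

namespace Pool.Agent.Lib.MP_d1f1b5_nt.TB

open Finset Filter Topology
open scoped Classical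

namespace DIVM

theorem sum_anti (f g : ℕ → ℝ) (x : ℕ) :
    ∑ k ∈ Icc 1 x, ∑ p ∈ k.divisorsAntidiagonal, f p.1 * g p.2
      = ∑ d ∈ Icc 1 x, ∑ e ∈ Icc 1 (x / d), f d * g e := by
  rw [Finset.sum_sigma', Finset.sum_sigma']
  refine Finset.sum_bij' (fun a _ => ⟨a.2.1, a.2.2⟩) (fun a _ => ⟨a.1 * a.2, (a.1, a.2)⟩) ?_ ?_ ?_ ?_ ?_
  · rintro ⟨k, d, e⟩ h
    simp only [Finset.mem_sigma, Finset.mem_Icc, Nat.mem_divisorsAntidiagonal] at h ⊢
    obtain ⟨⟨h1, h2⟩, h3, h4⟩ := h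
    have hd : 0 < d := Nat.pos_of_ne_zero (by rintro rfl; simp at h3; omega)
    have he : 0 < e := Nat.pos_of_ne_zero (by rintro rfl; simp at h3; omega)
    refine ⟨⟨hd, ?_⟩, he, ?_⟩
    · calc d ≤ d * e := Nat.le_mul_of_pos_right d he
        _ ≤ x := by omega
    · rw [Nat.le_div_iff_mul_le hd, mul_comm]; omega
  · rintro ⟨d, e⟩ h
    simp only [Finset.mem_sigma, Finset.mem_Icc, Nat.mem_divisorsAntidiagonal] at h ⊢
    obtain ⟨⟨h1, h2⟩, h3, h4⟩ := h
    rw [Nat.le_div_iff_mul_le (by omega), mul_comm] at h4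
    have : 0 < d * e := Nat.mul_pos (by omega) (by omega)
    exact ⟨⟨this, h4⟩, trivial, this.ne'⟩
  · rintro ⟨k, d, e⟩ h
    simp only [Finset.mem_sigma, Nat.mem_divisorsAntidiagonal] at h
    obtain ⟨_, h3, _⟩ := h
    subst h3
    rfl
  · rintro ⟨d, e⟩ _
    rfl
  · rintro ⟨k, d, e⟩ _
    rfl

theorem inv_sum_le (x : ℕ) : ∑ d ∈ Icc 1 x, (1 : ℝ) / d ≤ 1 + Real.log x := by
  have h := harmonic_le_one_add_log x
  rw [harmonic_eq_sum_Icc] at h
  push_cast at h
  simpa [one_div] using h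

theorem card_mul (d e : ℕ) : (d * e).divisors.card ≤ d.divisors.card * e.divisors.card := by
  rw [Nat.divisors_mul]
  exact Finset.card_mul_le

theorem anti_card (k : ℕ) : k.divisorsAntidiagonal.card = k.divisors.card := by
  rw [← Nat.map_div_right_divisors, Finset.card_map]

theorem log_div_le (x d : ℕ) : Real.log ((x / d : ℕ) : ℝ) ≤ Real.log x := by
  rcases Nat.eq_zero_or_pos (x / d) with h | h
  · rw [h]; simp; exact Real.log_natCast_nonneg x
  · apply Real.log_le_log (by exact_mod_cast h)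
    exact_mod_cast Nat.div_le_self x d

theorem sum_card (y : ℕ) : ∑ e ∈ Icc 1 y, (e.divisors.card : ℝ) ≤ y * (1 + Real.log y) := by
  have h := sum_anti (fun _ => 1) (fun _ => 1) y
  have h1 : ∀ k ∈ Icc 1 y, ∑ p ∈ k.divisorsAntidiagonal, ((1 : ℝ) * 1) = (k.divisors.card : ℝ) := by
    intro k _
    rw [Finset.sum_const, ← anti_card]
    simp
  rw [Finset.sum_congr rfl h1] at h
  rw [h]
  calc ∑ d ∈ Icc 1 y, ∑ e ∈ Icc 1 (y / d), (1 : ℝ) * 1
      ≤ ∑ d ∈ Icc 1 y, (y : ℝ) * (1 / d) := by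
        apply Finset.sum_le_sum
        intro d _
        simp only [mul_one, Finset.sum_const, Nat.card_Icc, Nat.add_sub_cancel, nsmul_eq_mul]
        rw [mul_one_div]
        exact Nat.cast_div_le
    _ = y * ∑ d ∈ Icc 1 y, (1 : ℝ) / d := by rw [Finset.mul_sum]
    _ ≤ y * (1 + Real.log y) := by
        apply mul_le_mul_of_nonneg_left (inv_sum_le y) (by positivity)

theorem sum_card_div (x : ℕ) : ∑ k ∈ Icc 1 x, (k.divisors.card : ℝ) * (1 / k)
    ≤ (1 + Real.log x) ^ 2 := by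
  have h := sum_anti (fun d => 1 / (d : ℝ)) (fun d => 1 / (d : ℝ)) x
  have h1 : ∀ k ∈ Icc 1 x, ∑ p ∈ k.divisorsAntidiagonal, ((1 : ℝ) / p.1 * (1 / p.2))
      = (k.divisors.card : ℝ) * (1 / k) := by
    intro k _
    rw [Finset.sum_congr rfl (g := fun _ => 1 / (k : ℝ))]
    · rw [Finset.sum_const, nsmul_eq_mul, anti_card]
    · intro p hp
      rw [Nat.mem_divisorsAntidiagonal] at hp
      rw [← hp.1]
      push_cast
      rw [one_div_mul_one_div]
  rw [Finset.sum_congr rfl h1] at h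
  rw [h, sq]
  have hl : 0 ≤ 1 + Real.log x := by have := Real.log_natCast_nonneg x; linarith
  calc ∑ d ∈ Icc 1 x, ∑ e ∈ Icc 1 (x / d), (1 : ℝ) / d * (1 / e)
      ≤ ∑ d ∈ Icc 1 x, (1 : ℝ) / d * (1 + Real.log x) := by
        apply Finset.sum_le_sum
        intro d hd
        rw [← Finset.mul_sum]
        apply mul_le_mul_of_nonneg_left _ (by positivity)
        refine (inv_sum_le (x / d)).trans ?_
        have := log_div_le x d
        linarith
    _ = (∑ d ∈ Icc 1 x, (1 : ℝ) / d) * (1 + Real.log x) := by rw [Finset.sum_mul]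
    _ ≤ (1 + Real.log x) * (1 + Real.log x) :=
        mul_le_mul_of_nonneg_right (inv_sum_le x) hl

theorem specDIVaux : ∀ x : ℕ, 1 ≤ x →
    ∑ k ∈ Icc 1 x, (k.divisors.card : ℝ) ^ 2 ≤ x * (1 + Real.log x) ^ 3 := by
  intro x _
  have hl : 0 ≤ 1 + Real.log x := by have := Real.log_natCast_nonneg x; linarith
  calc ∑ k ∈ Icc 1 x, (k.divisors.card : ℝ) ^ 2
      ≤ ∑ k ∈ Icc 1 x, ∑ p ∈ k.divisorsAntidiagonal,
          (p.1.divisors.card : ℝ) * (p.2.divisors.card : ℝ) := by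
        apply Finset.sum_le_sum
        intro k _
        have : ((k.divisors.card : ℝ)) ^ 2 = ∑ p ∈ k.divisorsAntidiagonal, (k.divisors.card : ℝ) := by
          rw [Finset.sum_const, nsmul_eq_mul, anti_card, sq]
        rw [this]
        apply Finset.sum_le_sum
        intro p hp
        rw [Nat.mem_divisorsAntidiagonal] at hp
        rw [← hp.1]
        exact_mod_cast card_mul p.1 p.2
    _ = ∑ d ∈ Icc 1 x, ∑ e ∈ Icc 1 (x / d), (d.divisors.card : ℝ) * (e.divisors.card : ℝ) :=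
        sum_anti (fun n => (n.divisors.card : ℝ)) (fun n => (n.divisors.card : ℝ)) x
    _ ≤ ∑ d ∈ Icc 1 x, (x * (1 + Real.log x)) * ((d.divisors.card : ℝ) * (1 / d)) := by
        apply Finset.sum_le_sum
        intro d hd
        rw [← Finset.mul_sum]
        have h1 := sum_card (x / d)
        have h2 := log_div_le x d
        have h3 : ((x / d : ℕ) : ℝ) ≤ x * (1 / d) := by rw [mul_one_div]; exact Nat.cast_div_le
        have h4 : ((x / d : ℕ) : ℝ) * (1 + Real.log ((x / d : ℕ) : ℝ))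
            ≤ (x * (1 / d)) * (1 + Real.log x) := by
          apply mul_le_mul h3 (by linarith)
          · have := Real.log_natCast_nonneg (x / d); linarith
          · positivity
        calc (d.divisors.card : ℝ) * ∑ e ∈ Icc 1 (x / d), (e.divisors.card : ℝ)
            ≤ (d.divisors.card : ℝ) * ((x * (1 / d)) * (1 + Real.log x)) :=
              mul_le_mul_of_nonneg_left (h1.trans h4) (by positivity)
          _ = _ := by ring
    _ = (x * (1 + Real.log x)) * ∑ d ∈ Icc 1 x, ((d.divisors.card : ℝ) * (1 / d)) := by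
        rw [Finset.mul_sum]
    _ ≤ (x * (1 + Real.log x)) * (1 + Real.log x) ^ 2 := by
        apply mul_le_mul_of_nonneg_left (sum_card_div x)
        positivity
    _ = x * (1 + Real.log x) ^ 3 := by ring

end DIVM

theorem specDIV : SpecDIV := DIVM.specDIVaux

end Pool.Agent.Lib.MP_d1f1b5_nt.TB
end

section
/-!
# Project TB, module ECD
-/
set_option autoImplicit false

namespace Pool.Agent.Lib.MP_d1f1b5_nt.TB

open Finset

namespace ECDM

theorem card_units (q l : ℕ) (hq : q.Prime) [hl : Fact l.Prime] (h : l % q = 1) :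
    (univ.filter (fun u : (ZMod l)ˣ => orderOf u = q)).card = q - 1 := by
  have hd : q ∣ Fintype.card (ZMod l)ˣ := by
    rw [ZMod.card_units]
    have h1 : l = q * (l / q) + 1 := by
      have := Nat.div_add_mod l q
      omega
    rw [h1, Nat.add_sub_cancel]
    exact dvd_mul_right _ _
  rw [IsCyclic.card_orderOf_eq_totient hd, Nat.totient_prime hq]

theorem card_ord (q l : ℕ) (hq : q.Prime) (hq2 : q ≠ 2) (hl : l.Prime) (h : l % q = 1) :
    ((range l).filter (fun r => r ≠ 1 ∧ r ^ q % l = 1)).card = q - 1 := by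
  have : Fact l.Prime := ⟨hl⟩
  have : NeZero l := ⟨hl.ne_zero⟩
  rw [← card_units q l hq h]
  symm
  have hl1 : 1 % l = 1 := Nat.mod_eq_of_lt hl.one_lt
  refine Finset.card_nbij (fun u : (ZMod l)ˣ => (u : ZMod l).val) ?_ ?_ ?_
  · intro u hu
    rw [Finset.mem_coe, Finset.mem_filter] at hu
    rw [Finset.mem_coe, Finset.mem_filter, Finset.mem_range]
    refine ⟨ZMod.val_lt _, ?_, ?_⟩
    · intro h1
      have h1' : (u : ZMod l).val = 1 := h1
      have h2 : (u : ZMod l) = 1 := by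
        rw [← ZMod.natCast_zmod_val (u : ZMod l), h1', Nat.cast_one]
      have h3 : u = 1 := Units.ext h2
      rw [h3, orderOf_one] at hu
      exact hq.one_lt.ne hu.2
    · have h1 : (((u : ZMod l).val ^ q : ℕ) : ZMod l) = ((1 : ℕ) : ZMod l) := by
        rw [Nat.cast_pow, ZMod.natCast_zmod_val, Nat.cast_one, ← Units.val_pow_eq_pow_val]
        have h2 := pow_orderOf_eq_one u
        rw [hu.2] at h2
        rw [h2, Units.val_one]
      rw [ZMod.natCast_eq_natCast_iff'] at h1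
      rw [h1, hl1]
  · intro u _ v _ huv
    exact Units.ext (ZMod.val_injective l huv)
  · intro r hr
    rw [Finset.mem_coe, Finset.mem_filter, Finset.mem_range] at hr
    obtain ⟨hr1, hr2, hr3⟩ := hr
    have h1 : (r : ZMod l) ^ q = 1 := by
      have : ((r ^ q : ℕ) : ZMod l) = ((1 : ℕ) : ZMod l) := by
        rw [ZMod.natCast_eq_natCast_iff', hr3, hl1]
      rw [Nat.cast_pow, Nat.cast_one] at this
      exact this
    refine ⟨Units.ofPowEqOne (r : ZMod l) q h1 hq.ne_zero, ?_, ?_⟩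
    · rw [Finset.mem_coe, Finset.mem_filter]
      refine ⟨Finset.mem_univ _, ?_⟩
      have : Fact q.Prime := ⟨hq⟩
      apply orderOf_eq_prime
      · exact Units.pow_ofPowEqOne h1 hq.ne_zero
      · intro h2
        have h3 : (r : ZMod l) = 1 := congrArg Units.val h2
        have h4 : ((r : ℕ) : ZMod l) = ((1 : ℕ) : ZMod l) := by rw [h3, Nat.cast_one]
        rw [ZMod.natCast_eq_natCast_iff', Nat.mod_eq_of_lt hr1, hl1] at h4
        exact hr2 h4
    · change ((r : ZMod l)).val = r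
      exact ZMod.val_natCast_of_lt hr1

theorem card_EE (q l : ℕ) (hq : q.Prime) (hq2 : q ≠ 2) (hl : l.Prime) :
    (EE q l).card = if l % q = 1 then q else 1 := by
  split_ifs with h
  · have hd : EE q l = insert 0 ((range l).filter (fun r => r ≠ 1 ∧ r ^ q % l = 1)) := by
      ext r
      simp only [EE, Finset.mem_filter, Finset.mem_range, Finset.mem_insert]
      constructor
      · rintro ⟨h1, h2 | ⟨-, h3, h4⟩⟩
        · exact Or.inl h2
        · exact Or.inr ⟨h1, h3, h4⟩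
      · rintro (h1 | ⟨h1, h2, h3⟩)
        · rw [h1]
          exact ⟨hl.pos, Or.inl rfl⟩
        · exact ⟨h1, Or.inr ⟨h, h2, h3⟩⟩
    rw [hd, Finset.card_insert_of_notMem, card_ord q l hq hq2 hl h]
    · have := hq.one_lt
      omega
    · rw [Finset.mem_filter]
      rintro ⟨-, -, h2⟩
      rw [zero_pow hq.ne_zero, Nat.zero_mod] at h2
      exact zero_ne_one h2
  · have hd : EE q l = {0} := by
      ext r
      simp only [EE, Finset.mem_filter, Finset.mem_range, Finset.mem_singleton]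
      constructor
      · rintro ⟨-, h2 | ⟨h3, -⟩⟩
        · exact h2
        · exact absurd h3 h
      · intro h1
        rw [h1]
        exact ⟨hl.pos, Or.inl rfl⟩
    rw [hd, Finset.card_singleton]

end ECDM

theorem specECD : SpecECD := by
  intro q l a hq hq2 hl hlq
  rw [← ECDM.card_EE q l hq hq2 hl]
  have : Fact l.Prime := ⟨hl⟩
  have : NeZero l := ⟨hl.ne_zero⟩
  have hq0 : ((q ^ 2 : ℕ) : ZMod l) ≠ 0 := by
    rw [Ne, ZMod.natCast_eq_zero_iff]
    intro h
    have := (Nat.prime_dvd_prime_iff_eq hl hq).1 (hl.dvd_of_dvd_pow h)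
    exact hlq this
  refine Finset.card_nbij (fun m => (a + q ^ 2 * m) % l) ?_ ?_ ?_
  · intro m hm
    rw [Finset.mem_coe, Finset.mem_filter] at hm
    exact hm.2
  · intro m hm m' hm' h
    rw [Finset.mem_coe, Finset.mem_filter, Finset.mem_range] at hm hm'
    have h1 : ((a + q ^ 2 * m : ℕ) : ZMod l) = ((a + q ^ 2 * m' : ℕ) : ZMod l) :=
      (ZMod.natCast_eq_natCast_iff' _ _ _).2 h
    push_cast at h1
    have h2 : ((q ^ 2 : ℕ) : ZMod l) * (m : ZMod l) = ((q ^ 2 : ℕ) : ZMod l) * (m' : ZMod l) := by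
      push_cast
      exact add_left_cancel h1
    have h3 := mul_left_cancel₀ hq0 h2
    rw [ZMod.natCast_eq_natCast_iff', Nat.mod_eq_of_lt hm.1, Nat.mod_eq_of_lt hm'.1] at h3
    exact h3
  · intro r hr
    have hr' : r ∈ EE q l := hr
    have hrl : r < l := by
      have := (Finset.mem_filter.1 hr').1
      rwa [Finset.mem_range] at this
    set z : ZMod l := ((r : ZMod l) - (a : ZMod l)) * (((q ^ 2 : ℕ) : ZMod l))⁻¹ with hz
    have h1 : (a + q ^ 2 * z.val) % l = r := by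
      have h2 : ((a + q ^ 2 * z.val : ℕ) : ZMod l) = ((r : ℕ) : ZMod l) := by
        rw [Nat.cast_add, Nat.cast_mul, ZMod.natCast_zmod_val, hz]
        rw [mul_comm (((r : ZMod l) - (a : ZMod l))) _, ← mul_assoc, mul_inv_cancel₀ hq0, one_mul]
        ring
      rw [ZMod.natCast_eq_natCast_iff', Nat.mod_eq_of_lt hrl] at h2
      exact h2
    refine ⟨z.val, ?_, h1⟩
    rw [Finset.mem_coe, Finset.mem_filter, Finset.mem_range]
    refine ⟨ZMod.val_lt z, ?_⟩
    rw [h1]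
    exact hr'

end Pool.Agent.Lib.MP_d1f1b5_nt.TB
end

section
set_option autoImplicit false

namespace Pool.Agent.Lib.MP_d1f1b5_nt.TB

open Finset Filter Topology
open scoped Classical

namespace FINM

/-- `X^a ≤ κ X / log X` for large `X`, `a < 1` -/
theorem rpow_small (a κ : ℝ) (ha : a < 1) (hκ : 0 < κ) : ∃ X₀ : ℕ, ∀ X : ℕ, X₀ ≤ X →
    (X : ℝ) ^ a ≤ κ * X / Real.log X := by
  have h1 : Tendsto (fun x : ℝ => Real.log x / x ^ (1 - a)) atTop (𝓝 0) :=
    (isLittleO_log_rpow_atTop (by linarith)).tendsto_div_nhds_zero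
  have h2 : ∀ᶠ x : ℝ in atTop, Real.log x / x ^ (1 - a) < κ :=
    h1.eventually (gt_mem_nhds hκ)
  obtain ⟨x₀, hx₀⟩ := (eventually_atTop.mp h2)
  refine ⟨max 2 ⌈x₀⌉₊, fun X hX => ?_⟩
  have hX2 : (2 : ℝ) ≤ X := by exact_mod_cast (le_max_left _ _).trans hX
  have hX0 : x₀ ≤ X := (Nat.le_ceil x₀).trans (by exact_mod_cast (le_max_right _ _).trans hX)
  have h3 := (hx₀ X hX0).le
  have hlog : 0 < Real.log (X : ℝ) := Real.log_pos (by linarith)
  have hXp : (0 : ℝ) < X := by linarith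
  rw [div_le_iff₀ (by positivity)] at h3
  rw [le_div_iff₀ hlog]
  calc (X : ℝ) ^ a * Real.log X ≤ (X : ℝ) ^ a * (κ * (X : ℝ) ^ (1 - a)) :=
        mul_le_mul_of_nonneg_left h3 (by positivity)
    _ = κ * ((X : ℝ) ^ a * (X : ℝ) ^ (1 - a)) := by ring
    _ = κ * X := by
        rw [← Real.rpow_add hXp]
        congr 1
        have : a + (1 - a) = 1 := by ring
        rw [this, Real.rpow_one]

end FINM

theorem specFIN (hSUM : SpecSUM) (hFXQ : SpecFXQ) (hSIZ : SpecSIZ) (hCHB : SpecCHB) : SpecFIN := by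
  refine ⟨fun ε hε hε1 => ?_, hFXQ⟩
  obtain ⟨C, δ₁, hC, hδ₁, hδ₁', h⟩ := hSUM ε hε hε1
  obtain ⟨C₂, hC₂, -, hch⟩ := hCHB
  refine ⟨C + 1 + C₂ / δ₁, by positivity, fun δ hδ hδ1 => ?_⟩
  by_cases hδδ : δ ≤ δ₁
  · obtain ⟨X₀, hX₀⟩ := h δ hδ hδδ
    have hκ : 0 < δ ^ (1 - ε) := Real.rpow_pos_of_pos hδ _
    obtain ⟨X₁, hX₁⟩ := FINM.rpow_small δ (δ ^ (1 - ε)) (by linarith) hκ
    refine ⟨max 3 (max X₀ X₁), fun X hX => ?_⟩
    have hX3 : 3 ≤ X := (le_max_left _ _).trans hX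
    have hX0 : X₀ ≤ X := ((le_max_left _ _).trans (le_max_right _ _)).trans hX
    have hX1 : X₁ ≤ X := ((le_max_right _ _).trans (le_max_right _ _)).trans hX
    have hXR : (3 : ℝ) ≤ X := by exact_mod_cast hX3
    have hlog : 0 < Real.log (X : ℝ) := Real.log_pos (by linarith)
    set Q : Finset ℕ := (Icc 1 ⌊(X : ℝ) ^ δ⌋₊).filter (fun q => q.Prime ∧ q ≠ 2) with hQ
    have hsub : (Icc 1 X).filter (fun p => p.Prime ∧ p ≠ 2 ∧ ∃ q : ℕ, q.Prime ∧ q ≠ 2 ∧ q ≠ p ∧
        (q : ℝ) ≤ (X : ℝ) ^ δ ∧ (Bad p q ∨ Bad q p))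
        ⊆ Icc 1 ⌊(X : ℝ) ^ δ⌋₊ ∪ Q.biUnion (fun q => Bq q X) := by
      intro p hp
      rw [Finset.mem_filter, Finset.mem_Icc] at hp
      obtain ⟨⟨hp1, hpX⟩, hpp, hp2, q, hq, hq2, hqp, hqX, hB⟩ := hp
      rw [Finset.mem_union]
      by_cases hpd : (p : ℝ) ≤ (X : ℝ) ^ δ
      · left
        rw [Finset.mem_Icc]
        exact ⟨hp1, Nat.le_floor hpd⟩
      · right
        push Not at hpd
        have hqlt : q < p := by
          have : (q : ℝ) < p := lt_of_le_of_lt hqX hpd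
          exact_mod_cast this
        have hq3 : 3 ≤ q := by
          have := hq.two_le
          omega
        have hB' : Bad p q := by
          rcases hB with hB | hB
          · exact hB
          · exact absurd hB (hSIZ p q hpp hq hq3 hqlt)
        rw [Finset.mem_biUnion]
        refine ⟨q, ?_, ?_⟩
        · rw [hQ, Finset.mem_filter, Finset.mem_Icc]
          exact ⟨⟨hq.one_lt.le, Nat.le_floor hqX⟩, hq, hq2⟩
        · unfold Bq
          rw [Finset.mem_filter, Finset.mem_Icc]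
          exact ⟨⟨hp1, hpX⟩, hpp, hp2, fun e => hqp e.symm, hB'⟩
    have h1 := (Finset.card_le_card hsub).trans (Finset.card_union_le _ _)
    have h2 : (Q.biUnion (fun q => Bq q X)).card ≤ ∑ q ∈ Q, (Bq q X).card := Finset.card_biUnion_le
    have h3 : ((Icc 1 ⌊(X : ℝ) ^ δ⌋₊).card : ℝ) ≤ (X : ℝ) ^ δ := by
      rw [Nat.card_Icc]
      simp only [Nat.add_sub_cancel]
      exact Nat.floor_le (by positivity)
    have h4 := hX₀ X hX0
    have h5 := hX₁ X hX1
    have h6 : (((Q.biUnion (fun q => Bq q X)).card : ℕ) : ℝ) ≤ ∑ q ∈ Q, ((Bq q X).card : ℝ) := by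
      exact_mod_cast h2
    have h7 : ((((Icc 1 X).filter (fun p => p.Prime ∧ p ≠ 2 ∧ ∃ q : ℕ, q.Prime ∧ q ≠ 2 ∧ q ≠ p ∧
        (q : ℝ) ≤ (X : ℝ) ^ δ ∧ (Bad p q ∨ Bad q p))).card : ℕ) : ℝ)
        ≤ ((Icc 1 ⌊(X : ℝ) ^ δ⌋₊).card : ℝ) + ((Q.biUnion (fun q => Bq q X)).card : ℝ) := by
      exact_mod_cast h1
    have h8 : 0 ≤ C₂ / δ₁ * δ ^ (1 - ε) * X / Real.log X := by positivity
    calc _ ≤ _ := h7
      _ ≤ δ ^ (1 - ε) * X / Real.log X + C * δ ^ (1 - ε) * X / Real.log X := by linarith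
      _ ≤ δ ^ (1 - ε) * X / Real.log X + C * δ ^ (1 - ε) * X / Real.log X
          + C₂ / δ₁ * δ ^ (1 - ε) * X / Real.log X := by linarith
      _ = (C + 1 + C₂ / δ₁) * δ ^ (1 - ε) * X / Real.log X := by ring
  · push Not at hδδ
    refine ⟨3, fun X hX3 => ?_⟩
    have hXR : (3 : ℝ) ≤ X := by exact_mod_cast hX3
    have hlog : 0 < Real.log (X : ℝ) := Real.log_pos (by linarith)
    have h1 := hch X (by omega)
    have h2 : ((Icc 1 X).filter (fun p => p.Prime ∧ p ≠ 2 ∧ ∃ q : ℕ, q.Prime ∧ q ≠ 2 ∧ q ≠ p ∧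
        (q : ℝ) ≤ (X : ℝ) ^ δ ∧ (Bad p q ∨ Bad q p))).card ≤ ((Icc 1 X).filter Nat.Prime).card := by
      apply Finset.card_le_card
      intro p hp
      rw [Finset.mem_filter] at hp ⊢
      exact ⟨hp.1, hp.2.1⟩
    have h3 : δ₁ ≤ δ ^ (1 - ε) := by
      calc δ₁ ≤ δ := hδδ.le
        _ = δ ^ (1 : ℝ) := (Real.rpow_one δ).symm
        _ ≤ δ ^ (1 - ε) := Real.rpow_le_rpow_of_exponent_ge hδ hδ1 (by linarith)
    have h4 : C₂ ≤ (C + 1 + C₂ / δ₁) * δ ^ (1 - ε) := by
      have h5 : C₂ = C₂ / δ₁ * δ₁ := by field_simp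
      have h6 : C₂ / δ₁ * δ₁ ≤ C₂ / δ₁ * δ ^ (1 - ε) :=
        mul_le_mul_of_nonneg_left h3 (by positivity)
      have h7 : 0 ≤ (C + 1) * δ ^ (1 - ε) := by positivity
      linarith
    calc _ ≤ (((Icc 1 X).filter Nat.Prime).card : ℝ) := by exact_mod_cast h2
      _ ≤ C₂ * X / Real.log X := h1
      _ ≤ (C + 1 + C₂ / δ₁) * δ ^ (1 - ε) * X / Real.log X := by
        apply div_le_div_of_nonneg_right _ hlog.le
        exact mul_le_mul_of_nonneg_right h4 (by positivity)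

end Pool.Agent.Lib.MP_d1f1b5_nt.TB
end

section
/-!
# Module FXQ of the project TB: a fixed prime `q`
-/
set_option autoImplicit false

namespace Pool.Agent.Lib.MP_d1f1b5_nt.TB

open Finset Filter Topology
open scoped Classical

noncomputable section

theorem specFXQ (hBQ : SpecBQ) (hBTS : SpecBTS) (hMER : SpecMER) : SpecFXQ := by
  intro q ε hqp hq2 hε0 hε1
  obtain ⟨CB, hCB, HB⟩ := hBQ
  obtain ⟨C₁, hC₁, HT⟩ := hBTS
  obtain ⟨CM, HM⟩ := hMER q (ε / 2) hqp hq2 (by linarith) (by linarith)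
  have hden : (0 : ℝ) < 12 * C₁ + 12 := by linarith
  have hθ0 : (0 : ℝ) < 1 / (12 * C₁ + 12) := by positivity
  set θ : ℝ := 1 / (12 * C₁ + 12) with hθdef
  set K : ℝ := CB * Real.exp CM * (θ⁻¹) ^ (1 - ε / 2) with hK
  have hK0 : 0 ≤ K := by positivity
  have hlogt : Tendsto (fun X : ℕ => Real.log (X : ℝ)) atTop atTop :=
    Real.tendsto_log_atTop.comp tendsto_natCast_atTop_atTop
  -- three conditions
  have ev1 : ∀ᶠ X : ℕ in atTop, K * (Real.log (X : ℝ)) ^ (-(ε / 2)) < 1 / 2 := by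
    have h1 : Tendsto (fun X : ℕ => K * (Real.log (X : ℝ)) ^ (-(ε / 2))) atTop (𝓝 (K * 0)) :=
      ((tendsto_rpow_neg_atTop (by linarith : 0 < ε / 2)).comp hlogt).const_mul K
    rw [mul_zero] at h1
    exact h1.eventually_lt_const (by norm_num)
  have ev2 : ∀ᶠ X : ℕ in atTop, (Real.log (X : ℝ)) ^ (2 - ε) ≤ 1 / 2 * √(X : ℝ) := by
    have h1 := (isLittleO_log_rpow_rpow_atTop (2 - ε) (by norm_num : (0 : ℝ) < 1 / 2)).def
      (by norm_num : (0 : ℝ) < 1 / 2)
    have h2 := tendsto_natCast_atTop_atTop (R := ℝ) |>.eventually h1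
    filter_upwards [h2, eventually_ge_atTop 1] with X hX hX1
    have hX1' : (1 : ℝ) ≤ X := by exact_mod_cast hX1
    rw [Real.norm_of_nonneg (Real.rpow_nonneg (Real.log_nonneg hX1') _),
      Real.norm_of_nonneg (Real.rpow_nonneg (by linarith) _)] at hX
    rw [Real.sqrt_eq_rpow]
    exact hX
  have ev3 : ∀ᶠ X : ℕ in atTop, Real.log 3 / θ ≤ Real.log (X : ℝ) :=
    hlogt.eventually_ge_atTop _
  have ev4 : ∀ᶠ X : ℕ in atTop, (1 : ℝ) ≤ Real.log (X : ℝ) := hlogt.eventually_ge_atTop _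
  have hall := ((ev1.and ev2).and (ev3.and ev4)).and (eventually_ge_atTop (q ^ 10 + 1))
  obtain ⟨X₀, hX₀⟩ := eventually_atTop.1 hall
  refine ⟨X₀, fun X hX => ?_⟩
  obtain ⟨⟨⟨e1, e2⟩, e3, e4⟩, e5⟩ := hX₀ X hX
  have hX1 : (1 : ℝ) ≤ X := by
    have : 1 ≤ X := by omega
    exact_mod_cast this
  have hXpos : (0 : ℝ) < X := by linarith
  set L := Real.log (X : ℝ) with hL
  have hL0 : 0 < L := by linarith
  set z : ℝ := (X : ℝ) ^ θ with hz
  have hlogz : Real.log z = θ * L := by rw [hz, Real.log_rpow hXpos]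
  have hz0 : 0 < z := Real.rpow_pos_of_pos hXpos _
  have hz3 : (3 : ℝ) ≤ z := by
    rw [← Real.log_le_log_iff (by norm_num) hz0, hlogz]
    rw [div_le_iff₀ hθ0] at e3
    linarith
  have hS : ∀ l ∈ P1 q ((q : ℝ) ^ 2) z, l.Prime ∧ l % q = 1 ∧ (l : ℝ) ≤ z := by
    intro l hl
    have h1 := Finset.mem_filter.mp hl
    refine ⟨h1.2.1, h1.2.2.1, ?_⟩
    exact (Nat.le_floor_iff (by linarith)).mp (Finset.mem_Icc.mp h1.1).2
  have hBz : (12 * C₁ + 12) * Real.log z ≤ Real.log X := by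
    rw [hlogz, hθdef, ← mul_assoc, mul_one_div_cancel hden.ne', one_mul]
  have hmain := HB q X C₁ z (P1 q ((q : ℝ) ^ 2) z) hqp hq2 (by omega) hC₁ (by linarith) hS
    (HT q z hqp (by linarith)) hBz
  have hlow := HM z hz3
  have hlz : 0 < Real.log z := Real.log_pos (by linarith)
  have hexp : Real.exp (-∑ l ∈ P1 q ((q : ℝ) ^ 2) z, ((q : ℝ) - 1) / l) ≤
      Real.exp CM * (Real.log z) ^ (-(1 - ε / 2)) := by
    rw [Real.rpow_def_of_pos hlz, ← Real.exp_add]
    apply Real.exp_le_exp.2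
    linarith
  have hzL : (Real.log z) ^ (-(1 - ε / 2)) = (θ⁻¹) ^ (1 - ε / 2) * L ^ (-(1 - ε / 2)) := by
    rw [hlogz, Real.mul_rpow hθ0.le hL0.le]
    congr 1
    rw [Real.rpow_neg hθ0.le, Real.inv_rpow hθ0.le]
  have hq1 : (1 : ℝ) ≤ q := by exact_mod_cast hqp.one_le
  have h1 : CB * X / (q * Real.log X) *
      Real.exp (-∑ l ∈ P1 q ((q : ℝ) ^ 2) z, ((q : ℝ) - 1) / l) ≤
      X / L * (K * L ^ (-(1 - ε / 2))) := by
    calc CB * X / (q * Real.log X) *
        Real.exp (-∑ l ∈ P1 q ((q : ℝ) ^ 2) z, ((q : ℝ) - 1) / l)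
        ≤ CB * X / (1 * L) * (Real.exp CM * (Real.log z) ^ (-(1 - ε / 2))) := by
          gcongr
      _ = _ := by rw [hzL, hK]; ring
  have h2 : X / L * (K * L ^ (-(1 - ε / 2))) =
      (X / L ^ (2 - ε)) * (K * L ^ (-(ε / 2))) := by
    have h3 : L ^ (2 - ε) ≠ 0 := (Real.rpow_pos_of_pos hL0 _).ne'
    have h4 : L ^ (-(1 - ε / 2)) * L ^ (2 - ε) = L * L ^ (-(ε / 2)) := by
      rw [← Real.rpow_add hL0]
      nth_rewrite 2 [← Real.rpow_one L]
      rw [← Real.rpow_add hL0]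
      congr 1
      ring
    rw [div_mul_eq_mul_div, div_mul_eq_mul_div, div_eq_div_iff hL0.ne' h3]
    linear_combination (X : ℝ) * K * h4
  have hP : 0 < L ^ (2 - ε) := Real.rpow_pos_of_pos hL0 _
  have h3 : (X / L ^ (2 - ε)) * (K * L ^ (-(ε / 2))) ≤ (X / L ^ (2 - ε)) * (1 / 2) :=
    mul_le_mul_of_nonneg_left e1.le (by positivity)
  have h4 : √(X : ℝ) ≤ (X / L ^ (2 - ε)) * (1 / 2) := by
    rw [div_mul_eq_mul_div, le_div_iff₀ hP]
    calc √(X : ℝ) * L ^ (2 - ε) ≤ √(X : ℝ) * (1 / 2 * √(X : ℝ)) :=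
          mul_le_mul_of_nonneg_left e2 (Real.sqrt_nonneg _)
      _ = √(X : ℝ) * √(X : ℝ) * (1 / 2) := by ring
      _ = X * (1 / 2) := by rw [Real.mul_self_sqrt hXpos.le]
  calc ((Bq q X).card : ℝ) ≤ _ := hmain
    _ ≤ X / L * (K * L ^ (-(1 - ε / 2))) + √(X : ℝ) := by linarith [h1]
    _ ≤ (X / L ^ (2 - ε)) * (1 / 2) + (X / L ^ (2 - ε)) * (1 / 2) := by
        rw [h2]
        linarith [h3, h4]
    _ = _ := by ring

end

end Pool.Agent.Lib.MP_d1f1b5_nt.TB
end

section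
/-!
# MP_d1f1b5_nt, TB, module GLB: lower bound for the sieve sum
-/
set_option autoImplicit false

namespace Pool.Agent.Lib.MP_d1f1b5_nt.TB

open Finset Filter Topology
open scoped Classical

namespace GLBM

theorem totient_real (n : ℕ) :
    (n.totient : ℝ) = n * ∏ p ∈ n.primeFactors, (1 - 1 / (p : ℝ)) := by
  have h := Nat.totient_eq_mul_prod_factors n
  have h2 : ((n.totient : ℚ) : ℝ) = ((n * ∏ p ∈ n.primeFactors, (1 - (p : ℚ)⁻¹) : ℚ) : ℝ) := by
    rw [h]
  push_cast at h2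
  simpa only [one_div] using h2

theorem inv_totient {b : ℕ} (hb : Squarefree b) :
    1 / (b.totient : ℝ) = ∏ l ∈ b.primeFactors, 1 / ((l : ℝ) - 1) := by
  have h1 : (b : ℝ) = ∏ l ∈ b.primeFactors, (l : ℝ) := by
    have h := congrArg (fun n : ℕ => (n : ℝ)) (Nat.prod_primeFactors_of_squarefree hb)
    simp only [Nat.cast_prod] at h
    exact h.symm
  have h2 : (b.totient : ℝ) = ∏ l ∈ b.primeFactors, ((l : ℝ) - 1) := by
    calc (b.totient : ℝ) = (b : ℝ) * ∏ p ∈ b.primeFactors, (1 - 1 / (p : ℝ)) := totient_real b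
      _ = (∏ l ∈ b.primeFactors, (l : ℝ)) * ∏ p ∈ b.primeFactors, (1 - 1 / (p : ℝ)) := by
          rw [← h1]
      _ = ∏ l ∈ b.primeFactors, ((l : ℝ) * (1 - 1 / (l : ℝ))) := by
          rw [Finset.prod_mul_distrib]
      _ = ∏ l ∈ b.primeFactors, ((l : ℝ) - 1) := by
          refine Finset.prod_congr rfl fun l hl => ?_
          have hl0 : (l : ℝ) ≠ 0 := by
            have := (Nat.prime_of_mem_primeFactors hl).pos
            positivity
          field_simp
  rw [h2, one_div, ← Finset.prod_inv_distrib]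
  refine Finset.prod_congr rfl fun l _ => ?_
  rw [one_div]

theorem sqf_prod {T : Finset ℕ} (hT : ∀ l ∈ T, l.Prime) : Squarefree (∏ l ∈ T, l) := by
  refine Finset.squarefree_prod_of_pairwise_isCoprime ?_ fun l hl => (hT l hl).squarefree
  intro a ha b hb hab
  show IsRelPrime a b
  rw [← Nat.coprime_iff_isRelPrime]
  exact (Nat.coprime_primes (hT a ha) (hT b hb)).2 hab

end GLBM

open GLBM in
theorem specGLB (hSEL : SpecSEL) : SpecGLB := by
  intro q D S P g h hq hD hP hS hg hh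
  have hD0 : (1 : ℝ) ≤ D := by exact_mod_cast hD
  -- (1)
  have key1 : ∀ d ∈ (Icc 1 (D ^ 2)).filter (fun d => Squarefree d ∧ d.primeFactors ⊆ P),
      ∑ T ∈ (S.powerset.filter (fun T => ((∏ l ∈ T, l : ℕ) : ℝ) ≤ D)).filter
          (fun T => T ⊆ d.primeFactors),
        (∏ l ∈ T, h l) * ∏ l ∈ d.primeFactors \ T, 1 / ((l : ℝ) - 1)
      ≤ ∏ l ∈ d.primeFactors, g l := by
    intro d hd
    rw [Finset.mem_filter] at hd
    obtain ⟨-, -, hdP⟩ := hd
    have hpos : ∀ l ∈ d.primeFactors, 0 ≤ 1 / ((l : ℝ) - 1) := by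
      intro l hl
      have h2 : (2 : ℝ) ≤ l := by exact_mod_cast (Nat.prime_of_mem_primeFactors hl).two_le
      exact div_nonneg zero_le_one (by linarith)
    have hn : ∀ l, 0 ≤ (if l ∈ S then h l else 0) := by
      intro l
      split_ifs with hl
      · exact (hh l hl).1
      · exact le_rfl
    calc ∑ T ∈ (S.powerset.filter (fun T => ((∏ l ∈ T, l : ℕ) : ℝ) ≤ D)).filter
          (fun T => T ⊆ d.primeFactors),
          (∏ l ∈ T, h l) * ∏ l ∈ d.primeFactors \ T, 1 / ((l : ℝ) - 1)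
        = ∑ T ∈ (S.powerset.filter (fun T => ((∏ l ∈ T, l : ℕ) : ℝ) ≤ D)).filter
          (fun T => T ⊆ d.primeFactors),
          (∏ l ∈ T, (if l ∈ S then h l else 0)) *
            ∏ l ∈ d.primeFactors \ T, 1 / ((l : ℝ) - 1) := by
          refine Finset.sum_congr rfl fun T hT => ?_
          rw [Finset.mem_filter, Finset.mem_filter, Finset.mem_powerset] at hT
          congr 1
          refine Finset.prod_congr rfl fun l hl => ?_
          rw [if_pos (hT.1.1 hl)]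
      _ ≤ ∑ T ∈ d.primeFactors.powerset,
          (∏ l ∈ T, (if l ∈ S then h l else 0)) *
            ∏ l ∈ d.primeFactors \ T, 1 / ((l : ℝ) - 1) := by
          refine Finset.sum_le_sum_of_subset_of_nonneg ?_ ?_
          · intro T hT
            rw [Finset.mem_filter] at hT
            exact Finset.mem_powerset.2 hT.2
          · intro T _ _
            exact mul_nonneg (Finset.prod_nonneg fun l _ => hn l)
              (Finset.prod_nonneg fun l hl => hpos l (Finset.mem_sdiff.1 hl).1)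
      _ = ∏ l ∈ d.primeFactors, ((if l ∈ S then h l else 0) + 1 / ((l : ℝ) - 1)) := by
          rw [Finset.prod_add]
      _ ≤ ∏ l ∈ d.primeFactors, g l := by
          refine Finset.prod_le_prod (fun l hl => add_nonneg (hn l) (hpos l hl)) fun l hl => ?_
          split_ifs with hlS
          · linarith [(hh l hlS).2]
          · linarith [hg l (hdP hl)]
  -- (3)
  have key3 : ∀ T ∈ S.powerset.filter (fun T => ((∏ l ∈ T, l : ℕ) : ℝ) ≤ D),
      (1 - 1 / (q : ℝ)) * Real.log D * ∏ l ∈ T, (h l * (1 - 1 / (l : ℝ))) ≤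
      ∑ d ∈ ((Icc 1 (D ^ 2)).filter (fun d => Squarefree d ∧ d.primeFactors ⊆ P)).filter
          (fun d => T ⊆ d.primeFactors),
        (∏ l ∈ T, h l) * ∏ l ∈ d.primeFactors \ T, 1 / ((l : ℝ) - 1) := by
    intro T hT
    rw [Finset.mem_filter, Finset.mem_powerset] at hT
    obtain ⟨hTS, hTD⟩ := hT
    have hTp : ∀ l ∈ T, l.Prime := fun l hl => (hS l (hTS hl)).1
    have ht0 : 0 < ∏ l ∈ T, l := Finset.prod_pos fun l hl => (hTp l hl).pos
    have htD : ∏ l ∈ T, l ≤ D := by exact_mod_cast hTD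
    have htf : (∏ l ∈ T, l).primeFactors = T := Nat.primeFactors_prod hTp
    have hts : Squarefree (∏ l ∈ T, l) := sqf_prod hTp
    have hqt : Nat.Coprime q (∏ l ∈ T, l) := by
      refine Nat.Coprime.prod_right fun l hl => ?_
      exact (Nat.coprime_primes hq (hTp l hl)).2 (hS l (hTS hl)).2.symm
    have hqT : q ∉ T := fun hqT => (hS q (hTS hqT)).2 rfl
    generalize hteq : ∏ l ∈ T, l = t at ht0 htD htf hts hqt
    have hm1 : 1 ≤ q * t := Nat.mul_pos hq.pos ht0
    have hsel := hSEL (q * t) D hm1 hD0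
    rw [Nat.floor_natCast] at hsel
    have hphi : (((q * t).totient : ℝ) / ((q * t : ℕ) : ℝ)) =
        (1 - 1 / (q : ℝ)) * ∏ l ∈ T, (1 - 1 / (l : ℝ)) := by
      have h1 : (((q * t : ℕ)) : ℝ) ≠ 0 := by
        have : 0 < q * t := hm1
        positivity
      rw [totient_real, mul_div_cancel_left₀ _ h1, hqt.primeFactors_mul, hq.primeFactors, htf,
        Finset.prod_union (Finset.disjoint_singleton_left.2 hqT), Finset.prod_singleton]
    rw [hphi] at hsel
    have hh0 : 0 ≤ ∏ l ∈ T, h l := Finset.prod_nonneg fun l hl => (hh l (hTS hl)).1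
    calc (1 - 1 / (q : ℝ)) * Real.log D * ∏ l ∈ T, (h l * (1 - 1 / (l : ℝ)))
        = (∏ l ∈ T, h l) *
          ((1 - 1 / (q : ℝ)) * (∏ l ∈ T, (1 - 1 / (l : ℝ))) * Real.log D) := by
          rw [Finset.prod_mul_distrib]
          ring
      _ ≤ (∏ l ∈ T, h l) * ∑ b ∈ (Icc 1 D).filter
          (fun b => Squarefree b ∧ Nat.Coprime b (q * t)), 1 / (b.totient : ℝ) :=
          mul_le_mul_of_nonneg_left hsel hh0
      _ = ∑ b ∈ (Icc 1 D).filter (fun b => Squarefree b ∧ Nat.Coprime b (q * t)),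
          (∏ l ∈ T, h l) * ∏ l ∈ (b * t).primeFactors \ T, 1 / ((l : ℝ) - 1) := by
          rw [Finset.mul_sum]
          refine Finset.sum_congr rfl fun b hb => ?_
          rw [Finset.mem_filter] at hb
          obtain ⟨-, hbs, hbc⟩ := hb
          have hbt : Nat.Coprime b t := Nat.Coprime.coprime_mul_left_right hbc
          rw [inv_totient hbs, hbt.primeFactors_mul, htf, Finset.union_sdiff_right]
          have hdis : Disjoint b.primeFactors T := by
            rw [← htf]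
            exact hbt.disjoint_primeFactors
          rw [Finset.sdiff_eq_self_of_disjoint hdis]
      _ = ∑ d ∈ ((Icc 1 D).filter (fun b => Squarefree b ∧ Nat.Coprime b (q * t))).image
            (fun b => b * t),
          (∏ l ∈ T, h l) * ∏ l ∈ d.primeFactors \ T, 1 / ((l : ℝ) - 1) := by
          rw [Finset.sum_image]
          intro b _ b' _ hbb
          exact Nat.eq_of_mul_eq_mul_right ht0 hbb
      _ ≤ ∑ d ∈ ((Icc 1 (D ^ 2)).filter (fun d => Squarefree d ∧ d.primeFactors ⊆ P)).filter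
          (fun d => T ⊆ d.primeFactors),
          (∏ l ∈ T, h l) * ∏ l ∈ d.primeFactors \ T, 1 / ((l : ℝ) - 1) := by
          refine Finset.sum_le_sum_of_subset_of_nonneg ?_ ?_
          · intro d hd
            rw [Finset.mem_image] at hd
            obtain ⟨b, hb, rfl⟩ := hd
            rw [Finset.mem_filter, Finset.mem_Icc] at hb
            obtain ⟨⟨hb1, hbD⟩, hbs, hbc⟩ := hb
            have hbt : Nat.Coprime b t := Nat.Coprime.coprime_mul_left_right hbc
            have hbq : Nat.Coprime b q := Nat.Coprime.coprime_mul_right_right hbc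
            have hle : b * t ≤ D ^ 2 := by
              rw [sq]
              exact Nat.mul_le_mul hbD htD
            have hbt0 : 0 < b * t := Nat.mul_pos hb1 ht0
            rw [Finset.mem_filter, Finset.mem_filter, Finset.mem_Icc]
            refine ⟨⟨⟨hbt0, hle⟩, (Nat.squarefree_mul hbt).2 ⟨hbs, hts⟩, ?_⟩, ?_⟩
            · intro l hl
              have hlp := Nat.prime_of_mem_primeFactors hl
              rw [hP]
              refine ⟨hlp, (Nat.le_of_mem_primeFactors hl).trans hle, ?_⟩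
              rintro rfl
              rw [hbt.primeFactors_mul, Finset.mem_union, htf] at hl
              rcases hl with hl | hl
              · exact (hlp.coprime_iff_not_dvd.1 hbq.symm) (Nat.dvd_of_mem_primeFactors hl)
              · exact hqT hl
            · rw [hbt.primeFactors_mul, htf]
              exact Finset.subset_union_right
          · intro d _ _
            refine mul_nonneg hh0 (Finset.prod_nonneg fun l hl => ?_)
            have h2 : (2 : ℝ) ≤ l := by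
              exact_mod_cast (Nat.prime_of_mem_primeFactors (Finset.mem_sdiff.1 hl).1).two_le
            exact div_nonneg zero_le_one (by linarith)
  calc (1 - 1 / (q : ℝ)) * Real.log D *
      ∑ T ∈ S.powerset.filter (fun T => ((∏ l ∈ T, l : ℕ) : ℝ) ≤ D),
        ∏ l ∈ T, (h l * (1 - 1 / (l : ℝ)))
      = ∑ T ∈ S.powerset.filter (fun T => ((∏ l ∈ T, l : ℕ) : ℝ) ≤ D),
        (1 - 1 / (q : ℝ)) * Real.log D * ∏ l ∈ T, (h l * (1 - 1 / (l : ℝ))) := by
        rw [Finset.mul_sum]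
    _ ≤ ∑ T ∈ S.powerset.filter (fun T => ((∏ l ∈ T, l : ℕ) : ℝ) ≤ D),
        ∑ d ∈ ((Icc 1 (D ^ 2)).filter (fun d => Squarefree d ∧ d.primeFactors ⊆ P)).filter
          (fun d => T ⊆ d.primeFactors),
        (∏ l ∈ T, h l) * ∏ l ∈ d.primeFactors \ T, 1 / ((l : ℝ) - 1) :=
        Finset.sum_le_sum key3
    _ = ∑ d ∈ (Icc 1 (D ^ 2)).filter (fun d => Squarefree d ∧ d.primeFactors ⊆ P),
        ∑ T ∈ (S.powerset.filter (fun T => ((∏ l ∈ T, l : ℕ) : ℝ) ≤ D)).filter
          (fun T => T ⊆ d.primeFactors),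
        (∏ l ∈ T, h l) * ∏ l ∈ d.primeFactors \ T, 1 / ((l : ℝ) - 1) := by
        rw [Finset.sum_comm']
        intro T d
        simp only [Finset.mem_filter]
        tauto
    _ ≤ ∑ d ∈ (Icc 1 (D ^ 2)).filter (fun d => Squarefree d ∧ d.primeFactors ⊆ P),
        ∏ l ∈ d.primeFactors, g l := Finset.sum_le_sum key1

end Pool.Agent.Lib.MP_d1f1b5_nt.TB
end

section
/-!
# GOO: for almost all primes `q` there are many primes `≡ 1 mod q` in `(y, (1+η)y]`
-/
set_option autoImplicit false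

namespace Pool.Agent.Lib.MP_d1f1b5_nt.TB

open Finset Filter Topology
open scoped Classical

namespace GOOM

/-- the sum of `log p` over the primes `p ∈ (Y₁, Y₂]` -/
noncomputable def TT (Y₁ Y₂ : ℕ) : ℝ := ∑ p ∈ (Ioc Y₁ Y₂).filter Nat.Prime, Real.log p

/-- PNT for intervals -/
theorem pnt {η : ℝ} (hη : 0 < η) :
    Tendsto (fun y : ℝ => TT ⌊y⌋₊ ⌊(1 + η) * y⌋₊ / y) atTop (𝓝 η) := by
  have h := Pool.Agent.Lib.PntAP.theta_ap_interval (q := 1) (a := (1 : ZMod 1)) isUnit_one hη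
  simp only [Nat.totient_one, Nat.cast_one, div_one] at h
  refine h.congr' ?_
  filter_upwards [eventually_ge_atTop 0] with y hy
  congr 1
  have hth : ∀ x : ℝ, Pool.Agent.Lib.PntAP.thetaAP (1 : ZMod 1) x
      = ∑ p ∈ (Icc 1 ⌊x⌋₊).filter Nat.Prime, Real.log p := by
    intro x
    unfold Pool.Agent.Lib.PntAP.thetaAP
    apply Finset.sum_congr
    · ext p
      simp only [Finset.mem_filter]
      constructor
      · rintro ⟨h1, h2, _⟩
        exact ⟨h1, h2⟩
      · rintro ⟨h1, h2⟩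
        exact ⟨h1, h2, Subsingleton.elim _ _⟩
    · intro p _
      rfl
  rw [hth, hth]
  unfold TT
  have hle : ⌊y⌋₊ ≤ ⌊(1 + η) * y⌋₊ := by
    apply Nat.floor_le_floor
    nlinarith
  have hsplit : (Icc 1 ⌊(1 + η) * y⌋₊).filter Nat.Prime
      = (Icc 1 ⌊y⌋₊).filter Nat.Prime ∪ (Ioc ⌊y⌋₊ ⌊(1 + η) * y⌋₊).filter Nat.Prime := by
    ext p
    simp only [Finset.mem_filter, Finset.mem_union, Finset.mem_Icc, Finset.mem_Ioc]
    constructor
    · rintro ⟨⟨h1, h2⟩, h3⟩
      by_cases h4 : p ≤ ⌊y⌋₊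
      · exact Or.inl ⟨⟨h1, h4⟩, h3⟩
      · exact Or.inr ⟨⟨by omega, h2⟩, h3⟩
    · rintro (⟨⟨h1, h2⟩, h3⟩ | ⟨⟨h1, h2⟩, h3⟩)
      · exact ⟨⟨h1, h2.trans hle⟩, h3⟩
      · exact ⟨⟨by omega, h2⟩, h3⟩
  have hdisj : Disjoint ((Icc 1 ⌊y⌋₊).filter Nat.Prime)
      ((Ioc ⌊y⌋₊ ⌊(1 + η) * y⌋₊).filter Nat.Prime) := by
    rw [Finset.disjoint_left]
    intro p h1 h2
    simp only [Finset.mem_filter, Finset.mem_Icc, Finset.mem_Ioc] at h1 h2
    omega
  rw [hsplit, Finset.sum_union hdisj]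
  ring

/-- the principal character -/
theorem psiX_one_re {q Y₁ Y₂ : ℕ} (hq : q.Prime) (hqY : q ≤ Y₁) :
    TT Y₁ Y₂ ≤ (psiX (1 : DirichletCharacter ℂ q) Y₁ Y₂).re := by
  unfold TT psiX
  rw [Complex.re_sum, Finset.sum_filter]
  apply Finset.sum_le_sum
  intro n hn
  rw [Finset.mem_Ioc] at hn
  rw [Complex.re_ofReal_mul]
  by_cases hu : IsUnit (n : ZMod q)
  · rw [MulChar.one_apply hu, Complex.one_re, mul_one]
    split_ifs with h
    · rw [ArithmeticFunction.vonMangoldt_apply_prime h]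
    · exact ArithmeticFunction.vonMangoldt_nonneg
  · have hnp : ¬ n.Prime := by
      intro hp
      apply hu
      rw [ZMod.isUnit_iff_coprime]
      rw [Nat.coprime_primes hp hq]
      omega
    rw [if_neg hnp, MulChar.map_nonunit _ hu]
    simp

/-- orthogonality -/
theorem orth {q : ℕ} [NeZero q] (hq : q.Prime) (Y₁ Y₂ : ℕ) :
    ∑ χ : DirichletCharacter ℂ q, psiX χ Y₁ Y₂
      = (((q : ℝ) - 1) * ∑ n ∈ (Ioc Y₁ Y₂).filter (fun n => n % q = 1),
          ArithmeticFunction.vonMangoldt n : ℝ) := by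
  unfold psiX
  rw [Finset.sum_comm]
  push_cast
  rw [Finset.mul_sum, Finset.sum_filter]
  apply Finset.sum_congr rfl
  intro n _
  rw [← Finset.mul_sum, DirichletCharacter.sum_characters_eq]
  have hiff : ((n : ZMod q) = 1) ↔ n % q = 1 := by
    have h1 : ((n : ZMod q) = ((1 : ℕ) : ZMod q)) ↔ n % q = 1 % q :=
      ZMod.natCast_eq_natCast_iff' n 1 q
    rw [Nat.cast_one, Nat.mod_eq_of_lt hq.one_lt] at h1
    exact h1
  by_cases h : n % q = 1
  · rw [if_pos (hiff.mpr h), if_pos h, Nat.totient_prime hq, Nat.cast_sub hq.one_lt.le]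
    push_cast
    ring
  · rw [if_neg (fun hc => h (hiff.mp hc)), if_neg h, mul_zero]

/-- prime powers -/
theorem pp_bound (q : ℕ) {y η : ℝ} (hy : 0 ≤ y) :
    ∑ n ∈ (Ioc ⌊y⌋₊ ⌊(1 + η) * y⌋₊).filter (fun n => n % q = 1), ArithmeticFunction.vonMangoldt n
      ≤ ∑ l ∈ P1 q y ((1 + η) * y), Real.log l
        + (Chebyshev.psi ((1 + η) * y) - Chebyshev.theta ((1 + η) * y)) := by
  rw [Chebyshev.psi_sub_theta_eq_sum_not_prime]
  rw [← Finset.sum_filter_add_sum_filter_not ((Ioc ⌊y⌋₊ ⌊(1 + η) * y⌋₊).filter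
    (fun n => n % q = 1)) Nat.Prime]
  apply add_le_add
  · have h1 : ∑ n ∈ ((Ioc ⌊y⌋₊ ⌊(1 + η) * y⌋₊).filter (fun n => n % q = 1)).filter Nat.Prime,
        ArithmeticFunction.vonMangoldt n
        = ∑ n ∈ ((Ioc ⌊y⌋₊ ⌊(1 + η) * y⌋₊).filter (fun n => n % q = 1)).filter Nat.Prime,
          Real.log n := by
      apply Finset.sum_congr rfl
      intro n hn
      rw [Finset.mem_filter] at hn
      exact ArithmeticFunction.vonMangoldt_apply_prime hn.2
    rw [h1]
    apply Finset.sum_le_sum_of_subset_of_nonneg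
    · intro n hn
      rw [Finset.mem_filter, Finset.mem_filter, Finset.mem_Ioc] at hn
      obtain ⟨⟨⟨h2, h3⟩, h4⟩, h5⟩ := hn
      unfold P1
      rw [Finset.mem_filter, Finset.mem_Icc]
      exact ⟨⟨h5.one_lt.le, h3⟩, h5, h4, (Nat.floor_lt hy).mp h2⟩
    · intro n _ _
      exact Real.log_natCast_nonneg n
  · apply Finset.sum_le_sum_of_subset_of_nonneg
    · intro n hn
      rw [Finset.mem_filter, Finset.mem_filter, Finset.mem_Ioc] at hn
      obtain ⟨⟨⟨h2, h3⟩, h4⟩, h5⟩ := hn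
      rw [Finset.mem_filter, Finset.mem_Ioc]
      exact ⟨⟨by omega, h3⟩, h5⟩
    · intro n _ _
      exact ArithmeticFunction.vonMangoldt_nonneg

/-- the lower bound for the sum over the nonprincipal characters -/
theorem dsum_lower {q : ℕ} (hq : q.Prime) {y η : ℝ} (hy : 0 ≤ y)
    (hqY : q ≤ ⌊y⌋₊) :
    TT ⌊y⌋₊ ⌊(1 + η) * y⌋₊ - ((q : ℝ) - 1) * (∑ l ∈ P1 q y ((1 + η) * y), Real.log l
        + (Chebyshev.psi ((1 + η) * y) - Chebyshev.theta ((1 + η) * y)))
      ≤ dsum q (fun χ => ‖psiX χ ⌊y⌋₊ ⌊(1 + η) * y⌋₊‖) := by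
  have : NeZero q := ⟨hq.ne_zero⟩
  have hq1 : (0 : ℝ) ≤ (q : ℝ) - 1 := by
    have : (1 : ℝ) ≤ q := by exact_mod_cast hq.one_lt.le
    linarith
  rw [dsum_eq]
  have h1 := orth hq ⌊y⌋₊ ⌊(1 + η) * y⌋₊
  have h2 := pp_bound q (η := η) hy
  have h3 := psiX_one_re (Y₂ := ⌊(1 + η) * y⌋₊) hq hqY
  have h4 : ∑ χ : DirichletCharacter ℂ q, psiX χ ⌊y⌋₊ ⌊(1 + η) * y⌋₊
      = psiX (1 : DirichletCharacter ℂ q) ⌊y⌋₊ ⌊(1 + η) * y⌋₊
        + ∑ χ ∈ (univ : Finset (DirichletCharacter ℂ q)).filter (fun χ => χ ≠ 1),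
            psiX χ ⌊y⌋₊ ⌊(1 + η) * y⌋₊ := by
    rw [← Finset.sum_filter_add_sum_filter_not (univ : Finset (DirichletCharacter ℂ q))
      (fun χ => χ = 1)]
    congr 1
    rw [Finset.filter_eq' univ (1 : DirichletCharacter ℂ q), if_pos (Finset.mem_univ _),
      Finset.sum_singleton]
  rw [h4] at h1
  have h5 : (psiX (1 : DirichletCharacter ℂ q) ⌊y⌋₊ ⌊(1 + η) * y⌋₊).re
      + (∑ χ ∈ (univ : Finset (DirichletCharacter ℂ q)).filter (fun χ => χ ≠ 1),
            psiX χ ⌊y⌋₊ ⌊(1 + η) * y⌋₊).re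
      = ((q : ℝ) - 1) * ∑ n ∈ (Ioc ⌊y⌋₊ ⌊(1 + η) * y⌋₊).filter (fun n => n % q = 1),
          ArithmeticFunction.vonMangoldt n := by
    rw [← Complex.add_re, h1, Complex.ofReal_re]
  have h6 : -(∑ χ ∈ (univ : Finset (DirichletCharacter ℂ q)).filter (fun χ => χ ≠ 1),
            psiX χ ⌊y⌋₊ ⌊(1 + η) * y⌋₊).re
      ≤ ∑ χ ∈ (univ : Finset (DirichletCharacter ℂ q)).filter (fun χ => χ ≠ 1),
            ‖psiX χ ⌊y⌋₊ ⌊(1 + η) * y⌋₊‖ := by
    calc -(∑ χ ∈ (univ : Finset (DirichletCharacter ℂ q)).filter (fun χ => χ ≠ 1),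
            psiX χ ⌊y⌋₊ ⌊(1 + η) * y⌋₊).re
        ≤ |(∑ χ ∈ (univ : Finset (DirichletCharacter ℂ q)).filter (fun χ => χ ≠ 1),
            psiX χ ⌊y⌋₊ ⌊(1 + η) * y⌋₊).re| := neg_le_abs _
      _ ≤ ‖∑ χ ∈ (univ : Finset (DirichletCharacter ℂ q)).filter (fun χ => χ ≠ 1),
            psiX χ ⌊y⌋₊ ⌊(1 + η) * y⌋₊‖ := Complex.abs_re_le_norm _
      _ ≤ _ := norm_sum_le _ _
  have h7 := mul_le_mul_of_nonneg_left h2 hq1
  linarith

theorem dsum_nonneg (q : ℕ) (Φ : DirichletCharacter ℂ q → ℝ) (h : ∀ χ, 0 ≤ Φ χ) :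
    0 ≤ dsum q Φ := by
  unfold dsum
  split_ifs with h0
  · exact le_rfl
  · exact Finset.sum_nonneg (fun χ _ => h χ)

end GOOM

open GOOM in
theorem specGOO (hMV : SpecMV) : SpecGOO := by
  intro η hη hη1
  obtain ⟨C, hC, hMV⟩ := hMV
  obtain ⟨K₀, hK₀⟩ := Chebyshev.psi_sub_theta_le_mul_sqrt
  set K : ℝ := |K₀| + 1 with hK
  have hK1 : 1 ≤ K := by
    have := abs_nonneg K₀
    linarith
  have hKb : ∀ x : ℝ, Chebyshev.psi x - Chebyshev.theta x ≤ K * √x := by
    intro x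
    refine (hK₀ x).trans ?_
    apply mul_le_mul_of_nonneg_right _ (Real.sqrt_nonneg _)
    have := le_abs_self K₀
    linarith
  have hη2 : 0 < η ^ 2 := by positivity
  -- PNT
  have hpnt : ∀ᶠ y : ℝ in atTop, η - η ^ 2 / 4 < TT ⌊y⌋₊ ⌊(1 + η) * y⌋₊ / y :=
    (pnt hη).eventually_const_lt (by linarith)
  obtain ⟨y₁, hy₁⟩ := Filter.eventually_atTop.mp hpnt
  refine ⟨2 * C / η ^ 2, by positivity, max (max y₁ 2) ((12 * K / η ^ 2) ^ 4), ?_⟩
  intro R y hR hRy hy
  have hyy₁ : y₁ ≤ y := (le_max_left _ _).trans ((le_max_left _ _).trans hy)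
  have hy2 : 2 ≤ y := (le_max_right _ _).trans ((le_max_left _ _).trans hy)
  have hyK : (12 * K / η ^ 2) ^ 4 ≤ y := (le_max_right _ _).trans hy
  have hy0 : 0 < y := by linarith
  have hR' : (1 : ℝ) ≤ R := by exact_mod_cast hR
  -- fourth root
  set s : ℝ := √y with hs
  set t : ℝ := √s with ht
  have hs0 : 0 ≤ s := Real.sqrt_nonneg _
  have ht0 : 0 ≤ t := Real.sqrt_nonneg _
  have hss : s ^ 2 = y := Real.sq_sqrt hy0.le
  have htt : t ^ 2 = s := Real.sq_sqrt hs0
  have ht4 : t ^ 4 = y := by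
    rw [← hss, ← htt]
    ring
  have hRt : (R : ℝ) ≤ t := by
    apply le_of_pow_le_pow_left₀ (n := 4) (by norm_num) ht0
    rw [ht4]
    exact (pow_le_pow_right₀ hR' (by norm_num)).trans hRy
  have htK : 12 * K / η ^ 2 ≤ t := by
    apply le_of_pow_le_pow_left₀ (n := 4) (by norm_num) ht0
    rw [ht4]
    exact hyK
  -- the naturals
  have hRY : R ^ 10 ≤ ⌊y⌋₊ := by
    apply Nat.le_floor
    push_cast
    exact hRy
  have hY12 : ⌊y⌋₊ ≤ ⌊(1 + η) * y⌋₊ := by
    apply Nat.floor_le_floor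
    nlinarith
  have hY2 : 2 ≤ ⌊y⌋₊ := Nat.le_floor (by push_cast; exact hy2)
  have hY3 : ⌊(1 + η) * y⌋₊ ≤ 3 * ⌊y⌋₊ := by
    have h1 : ⌊(1 + η) * y⌋₊ ≤ (1 + η) * y := Nat.floor_le (by positivity)
    have h2 : y < (⌊y⌋₊ : ℝ) + 1 := Nat.lt_floor_add_one y
    have h3 : ((⌊(1 + η) * y⌋₊ : ℕ) : ℝ) < ((2 * (⌊y⌋₊ + 1) : ℕ) : ℝ) := by
      push_cast
      nlinarith
    have h4 : ⌊(1 + η) * y⌋₊ < 2 * (⌊y⌋₊ + 1) := by exact_mod_cast h3
    omega
  have hmv := hMV R ⌊y⌋₊ ⌊(1 + η) * y⌋₊ hR hRY hY12 hY3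
  -- the lower bound for the bad `q`
  have hlow : ∀ q ∈ (PR R).filter (fun q => ∑ l ∈ P1 q y ((1 + η) * y), Real.log l
      < (1 - η) * (η * y) / ((q : ℝ) - 1)),
      η ^ 2 / 2 * y ≤ dsum q (fun χ => ‖psiX χ ⌊y⌋₊ ⌊(1 + η) * y⌋₊‖) := by
    intro q hq
    rw [Finset.mem_filter] at hq
    obtain ⟨hq, hbad⟩ := hq
    unfold PR at hq
    rw [Finset.mem_filter, Finset.mem_Ioc] at hq
    obtain ⟨⟨hqR, hq2R⟩, hqp⟩ := hq
    have hqY : q ≤ ⌊y⌋₊ := by
      rcases Nat.lt_or_ge R 2 with h | h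
      · omega
      · calc q ≤ 2 * R := hq2R
          _ ≤ R * R := Nat.mul_le_mul_right R h
          _ = R ^ 2 := (sq R).symm
          _ ≤ R ^ 10 := Nat.pow_le_pow_right (by omega) (by norm_num)
          _ ≤ _ := hRY
    have h1 := dsum_lower (η := η) hqp hy0.le hqY
    have hq1 : (0 : ℝ) < (q : ℝ) - 1 := by
      have : (2 : ℝ) ≤ q := by exact_mod_cast hqp.two_le
      linarith
    rw [lt_div_iff₀ hq1] at hbad
    have h2 := hy₁ y hyy₁
    rw [lt_div_iff₀ hy0] at h2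
    have h3 : ((q : ℝ) - 1) * (Chebyshev.psi ((1 + η) * y) - Chebyshev.theta ((1 + η) * y))
        ≤ η ^ 2 / 4 * y := by
      have h4 : √((1 + η) * y) ≤ 3 / 2 * s := by
        rw [Real.sqrt_le_left (by positivity)]
        rw [mul_pow, hss]
        nlinarith
      have h5 : (q : ℝ) - 1 ≤ 2 * t := by
        have : (q : ℝ) ≤ 2 * R := by exact_mod_cast hq2R
        linarith
      calc ((q : ℝ) - 1) * (Chebyshev.psi ((1 + η) * y) - Chebyshev.theta ((1 + η) * y))
          ≤ ((q : ℝ) - 1) * (K * √((1 + η) * y)) :=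
            mul_le_mul_of_nonneg_left (hKb _) hq1.le
        _ ≤ (2 * t) * (K * (3 / 2 * s)) := by
            apply mul_le_mul h5 _ (by positivity) (by positivity)
            apply mul_le_mul_of_nonneg_left h4 (by linarith)
        _ = 3 * K * t ^ 3 := by
            rw [← htt]
            ring
        _ ≤ η ^ 2 / 4 * t * t ^ 3 := by
            apply mul_le_mul_of_nonneg_right _ (by positivity)
            rw [div_le_iff₀ hη2] at htK
            linarith
        _ = η ^ 2 / 4 * y := by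
            rw [← ht4]
            ring
    have h6 : ((q : ℝ) - 1) * (∑ l ∈ P1 q y ((1 + η) * y), Real.log l
        + (Chebyshev.psi ((1 + η) * y) - Chebyshev.theta ((1 + η) * y)))
        = (∑ l ∈ P1 q y ((1 + η) * y), Real.log l) * ((q : ℝ) - 1)
          + ((q : ℝ) - 1) * (Chebyshev.psi ((1 + η) * y) - Chebyshev.theta ((1 + η) * y)) := by
      ring
    rw [h6] at h1
    nlinarith
  -- counting
  have h1 : (((PR R).filter (fun q => ∑ l ∈ P1 q y ((1 + η) * y), Real.log l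
      < (1 - η) * (η * y) / ((q : ℝ) - 1))).card : ℝ) * (η ^ 2 / 2 * y)
      ≤ C * y * (1 + Real.log y) ^ 5 := by
    calc (((PR R).filter (fun q => ∑ l ∈ P1 q y ((1 + η) * y), Real.log l
        < (1 - η) * (η * y) / ((q : ℝ) - 1))).card : ℝ) * (η ^ 2 / 2 * y)
        = ∑ q ∈ (PR R).filter (fun q => ∑ l ∈ P1 q y ((1 + η) * y), Real.log l
            < (1 - η) * (η * y) / ((q : ℝ) - 1)), (η ^ 2 / 2 * y) := by
          rw [Finset.sum_const, nsmul_eq_mul]
      _ ≤ ∑ q ∈ (PR R).filter (fun q => ∑ l ∈ P1 q y ((1 + η) * y), Real.log l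
            < (1 - η) * (η * y) / ((q : ℝ) - 1)),
            dsum q (fun χ => ‖psiX χ ⌊y⌋₊ ⌊(1 + η) * y⌋₊‖) := Finset.sum_le_sum hlow
      _ ≤ ∑ q ∈ PR R, dsum q (fun χ => ‖psiX χ ⌊y⌋₊ ⌊(1 + η) * y⌋₊‖) := by
          apply Finset.sum_le_sum_of_subset_of_nonneg (Finset.filter_subset _ _)
          intro q _ _
          exact dsum_nonneg q _ (fun χ => norm_nonneg _)
      _ ≤ C * ⌊y⌋₊ * (1 + Real.log ⌊y⌋₊) ^ 5 := hmv
      _ ≤ C * y * (1 + Real.log y) ^ 5 := by
          have h7 : ((⌊y⌋₊ : ℕ) : ℝ) ≤ y := Nat.floor_le hy0.le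
          have h8 : (2 : ℝ) ≤ ((⌊y⌋₊ : ℕ) : ℝ) := by exact_mod_cast hY2
          have h9 : 0 ≤ Real.log ((⌊y⌋₊ : ℕ) : ℝ) := Real.log_nonneg (by linarith)
          have h10 : Real.log ((⌊y⌋₊ : ℕ) : ℝ) ≤ Real.log y := Real.log_le_log (by linarith) h7
          apply mul_le_mul
          · exact mul_le_mul_of_nonneg_left h7 hC.le
          · apply pow_le_pow_left₀ (by linarith)
            linarith
          · positivity
          · positivity
  have h2 : (0 : ℝ) < η ^ 2 / 2 * y := by positivity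
  rw [← le_div_iff₀ h2] at h1
  refine h1.trans (le_of_eq ?_)
  field_simp

end Pool.Agent.Lib.MP_d1f1b5_nt.TB
end

section
set_option autoImplicit false

namespace Pool.Agent.Lib.MP_d1f1b5_nt.TB

open Finset

theorem specKUM : SpecKUM := by
  intro q hq hq2
  have : Fact q.Prime := ⟨hq⟩
  refine ⟨(range (q ^ 2)).filter (fun x : ℕ => ¬ q ∣ x ∧ (q : ℤ) ^ 2 ∣ KU.ee q x), ?_, ?_, ?_⟩
  · exact Finset.filter_subset _ _
  · refine le_trans (le_of_eq ?_) (KU.ee_card (q := q))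
    congr 1
  · intro X p hp
    simp only [Bq, Finset.mem_filter, Finset.mem_Icc] at hp
    obtain ⟨-, hpp, hp2, hpq, hB⟩ := hp
    unfold Bad at hB
    rw [QR.FF_eq hpp.two_le, QR.FF_eq hq.two_le] at hB
    have h1 := KU.kummer hq2 hpp hpq hB
    have hqp : ¬ q ∣ p := fun h => hpq ((Nat.prime_dvd_prime_iff_eq hq hpp).mp h).symm
    have hq0 : 0 < q ^ 2 := pow_pos hq.pos 2
    rw [Finset.mem_filter, Finset.mem_range]
    refine ⟨Nat.mod_lt _ hq0, ?_, ?_⟩
    · intro h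
      apply hqp
      have h2 : q ∣ q ^ 2 := dvd_pow_self q two_ne_zero
      exact (Nat.dvd_mod_iff h2).mp h
    · have h3 : (q : ℤ) ^ 2 ∣ ((p % q ^ 2 : ℕ) : ℤ) - (p : ℤ) := by
        have h4 : ((p % q ^ 2 : ℕ) : ℤ) = (p : ℤ) % ((q : ℤ) ^ 2) := by push_cast; rfl
        rw [h4]
        have := Int.emod_add_mul_ediv (p : ℤ) ((q : ℤ) ^ 2)
        refine ⟨-((p : ℤ) / (q : ℤ) ^ 2), ?_⟩
        linarith
      have h5 := KU.ee_congr (q := q) h3
      have h6 := dvd_add h5 h1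
      rwa [sub_add_cancel] at h6

end Pool.Agent.Lib.MP_d1f1b5_nt.TB
end
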