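import Pool.Agent.Lib.MP_d1f1b5_nt.TB.Spec

section
/-!
# MP_d1f1b5_nt, TB, module TYA: type I sums
-/
set_option autoImplicit false

namespace Pool.Agent.Lib.MP_d1f1b5_nt.TB

open Finset Filter Topology
open scoped Classical

namespace TYAM

theorem sum_period {q : ℕ} [NeZero q] {χ : DirichletCharacter ℂ q} (hχ : χ ≠ 1) (A : ℕ) :
    ∑ k ∈ Ioc A (A + q), χ (k : ZMod q) = 0 := by
  have hinj : Set.InjOn (fun k : ℕ => (k : ZMod q)) (Ioc A (A + q) : Finset ℕ) := by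
    intro k hk k' hk' h
    rw [Finset.coe_Ioc, Set.mem_Ioc] at hk hk'
    have h1 : k ≡ k' [MOD q] := (ZMod.natCast_eq_natCast_iff k k' q).1 h
    refine h1.eq_of_abs_lt ?_
    rw [abs_lt]
    constructor <;> omega
  have him : (Ioc A (A + q)).image (fun k : ℕ => (k : ZMod q)) = univ := by
    apply Finset.eq_univ_of_card
    rw [Finset.card_image_of_injOn hinj, Nat.card_Ioc, ZMod.card]
    omega
  have h := Finset.sum_image (s := Ioc A (A + q)) (g := fun k : ℕ => (k : ZMod q))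
    (f := fun x => χ x) hinj
  rw [← h, him]
  exact MulChar.sum_eq_zero_of_ne_one hχ

theorem sum_bd {q : ℕ} [NeZero q] {χ : DirichletCharacter ℂ q} (hχ : χ ≠ 1) :
    ∀ n A : ℕ, ‖∑ k ∈ Ioc A (A + n), χ (k : ZMod q)‖ ≤ q := by
  intro n
  induction n using Nat.strong_induction_on with
  | _ n ih =>
    intro A
    by_cases hn : n < q
    · calc ‖∑ k ∈ Ioc A (A + n), χ (k : ZMod q)‖ ≤ ∑ k ∈ Ioc A (A + n), ‖χ (k : ZMod q)‖ :=
            norm_sum_le _ _
        _ ≤ ∑ k ∈ Ioc A (A + n), (1 : ℝ) := Finset.sum_le_sum fun k _ => χ.norm_le_one _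
        _ = n := by simp
        _ ≤ q := by exact_mod_cast hn.le
    · have hq : 0 < q := NeZero.pos q
      have h1 := Finset.sum_Ioc_consecutive (fun k : ℕ => χ (k : ZMod q)) (Nat.le_add_right A q)
        (by omega : A + q ≤ A + n)
      rw [← h1, sum_period hχ, zero_add, show A + n = (A + q) + (n - q) by omega]
      exact ih (n - q) (by omega) (A + q)

theorem sum_bd' {q : ℕ} [NeZero q] {χ : DirichletCharacter ℂ q} (hχ : χ ≠ 1) {A B : ℕ}
    (hAB : A ≤ B) : ‖∑ k ∈ Ioc A B, χ (k : ZMod q)‖ ≤ q := by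
  have h := sum_bd hχ (B - A) A
  rwa [show A + (B - A) = B by omega] at h

/-- partial summation -/
theorem abel (a : ℕ → ℂ) (C : ℝ) (A : ℕ) (hC : ∀ B, A ≤ B → ‖∑ k ∈ Ioc A B, a k‖ ≤ C) :
    ∀ B, A ≤ B → ‖∑ k ∈ Ioc A B, a k * ((Real.log k : ℝ) : ℂ) -
      (∑ k ∈ Ioc A B, a k) * ((Real.log B : ℝ) : ℂ)‖ ≤ C * (Real.log B - Real.log A) := by
  intro B hB
  induction B, hB using Nat.le_induction with
  | base => simp
  | succ B hB ih =>
    have hmono : Real.log B ≤ Real.log ((B + 1 : ℕ) : ℝ) := by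
      rcases Nat.eq_zero_or_pos B with h | h
      · subst h
        simp
      · exact Real.log_le_log (by exact_mod_cast h) (by push_cast; linarith)
    rw [Finset.sum_Ioc_succ_top (by omega), Finset.sum_Ioc_succ_top (by omega)]
    have e : ∑ k ∈ Ioc A B, a k * ((Real.log k : ℝ) : ℂ) +
        a (B + 1) * ((Real.log ((B + 1 : ℕ) : ℝ) : ℝ) : ℂ) -
        (∑ k ∈ Ioc A B, a k + a (B + 1)) * ((Real.log ((B + 1 : ℕ) : ℝ) : ℝ) : ℂ) =
        (∑ k ∈ Ioc A B, a k * ((Real.log k : ℝ) : ℂ) -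
          (∑ k ∈ Ioc A B, a k) * ((Real.log B : ℝ) : ℂ)) -
        (∑ k ∈ Ioc A B, a k) * (((Real.log ((B + 1 : ℕ) : ℝ) - Real.log B : ℝ)) : ℂ) := by
      push_cast
      ring
    rw [e]
    refine (norm_sub_le _ _).trans ?_
    rw [norm_mul, Complex.norm_real, Real.norm_eq_abs, abs_of_nonneg (sub_nonneg.2 hmono)]
    have h1 := mul_le_mul_of_nonneg_right (hC B hB) (sub_nonneg.2 hmono)
    linarith

theorem log_sum_bd {q : ℕ} [NeZero q] {χ : DirichletCharacter ℂ q} (hχ : χ ≠ 1) {A B : ℕ}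
    (hAB : A ≤ B) :
    ‖∑ k ∈ Ioc A B, χ (k : ZMod q) * ((Real.log k : ℝ) : ℂ)‖ ≤ 2 * q * Real.log B := by
  have h1 := abel (fun k : ℕ => χ (k : ZMod q)) q A (fun B' hB' => sum_bd' hχ hB') B hAB
  have h2 := sum_bd' hχ hAB
  have hB : 0 ≤ Real.log (B : ℝ) := Real.log_natCast_nonneg B
  have hA : 0 ≤ Real.log (A : ℝ) := Real.log_natCast_nonneg A
  have hq : (0 : ℝ) ≤ q := Nat.cast_nonneg q
  calc ‖∑ k ∈ Ioc A B, χ (k : ZMod q) * ((Real.log k : ℝ) : ℂ)‖
      = ‖(∑ k ∈ Ioc A B, χ (k : ZMod q) * ((Real.log k : ℝ) : ℂ) -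
        (∑ k ∈ Ioc A B, χ (k : ZMod q)) * ((Real.log B : ℝ) : ℂ)) +
        (∑ k ∈ Ioc A B, χ (k : ZMod q)) * ((Real.log B : ℝ) : ℂ)‖ := by rw [sub_add_cancel]
    _ ≤ q * (Real.log B - Real.log A) + q * Real.log B := by
        refine (norm_add_le _ _).trans (add_le_add h1 ?_)
        rw [norm_mul, Complex.norm_real, Real.norm_eq_abs, abs_of_nonneg hB]
        exact mul_le_mul_of_nonneg_right h2 hB
    _ ≤ 2 * q * Real.log B := by
        have := mul_nonneg hq hA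
        linarith

/-- reorganisation -/
theorem reorg (f : ℕ → ℕ → ℂ) (V Y₁ Y₂ : ℕ) :
    ∑ n ∈ Ioc Y₁ Y₂, ∑ d ∈ n.divisors.filter (fun d => d ≤ V), f d (n / d) =
      ∑ d ∈ Icc 1 V, ∑ k ∈ Ioc (Y₁ / d) (Y₂ / d), f d k := by
  have h1 : ∀ n ∈ Ioc Y₁ Y₂, ∑ d ∈ n.divisors.filter (fun d => d ≤ V), f d (n / d) =
      ∑ d ∈ Icc 1 V, if d ∣ n then f d (n / d) else 0 := by
    intro n hn
    rw [Finset.mem_Ioc] at hn
    rw [← Finset.sum_filter]
    refine Finset.sum_congr (Finset.ext fun d => ?_) fun _ _ => rfl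
    rw [Finset.mem_filter, Finset.mem_filter, Nat.mem_divisors, Finset.mem_Icc]
    constructor
    · rintro ⟨⟨h, h0⟩, hV⟩
      exact ⟨⟨Nat.pos_of_dvd_of_pos h (by omega), hV⟩, h⟩
    · rintro ⟨⟨_, hV⟩, h⟩
      exact ⟨⟨h, by omega⟩, hV⟩
  rw [Finset.sum_congr rfl h1, Finset.sum_comm]
  refine Finset.sum_congr rfl fun d hd => ?_
  rw [Finset.mem_Icc] at hd
  have hd0 : 0 < d := hd.1
  rw [← Finset.sum_filter]
  refine Finset.sum_nbij' (fun n => n / d) (fun k => d * k) ?_ ?_ ?_ ?_ ?_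
  · intro n hn
    rw [Finset.mem_filter, Finset.mem_Ioc] at hn
    obtain ⟨⟨ha, hb⟩, k, rfl⟩ := hn
    rw [Nat.mul_div_cancel_left _ hd0, Finset.mem_Ioc]
    refine ⟨(Nat.div_lt_iff_lt_mul hd0).2 (by rw [mul_comm]; exact ha), ?_⟩
    exact (Nat.le_div_iff_mul_le hd0).2 (by rw [mul_comm]; exact hb)
  · intro k hk
    rw [Finset.mem_Ioc] at hk
    rw [Finset.mem_filter, Finset.mem_Ioc]
    refine ⟨⟨?_, ?_⟩, dvd_mul_right _ _⟩
    · have := (Nat.div_lt_iff_lt_mul hd0).1 hk.1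
      rwa [mul_comm] at this
    · have := (Nat.le_div_iff_mul_le hd0).1 hk.2
      rwa [mul_comm] at this
  · intro n hn
    rw [Finset.mem_filter] at hn
    exact Nat.mul_div_cancel' hn.2
  · intro k _
    exact Nat.mul_div_cancel_left _ hd0
  · intro n _
    rfl

end TYAM

open TYAM in
theorem specTYA (hCCB : SpecCCB) : SpecTYA := by
  intro q U V Y₁ Y₂ _ χ hq hχ hU hV hY hY2
  have hq0 : (0 : ℝ) ≤ q := Nat.cast_nonneg q
  have hlY : 0 ≤ Real.log (Y₂ : ℝ) := Real.log_natCast_nonneg Y₂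
  have hdvd : ∀ n d : ℕ, d ∣ n → χ (n : ZMod q) = χ (d : ZMod q) * χ ((n / d : ℕ) : ZMod q) := by
    intro n d h
    rw [← map_mul, ← Nat.cast_mul, Nat.mul_div_cancel' h]
  -- the first part
  have e1 : ∑ n ∈ Ioc Y₁ Y₂, ((v1 V n : ℝ) : ℂ) * χ (n : ZMod q) =
      ∑ d ∈ Icc 1 V, ∑ k ∈ Ioc (Y₁ / d) (Y₂ / d),
        (((ArithmeticFunction.moebius d : ℝ) : ℂ) * χ (d : ZMod q)) *
          (χ (k : ZMod q) * ((Real.log k : ℝ) : ℂ)) := by
    rw [← reorg]
    refine Finset.sum_congr rfl fun n _ => ?_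
    unfold v1
    rw [Complex.ofReal_sum, Finset.sum_mul]
    refine Finset.sum_congr rfl fun d hd => ?_
    rw [Finset.mem_filter, Nat.mem_divisors] at hd
    rw [hdvd n d hd.1.1]
    push_cast
    ring
  have e2 : ∑ n ∈ Ioc Y₁ Y₂, ((v2 U V n : ℝ) : ℂ) * χ (n : ZMod q) =
      ∑ e ∈ Icc 1 (U * V), ∑ k ∈ Ioc (Y₁ / e) (Y₂ / e),
        (((cc U V e : ℝ) : ℂ) * χ (e : ZMod q)) * χ (k : ZMod q) := by
    rw [← reorg]
    refine Finset.sum_congr rfl fun n _ => ?_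
    unfold v2
    rw [Complex.ofReal_sum, Finset.sum_mul]
    refine Finset.sum_congr rfl fun d hd => ?_
    rw [Finset.mem_filter, Nat.mem_divisors] at hd
    rw [hdvd n d hd.1.1]
    ring
  have b1 : ‖∑ n ∈ Ioc Y₁ Y₂, ((v1 V n : ℝ) : ℂ) * χ (n : ZMod q)‖ ≤
      V * (2 * q * Real.log Y₂) := by
    rw [e1]
    refine (norm_sum_le _ _).trans ?_
    have h : ∀ d ∈ Icc 1 V, ‖∑ k ∈ Ioc (Y₁ / d) (Y₂ / d),
        (((ArithmeticFunction.moebius d : ℝ) : ℂ) * χ (d : ZMod q)) *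
          (χ (k : ZMod q) * ((Real.log k : ℝ) : ℂ))‖ ≤ 2 * q * Real.log Y₂ := by
      intro d hd
      rw [Finset.mem_Icc] at hd
      rw [← Finset.mul_sum, norm_mul, norm_mul, Complex.norm_real, Real.norm_eq_abs]
      have hm : |(ArithmeticFunction.moebius d : ℝ)| ≤ 1 := by
        exact_mod_cast ArithmeticFunction.abs_moebius_le_one
      have hc : ‖χ (d : ZMod q)‖ ≤ 1 := χ.norm_le_one _
      have hmc : |(ArithmeticFunction.moebius d : ℝ)| * ‖χ (d : ZMod q)‖ ≤ 1 :=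
        mul_le_one₀ hm (norm_nonneg _) hc
      have hl := log_sum_bd hχ (Nat.div_le_div_right (c := d) hY)
      have hlog : Real.log ((Y₂ / d : ℕ) : ℝ) ≤ Real.log Y₂ := by
        rcases Nat.eq_zero_or_pos (Y₂ / d) with h0 | h0
        · rw [h0]
          simpa using hlY
        · refine Real.log_le_log (by exact_mod_cast h0) ?_
          exact_mod_cast Nat.div_le_self _ _
      calc |(ArithmeticFunction.moebius d : ℝ)| * ‖χ (d : ZMod q)‖ *
          ‖∑ k ∈ Ioc (Y₁ / d) (Y₂ / d), χ (k : ZMod q) * ((Real.log k : ℝ) : ℂ)‖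
          ≤ 1 * ‖∑ k ∈ Ioc (Y₁ / d) (Y₂ / d), χ (k : ZMod q) * ((Real.log k : ℝ) : ℂ)‖ :=
            mul_le_mul_of_nonneg_right hmc (norm_nonneg _)
        _ ≤ 2 * q * Real.log ((Y₂ / d : ℕ) : ℝ) := by rw [one_mul]; exact hl
        _ ≤ 2 * q * Real.log Y₂ := mul_le_mul_of_nonneg_left hlog (by positivity)
    refine (Finset.sum_le_card_nsmul _ _ _ h).trans ?_
    rw [Nat.card_Icc, nsmul_eq_mul]
    simp
  have b2 : ‖∑ n ∈ Ioc Y₁ Y₂, ((v2 U V n : ℝ) : ℂ) * χ (n : ZMod q)‖ ≤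
      (U * V) * (Real.log (U * V) * q) := by
    rw [e2]
    refine (norm_sum_le _ _).trans ?_
    have h : ∀ e ∈ Icc 1 (U * V), ‖∑ k ∈ Ioc (Y₁ / e) (Y₂ / e),
        (((cc U V e : ℝ) : ℂ) * χ (e : ZMod q)) * χ (k : ZMod q)‖ ≤
          Real.log (U * V) * q := by
      intro e he
      rw [Finset.mem_Icc] at he
      rw [← Finset.mul_sum, norm_mul, norm_mul, Complex.norm_real, Real.norm_eq_abs]
      have hc : ‖χ (e : ZMod q)‖ ≤ 1 := χ.norm_le_one _
      have hl := sum_bd' hχ (Nat.div_le_div_right (c := e) hY)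
      have hlog : Real.log (e : ℝ) ≤ Real.log (U * V) := by
        refine Real.log_le_log (by exact_mod_cast he.1) ?_
        exact_mod_cast he.2
      have hle0 : 0 ≤ Real.log (e : ℝ) := Real.log_natCast_nonneg e
      have hcc := (hCCB.1 U V e he.1).trans hlog
      have h3 : |cc U V e| * ‖χ (e : ZMod q)‖ ≤ Real.log (U * V) := by
        calc |cc U V e| * ‖χ (e : ZMod q)‖ ≤ |cc U V e| * 1 :=
              mul_le_mul_of_nonneg_left hc (abs_nonneg _)
          _ ≤ Real.log (U * V) := by rw [mul_one]; exact hcc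
      exact mul_le_mul h3 hl (norm_nonneg _) (hle0.trans hlog)
    refine (Finset.sum_le_card_nsmul _ _ _ h).trans ?_
    rw [Nat.card_Icc, nsmul_eq_mul]
    push_cast
    simp
  have e3 : ∑ n ∈ Ioc Y₁ Y₂, ((v1 V n - v2 U V n : ℝ) : ℂ) * χ (n : ZMod q) =
      ∑ n ∈ Ioc Y₁ Y₂, ((v1 V n : ℝ) : ℂ) * χ (n : ZMod q) -
        ∑ n ∈ Ioc Y₁ Y₂, ((v2 U V n : ℝ) : ℂ) * χ (n : ZMod q) := by
    rw [← Finset.sum_sub_distrib]
    refine Finset.sum_congr rfl fun n _ => ?_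
    push_cast
    ring
  rw [e3]
  refine (norm_sub_le _ _).trans ((add_le_add b1 b2).trans ?_)
  have hU1 : (1 : ℝ) ≤ U := by exact_mod_cast hU
  have hV1 : (1 : ℝ) ≤ V := by exact_mod_cast hV
  have hUV : 0 ≤ Real.log ((U : ℝ) * V) := Real.log_nonneg (by nlinarith)
  have k0 : 0 ≤ (q : ℝ) * V * Real.log Y₂ := by positivity
  have k1 : (q : ℝ) * V * Real.log Y₂ ≤ U * ((q : ℝ) * V * Real.log Y₂) :=
    le_mul_of_one_le_left k0 hU1
  have k2 : 0 ≤ (q : ℝ) * U * V * Real.log ((U : ℝ) * V) := by positivity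
  have k3 : 0 ≤ (q : ℝ) * U * V := by positivity
  have k4 : 0 ≤ U * ((q : ℝ) * V * Real.log Y₂) := by positivity
  have e4 : 3 * (q : ℝ) * U * V * (1 + Real.log Y₂ + Real.log (U * V)) =
      3 * ((q : ℝ) * U * V) + 3 * (U * ((q : ℝ) * V * Real.log Y₂)) +
        3 * ((q : ℝ) * U * V * Real.log ((U : ℝ) * V)) := by ring
  have e5 : (V : ℝ) * (2 * q * Real.log Y₂) + U * V * (Real.log (U * V) * q) =
      2 * ((q : ℝ) * V * Real.log Y₂) + (q : ℝ) * U * V * Real.log ((U : ℝ) * V) := by ring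
  rw [e4, e5]
  linarith

end Pool.Agent.Lib.MP_d1f1b5_nt.TB
end

section
/-!
# Module TYB of the project TB
-/
set_option autoImplicit false

namespace Pool.Agent.Lib.MP_d1f1b5_nt.TB.TYBM

open Finset Filter Topology
open scoped Classical

noncomputable section

theorem dsum_le_sum {q : ℕ} {ι : Type*} (s : Finset ι) (Φ : DirichletCharacter ℂ q → ℝ)
    (Ψ : ι → DirichletCharacter ℂ q → ℝ) (h : ∀ χ, Φ χ ≤ ∑ i ∈ s, Ψ i χ) :
    dsum q Φ ≤ ∑ i ∈ s, dsum q (Ψ i) := by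
  unfold dsum
  split_ifs with hq
  · simp
  · have : NeZero q := ⟨hq⟩
    rw [Finset.sum_comm]
    exact Finset.sum_le_sum (fun χ _ => h χ)

theorem dsum_zero (q : ℕ) : dsum q (fun _ => 0) = 0 := by
  unfold dsum
  split_ifs with hq
  · rfl
  · simp

/-- `Λ(d) 1_{d > U}` -/
def bf (U d : ℕ) : ℝ := if U < d then ArithmeticFunction.vonMangoldt d else 0

/-- the block of the `k ∈ (K, 2K]` -/
def blk {q : ℕ} (χ : DirichletCharacter ℂ q) (U V Y₁ Y₂ K M : ℕ) : ℂ :=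
  ∑ k ∈ Ioc K (2 * K), ∑ d ∈ (Icc 1 M).filter (fun d => Y₁ < k * d ∧ k * d ≤ Y₂),
    ((bb V k * bf U d : ℝ) : ℂ) * (χ (k : ZMod q) * χ (d : ZMod q))

theorem v3_sum {q : ℕ} (χ : DirichletCharacter ℂ q) (U V Y₁ Y₂ I : ℕ)
    (hI : Y₂ ≤ 2 ^ I * V) :
    ∑ n ∈ Ioc Y₁ Y₂, ((v3 U V n : ℝ) : ℂ) * χ (n : ZMod q)
      = ∑ k ∈ Ioc V (2 ^ I * V), ∑ d ∈ (Icc 1 Y₂).filter (fun d => Y₁ < k * d ∧ k * d ≤ Y₂),
          ((bb V k * bf U d : ℝ) : ℂ) * (χ (k : ZMod q) * χ (d : ZMod q)) := by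
  have hR : ∀ k, ∑ d ∈ (Icc 1 Y₂).filter (fun d => Y₁ < k * d ∧ k * d ≤ Y₂),
      ((bb V k * bf U d : ℝ) : ℂ) * (χ (k : ZMod q) * χ (d : ZMod q))
      = ∑ d ∈ (Icc 1 Y₂).filter (fun d => (Y₁ < k * d ∧ k * d ≤ Y₂) ∧ U < d),
      ((bb V k * ArithmeticFunction.vonMangoldt d : ℝ) : ℂ)
        * (χ (k : ZMod q) * χ (d : ZMod q)) := by
    intro k
    rw [← Finset.filter_filter (fun d => Y₁ < k * d ∧ k * d ≤ Y₂) (fun d => U < d) (Icc 1 Y₂),
      Finset.sum_filter (fun d => U < d)]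
    apply Finset.sum_congr rfl
    intro d _
    unfold bf
    split_ifs <;> simp
  simp_rw [hR]
  have hL : ∀ n, ((v3 U V n : ℝ) : ℂ) * χ (n : ZMod q)
      = ∑ d ∈ n.divisors.filter (fun d => U < d ∧ V < n / d),
        ((ArithmeticFunction.vonMangoldt d * bb V (n / d) : ℝ) : ℂ) * χ (n : ZMod q) := by
    intro n
    unfold v3
    rw [Complex.ofReal_sum, Finset.sum_mul]
  simp_rw [hL]
  rw [Finset.sum_sigma', Finset.sum_sigma']
  refine Finset.sum_bij' (fun x _ => ⟨x.1 / x.2, x.2⟩) (fun x _ => ⟨x.1 * x.2, x.2⟩) ?_ ?_ ?_ ?_ ?_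
  · rintro ⟨n, d⟩ h
    simp only [Finset.mem_sigma, Finset.mem_Ioc, Finset.mem_filter, Nat.mem_divisors,
      Finset.mem_Icc] at h ⊢
    obtain ⟨⟨h1, h2⟩, ⟨h3, h4⟩, h5, h6⟩ := h
    have hmul : n / d * d = n := Nat.div_mul_cancel h3
    have hd : 0 < d := by omega
    have hdn : d ≤ n := Nat.le_of_dvd (Nat.pos_of_ne_zero h4) h3
    refine ⟨⟨h6, ?_⟩, ⟨by omega, by omega⟩, ⟨by rw [hmul]; exact h1, by rw [hmul]; exact h2⟩, h5⟩
    calc n / d ≤ n := Nat.div_le_self n d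
      _ ≤ Y₂ := h2
      _ ≤ _ := hI
  · rintro ⟨k, d⟩ h
    simp only [Finset.mem_sigma, Finset.mem_Ioc, Finset.mem_filter, Nat.mem_divisors,
      Finset.mem_Icc] at h ⊢
    obtain ⟨⟨h1, h2⟩, ⟨h3, h4⟩, ⟨h5, h6⟩, h7⟩ := h
    have hd : 0 < d := by omega
    refine ⟨⟨h5, h6⟩, ⟨Dvd.intro_left k rfl, by omega⟩, h7, ?_⟩
    rw [Nat.mul_div_cancel k hd]
    exact h1
  · rintro ⟨n, d⟩ h
    simp only [Finset.mem_sigma, Finset.mem_Ioc, Finset.mem_filter, Nat.mem_divisors] at h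
    simp only [Nat.div_mul_cancel h.2.1.1]
  · rintro ⟨k, d⟩ h
    simp only [Finset.mem_sigma, Finset.mem_Ioc, Finset.mem_filter, Finset.mem_Icc] at h
    have hd : 0 < d := by omega
    simp only [Nat.mul_div_cancel k hd]
  · rintro ⟨n, d⟩ h
    simp only [Finset.mem_sigma, Finset.mem_Ioc, Finset.mem_filter, Nat.mem_divisors] at h
    have hmul : n / d * d = n := Nat.div_mul_cancel h.2.1.1
    have hχ : χ (n : ZMod q) = χ ((n / d : ℕ) : ZMod q) * χ (d : ZMod q) := by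
      rw [← map_mul, ← Nat.cast_mul, hmul]
    simp only
    rw [hχ]
    push_cast
    ring

theorem dyadic {E : Type*} [AddCommMonoid E] (f : ℕ → E) (V I : ℕ) :
    ∑ k ∈ Ioc V (2 ^ I * V), f k
      = ∑ i ∈ range I, ∑ k ∈ Ioc (2 ^ i * V) (2 * (2 ^ i * V)), f k := by
  induction I with
  | zero => simp
  | succ I ih =>
    rw [Finset.sum_range_succ, ← ih]
    have h1 : V ≤ 2 ^ I * V := Nat.le_mul_of_pos_left V (by positivity)
    have h2 : 2 ^ I * V ≤ 2 * (2 ^ I * V) := by omega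
    have h3 : 2 ^ (I + 1) * V = 2 * (2 ^ I * V) := by ring
    rw [h3, Finset.sum_Ioc_consecutive f h1 h2]

theorem filter_eq (Y₁ Y₂ K k : ℕ) (hK : 1 ≤ K) (hk : K < k) :
    (Icc 1 Y₂).filter (fun d => Y₁ < k * d ∧ k * d ≤ Y₂)
      = (Icc 1 (Y₂ / K + 1)).filter (fun d => Y₁ < k * d ∧ k * d ≤ Y₂) := by
  ext d
  simp only [Finset.mem_filter, Finset.mem_Icc]
  constructor
  · rintro ⟨⟨h1, _⟩, h3, h4⟩
    refine ⟨⟨h1, ?_⟩, h3, h4⟩
    have : d ≤ Y₂ / K := by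
      rw [Nat.le_div_iff_mul_le (by omega)]
      calc d * K ≤ d * k := Nat.mul_le_mul_left d hk.le
        _ = k * d := Nat.mul_comm d k
        _ ≤ Y₂ := h4
    omega
  · rintro ⟨⟨h1, _⟩, h3, h4⟩
    refine ⟨⟨h1, ?_⟩, h3, h4⟩
    calc d = 1 * d := (Nat.one_mul d).symm
      _ ≤ k * d := Nat.mul_le_mul_right d (by omega)
      _ ≤ Y₂ := h4

theorem sum_eq_blk {q : ℕ} (χ : DirichletCharacter ℂ q) (U V Y₁ Y₂ I : ℕ) (hV : 1 ≤ V)
    (hI : Y₂ ≤ 2 ^ I * V) :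
    ∑ n ∈ Ioc Y₁ Y₂, ((v3 U V n : ℝ) : ℂ) * χ (n : ZMod q)
      = ∑ i ∈ range I, blk χ U V Y₁ Y₂ (2 ^ i * V) (Y₂ / (2 ^ i * V) + 1) := by
  rw [v3_sum χ U V Y₁ Y₂ I hI, dyadic]
  apply Finset.sum_congr rfl
  intro i _
  unfold blk
  apply Finset.sum_congr rfl
  intro k hk
  have hK : 1 ≤ 2 ^ i * V := Nat.mul_pos (by positivity) (by omega)
  rw [filter_eq Y₁ Y₂ (2 ^ i * V) k hK (Finset.mem_Ioc.mp hk).1]

/-- the blocks with `K U > Y₂` vanish -/
theorem blk_zero {q : ℕ} (χ : DirichletCharacter ℂ q) (U V Y₁ Y₂ K M : ℕ) (h : Y₂ < K * U) :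
    blk χ U V Y₁ Y₂ K M = 0 := by
  unfold blk
  apply Finset.sum_eq_zero
  intro k hk
  apply Finset.sum_eq_zero
  intro d hd
  have hk1 := (Finset.mem_Ioc.mp hk).1
  have hd1 := (Finset.mem_filter.mp hd).2.2
  have hUd : ¬ U < d := by
    intro hc
    have : K * U ≤ k * d := Nat.mul_le_mul hk1.le hc.le
    omega
  unfold bf
  rw [if_neg hUd]
  simp

theorem bf_sq (U M : ℕ) : ∑ d ∈ Icc 1 M, (bf U d) ^ 2 ≤ M * (Real.log M) ^ 2 := by
  have h1 : ∀ d ∈ Icc 1 M, (bf U d) ^ 2 ≤ (Real.log M) ^ 2 := by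
    intro d hd
    obtain ⟨hd1, hd2⟩ := Finset.mem_Icc.mp hd
    have hd1' : (1 : ℝ) ≤ d := by exact_mod_cast hd1
    have hd2' : (d : ℝ) ≤ M := by exact_mod_cast hd2
    have h0 : 0 ≤ bf U d := by
      unfold bf
      split_ifs
      · exact ArithmeticFunction.vonMangoldt_nonneg
      · exact le_refl 0
    have h2 : bf U d ≤ Real.log M := by
      unfold bf
      split_ifs
      · exact (ArithmeticFunction.vonMangoldt_le_log).trans
          (Real.log_le_log (by linarith) hd2')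
      · exact Real.log_nonneg (by linarith)
    exact pow_le_pow_left₀ h0 h2 2
  calc ∑ d ∈ Icc 1 M, (bf U d) ^ 2 ≤ ∑ d ∈ Icc 1 M, (Real.log M) ^ 2 := Finset.sum_le_sum h1
    _ = M * (Real.log M) ^ 2 := by
        rw [Finset.sum_const, Nat.card_Icc, nsmul_eq_mul]
        norm_num

theorem bb_sq (hDIV : SpecDIV) (hCCB : SpecCCB) (V K : ℕ) (hK : 1 ≤ K) :
    ∑ k ∈ Ioc K (2 * K), (bb V k) ^ 2 ≤ (2 * K : ℕ) * (1 + Real.log (2 * K : ℕ)) ^ 3 := by
  refine le_trans ?_ (hDIV (2 * K) (by omega))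
  calc ∑ k ∈ Ioc K (2 * K), (bb V k) ^ 2
      ≤ ∑ k ∈ Ioc K (2 * K), (k.divisors.card : ℝ) ^ 2 := by
        apply Finset.sum_le_sum
        intro k _
        rw [← sq_abs]
        exact pow_le_pow_left₀ (abs_nonneg _) (hCCB.2 V k) 2
    _ ≤ ∑ k ∈ Icc 1 (2 * K), (k.divisors.card : ℝ) ^ 2 := by
        apply Finset.sum_le_sum_of_subset_of_nonneg
        · intro k hk
          have := Finset.mem_Ioc.mp hk
          exact Finset.mem_Icc.mpr ⟨by omega, this.2⟩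
        · intro k _ _
          positivity

/-- the numerical bound for one block -/
theorem num_bound {C K M R2 Y lM lK L : ℝ} {A B : ℝ} (hC : 0 < C) (hK : 0 < K) (hM : 0 < M)
    (hR : 0 ≤ R2) (hRK : R2 ≤ K) (hRM : R2 ≤ M) (hKM : K * M ≤ 2 * Y) (hL : 1 ≤ L) (hY : 0 < Y)
    (hlM0 : 0 ≤ lM) (hlM : 1 + lM ≤ 2 * L) (hlK0 : 0 ≤ 1 + lK) (hlK : 1 + lK ≤ 2 * L)
    (hA0 : 0 ≤ A) (hA : A ≤ 2 * K * (1 + lK) ^ 3) (hB0 : 0 ≤ B) (hB : B ≤ M * lM ^ 2) :
    C * (1 + lM) * √((K + R2) * (M + R2)) * √(A * B) ≤ 64 * C * Y * L ^ 4 := by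
  have h1 : (K + R2) * (M + R2) ≤ 8 * Y := by
    calc (K + R2) * (M + R2) ≤ (K + K) * (M + M) := by
          apply mul_le_mul <;> linarith
      _ = 4 * (K * M) := by ring
      _ ≤ 8 * Y := by linarith
  have h2 : A * B ≤ 128 * Y * L ^ 5 := by
    calc A * B ≤ (2 * K * (1 + lK) ^ 3) * (M * lM ^ 2) := by
          apply mul_le_mul hA hB hB0 (by positivity)
      _ ≤ (2 * K * (2 * L) ^ 3) * (M * (2 * L) ^ 2) := by
          apply mul_le_mul
          · apply mul_le_mul_of_nonneg_left _ (by positivity)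
            exact pow_le_pow_left₀ hlK0 hlK 3
          · apply mul_le_mul_of_nonneg_left _ hM.le
            exact pow_le_pow_left₀ hlM0 (by linarith) 2
          · positivity
          · positivity
      _ = 64 * L ^ 5 * (K * M) := by ring
      _ ≤ 64 * L ^ 5 * (2 * Y) := by
          apply mul_le_mul_of_nonneg_left hKM (by positivity)
      _ = 128 * Y * L ^ 5 := by ring
  have h3 : √((K + R2) * (M + R2)) * √(A * B) ≤ 32 * Y * L ^ 3 := by
    rw [← Real.sqrt_mul (by positivity)]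
    apply Real.sqrt_le_iff.mpr
    refine ⟨by positivity, ?_⟩
    have h5 : L ^ 5 ≤ L ^ 6 := pow_le_pow_right₀ hL (by norm_num)
    calc (K + R2) * (M + R2) * (A * B) ≤ (8 * Y) * (128 * Y * L ^ 5) := by
          apply mul_le_mul h1 h2 (by positivity) (by positivity)
      _ = 1024 * Y ^ 2 * L ^ 5 := by ring
      _ ≤ 1024 * Y ^ 2 * L ^ 6 := by
          apply mul_le_mul_of_nonneg_left h5 (by positivity)
      _ = (32 * Y * L ^ 3) ^ 2 := by ring
  calc C * (1 + lM) * √((K + R2) * (M + R2)) * √(A * B)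
      = C * (1 + lM) * (√((K + R2) * (M + R2)) * √(A * B)) := by ring
    _ ≤ C * (2 * L) * (32 * Y * L ^ 3) := by
        apply mul_le_mul _ h3 (by positivity) (by positivity)
        exact mul_le_mul_of_nonneg_left hlM hC.le
    _ = 64 * C * Y * L ^ 4 := by ring

end

end Pool.Agent.Lib.MP_d1f1b5_nt.TB.TYBM

namespace Pool.Agent.Lib.MP_d1f1b5_nt.TB

open Finset Filter Topology
open scoped Classical

noncomputable section

theorem specTYB (hBIL : SpecBIL) (hDIV : SpecDIV) (hCCB : SpecCCB) : SpecTYB := by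
  obtain ⟨C, hC, HB⟩ := hBIL
  refine ⟨128 * C, by positivity, ?_⟩
  intro R U V Y₁ Y₂ hR hRU hRV hY hY2 hUV
  have hR2 : 1 ≤ R ^ 2 := Nat.one_le_pow _ _ (by omega)
  have hU1 : 1 ≤ U := hR2.trans hRU
  have hV1 : 1 ≤ V := hR2.trans hRV
  have hY2' : (2 : ℝ) ≤ Y₂ := by exact_mod_cast hY2
  have hY0 : (0 : ℝ) < Y₂ := by linarith
  set L : ℝ := 1 + Real.log Y₂ with hLdef
  have hlY : 0 < Real.log Y₂ := Real.log_pos (by linarith)
  have hL1 : 1 ≤ L := by rw [hLdef]; linarith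
  have hl2 : Real.log 2 < 0.6931471808 := Real.log_two_lt_d9
  have hl2' : 0.6931471803 < Real.log 2 := Real.log_two_gt_d9
  -- the number of blocks
  set I : ℕ := Nat.log 2 Y₂ + 1 with hIdef
  have hIY : Y₂ ≤ 2 ^ I * V := by
    have h1 : Y₂ < 2 ^ I := Nat.lt_pow_succ_log_self (by norm_num) Y₂
    calc Y₂ ≤ 2 ^ I := h1.le
      _ ≤ 2 ^ I * V := Nat.le_mul_of_pos_right _ hV1
  have hIL : (I : ℝ) ≤ 2 * L := by
    have h1 : 2 ^ Nat.log 2 Y₂ ≤ Y₂ := Nat.pow_log_le_self 2 (by omega)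
    have h2 : (2 : ℝ) ^ Nat.log 2 Y₂ ≤ Y₂ := by exact_mod_cast h1
    have h3 : (Nat.log 2 Y₂ : ℝ) * Real.log 2 ≤ Real.log Y₂ := by
      rw [← Real.log_pow]
      exact Real.log_le_log (by positivity) h2
    have h4 : (0 : ℝ) ≤ (Nat.log 2 Y₂ : ℝ) := Nat.cast_nonneg _
    rw [hIdef, hLdef]
    push_cast
    nlinarith
  -- reduction to the blocks
  have hred : ∑ q ∈ PR R, dsum q (fun χ => ‖∑ n ∈ Ioc Y₁ Y₂,
        ((v3 U V n : ℝ) : ℂ) * χ (n : ZMod q)‖)
      ≤ ∑ q ∈ PR R, ∑ i ∈ range I, dsum q (fun χ =>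
          ‖TYBM.blk χ U V Y₁ Y₂ (2 ^ i * V) (Y₂ / (2 ^ i * V) + 1)‖) := by
    apply Finset.sum_le_sum
    intro q _
    apply TYBM.dsum_le_sum
    intro χ
    rw [TYBM.sum_eq_blk χ U V Y₁ Y₂ I hV1 hIY]
    exact norm_sum_le _ _
  refine hred.trans ?_
  rw [Finset.sum_comm]
  have hblk : ∀ i ∈ range I, ∑ q ∈ PR R, dsum q (fun χ =>
      ‖TYBM.blk χ U V Y₁ Y₂ (2 ^ i * V) (Y₂ / (2 ^ i * V) + 1)‖) ≤ 64 * C * Y₂ * L ^ 4 := by
    intro i _
    set K : ℕ := 2 ^ i * V with hKdef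
    set M : ℕ := Y₂ / K + 1 with hMdef
    have hVK : V ≤ K := Nat.le_mul_of_pos_left V (by positivity)
    have hK1 : 1 ≤ K := hV1.trans hVK
    rcases lt_or_ge Y₂ (K * U) with hlt | hge
    · have h0 : ∀ q ∈ PR R, dsum q (fun χ => ‖TYBM.blk χ U V Y₁ Y₂ K M‖) = 0 := by
        intro q _
        have : (fun χ : DirichletCharacter ℂ q => ‖TYBM.blk χ U V Y₁ Y₂ K M‖)
            = fun _ => 0 := by
          funext χ
          rw [TYBM.blk_zero χ U V Y₁ Y₂ K M hlt, norm_zero]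
        rw [this, TYBM.dsum_zero]
      rw [Finset.sum_eq_zero h0]
      positivity
    · have hdm := Nat.div_add_mod Y₂ K
      have hml := Nat.mod_lt Y₂ (show K > 0 by omega)
      have hKM1 : Y₂ ≤ K * M := by
        rw [hMdef, Nat.mul_add, Nat.mul_one]
        omega
      have hKY : K ≤ Y₂ := (Nat.le_mul_of_pos_right K hU1).trans hge
      have hKM2 : K * M ≤ 2 * Y₂ := by
        rw [hMdef, Nat.mul_add, Nat.mul_one]
        have : K * (Y₂ / K) ≤ Y₂ := Nat.mul_div_le Y₂ K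
        omega
      have hUM : U ≤ M := by
        have : U ≤ Y₂ / K := by
          rw [Nat.le_div_iff_mul_le (by omega), Nat.mul_comm]
          exact hge
        omega
      have hM1 : 1 ≤ M := hU1.trans hUM
      have hMY : M ≤ 2 * Y₂ := by
        calc M = 1 * M := (Nat.one_mul M).symm
          _ ≤ K * M := Nat.mul_le_mul_right M hK1
          _ ≤ 2 * Y₂ := hKM2
      refine (HB R K M Y₁ Y₂ (bb V) (TYBM.bf U) hR hK1 hM1 hY hKM1).trans ?_
      have hK1' : (1 : ℝ) ≤ K := by exact_mod_cast hK1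
      have hM1' : (1 : ℝ) ≤ M := by exact_mod_cast hM1
      have hMY' : (M : ℝ) ≤ 2 * Y₂ := by exact_mod_cast hMY
      have hKY' : (K : ℝ) ≤ Y₂ := by exact_mod_cast hKY
      have hlog2Y : Real.log (2 * (Y₂ : ℝ)) = Real.log 2 + Real.log Y₂ :=
        Real.log_mul (by norm_num) hY0.ne'
      have hlM : Real.log M ≤ Real.log 2 + Real.log Y₂ := by
        rw [← hlog2Y]
        exact Real.log_le_log (by linarith) hMY'
      have hlM0 : 0 ≤ Real.log M := Real.log_nonneg hM1'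
      have hlK : Real.log ((2 * K : ℕ) : ℝ) ≤ Real.log 2 + Real.log Y₂ := by
        rw [← hlog2Y]
        push_cast
        exact Real.log_le_log (by linarith) (by linarith)
      have hlK0 : 0 ≤ Real.log ((2 * K : ℕ) : ℝ) := by
        apply Real.log_nonneg
        push_cast
        linarith
      have hA := TYBM.bb_sq hDIV hCCB V K hK1
      have hB := TYBM.bf_sq U M
      have hRK : ((R : ℝ)) ^ 2 ≤ K := by exact_mod_cast hRV.trans hVK
      have hRM : ((R : ℝ)) ^ 2 ≤ M := by exact_mod_cast hRU.trans hUM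
      have hKM' : (K : ℝ) * M ≤ 2 * Y₂ := by exact_mod_cast hKM2
      apply TYBM.num_bound (lK := Real.log ((2 * K : ℕ) : ℝ)) hC (by linarith) (by linarith)
        (by positivity) hRK hRM hKM' hL1 hY0 hlM0 (by rw [hLdef]; linarith)
        (by linarith) (by rw [hLdef]; linarith)
        (Finset.sum_nonneg (fun k _ => sq_nonneg _)) _
        (Finset.sum_nonneg (fun k _ => sq_nonneg _)) hB
      refine hA.trans (le_of_eq ?_)
      push_cast
      ring
  calc ∑ i ∈ range I, ∑ q ∈ PR R, dsum q (fun χ =>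
      ‖TYBM.blk χ U V Y₁ Y₂ (2 ^ i * V) (Y₂ / (2 ^ i * V) + 1)‖)
      ≤ ∑ i ∈ range I, 64 * C * Y₂ * L ^ 4 := Finset.sum_le_sum hblk
    _ = I * (64 * C * Y₂ * L ^ 4) := by
        rw [Finset.sum_const, Finset.card_range, nsmul_eq_mul]
    _ ≤ (2 * L) * (64 * C * Y₂ * L ^ 4) := by
        apply mul_le_mul_of_nonneg_right hIL (by positivity)
    _ = 128 * C * Y₂ * L ^ 5 := by ring

end

end Pool.Agent.Lib.MP_d1f1b5_nt.TB
end

section
/-!
# VAU: Vaughan's identity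
-/
set_option autoImplicit false

namespace Pool.Agent.Lib.MP_d1f1b5_nt.TB

open Finset Filter Topology
open scoped Classical

noncomputable section

namespace VAUM

/-- a truncated arithmetic function -/
def tr (P : ℕ → Prop) (f : ArithmeticFunction ℝ) : ArithmeticFunction ℝ :=
  ⟨fun n => if P n then f n else 0, by simp⟩

theorem tr_apply (P : ℕ → Prop) (f : ArithmeticFunction ℝ) (n : ℕ) :
    tr P f n = if P n then f n else 0 := rfl

theorem tr_add (P : ℕ → Prop) (f : ArithmeticFunction ℝ) :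
    tr P f + tr (fun n => ¬ P n) f = f := by
  ext n
  rw [ArithmeticFunction.add_apply, tr_apply, tr_apply]
  by_cases h : P n
  · rw [if_pos h, if_neg (not_not.2 h), add_zero]
  · rw [if_neg h, if_pos h, zero_add]

theorem mul_eq (f g : ArithmeticFunction ℝ) (n : ℕ) :
    (f * g) n = ∑ d ∈ n.divisors, f d * g (n / d) := by
  rw [ArithmeticFunction.mul_apply]
  exact Nat.sum_divisorsAntidiagonal (fun x y => f x * g y)

/-- the Moebius function with real values -/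
abbrev mu : ArithmeticFunction ℝ := (ArithmeticFunction.moebius : ArithmeticFunction ℝ)

/-- the constant function -/
abbrev ze : ArithmeticFunction ℝ := (ArithmeticFunction.zeta : ArithmeticFunction ℝ)

theorem mu_apply (n : ℕ) : mu n = (ArithmeticFunction.moebius n : ℝ) :=
  ArithmeticFunction.intCoe_apply

theorem ze_apply (n : ℕ) (h : n ≠ 0) : ze n = 1 := by
  rw [ArithmeticFunction.natCoe_apply, ArithmeticFunction.zeta_apply, if_neg h, Nat.cast_one]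

theorem key (U V : ℕ) : tr (fun n => ¬ n ≤ U) ArithmeticFunction.vonMangoldt +
      (tr (fun n => n ≤ V) mu * tr (fun n => n ≤ U) ArithmeticFunction.vonMangoldt) * ze =
    tr (fun n => n ≤ V) mu * ArithmeticFunction.log +
      tr (fun n => ¬ n ≤ U) ArithmeticFunction.vonMangoldt * (tr (fun n => ¬ n ≤ V) mu * ze) := by
  have h1 := tr_add (fun n => n ≤ V) mu
  have h2 := tr_add (fun n => n ≤ U) ArithmeticFunction.vonMangoldt
  have h3 : ArithmeticFunction.vonMangoldt * ze = ArithmeticFunction.log :=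
    ArithmeticFunction.vonMangoldt_mul_zeta
  have h4 : mu * ze = 1 := ArithmeticFunction.coe_moebius_mul_coe_zeta
  generalize tr (fun n => n ≤ V) mu = mL at h1 ⊢
  generalize tr (fun n => ¬ n ≤ V) mu = mG at h1 ⊢
  generalize tr (fun n => n ≤ U) ArithmeticFunction.vonMangoldt = LL at h2 ⊢
  generalize tr (fun n => ¬ n ≤ U) ArithmeticFunction.vonMangoldt = LG at h2 ⊢
  linear_combination (-LG) * h4 - LG * ze * h1 + mL * ze * h2 + mL * h3

theorem v1_eq (V n : ℕ) : (tr (fun n => n ≤ V) mu * ArithmeticFunction.log) n = v1 V n := by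
  rw [mul_eq, v1, Finset.sum_filter]
  refine Finset.sum_congr rfl fun d _ => ?_
  rw [tr_apply]
  by_cases h : d ≤ V
  · rw [if_pos h, if_pos h, mu_apply, ArithmeticFunction.log_apply]
  · rw [if_neg h, if_neg h, zero_mul]

theorem cc_eq (U V e : ℕ) :
    (tr (fun n => n ≤ V) mu * tr (fun n => n ≤ U) ArithmeticFunction.vonMangoldt) e =
      cc U V e := by
  rw [mul_eq, cc, Finset.sum_filter]
  refine Finset.sum_congr rfl fun d _ => ?_
  rw [tr_apply, tr_apply]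
  by_cases h : d ≤ V
  · by_cases h' : e / d ≤ U
    · rw [if_pos h, if_pos h', if_pos ⟨h, h'⟩, mu_apply]
    · rw [if_neg h', mul_zero, if_neg fun h2 => h' h2.2]
  · rw [if_neg h, zero_mul, if_neg fun h2 => h h2.1]

theorem cc_zero (U V e : ℕ) (he : ¬ e ≤ U * V) : cc U V e = 0 := by
  rw [cc]
  refine Finset.sum_eq_zero fun d hd => ?_
  rw [Finset.mem_filter] at hd
  obtain ⟨h1, h2, h3⟩ := hd
  exfalso
  apply he
  rw [← Nat.div_mul_cancel (Nat.dvd_of_mem_divisors h1)]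
  exact Nat.mul_le_mul h3 h2

theorem v2_eq (U V n : ℕ) :
    ((tr (fun n => n ≤ V) mu * tr (fun n => n ≤ U) ArithmeticFunction.vonMangoldt) * ze) n =
      v2 U V n := by
  rw [mul_eq, v2, Finset.sum_filter]
  refine Finset.sum_congr rfl fun d hd => ?_
  have h0 : n / d ≠ 0 := by
    have h1 := Nat.dvd_of_mem_divisors hd
    have h2 : n ≠ 0 := (Nat.mem_divisors.1 hd).2
    exact Nat.div_ne_zero_iff_of_dvd h1 |>.2 ⟨h2, fun h3 => h2 (by
      rw [h3] at h1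
      exact Nat.eq_zero_of_zero_dvd h1)⟩
  rw [cc_eq, ze_apply _ h0, mul_one]
  by_cases h : d ≤ U * V
  · rw [if_pos h]
  · rw [if_neg h, cc_zero U V d h]

theorem bb_eq (V k : ℕ) : (tr (fun n => ¬ n ≤ V) mu * ze) k = bb V k := by
  rw [mul_eq, bb, Finset.sum_filter]
  refine Finset.sum_congr rfl fun d hd => ?_
  have h0 : k / d ≠ 0 := by
    have h1 := Nat.dvd_of_mem_divisors hd
    have h2 : k ≠ 0 := (Nat.mem_divisors.1 hd).2
    exact Nat.div_ne_zero_iff_of_dvd h1 |>.2 ⟨h2, fun h3 => h2 (by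
      rw [h3] at h1
      exact Nat.eq_zero_of_zero_dvd h1)⟩
  rw [tr_apply, ze_apply _ h0, mul_one]
  by_cases h : d ≤ V
  · rw [if_neg (not_not.2 h), if_neg (not_lt.2 h)]
  · rw [if_pos h, if_pos (not_le.1 h), mu_apply]

theorem bb_zero (V k : ℕ) (h : k ≤ V) : bb V k = 0 := by
  rw [bb]
  refine Finset.sum_eq_zero fun d hd => ?_
  rw [Finset.mem_filter] at hd
  exact absurd ((Nat.divisor_le hd.1).trans h) (not_le.2 hd.2)

theorem v3_eq (U V n : ℕ) :
    (tr (fun n => ¬ n ≤ U) ArithmeticFunction.vonMangoldt *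
      (tr (fun n => ¬ n ≤ V) mu * ze)) n = v3 U V n := by
  rw [mul_eq, v3, Finset.sum_filter]
  refine Finset.sum_congr rfl fun d _ => ?_
  rw [bb_eq, tr_apply]
  by_cases h : d ≤ U
  · rw [if_neg (not_not.2 h), zero_mul, if_neg fun h2 => absurd h2.1 (not_lt.2 h)]
  · rw [if_pos h]
    by_cases h' : V < n / d
    · rw [if_pos ⟨not_le.1 h, h'⟩]
    · rw [if_neg fun h2 => h' h2.2, bb_zero V _ (not_lt.1 h'), mul_zero]

end VAUM

open VAUM in
theorem specVAU : SpecVAU := by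
  intro U V n _ _ hn
  have h := DFunLike.congr_fun (key U V) n
  rw [ArithmeticFunction.add_apply, ArithmeticFunction.add_apply, v1_eq, v2_eq, v3_eq, tr_apply,
    if_pos (not_le.2 hn)] at h
  linarith

end

end Pool.Agent.Lib.MP_d1f1b5_nt.TB
end
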