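import Pool.Agent.Lib.MP_d1f1b5_nt.TB.Defs

/-!
# Statements of the modules of the project TB

Every module file `TB/XXX.lean` imports `Pool.Agent.Lib.MP_d1f1b5_nt.TB.Spec` and proves
`theorem specXXX (hYYY : SpecYYY) ... : SpecXXX` in the namespace `Pool.Agent.Lib.MP_d1f1b5_nt.TB`,
with its own lemmas in the namespace `...TB.XXXM`. Any Spec may be used as a hypothesis.
Notation in the comments: `Λ` von Mangoldt, `μ` Moebius, `τ` number of divisors, `e(x) = exp(2πix)`,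
`F(p,q) = (p^q-1)/(p-1)`.
-/

set_option autoImplicit false

namespace Pool.Agent.Lib.MP_d1f1b5_nt.TB

open Finset Filter Topology
open scoped Classical

noncomputable section

/-! ## Block A: elementary facts on `F(p,q)` -/

/-- SIZ. Size: for `3 ≤ q < p`, `F(q,p)` does not divide `F(p,q)`, because `0 < F(p,q) < F(q,p)`.
Proof. `F(q,p) = ∑_{i<p} q^i ≥ q^(p-1)` and `F(p,q) (p-1) = p^q - 1 < p^q`.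
`p^q < q^p` for `3 ≤ q < p`: induction on `p ≥ q+1` starting from the equality at `p = q`; the step is
`(p+1)^q ≤ 3 p^q ≤ q p^q` since `(1+1/p)^q ≤ (1+1/q)^q < 3` for `p ≥ q` (or `one_add_one_div_pow_lt`-like bounds:
`(1+1/p)^q ≤ exp(q/p) ≤ exp 1 < 3`). So `F(p,q) (p-1) < q^p = q·q^(p-1) ≤ (p-1) q^(p-1)`. -/
def SpecSIZ : Prop := ∀ p q : ℕ, p.Prime → q.Prime → 3 ≤ q → q < p → ¬ Bad q p

/-- CLS. If `F(p,q) ∣ F(q,p)` then `p` avoids the residues in `EE q l` for every prime `l < p`.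
Proof. `l ∤ p`. Let `l ≡ 1 (q)`, `x = (p : ZMod l)`, `x^q = 1`, `x ≠ 1`. Then `l ∣ F(p,q)` (as
`(p-1)F(p,q) = p^q - 1`), so `l ∣ F(q,p)` and `(q : ZMod l)^p = 1` (`QR.FF_pow`). As `1 < q < l`, `q` has order `p`
modulo `l`, so `p ∣ l-1` and `p < l`, contradiction. (`QR.FF_eq` translates `(p^q-1)/(p-1)` into `QR.FF p q`.) -/
def SpecCLS : Prop := ∀ p q l : ℕ, p.Prime → q.Prime → p ≠ 2 → q ≠ 2 → p ≠ q → Bad p q →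
  l.Prime → l < p → p % l ∉ EE q l

/-- ECD. `EE q l` pulled back by `m ↦ a + q² m` has `q` elements if `l ≡ 1 mod q`, else one.
Proof. `q²` is invertible modulo `l`, so `m ↦ (a+q²m) % l` is a bijection of `range l`. For `l ≡ 1 mod q`
there are exactly `q - 1` elements `≠ 1` with `r^q = 1` in the cyclic group `(ZMod l)ˣ` of order
`l - 1` divisible by `q` (`IsCyclic.card_pow_eq_one_eq_orderOf`-type lemmas or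
`HasEnoughRootsOfUnity`), and `0` is one more. -/
def SpecECD : Prop := ∀ q l a : ℕ, q.Prime → q ≠ 2 → l.Prime → l ≠ q →
  ((range l).filter (fun m => (a + q ^ 2 * m) % l ∈ EE q l)).card = if l % q = 1 then q else 1

/-- KUM (from `KU.kummer`, `KU.ee_congr`, `KU.ee_card`, `QR.FF_eq`). The residues modulo `q²` of the
elements of `Bq q X` lie in a set of at most `q - 2` residues. -/
def SpecKUM : Prop := ∀ q : ℕ, q.Prime → q ≠ 2 → ∃ 𝒞 : Finset ℕ, 𝒞 ⊆ range (q ^ 2) ∧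
  𝒞.card ≤ q - 2 ∧ ∀ X : ℕ, ∀ p ∈ Bq q X, p % q ^ 2 ∈ 𝒞

/-! ## Block B: the sieve -/

/-- MLS. Montgomery's large sieve. Let `S(α) = ∑_{n∈A} e(nα)`, `ω_l = #(E l)`.
CLAIM: for `d` squarefree with all prime factors in `P` and every real `β`,
`∑_{1≤a≤d, (a,d)=1} |S(β + a/d)|² ≥ |S(β)|² ∏_{l∣d} ω_l/(l-ω_l)`.
Induction on the number of prime factors. `d = l`: `∑_{a=0}^{l-1} |S(β+a/l)|² = l ∑_{h mod l} |∑_{n∈A,n≡h} e(nβ)|²`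
`≥ l |S(β)|²/(l-ω_l)` by Cauchy-Schwarz (at most `l-ω_l` classes `h` occur); subtract the term `a = 0`.
`d = d'l`: by the Chinese remainder theorem `a/d` runs modulo 1 through the `a'/d' + a''/l`, so apply the
case `l` at the points `β + a'/d'` and then the induction hypothesis.
(It is convenient to prove the claim for coefficients: `∑_{n∈A} c_n e(na/d)`, all `c : ℕ → ℂ`.)
Take `β = 0` and sum over `2 ≤ d ≤ Q`: the points `a/d`, `1 ≤ a < d`, `(a,d)=1` are in `[1/Q, 1-1/Q]` and differ by at least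
`1/Q²`, so `H71.large_sieve` (with `δ = 1/Q²`) gives `≤ (Q² + 4πN) #A`. The term `d = 1` is `#A² ≤ 2N #A`. Divide by `#A`
(`A` empty is trivial). Compare `Pool/Agent/Lib/MP_51d91b_nt/Sieve.lean` (the case of prime `d`). -/
def SpecMLS : Prop := ∃ C : ℝ, 0 < C ∧ ∀ (A : Finset ℕ) (N Q : ℕ) (P : Finset ℕ) (E : ℕ → Finset ℕ),
  1 ≤ N → 1 ≤ Q → (∀ n ∈ A, n ≤ N) →
  (∀ l ∈ P, l.Prime ∧ E l ⊆ range l ∧ (E l).card < l ∧ ∀ n ∈ A, n % l ∉ E l) →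
  (A.card : ℝ) * ∑ d ∈ (Icc 1 Q).filter (fun d => Squarefree d ∧ d.primeFactors ⊆ P),
      ∏ l ∈ d.primeFactors, ((E l).card : ℝ) / ((l : ℝ) - (E l).card)
    ≤ C * ((N : ℝ) + (Q : ℝ) ^ 2)

/-- SEL. `∑_{b≤x, (b,m)=1} μ²(b)/φ(b) ≥ (φ(m)/m) log x`.
Proof. `1/φ(b) = ∏_{p∣b} (1/p + 1/p² + ...)`, so the sum is at least `∑_{n≤x,(n,m)=1} 1/n` (the radical of `n`
is `≤ x`). And `(m/φ(m)) ∑_{n≤x,(n,m)=1} 1/n = ∏_{p∣m}(1-1/p)⁻¹ ∑ 1/n ≥ ∑_{n≤x} 1/n ≥ log x`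
(induction on the set of primes dividing `m`: `∑_{n≤x,(n,m)=1} 1/n ≤ ∑_{j≥0} p^(-j) ∑_{n≤x,(n,mp)=1} 1/n`). See also the
proof of `SpecSELB` in `Lib/MP_391708_nt/QPA/Selb.lean`. -/
def SpecSEL : Prop := ∀ (m : ℕ) (x : ℝ), 1 ≤ m → 1 ≤ x →
  ((m.totient : ℝ) / m) * Real.log x
    ≤ ∑ b ∈ (Icc 1 ⌊x⌋₊).filter (fun b => Squarefree b ∧ Nat.Coprime b m), 1 / (b.totient : ℝ)

/-- RAN. Rankin's trick. Let `η = 1/log z`. The subsets `T ⊆ S` with `∏T > y` contribute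
`∑_T ∏_T w ≤ y^(-η) ∏_{l∈S} (1 + w_l l^η)`, and `l^η = exp(log l/log z) ≤ 1 + 2 log l/log z` (as `e^t ≤ 1+2t` on `[0,1]`),
so `1 + w_l l^η ≤ (1+w_l)(1 + 2 w_l log l/log z) ≤ (1+w_l) exp(2 w_l log l/log z)`, hence the product is
`≤ e^(2C₁) ∏ (1+w_l)`. As `y^(-η) ≤ exp(-2C₁-1)` the contribution is `≤ e⁻¹ ∏(1+w_l) ≤ ½ ∏(1+w_l)`; and the sum over all `T` is
`∏_{l∈S} (1+w_l)` (`Finset.prod_one_add`). -/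
def SpecRAN : Prop := ∀ (S : Finset ℕ) (w : ℕ → ℝ) (C₁ z y : ℝ), 0 ≤ C₁ → 2 ≤ z → 1 ≤ y →
  (∀ l ∈ S, 2 ≤ l ∧ (l : ℝ) ≤ z ∧ 0 ≤ w l) → ∑ l ∈ S, w l * Real.log l ≤ C₁ * Real.log z →
  (2 * C₁ + 1) * Real.log z ≤ Real.log y →
  (1 / 2) * ∏ l ∈ S, (1 + w l)
    ≤ ∑ T ∈ S.powerset.filter (fun T => ((∏ l ∈ T, l : ℕ) : ℝ) ≤ y), ∏ l ∈ T, w l

/-- GLB (from SEL). Lower bound for the sieve sum. For squarefree `d` with prime factors in `P`: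
`∏_{l∣d} g_l ≥ ∏_{l∣d} (1/(l-1) + h_l 1_{l∈S}) = ∑_{T ⊆ S, ∏T ∣ d} (∏_{l∈T} h_l) / φ(d/∏T)`. Keep only the pairs
`(T, b = d/∏T)` with `∏T ≤ D` and `b ≤ D`; conversely every `T ⊆ S` with `∏T ≤ D` and every squarefree
`b ≤ D` coprime to `q∏T` give a squarefree `d = b∏T ≤ D²` with prime factors in `P`, and `(T,b)` is determined by
`(T,d)`. For fixed `T` the sum over `b` of `1/φ(b)` is `≥ (φ(m)/m) log D` with `m = q∏T` by SEL and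
`φ(m)/m = (1-1/q) ∏_{l∈T} (1-1/l)`. -/
def SpecGLB : Prop := ∀ (q D : ℕ) (S P : Finset ℕ) (g h : ℕ → ℝ), q.Prime → 1 ≤ D →
  (∀ l, l ∈ P ↔ l.Prime ∧ l ≤ D ^ 2 ∧ l ≠ q) → (∀ l ∈ S, l.Prime ∧ l ≠ q) →
  (∀ l ∈ P, 1 / ((l : ℝ) - 1) ≤ g l) → (∀ l ∈ S, 0 ≤ h l ∧ 1 / ((l : ℝ) - 1) + h l ≤ g l) →
  (1 - 1 / (q : ℝ)) * Real.log D *
      ∑ T ∈ S.powerset.filter (fun T => ((∏ l ∈ T, l : ℕ) : ℝ) ≤ D), ∏ l ∈ T, (h l * (1 - 1 / (l : ℝ)))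
    ≤ ∑ d ∈ (Icc 1 (D ^ 2)).filter (fun d => Squarefree d ∧ d.primeFactors ⊆ P),
        ∏ l ∈ d.primeFactors, g l

/-- PEX. `∏_{l∈S} (1 + w_l) ≥ exp(∑_{l∈S} (q-1)/l - 4)`, `w_l = ((q-1)/l)(1-1/l) ∈ [0,1]`.
Proof. `log(1+w) ≥ w - w²/2`; the `l ∈ S` are different numbers `1 + kq`, `k ≥ 1`, so `∑ (q-1)/l² ≤ ∑_k q/(kq)² ≤ 2` and
`∑ w_l²/2 ≤ ½∑_k 1/k² ≤ 1`. -/
def SpecPEX : Prop := ∀ (q : ℕ) (S : Finset ℕ), 3 ≤ q → (∀ l ∈ S, q < l ∧ l % q = 1) →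
  Real.exp (∑ l ∈ S, ((q : ℝ) - 1) / l - 4)
    ≤ ∏ l ∈ S, (1 + ((q : ℝ) - 1) / l * (1 - 1 / (l : ℝ)))

/-- BQ (from CLS, ECD, KUM, MLS, RAN, GLB, PEX). Put `D = ⌊(X/q²)^(1/4)⌋`; `log D ≥ (1/6) log X` because
`X/q² ≥ X^(4/5)` and `X^(1/5) - 1 ≥ X^(1/6)` for `X ≥ 3^10`. Elements `p ≤ √X` of `Bq q X`: at most `√X`. The others are `p = a + q²m`
with `a ∈ 𝒞` (KUM), `m ≤ N := ⌊X/q²⌋`. For fixed `a` the set `A` of these `m` satisfies the hypotheses of MLS with `Q = D²`,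
`P` = primes `≤ D²` different from `q`, `E l = {m ∈ range l : (a+q²m) % l ∈ EE q l}` (`D² ≤ √X/q < p`, so `l < p` and CLS
applies; `#E l < l` by ECD). Hence `#A ≤ C (X/q² + D⁴)/G ≤ 2CX/(q²G)`, `G = ∑_d ∏ g_l`, `g_l = #E l/(l-#E l)`, and
`#Bq ≤ √X + (q-2)·2CX/(q²G) ≤ √X + 2CX/(qG)`.
`g_l = 1/(l-1)` for `l ≢ 1 (q)`, `g_l = q/(l-q) ≥ 1/(l-1) + (q-1)/l` for `l ≡ 1 (q)` (the difference is
`q²/(l(l-q)) - 1/(l(l-1)) ≥ 0`). GLB with `h_l = (q-1)/l`, RAN with `w_l = h_l(1-1/l)`, `y = D`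
(`∑ w_l log l ≤ ∑ q log l/l ≤ C₁ log z` and `(2C₁+1) log z ≤ (1/6) log X ≤ log D`), PEX:
`G ≥ (1-1/q)(1/6) log X · ½ · exp(∑_{l∈S} (q-1)/l - 4)`. -/
def SpecBQ : Prop := ∃ C : ℝ, 0 < C ∧ ∀ (q X : ℕ) (C₁ z : ℝ) (S : Finset ℕ), q.Prime → q ≠ 2 →
  q ^ 10 ≤ X → 1 ≤ C₁ → 2 ≤ z → (∀ l ∈ S, l.Prime ∧ l % q = 1 ∧ (l : ℝ) ≤ z) →
  ∑ l ∈ S, (q : ℝ) * Real.log l / l ≤ C₁ * Real.log z →
  (12 * C₁ + 12) * Real.log z ≤ Real.log X →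
  ((Bq q X).card : ℝ)
    ≤ C * X / (q * Real.log X) * Real.exp (-∑ l ∈ S, ((q : ℝ) - 1) / l) + √(X : ℝ)

/-- BTS (from the Brun-Titchmarsh inequality `QPA.specBT` of `Lib/MP_391708_nt/QPA/Bt.lean` and `QPA.specSELB` of
`Lib/MP_391708_nt/QPA/Selb.lean`, which may be imported; namespace `Pool.Agent.Lib.MP391708.QPA`). For `Y ≥ q²` the number of primes `l ≡ 1 (q)` in `(Y,2Y]` is at most `C Y/(q log Y)`: BT with `y = (Y/q)^(1/4)`, `z = Y`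
(a prime `> Y` is `Y`-rough), `φ(q) ≥ q/2`, `Y/q ≥ √Y`; if `Y/q < 16` the number is at most `17`, and `q ≤ 16`.
So `∑_{l≡1(q), Y<l≤2Y} q log l/l ≤ C'`, and there are `≤ C'' log z` dyadic intervals between `q²` and `z`. -/
def SpecBTS : Prop := ∃ C₁ : ℝ, 1 ≤ C₁ ∧ ∀ (q : ℕ) (z : ℝ), q.Prime → 2 ≤ z →
  ∑ l ∈ P1 q ((q : ℝ) ^ 2) z, (q : ℝ) * Real.log l / l ≤ C₁ * Real.log z

/-! ## Block C: primes `≡ 1 mod q` for almost all `q` -/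

/-- VAU. Vaughan's identity `Λ_{>U} = μ_{≤V}*log - (μ_{≤V}*Λ_{≤U})*1 + (μ_{>V}*1)*Λ_{>U}`.
Proof. `Λ_{>U} = Λ_{>U}*μ*1 = (μ_{≤V} + μ_{>V})*1*Λ_{>U}` and `μ_{≤V}*1*Λ_{>U} = μ_{≤V}*1*Λ - μ_{≤V}*1*Λ_{≤U}`, `1*Λ = log`
(`ArithmeticFunction.vonMangoldt_mul_zeta`, `ArithmeticFunction.moebius_mul_coe_zeta`). The terms
with `e > UV` in `v2`, `n/d ≤ V` in `v3` are `0`. Here `U < n`, so `Λ_{>U}(n) = Λ(n)`. -/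
def SpecVAU : Prop := ∀ U V n : ℕ, 1 ≤ U → 1 ≤ V → U < n →
  ArithmeticFunction.vonMangoldt n = v1 V n - v2 U V n + v3 U V n

/-- CCB. `|cc U V e| ≤ ∑_{d∣e} Λ(e/d) = log e`, `|bb V k| ≤ τ(k)`. -/
def SpecCCB : Prop := (∀ U V e : ℕ, 1 ≤ e → |cc U V e| ≤ Real.log e) ∧
  ∀ V k : ℕ, |bb V k| ≤ (k.divisors.card : ℝ)

/-- DIV. `∑_{k≤x} τ(k)² ≤ x (1+log x)³`. Proof. `τ(n)² = ∑_{de=n} τ(de) ≤ ∑_{de=n} τ(d)τ(e)`, so the sum is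
`≤ ∑_{d≤x} τ(d) ∑_{e≤x/d} τ(e) ≤ ∑_{d≤x} τ(d) (x/d)(1+log x)`, and `∑_{d≤x} τ(d)/d ≤ (∑_{d≤x} 1/d)² ≤ (1+log x)²`. -/
def SpecDIV : Prop := ∀ x : ℕ, 1 ≤ x →
  ∑ k ∈ Icc 1 x, (k.divisors.card : ℝ) ^ 2 ≤ x * (1 + Real.log x) ^ 3

/-- LSI. The multiplicative large sieve for prime moduli, with complex coefficients on any interval.
Proof. For a prime `q`: `∑_{χ≠1} |∑ a_n χ(n)|² ≤ ∑_{1≤a<q} |∑ a_n e(na/q)|²`: for `χ ≠ 1`,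
`τ(χ̄) ∑ a_n χ(n) = ∑_{a mod q} χ̄(a) S(a/q)`, `|τ(χ̄)|² = q`, and by orthogonality
`∑_χ |∑_a χ̄(a) S(a/q)|² = (q-1) ∑_{(a,q)=1} |S(a/q)|²` (see `H71.char_le` and its proof for one character, and
`QPA/LS.lean`). Then `H71.large_sieve` with `δ = 1/(4R²)` and `H71.frac_sep`; the translation of the interval
`(M, M+N]` to `|n| ≤ N` multiplies `S(a/q)` by a number of absolute value `1`. -/
def SpecLSI : Prop := ∃ C : ℝ, 0 < C ∧ ∀ (R M N : ℕ) (a : ℕ → ℂ), 1 ≤ R → 1 ≤ N →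
  ∑ q ∈ PR R, dsum q (fun χ => ‖∑ n ∈ Ioc M (M + N), a n * χ (n : ZMod q)‖ ^ 2)
    ≤ C * ((N : ℝ) + (R : ℝ) ^ 2) * ∑ n ∈ Ioc M (M + N), ‖a n‖ ^ 2

/-- DFT. Finite Fourier expansion of the indicator of an interval: `c_h = (1/M) ∑_{m∈(a,b]} e(-hm/M)`;
`|c_h| ≤ 1` and `|c_h| ≤ 2/(M |1-e(h/M)|) ≤ 1/(2 min(h,M-h))` for `1 ≤ h < M` (geometric sum, `|sin πx| ≥ 2x` on `[0,1/2]`). -/
def SpecDFT : Prop := ∃ C : ℝ, 0 < C ∧ ∀ M a b : ℕ, 1 ≤ M → a ≤ b → b ≤ M → ∃ c : ℕ → ℂ,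
  (∀ h < M, ‖c h‖ ≤ C / (1 + ((min h (M - h) : ℕ) : ℝ))) ∧
  ∀ n : ℕ, 1 ≤ n → n ≤ M →
    ∑ h ∈ range M, c h * Complex.exp (2 * Real.pi * Complex.I * ((h : ℂ) * n / M))
      = if a < n ∧ n ≤ b then 1 else 0

/-- BIL (from LSI, DFT). For `k ∈ (K,2K]` the `d ∈ [1,M]` with `Y₁ < kd ≤ Y₂` are those in `(Y₁/k, Y₂/k]`, and
`Y₂/k ≤ M`. Replace the indicator by `∑_h c_h(k) e(hd/M)` (DFT), `|c_h(k)| ≤ C/(1+min(h,M-h))`: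
the inner double sum is `∑_h (∑_k a_k c_h(k) χ(k)) (∑_d b_d e(hd/M) χ(d))`. Cauchy-Schwarz over `(q,χ)` and LSI
twice (`(K,2K] = Ioc K (K+K)`, `[1,M] = Ioc 0 (0+M)`), then `∑_{h<M} 1/(1+min(h,M-h)) ≤ C(1+log M)`. -/
def SpecBIL : Prop := ∃ C : ℝ, 0 < C ∧ ∀ (R K M Y₁ Y₂ : ℕ) (a b : ℕ → ℝ), 1 ≤ R → 1 ≤ K → 1 ≤ M →
  Y₁ ≤ Y₂ → Y₂ ≤ K * M →
  ∑ q ∈ PR R, dsum q (fun χ => ‖∑ k ∈ Ioc K (2 * K),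
      ∑ d ∈ (Icc 1 M).filter (fun d => Y₁ < k * d ∧ k * d ≤ Y₂),
        ((a k * b d : ℝ) : ℂ) * (χ (k : ZMod q) * χ (d : ZMod q))‖)
    ≤ C * (1 + Real.log M) * √(((K : ℝ) + (R : ℝ) ^ 2) * ((M : ℝ) + (R : ℝ) ^ 2))
        * √((∑ k ∈ Ioc K (2 * K), (a k) ^ 2) * ∑ d ∈ Icc 1 M, (b d) ^ 2)

/-- TYA (from CCB). Type I sums. For `χ ≠ 1` modulo the prime `q` every sum of `χ` over an interval is `≤ q` in absolute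
value (period `q`, complete sums vanish), so by partial summation `|∑_{k∈I} χ(k) log k| ≤ 2q log Y` for `I ⊆ [1,Y]`. Hence
`|∑ v1 χ| ≤ ∑_{d≤V} |∑_k χ(k) log k| ≤ 2Vq log Y₂` and `|∑ v2 χ| ≤ ∑_{e≤UV} |cc e| q ≤ q UV log(UV)`. -/
def SpecTYA : Prop := ∀ (q U V Y₁ Y₂ : ℕ) [NeZero q] (χ : DirichletCharacter ℂ q), q.Prime → χ ≠ 1 →
  1 ≤ U → 1 ≤ V → Y₁ ≤ Y₂ → 1 ≤ Y₂ →
  ‖∑ n ∈ Ioc Y₁ Y₂, ((v1 V n - v2 U V n : ℝ) : ℂ) * χ (n : ZMod q)‖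
    ≤ 3 * q * U * V * (1 + Real.log Y₂ + Real.log (U * V))

/-- TYB (from BIL, DIV, CCB). Type II sums. `n = kd`, `k = n/d > V`, `d > U`, so `k ≤ Y₂/U`. Cut the `k` into
`(K,2K]`, `K = 2^i V`, `K ≤ Y₂/U`; at most `2 + 2 log Y₂` values of `i`. For each put `M = Y₂/K + 1` (so `Y₂ ≤ KM ≤ 2Y₂`,
`M ≥ U ≥ R²`, `K ≥ V ≥ R²`), `a_k = bb V k` (cut at `k ≤ Y₂/U`), `b_d = Λ(d) 1_{d>U}`: BIL, `∑ a² ≤ 2K(1+log 2K)³` (DIV, CCB),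
`∑ b² ≤ M log² M`; the bound is `≤ C(1+log M)·√(4KM)·√(2KM)(1+log 2Y₂)^(5/2)`. -/
def SpecTYB : Prop := ∃ C : ℝ, 0 < C ∧ ∀ R U V Y₁ Y₂ : ℕ, 1 ≤ R → R ^ 2 ≤ U → R ^ 2 ≤ V → Y₁ ≤ Y₂ →
  2 ≤ Y₂ → U * V ≤ Y₂ →
  ∑ q ∈ PR R, dsum q (fun χ => ‖∑ n ∈ Ioc Y₁ Y₂, ((v3 U V n : ℝ) : ℂ) * χ (n : ZMod q)‖)
    ≤ C * Y₂ * (1 + Real.log Y₂) ^ 5

/-- MV (from VAU, TYA, TYB). Take `U = V = ⌊Y₁^(1/4)⌋ ≥ R²`. The number of pairs `(q,χ)` is `≤ R·2R`, so the type I part is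
`≤ 2R²·3·2R·Y₁^(1/2)·(1 + 2 log(3Y₁)) ≤ C Y₁ (1+log Y₁)` as `R³ ≤ Y₁^(3/10)`. All `n > Y₁ ≥ U`. -/
def SpecMV : Prop := ∃ C : ℝ, 0 < C ∧ ∀ R Y₁ Y₂ : ℕ, 1 ≤ R → R ^ 10 ≤ Y₁ → Y₁ ≤ Y₂ → Y₂ ≤ 3 * Y₁ →
  ∑ q ∈ PR R, dsum q (fun χ => ‖psiX χ Y₁ Y₂‖) ≤ C * Y₁ * (1 + Real.log Y₁) ^ 5

/-- GOO (from MV, `PntAP.psi_ap` with `q = 1`). Put `Y₁ = ⌊y⌋₊`, `Y₂ = ⌊(1+η)y⌋₊` (`Y₂ ≤ 3Y₁`; a natural number is in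
`(y,(1+η)y]` iff it is in `(Y₁,Y₂]`). For a prime `q ∈ (R,2R]`, by orthogonality
`(q-1) ∑_{n≡1(q)} Λ(n) ≥ ∑_{(n,q)=1} Λ(n) - ∑_{χ≠1} |psiX χ Y₁ Y₂|`, sums over `(Y₁,Y₂]`. The first sum is
`≥ (1-η/4)ηy` for large `y` (PNT; the `n` divisible by `q` contribute at most `log² Y₂`). The prime powers `n = l^k`, `k ≥ 2`, contribute at
most `C√y log y` to the left sum (`Chebyshev.abs_psi_sub_theta_le_sqrt_mul_log`), times `q-1 ≤ 2R ≤ 2y^(1/10)`: at most `(η²/4)y`. So if the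
bound in the set fails then `∑_{χ≠1} |psiX χ Y₁ Y₂| ≥ (η²/4) y`, and by MV there are at most `C (4/η²)(1+log y)⁵` such `q`. -/
def SpecGOO : Prop := ∀ η : ℝ, 0 < η → η ≤ 1 → ∃ C : ℝ, 0 < C ∧ ∃ y₀ : ℝ, ∀ (R : ℕ) (y : ℝ), 1 ≤ R →
  (R : ℝ) ^ 10 ≤ y → y₀ ≤ y →
  (((PR R).filter (fun q => ∑ l ∈ P1 q y ((1 + η) * y), Real.log l
      < (1 - η) * (η * y) / ((q : ℝ) - 1))).card : ℝ) ≤ C * (1 + Real.log y) ^ 5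

/-- CNT (from GOO). `#(BB η R) ≤ C √R`: if `R^10 ≥ y₀`, the number of `j` is at most `R^(1/12) + 1`, and each
contributes at most `C(1 + j log(1+η))⁵ ≤ C(1+R^(1/12))⁵` elements, in total `≤ C' R^(6/12)`. For the other `R`
use `#(PR R) ≤ R ≤ |y₀|`. -/
def SpecCNT : Prop := ∀ η : ℝ, 0 < η → η ≤ 1 → ∃ C : ℝ, 0 < C ∧ ∀ R : ℕ, 1 ≤ R →
  ((BB η R).card : ℝ) ≤ C * √(R : ℝ)

/-- LQ. For good `q` the sum of `(q-1)/l` over the primes `l ≡ 1 (q)`, `q² < l ≤ z` is large. Let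
`J₁ = ⌈10 log R/log(1+η)⌉`, `J₂ = ⌊min(log z/log(1+η), R^(1/12))⌋`. For `J₁ ≤ j < J₂` the interval `((1+η)^j, (1+η)^(j+1)]`
lies in `(R^10, z] ⊆ (q², z]` and, as `q ∉ BB η R`,
`∑_l (q-1)/l ≥ (q-1)/((1+η)^(j+1) (j+1) log(1+η)) · (1-η)η(1+η)^j/(q-1) ≥ ((1-η)/(1+η)) /(j+1)` since `log(1+η) ≤ η`
(use `1/l ≥ log l/(y log y)` for `l ≤ y = (1+η)^(j+1)`). Sum over `j`: `≥ (1-2η) log((J₂+1)/(J₁+1))` (this is `≤ 0` if `J₂ ≤ J₁`) and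
`J₂ + 1 ≥ min(log z, R^(1/12))` (as `log(1+η) ≤ 1`), `J₁ + 1 ≤ C_η log R`. If the logarithm on the left of the
statement is negative, the claim follows from `0 ≤` the sum. -/
def SpecLQ : Prop := ∀ η : ℝ, 0 < η → η ≤ 1 / 4 → ∃ C : ℝ, 0 < C ∧ ∀ (R q : ℕ) (z : ℝ), 2 ≤ R →
  q ∈ PR R → q ∉ BB η R → 2 ≤ z →
  (1 - 2 * η) * Real.log (min (Real.log z) ((R : ℝ) ^ (1 / 12 : ℝ)) / Real.log R) - C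
    ≤ ∑ l ∈ P1 q ((q : ℝ) ^ 2) z, ((q : ℝ) - 1) / l

/-- MER (from `PntAP.theta_ap_interval`). The same for a fixed odd prime `q`: choose `η` with `(1-η)/(1+η) ≥ 1-ε`; for
`j ≥ j₀(q,η)` the interval `((1+η)^j,(1+η)^(j+1)]` has `∑_{l≡1(q)} log l ≥ (1-η)η(1+η)^j/(q-1)`, so
`∑ (q-1)/l ≥ ((1-η)/(1+η))/(j+1)`, sum over `j₀ ≤ j < log z/log(1+η) - 1`. -/
def SpecMER : Prop := ∀ (q : ℕ) (ε : ℝ), q.Prime → q ≠ 2 → 0 < ε → ε < 1 → ∃ C : ℝ, ∀ z : ℝ, 3 ≤ z →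
  (1 - ε) * Real.log (Real.log z) - C ≤ ∑ l ∈ P1 q ((q : ℝ) ^ 2) z, ((q : ℝ) - 1) / l

/-! ## Block D: conclusion -/

/-- ONE (from BQ, BTS, LQ). `θ = 1/(12C₁+12)`, `z = X^θ ≥ R^10 ≥ 2`, `S = P1 q (q²) z` in BQ (`q ≤ 2R`, so
`q^10 ≤ R^20·... ≤ X`: from `R^10 ≤ X^θ`, `θ ≤ 1/24`, one gets `q^10 ≤ (2R)^10 ≤ R^20 ≤ X^(2θ) ≤ X`). With LQ
`exp(-∑_S (q-1)/l) ≤ e^C (log R/min(log z,R^(1/12)))^(1-2η) ≤ e^C ((log R/log z)^(1-2η) + (log R/R^(1/12))^(1-2η))`,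
`log z = θ log X`. -/
def SpecONE : Prop := ∀ η : ℝ, 0 < η → η ≤ 1 / 4 → ∃ C θ : ℝ, 0 < C ∧ 0 < θ ∧ θ ≤ 1 / 24 ∧
  ∀ R q X : ℕ, 2 ≤ R → q ∈ PR R → q ∉ BB η R → (R : ℝ) ^ 10 ≤ (X : ℝ) ^ θ →
  ((Bq q X).card : ℝ) ≤ C * X / (q * Real.log X) *
      ((Real.log R / Real.log X) ^ (1 - 2 * η) + (Real.log R / (R : ℝ) ^ (1 / 12 : ℝ)) ^ (1 - 2 * η))
    + √(X : ℝ)

/-- TRV (from BQ with `S = ∅`, `C₁ = 1`, `z = 2`, for `X ≥ 2^24`). For `q^10 ≤ X < 2^24` the prime `q` is `3` or `5` and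
`X ≤ C X/(q log X)`. -/
def SpecTRV : Prop := ∃ C : ℝ, 0 < C ∧ ∀ q X : ℕ, q.Prime → q ≠ 2 → q ^ 10 ≤ X →
  ((Bq q X).card : ℝ) ≤ C * X / (q * Real.log X) + √(X : ℝ)

/-- CHB (Chebyshev, e.g. from `PntAP.piAP_le` or Mathlib). -/
def SpecCHB : Prop := ∃ C : ℝ, 0 < C ∧ (∀ R : ℕ, 2 ≤ R → ((PR R).card : ℝ) ≤ C * R / Real.log R) ∧
  ∀ X : ℕ, 2 ≤ X → (((Icc 1 X).filter Nat.Prime).card : ℝ) ≤ C * X / Real.log X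

/-- FXQ (from BQ, BTS, MER). For a fixed odd prime `q`: `z = X^θ`, `θ = 1/(12C₁+12)`, `S = P1 q (q²) z`:
`#(Bq q X) ≤ C X/(q log X) · e^C' (θ log X)^(-(1-ε/2)) + √X ≤ X/(log X)^(2-ε)` for large `X`. -/
def SpecFXQ : Prop := ∀ (q : ℕ) (ε : ℝ), q.Prime → q ≠ 2 → 0 < ε → ε < 1 → ∃ X₀ : ℕ, ∀ X : ℕ, X₀ ≤ X →
  ((Bq q X).card : ℝ) ≤ X / (Real.log X) ^ (2 - ε)

/-- SUM (from ONE, TRV, CNT, CHB, FXQ). Put `η = ε/2·(1/2)` so that `1-2η ≥ 1-ε`, let `C, θ` be as in ONE, `δ₁ = θ/20`, so that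
for `q ∈ (R,2R]`, `q ≤ X^δ`: `R^10 ≤ X^(10δ) ≤ X^θ` and `q^10 ≤ X`. Choose `i₀ = i₀(δ)` large, `R = 2^i`. Then for `X ≥ X₀(δ)`
(1) `q ≤ 2^i₀` (FXQ with `ε = 1/2`): at most `2^i₀ X/(log X)^(3/2) ≤ δ^(1-ε) X/log X`;
(2) `q ∈ (2^i, 2^(i+1)]`, `i ≥ i₀`, `q ∈ BB`: by TRV and CNT at most `∑_i C√(2^i)(C X/(2^i log X) + √X) ≤ δ^(1-ε) X/log X`;
(3) good `q ∈ (2^i,2^(i+1)]`, `i ≥ i₀`: their number is `≤ C 2^i/i`, so ONE gives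
`≤ (CX/log X) ∑_i (1/i)[(i/log X)^(1-2η) + (i 2^(-i/12))^(1-2η)] + X^δ √X`; `∑_{i ≤ 2δ log X} i^(-2η) ≤ C_η (δ log X)^(1-2η)` gives
`C_η δ^(1-2η) X/log X`, and the second series is `≤ δ` if `i₀` is large. (`δ^(1-2η) ≤ δ^(1-ε)` as `δ ≤ 1`.) -/
def SpecSUM : Prop := ∀ ε : ℝ, 0 < ε → ε < 1 → ∃ C δ₁ : ℝ, 0 < C ∧ 0 < δ₁ ∧ δ₁ ≤ 1 / 20 ∧
  ∀ δ : ℝ, 0 < δ → δ ≤ δ₁ → ∃ X₀ : ℕ, ∀ X : ℕ, X₀ ≤ X →
    ∑ q ∈ (Icc 1 ⌊(X : ℝ) ^ δ⌋₊).filter (fun q => q.Prime ∧ q ≠ 2), ((Bq q X).card : ℝ)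
      ≤ C * δ ^ (1 - ε) * X / Real.log X

/-- FIN (from SUM, FXQ, SIZ, CHB). First part. For `δ ≤ δ₁`: the `p ≤ X^δ` are at most `X^δ` in number; for
`q ≤ X^δ < p` the relation `Bad q p` is impossible (SIZ), so `p ∈ Bq q X`: SUM. For `δ₁ < δ ≤ 1` use CHB:
the number of primes is `≤ C X/log X ≤ (C/δ₁) δ^(1-ε) X/log X` (`δ^(1-ε) ≥ δ ≥ δ₁`). Second part: FXQ. -/
def SpecFIN : Prop :=
  (∀ ε : ℝ, 0 < ε → ε < 1 → ∃ C : ℝ, 0 < C ∧ ∀ δ : ℝ, 0 < δ → δ ≤ 1 → ∃ X₀ : ℕ, ∀ X : ℕ, X₀ ≤ X →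
    ((((Icc 1 X).filter (fun p => p.Prime ∧ p ≠ 2 ∧ ∃ q : ℕ, q.Prime ∧ q ≠ 2 ∧ q ≠ p ∧
      (q : ℝ) ≤ (X : ℝ) ^ δ ∧ (Bad p q ∨ Bad q p))).card : ℕ) : ℝ)
      ≤ C * δ ^ (1 - ε) * X / Real.log X) ∧
  (∀ (q : ℕ) (ε : ℝ), q.Prime → q ≠ 2 → 0 < ε → ε < 1 → ∃ X₀ : ℕ, ∀ X : ℕ, X₀ ≤ X →
    ((Bq q X).card : ℝ) ≤ X / (Real.log X) ^ (2 - ε))

end

end Pool.Agent.Lib.MP_d1f1b5_nt.TB
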