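import Pool.Agent.Lib.MP_d1f1b5_nt.TB.Spec

/-!
# Module LSI: the multiplicative large sieve for prime moduli
-/

set_option autoImplicit false
set_option linter.all false

namespace Pool.Agent.Lib.MP_d1f1b5_nt.TB

open Finset Filter Topology
open scoped Classical

namespace LSIM

open Pool.Agent.Lib.MP_cb27ba_nt.H71 (G F)
open ZMod

variable {q : ℕ} [NeZero q]

theorem conj_char (χ : DirichletCharacter ℂ q) {l : ZMod q} (hl : IsUnit l) :
    (starRingEnd ℂ) (χ l) = χ l⁻¹ := by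
  obtain ⟨u, rfl⟩ := hl
  have h1 : χ (u : ZMod q) * χ ((u : ZMod q)⁻¹) = 1 := by
    rw [← map_mul, ZMod.mul_inv_of_unit _ u.isUnit, map_one]
  have h2 : χ (u : ZMod q) * (starRingEnd ℂ) (χ (u : ZMod q)) = 1 := by
    rw [Complex.mul_conj', χ.unit_norm_eq_one]
    norm_num
  have h3 : χ (u : ZMod q) ≠ 0 := by
    intro h
    rw [h, zero_mul] at h1
    exact zero_ne_one h1
  exact mul_left_cancel₀ h3 (h2.trans h1.symm)

/-- Parseval for the multiplicative characters -/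
theorem orth (f : ZMod q → ℂ) :
    ∑ χ : DirichletCharacter ℂ q, ‖∑ k, χ k * f k‖ ^ 2 =
      (q.totient : ℝ) * ∑ k ∈ univ.filter (fun k : ZMod q => IsUnit k), ‖f k‖ ^ 2 := by
  have h0 : ∀ χ : DirichletCharacter ℂ q, ∑ k, χ k * f k =
      ∑ k ∈ univ.filter (fun k : ZMod q => IsUnit k), χ k * f k := by
    intro χ
    rw [Finset.sum_filter]
    apply Finset.sum_congr rfl
    intro k _
    split_ifs with hk
    · rfl
    · rw [χ.map_nonunit hk, zero_mul]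
  set U := univ.filter (fun k : ZMod q => IsUnit k) with hU
  have key : (∑ χ : DirichletCharacter ℂ q, ((‖∑ k, χ k * f k‖ : ℂ)) ^ 2) =
      (q.totient : ℂ) * ∑ k ∈ U, ((‖f k‖ : ℂ)) ^ 2 := by
    have h1 : ∀ χ : DirichletCharacter ℂ q, ((‖∑ k, χ k * f k‖ : ℂ)) ^ 2 =
        ∑ l ∈ U, ∑ k ∈ U, (χ l⁻¹ * χ k) * (f k * (starRingEnd ℂ) (f l)) := by
      intro χ
      rw [h0, ← Complex.mul_conj', map_sum, Finset.mul_sum]
      apply Finset.sum_congr rfl
      intro l hl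
      rw [Finset.sum_mul]
      apply Finset.sum_congr rfl
      intro k _
      rw [map_mul, conj_char χ (Finset.mem_filter.mp hl).2]
      ring
    simp_rw [h1]
    rw [Finset.sum_comm, Finset.mul_sum]
    apply Finset.sum_congr rfl
    intro l hl
    rw [Finset.sum_comm]
    have h2 : ∀ k ∈ U, ∑ χ : DirichletCharacter ℂ q,
        (χ l⁻¹ * χ k) * (f k * (starRingEnd ℂ) (f l)) =
        if l = k then (q.totient : ℂ) * (f k * (starRingEnd ℂ) (f l)) else 0 := by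
      intro k _
      rw [← Finset.sum_mul, DirichletCharacter.sum_char_inv_mul_char_eq ℂ
        (Finset.mem_filter.mp hl).2 k]
      split_ifs with h
      · rfl
      · rw [zero_mul]
    rw [Finset.sum_congr rfl h2, Finset.sum_ite_eq U l, if_pos hl, Complex.mul_conj']
  exact_mod_cast key

theorem G_eq (hq : q.Prime) {ψ : DirichletCharacter ℂ q} (hψ : ψ ≠ 1) (k : ZMod q) :
    G ψ k = ψ⁻¹ k * G ψ 1 := by
  have : Fact q.Prime := ⟨hq⟩
  by_cases hk : k = 0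
  · rw [hk, Pool.Agent.Lib.MP_cb27ba_nt.H71.G_zero hψ,
      (ψ⁻¹).map_nonunit (by simp), zero_mul]
  · have hu : IsUnit k := isUnit_iff_ne_zero.mpr hk
    obtain ⟨u, rfl⟩ := hu
    have h := Pool.Agent.Lib.MP_cb27ba_nt.H71.G_unit_mul ψ u 1
    rw [mul_one] at h
    rw [h, MulChar.inv_apply, Ring.inverse_unit]

/-- the Gauss sum of a nonprincipal character modulo a prime -/
theorem norm_G_one (hq : q.Prime) {ψ : DirichletCharacter ℂ q} (hψ : ψ ≠ 1) :
    ‖G ψ 1‖ ^ 2 = q := by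
  have h4 := Pool.Agent.Lib.MP_cb27ba_nt.H71.parseval ψ
  rw [Pool.Agent.Lib.MP_cb27ba_nt.H71.sum_norm_sq] at h4
  have h5 : ∑ k, ‖G ψ k‖ ^ 2 = (Fintype.card (ZMod q)ˣ : ℝ) * ‖G ψ 1‖ ^ 2 := by
    rw [← Pool.Agent.Lib.MP_cb27ba_nt.H71.sum_norm_sq ψ⁻¹, Finset.sum_mul]
    apply Finset.sum_congr rfl
    intro k _
    rw [G_eq hq hψ k, norm_mul, mul_pow]
  rw [h5] at h4
  have hpos : (0 : ℝ) < (Fintype.card (ZMod q)ˣ : ℝ) := by exact_mod_cast Fintype.card_pos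
  have h6 : (Fintype.card (ZMod q)ˣ : ℝ) * ‖G ψ 1‖ ^ 2 = (Fintype.card (ZMod q)ˣ : ℝ) * q := by
    rw [h4]; ring
  exact mul_left_cancel₀ hpos.ne' h6

/-- exponential sum at `k / q` -/
noncomputable def S (M N : ℕ) (b : ℕ → ℂ) (k : ZMod q) : ℂ :=
  ∑ u ∈ Ioc M (M + N), b u * stdAddChar (k * (u : ZMod q))

theorem prim_eq (hq : q.Prime) {ψ : DirichletCharacter ℂ q} (hψ : ψ ≠ 1) (M N : ℕ) (b : ℕ → ℂ) :
    (q : ℝ) * ‖∑ u ∈ Ioc M (M + N), b u * ψ (u : ZMod q)‖ ^ 2 =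
      ‖∑ k, ψ⁻¹ k * S M N b (-k)‖ ^ 2 := by
  have e1 : (q : ℂ) * ∑ u ∈ Ioc M (M + N), b u * ψ (u : ZMod q) =
      G ψ 1 * ∑ k, ψ⁻¹ k * S M N b (-k) := by
    rw [Finset.mul_sum]
    have : ∀ u ∈ Ioc M (M + N), (q : ℂ) * (b u * ψ (u : ZMod q)) =
        ∑ k : ZMod q, b u * (G ψ k * stdAddChar (-(k * (u : ZMod q)))) := by
      intro u _
      rw [← Finset.mul_sum, Pool.Agent.Lib.MP_cb27ba_nt.H71.inversion]
      ring
    rw [Finset.sum_congr rfl this, Finset.sum_comm, Finset.mul_sum]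
    apply Finset.sum_congr rfl
    intro k _
    rw [G_eq hq hψ k]
    unfold S
    rw [Finset.mul_sum, Finset.mul_sum]
    apply Finset.sum_congr rfl
    intro u _
    rw [neg_mul]
    ring
  have hq0 : (0 : ℝ) < q := by exact_mod_cast Nat.pos_of_ne_zero (NeZero.ne q)
  have e2 : ‖(q : ℂ) * ∑ u ∈ Ioc M (M + N), b u * ψ (u : ZMod q)‖ ^ 2 =
      ‖G ψ 1 * ∑ k, ψ⁻¹ k * S M N b (-k)‖ ^ 2 := by rw [e1]
  rw [norm_mul, norm_mul, mul_pow, mul_pow, norm_G_one hq hψ, Complex.norm_natCast] at e2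
  have e3 : (q : ℝ) * ((q : ℝ) * ‖∑ u ∈ Ioc M (M + N), b u * ψ (u : ZMod q)‖ ^ 2) =
      (q : ℝ) * ‖∑ k, ψ⁻¹ k * S M N b (-k)‖ ^ 2 := by
    rw [← e2]; ring
  exact mul_left_cancel₀ hq0.ne' e3

/-- the sum over the nonprincipal characters modulo `q` -/
theorem prim_sum_le (hq : q.Prime) (M N : ℕ) (b : ℕ → ℂ) :
    ∑ ψ ∈ (univ : Finset (DirichletCharacter ℂ q)).filter (fun ψ => ψ ≠ 1),
      ‖∑ u ∈ Ioc M (M + N), b u * ψ (u : ZMod q)‖ ^ 2 ≤
      ∑ k ∈ univ.filter (fun k : ZMod q => IsUnit k), ‖S M N b k‖ ^ 2 := by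
  have hq0 : (0 : ℝ) < q := by exact_mod_cast Nat.pos_of_ne_zero (NeZero.ne q)
  have hmain : (q : ℝ) * ∑ ψ ∈ (univ : Finset (DirichletCharacter ℂ q)).filter (fun ψ => ψ ≠ 1),
      ‖∑ u ∈ Ioc M (M + N), b u * ψ (u : ZMod q)‖ ^ 2 ≤
      (q.totient : ℝ) * ∑ k ∈ univ.filter (fun k : ZMod q => IsUnit k), ‖S M N b k‖ ^ 2 := by
    rw [Finset.mul_sum]
    have h1 : ∀ ψ ∈ (univ : Finset (DirichletCharacter ℂ q)).filter (fun ψ => ψ ≠ 1),
        (q : ℝ) * ‖∑ u ∈ Ioc M (M + N), b u * ψ (u : ZMod q)‖ ^ 2 =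
          ‖∑ k, ψ⁻¹ k * S M N b (-k)‖ ^ 2 :=
      fun ψ hψ => prim_eq hq (Finset.mem_filter.mp hψ).2 M N b
    rw [Finset.sum_congr rfl h1]
    have h2 : ∑ ψ ∈ (univ : Finset (DirichletCharacter ℂ q)).filter (fun ψ => ψ ≠ 1),
        ‖∑ k, ψ⁻¹ k * S M N b (-k)‖ ^ 2 ≤ ∑ ψ : DirichletCharacter ℂ q,
        ‖∑ k, ψ⁻¹ k * S M N b (-k)‖ ^ 2 :=
      Finset.sum_le_sum_of_subset_of_nonneg (Finset.filter_subset _ _)
        (fun _ _ _ => by positivity)
    refine h2.trans ?_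
    have h3 : ∑ ψ : DirichletCharacter ℂ q, ‖∑ k, ψ⁻¹ k * S M N b (-k)‖ ^ 2 =
        ∑ ψ : DirichletCharacter ℂ q, ‖∑ k, ψ k * S M N b (-k)‖ ^ 2 :=
      Equiv.sum_comp (Equiv.inv (DirichletCharacter ℂ q))
        (fun ψ => ‖∑ k, ψ k * S M N b (-k)‖ ^ 2)
    rw [h3, orth]
    apply le_of_eq
    congr 1
    refine Finset.sum_nbij' (fun k => -k) (fun k => -k) ?_ ?_ ?_ ?_ ?_
    · intro k hk
      rw [Finset.mem_filter] at hk ⊢
      exact ⟨Finset.mem_univ _, hk.2.neg⟩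
    · intro k hk
      rw [Finset.mem_filter] at hk ⊢
      exact ⟨Finset.mem_univ _, hk.2.neg⟩
    · intro k _; exact neg_neg k
    · intro k _; exact neg_neg k
    · intro k _; rfl
  have h5 : (q.totient : ℝ) * ∑ k ∈ univ.filter (fun k : ZMod q => IsUnit k), ‖S M N b k‖ ^ 2 ≤
      q * ∑ k ∈ univ.filter (fun k : ZMod q => IsUnit k), ‖S M N b k‖ ^ 2 := by
    refine mul_le_mul_of_nonneg_right ?_ (Finset.sum_nonneg fun _ _ => by positivity)
    exact_mod_cast Nat.totient_le q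
  exact le_of_mul_le_mul_left (hmain.trans h5) hq0

/-- the trigonometric polynomial of the translated coefficients -/
theorem norm_S (M N : ℕ) (b : ℕ → ℂ) (j : ℕ) :
    ‖S M N b (j : ZMod q)‖ =
      ‖F (fun n => b (M + n.toNat)) ((Ioc 0 N).image (fun n : ℕ => (n : ℤ))) ((j : ℝ) / q)‖ := by
  rw [Pool.Agent.Lib.MP_cb27ba_nt.H71.F_eq_stdAddChar]
  have hinj : Set.InjOn (fun n : ℕ => (n : ℤ)) (Ioc 0 N : Finset ℕ) := fun a _ b _ h =>
    Int.ofNat_injective h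
  rw [Finset.sum_image hinj]
  have e : S M N b (j : ZMod q) = stdAddChar ((j : ZMod q) * (M : ZMod q)) *
      ∑ n ∈ Ioc 0 N, b (M + ((n : ℕ) : ℤ).toNat) * stdAddChar ((j : ZMod q) * (((n : ℕ) : ℤ) : ZMod q)) := by
    unfold S
    rw [Finset.mul_sum]
    refine Finset.sum_nbij' (fun u => u - M) (fun n => M + n) ?_ ?_ ?_ ?_ ?_
    · intro u hu
      rw [Finset.mem_Ioc] at hu ⊢
      omega
    · intro u hu
      rw [Finset.mem_Ioc] at hu ⊢
      omega
    · intro u hu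
      rw [Finset.mem_Ioc] at hu
      show M + (u - M) = u
      omega
    · intro u hu
      show M + u - M = u
      omega
    · intro u hu
      rw [Finset.mem_Ioc] at hu
      have h1 : M + (((u - M : ℕ) : ℤ)).toNat = u := by
        rw [Int.toNat_natCast]; omega
      rw [h1]
      have h2 : (j : ZMod q) * (u : ZMod q) = (j : ZMod q) * (M : ZMod q) +
          (j : ZMod q) * (((u - M : ℕ) : ℤ) : ZMod q) := by
        have : (u : ZMod q) = (M : ZMod q) + ((u - M : ℕ) : ZMod q) := by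
          rw [← Nat.cast_add]; congr 1; omega
        rw [this]
        push_cast
        ring
      rw [h2, AddChar.map_add_eq_mul]
      ring
  rw [e, norm_mul, AddChar.norm_apply, one_mul]

theorem S_units (hq : q.Prime) (M N : ℕ) (b : ℕ → ℂ) :
    ∑ k ∈ univ.filter (fun k : ZMod q => IsUnit k), ‖S M N b k‖ ^ 2 =
      ∑ j ∈ Ico 1 q, ‖F (fun n => b (M + n.toNat)) ((Ioc 0 N).image (fun n : ℕ => (n : ℤ)))
        ((j : ℝ) / q)‖ ^ 2 := by
  have : Fact q.Prime := ⟨hq⟩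
  refine Finset.sum_nbij' (fun k => k.val) (fun j => (j : ZMod q)) ?_ ?_ ?_ ?_ ?_
  · intro k hk
    rw [Finset.mem_filter] at hk
    rw [Finset.mem_Ico]
    refine ⟨Nat.pos_of_ne_zero ?_, ZMod.val_lt k⟩
    intro h
    exact hk.2.ne_zero ((ZMod.val_eq_zero k).mp h)
  · intro j hj
    rw [Finset.mem_Ico] at hj
    rw [Finset.mem_filter]
    refine ⟨Finset.mem_univ _, isUnit_iff_ne_zero.mpr ?_⟩
    intro h
    rw [ZMod.natCast_eq_zero_iff] at h
    have := Nat.le_of_dvd (by omega) h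
    omega
  · intro k _
    rw [ZMod.natCast_val, ZMod.cast_id', id]
  · intro j hj
    rw [Finset.mem_Ico] at hj
    exact ZMod.val_cast_of_lt hj.2
  · intro k _
    rw [← norm_S (q := q), ZMod.natCast_val, ZMod.cast_id', id]

end LSIM

open LSIM in
/-- LSI -/
theorem specLSI : SpecLSI := by
  refine ⟨16, by norm_num, ?_⟩
  intro R M N a hR hN
  have hRR : (1 : ℝ) ≤ R := by exact_mod_cast hR
  have hNR : (1 : ℝ) ≤ N := by exact_mod_cast hN
  set c : ℤ → ℂ := fun n => a (M + n.toNat) with hc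
  set T : Finset ℤ := (Ioc 0 N).image (fun n : ℕ => (n : ℤ)) with hT
  have hX : ∀ p ∈ PR R, p.Prime ∧ R ≤ p ∧ p ≤ 2 * R := by
    intro p hp
    unfold PR at hp
    rw [Finset.mem_filter, Finset.mem_Ioc] at hp
    exact ⟨hp.2, hp.1.1.le, hp.1.2⟩
  have h1 : ∑ q ∈ PR R, dsum q (fun χ => ‖∑ n ∈ Ioc M (M + N), a n * χ (n : ZMod q)‖ ^ 2) ≤
      ∑ p ∈ PR R, ∑ j ∈ Finset.Ico 1 p, ‖Pool.Agent.Lib.MP_cb27ba_nt.H71.F c T ((j : ℝ) / p)‖ ^ 2 := by
    refine Finset.sum_le_sum fun p hp => ?_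
    have hp1 := (hX p hp).1
    haveI : NeZero p := ⟨hp1.ne_zero⟩
    rw [dsum_eq, ← S_units hp1]
    exact prim_sum_le hp1 M N a
  refine h1.trans ?_
  rw [Finset.sum_sigma']
  have hsum : ∑ n ∈ T, ‖c n‖ ^ 2 = ∑ n ∈ Ioc M (M + N), ‖a n‖ ^ 2 := by
    have hinj : Set.InjOn (fun n : ℕ => (n : ℤ)) (Ioc 0 N : Finset ℕ) := fun a _ b _ h =>
      Int.ofNat_injective h
    rw [hT, Finset.sum_image hinj]
    refine Finset.sum_nbij' (fun n => M + n) (fun u => u - M) ?_ ?_ ?_ ?_ ?_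
    · intro u hu
      rw [Finset.mem_Ioc] at hu ⊢
      omega
    · intro u hu
      rw [Finset.mem_Ioc] at hu ⊢
      omega
    · intro u hu
      show M + u - M = u
      omega
    · intro u hu
      rw [Finset.mem_Ioc] at hu
      show M + (u - M) = u
      omega
    · intro u hu
      simp [hc]
  have h2 := Pool.Agent.Lib.MP_cb27ba_nt.H71.large_sieve c T (N := N) (by linarith) (by
      intro n hn
      rw [hT, Finset.mem_image] at hn
      obtain ⟨m, hm, rfl⟩ := hn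
      rw [Finset.mem_Ioc] at hm
      have : (m : ℝ) ≤ N := by exact_mod_cast hm.2
      rw [Int.cast_natCast, abs_of_nonneg (by positivity)]
      exact this) ((PR R).sigma (fun p => Finset.Ico 1 p))
    (fun r => (r.2 : ℝ) / r.1) (δ := 1 / (4 * (R : ℝ) ^ 2)) (by positivity) ?_ ?_
  · refine h2.trans ?_
    rw [one_div_one_div, hsum]
    refine mul_le_mul_of_nonneg_right ?_ (Finset.sum_nonneg fun _ _ => by positivity)
    have hpi := Real.pi_lt_four
    nlinarith [mul_le_mul_of_nonneg_right hpi.le (by linarith : (0:ℝ) ≤ N), sq_nonneg (R : ℝ)]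
  · intro r hr s hs hrs
    rw [Finset.mem_sigma] at hr hs
    have h3 := Pool.Agent.Lib.MP_cb27ba_nt.H71.frac_sep (hX _ hr.1).1 (hX _ hs.1).1 hr.2 hs.2 (by
      intro h
      apply hrs
      have h4 := congrArg Prod.fst h
      have h5 := congrArg Prod.snd h
      dsimp only at h4 h5
      exact Sigma.ext h4 (heq_of_eq h5))
    refine le_trans ?_ h3
    have p1 : (0 : ℝ) < r.1 := by exact_mod_cast (hX _ hr.1).1.pos
    have p2 : (0 : ℝ) < s.1 := by exact_mod_cast (hX _ hs.1).1.pos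
    apply one_div_le_one_div_of_le (by positivity)
    have i1 : (r.1 : ℝ) ≤ 2 * R := by exact_mod_cast (hX _ hr.1).2.2
    have i2 : (s.1 : ℝ) ≤ 2 * R := by exact_mod_cast (hX _ hs.1).2.2
    calc (r.1 : ℝ) * s.1 ≤ (2 * R) * (2 * R) := mul_le_mul i1 i2 p2.le (by positivity)
      _ = 4 * (R : ℝ) ^ 2 := by ring
  · intro r hr
    rw [Finset.mem_sigma, Finset.mem_Ico] at hr
    have p1 : (0 : ℝ) < r.1 := by exact_mod_cast (hX _ hr.1).1.pos
    have i1 : (r.1 : ℝ) ≤ 2 * R := by exact_mod_cast (hX _ hr.1).2.2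
    have i2 : (1 : ℝ) ≤ r.2 := by exact_mod_cast hr.2.1
    have i3 : (r.2 : ℝ) + 1 ≤ r.1 := by exact_mod_cast hr.2.2
    have hd : 1 / (4 * (R : ℝ) ^ 2) / 2 ≤ 1 / r.1 := by
      have : 1 / (4 * (R : ℝ) ^ 2) / 2 = 1 / (8 * (R : ℝ) ^ 2) := by
        field_simp
        norm_num
      rw [this]
      apply one_div_le_one_div_of_le p1
      nlinarith
    have hd2 : 1 / (r.1 : ℝ) ≤ (r.2 : ℝ) / r.1 := div_le_div_of_nonneg_right i2 p1.le
    have hd3 : (r.2 : ℝ) / r.1 ≤ 1 - 1 / r.1 := by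
      rw [div_le_iff₀ p1, sub_mul, one_mul, one_div, inv_mul_cancel₀ p1.ne']
      linarith
    constructor
    · linarith
    · linarith

end Pool.Agent.Lib.MP_d1f1b5_nt.TB
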