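import Pool.Agent.Lib.MP_d1f1b5_nt.TB.Spec

section
/-!
# LQ: the sum of `(q-1)/l` over the primes `l ≡ 1 mod q` is large for good `q`
-/
set_option autoImplicit false

namespace Pool.Agent.Lib.MP_d1f1b5_nt.TB

open Finset Filter Topology
open scoped Classical

namespace LQM

theorem mem_P1 {q : ℕ} {x y : ℝ} (hy : 0 ≤ y) {l : ℕ} :
    l ∈ P1 q x y ↔ l.Prime ∧ l % q = 1 ∧ x < (l : ℝ) ∧ (l : ℝ) ≤ y := by
  unfold P1
  rw [Finset.mem_filter, Finset.mem_Icc, Nat.le_floor_iff hy]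
  constructor
  · rintro ⟨⟨_, h2⟩, h3, h4, h5⟩
    exact ⟨h3, h4, h5, h2⟩
  · rintro ⟨h3, h4, h5, h2⟩
    exact ⟨⟨h3.one_lt.le, h2⟩, h3, h4, h5⟩

/-- splitting the range -/
theorem sum_split (q : ℕ) {x y z : ℝ} (hx : 0 ≤ x) (hxy : x ≤ y) (hyz : y ≤ z) (f : ℕ → ℝ) :
    ∑ l ∈ P1 q x z, f l = ∑ l ∈ P1 q x y, f l + ∑ l ∈ P1 q y z, f l := by
  have hd : Disjoint (P1 q x y) (P1 q y z) := by
    rw [Finset.disjoint_left]
    intro l h1 h2
    rw [mem_P1 (hx.trans hxy)] at h1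
    rw [mem_P1 ((hx.trans hxy).trans hyz)] at h2
    linarith [h1.2.2.2, h2.2.2.1]
  rw [← Finset.sum_union hd]
  congr 1
  ext l
  rw [Finset.mem_union, mem_P1 (hx.trans hxy), mem_P1 ((hx.trans hxy).trans hyz),
    mem_P1 ((hx.trans hxy).trans hyz)]
  constructor
  · rintro ⟨h1, h2, h3, h4⟩
    by_cases h : (l : ℝ) ≤ y
    · exact Or.inl ⟨h1, h2, h3, h⟩
    · exact Or.inr ⟨h1, h2, lt_of_not_ge h, h4⟩
  · rintro (⟨h1, h2, h3, h4⟩ | ⟨h1, h2, h3, h4⟩)
    · exact ⟨h1, h2, h3, h4.trans hyz⟩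
    · exact ⟨h1, h2, lt_of_le_of_lt hxy h3, h4⟩

/-- monotonicity in the range -/
theorem sum_mono (q : ℕ) {x x' y y' : ℝ} (hy : 0 ≤ y) (hxx : x' ≤ x) (hyy : y ≤ y')
    (f : ℕ → ℝ) (hf : ∀ l, 0 ≤ f l) :
    ∑ l ∈ P1 q x y, f l ≤ ∑ l ∈ P1 q x' y', f l := by
  apply Finset.sum_le_sum_of_subset_of_nonneg
  · intro l hl
    rw [mem_P1 hy] at hl
    rw [mem_P1 (hy.trans hyy)]
    exact ⟨hl.1, hl.2.1, lt_of_le_of_lt hxx hl.2.2.1, hl.2.2.2.trans hyy⟩
  · intro l _ _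
    exact hf l

/-- one interval -/
theorem one_interval {η : ℝ} (hη : 0 < η) (hη4 : η ≤ 1 / 4) {q : ℕ} (hq : 2 ≤ q) (j : ℕ)
    (h : (1 - η) * (η * (1 + η) ^ j) / ((q : ℝ) - 1)
      ≤ ∑ l ∈ P1 q ((1 + η) ^ j) ((1 + η) ^ (j + 1)), Real.log l) :
    (1 - 2 * η) * (1 / ((j : ℝ) + 1))
      ≤ ∑ l ∈ P1 q ((1 + η) ^ j) ((1 + η) ^ (j + 1)), ((q : ℝ) - 1) / l := by
  have hq' : (2 : ℝ) ≤ q := by exact_mod_cast hq
  have ha : 1 < 1 + η := by linarith
  have hL : 0 < Real.log (1 + η) := Real.log_pos ha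
  have hLη : Real.log (1 + η) ≤ η := by
    have := Real.log_le_sub_one_of_pos (x := 1 + η) (by linarith)
    linarith
  have hj : (0 : ℝ) < (j : ℝ) + 1 := by positivity
  have hpow : 0 < (1 + η) ^ (j + 1) := by positivity
  have hpowj : 0 < (1 + η) ^ j := by positivity
  have hlogy : Real.log ((1 + η) ^ (j + 1)) = ((j : ℝ) + 1) * Real.log (1 + η) := by
    rw [Real.log_pow]
    push_cast
    ring
  -- lower bound of each term
  have h1 : ∀ l ∈ P1 q ((1 + η) ^ j) ((1 + η) ^ (j + 1)),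
      ((q : ℝ) - 1) / ((1 + η) ^ (j + 1) * (((j : ℝ) + 1) * Real.log (1 + η))) * Real.log l
        ≤ ((q : ℝ) - 1) / l := by
    intro l hl
    rw [mem_P1 hpow.le] at hl
    have hl0 : (0 : ℝ) < l := by exact_mod_cast hl.1.pos
    have h2 : Real.log l ≤ ((j : ℝ) + 1) * Real.log (1 + η) := by
      rw [← hlogy]
      exact Real.log_le_log hl0 hl.2.2.2
    have h3 : (0 : ℝ) < ((j : ℝ) + 1) * Real.log (1 + η) := by positivity
    calc ((q : ℝ) - 1) / ((1 + η) ^ (j + 1) * (((j : ℝ) + 1) * Real.log (1 + η))) * Real.log l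
        ≤ ((q : ℝ) - 1) / ((1 + η) ^ (j + 1) * (((j : ℝ) + 1) * Real.log (1 + η)))
            * (((j : ℝ) + 1) * Real.log (1 + η)) := by
          apply mul_le_mul_of_nonneg_left h2
          apply div_nonneg (by linarith)
          positivity
      _ = ((q : ℝ) - 1) / (1 + η) ^ (j + 1) := by
          field_simp
      _ ≤ ((q : ℝ) - 1) / l := by
          apply div_le_div_of_nonneg_left (by linarith) hl0 hl.2.2.2
  refine le_trans ?_ (Finset.sum_le_sum h1)
  rw [← Finset.mul_sum]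
  have h4 : ((q : ℝ) - 1) / ((1 + η) ^ (j + 1) * (((j : ℝ) + 1) * Real.log (1 + η)))
        * ((1 - η) * (η * (1 + η) ^ j) / ((q : ℝ) - 1))
      ≤ ((q : ℝ) - 1) / ((1 + η) ^ (j + 1) * (((j : ℝ) + 1) * Real.log (1 + η)))
        * ∑ l ∈ P1 q ((1 + η) ^ j) ((1 + η) ^ (j + 1)), Real.log l := by
    apply mul_le_mul_of_nonneg_left h
    apply div_nonneg (by linarith)
    positivity
  refine le_trans ?_ h4
  have hq1 : (0 : ℝ) < (q : ℝ) - 1 := by linarith
  have h5 : ((q : ℝ) - 1) / ((1 + η) ^ (j + 1) * (((j : ℝ) + 1) * Real.log (1 + η)))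
        * ((1 - η) * (η * (1 + η) ^ j) / ((q : ℝ) - 1))
      = (1 - η) / (1 + η) * (η / Real.log (1 + η)) * (1 / ((j : ℝ) + 1)) := by
    rw [pow_succ]
    field_simp
  rw [h5]
  apply mul_le_mul_of_nonneg_right _ (by positivity)
  have h6 : 1 ≤ η / Real.log (1 + η) := by
    rw [le_div_iff₀ hL]
    linarith
  have h7 : 1 - 2 * η ≤ (1 - η) / (1 + η) := by
    rw [le_div_iff₀ (by linarith)]
    nlinarith [sq_nonneg η]
  calc 1 - 2 * η ≤ (1 - η) / (1 + η) * 1 := by linarith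
    _ ≤ (1 - η) / (1 + η) * (η / Real.log (1 + η)) := by
        apply mul_le_mul_of_nonneg_left h6
        apply div_nonneg <;> linarith

/-- the sum over the intervals -/
theorem sum_intervals {η : ℝ} (hη : 0 < η) (hη4 : η ≤ 1 / 4) {q : ℕ} (hq : 2 ≤ q) (J₁ J₂ : ℕ)
    (hJ : J₁ ≤ J₂)
    (h : ∀ j, J₁ ≤ j → j < J₂ → (1 - η) * (η * (1 + η) ^ j) / ((q : ℝ) - 1)
      ≤ ∑ l ∈ P1 q ((1 + η) ^ j) ((1 + η) ^ (j + 1)), Real.log l) :
    (1 - 2 * η) * Real.log (((J₂ : ℝ) + 1) / ((J₁ : ℝ) + 1))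
      ≤ ∑ l ∈ P1 q ((1 + η) ^ J₁) ((1 + η) ^ J₂), ((q : ℝ) - 1) / l := by
  have hq' : (2 : ℝ) ≤ q := by exact_mod_cast hq
  induction J₂, hJ using Nat.le_induction with
  | base =>
    rw [div_self (by positivity), Real.log_one, mul_zero]
    apply Finset.sum_nonneg
    intro l _
    apply div_nonneg (by linarith)
    positivity
  | succ J₂ hJ ih =>
    have ih' := ih (fun j h1 h2 => h j h1 (by omega))
    have h1 := one_interval hη hη4 hq J₂ (h J₂ hJ (by omega))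
    rw [sum_split q (x := (1 + η) ^ J₁) (y := (1 + η) ^ J₂) (z := (1 + η) ^ (J₂ + 1))
      (by positivity) (pow_le_pow_right₀ (by linarith) hJ)
      (pow_le_pow_right₀ (by linarith) (by omega))]
    have h2 : Real.log ((((J₂ + 1 : ℕ) : ℝ) + 1) / ((J₁ : ℝ) + 1))
        ≤ Real.log (((J₂ : ℝ) + 1) / ((J₁ : ℝ) + 1)) + 1 / ((J₂ : ℝ) + 1) := by
      have h3 : (((J₂ + 1 : ℕ) : ℝ) + 1) / ((J₁ : ℝ) + 1)
          = (((J₂ : ℝ) + 1) / ((J₁ : ℝ) + 1)) * (1 + 1 / ((J₂ : ℝ) + 1)) := by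
        push_cast
        field_simp
      rw [h3, Real.log_mul (by positivity) (by positivity)]
      have h4 := Real.log_le_sub_one_of_pos (x := 1 + 1 / ((J₂ : ℝ) + 1)) (by positivity)
      linarith
    have h5 : (0 : ℝ) ≤ 1 - 2 * η := by linarith
    nlinarith [mul_le_mul_of_nonneg_left h2 h5]

end LQM

open LQM in
theorem specLQ : SpecLQ := by
  intro η hη hη4
  have ha : 1 < 1 + η := by linarith
  have hL : 0 < Real.log (1 + η) := Real.log_pos ha
  have hLη : Real.log (1 + η) ≤ η := by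
    have := Real.log_le_sub_one_of_pos (x := 1 + η) (by linarith)
    linarith
  have hL2 : (0 : ℝ) < Real.log 2 := Real.log_pos (by norm_num)
  set C' : ℝ := 10 / Real.log (1 + η) + 2 / Real.log 2 with hC'
  have hC'0 : 0 < C' := by positivity
  refine ⟨|Real.log C'| + 1, by positivity, ?_⟩
  intro R q z hR hq hqB hz
  have hR' : (2 : ℝ) ≤ R := by exact_mod_cast hR
  have hqm := hq
  unfold PR at hqm
  rw [Finset.mem_filter, Finset.mem_Ioc] at hqm
  obtain ⟨⟨hqR, hq2R⟩, hqp⟩ := hqm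
  have hq2 : 2 ≤ q := hqp.two_le
  have hq' : (2 : ℝ) ≤ q := by exact_mod_cast hq2
  have hlogR : Real.log 2 ≤ Real.log R := Real.log_le_log (by norm_num) hR'
  have hlogR0 : 0 < Real.log R := by linarith
  have hlogz : 0 < Real.log z := Real.log_pos (by linarith)
  have hRp : (0 : ℝ) < (R : ℝ) ^ (1 / 12 : ℝ) := Real.rpow_pos_of_pos (by linarith) _
  set J₁ : ℕ := ⌈10 * Real.log R / Real.log (1 + η)⌉₊ with hJ₁
  set J₂ : ℕ := ⌊min (Real.log z / Real.log (1 + η)) ((R : ℝ) ^ (1 / 12 : ℝ))⌋₊ with hJ₂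
  have hmin0 : 0 ≤ min (Real.log z / Real.log (1 + η)) ((R : ℝ) ^ (1 / 12 : ℝ)) :=
    le_min (by positivity) hRp.le
  have hmin1 : 0 < min (Real.log z) ((R : ℝ) ^ (1 / 12 : ℝ)) := lt_min hlogz hRp
  -- J₁ facts
  have hJ1a : 10 * Real.log R / Real.log (1 + η) ≤ J₁ := Nat.le_ceil _
  have hJ1b : (R : ℝ) ^ 10 ≤ (1 + η) ^ J₁ := by
    rw [← Real.log_le_log_iff (by positivity) (by positivity), Real.log_pow, Real.log_pow]
    rw [div_le_iff₀ hL] at hJ1a
    push_cast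
    linarith
  have hJ1c : (J₁ : ℝ) + 1 ≤ C' * Real.log R := by
    have h1 : (J₁ : ℝ) < 10 * Real.log R / Real.log (1 + η) + 1 :=
      Nat.ceil_lt_add_one (by positivity)
    have h2 : C' * Real.log R = 10 * Real.log R / Real.log (1 + η)
        + 2 * (Real.log R / Real.log 2) := by
      rw [hC']
      ring
    have h3 : 1 ≤ Real.log R / Real.log 2 := by
      rw [le_div_iff₀ hL2]
      linarith
    rw [h2]
    linarith
  -- J₂ facts
  have hJ2a : (J₂ : ℝ) ≤ min (Real.log z / Real.log (1 + η)) ((R : ℝ) ^ (1 / 12 : ℝ)) :=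
    Nat.floor_le hmin0
  have hJ2b : min (Real.log z) ((R : ℝ) ^ (1 / 12 : ℝ)) ≤ (J₂ : ℝ) + 1 := by
    have h1 := (Nat.lt_floor_add_one
      (min (Real.log z / Real.log (1 + η)) ((R : ℝ) ^ (1 / 12 : ℝ)))).le
    refine le_trans ?_ h1
    apply min_le_min _ le_rfl
    rw [le_div_iff₀ hL]
    nlinarith
  -- the logarithm
  have hlog : (1 - 2 * η) * Real.log (min (Real.log z) ((R : ℝ) ^ (1 / 12 : ℝ)) / Real.log R)
      - (|Real.log C'| + 1) ≤ (1 - 2 * η) * Real.log (((J₂ : ℝ) + 1) / ((J₁ : ℝ) + 1)) := by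
    have h1 : Real.log (min (Real.log z) ((R : ℝ) ^ (1 / 12 : ℝ)) / Real.log R) - Real.log C'
        ≤ Real.log (((J₂ : ℝ) + 1) / ((J₁ : ℝ) + 1)) := by
      rw [← Real.log_div (by positivity) (by positivity)]
      apply Real.log_le_log (by positivity)
      rw [div_div]
      apply div_le_div₀ (by positivity) hJ2b (by positivity)
      rw [mul_comm]
      exact hJ1c
    have h5 : (0 : ℝ) ≤ 1 - 2 * η := by linarith
    have h6 : (1 - 2 * η) * Real.log C' ≤ |Real.log C'| := by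
      calc (1 - 2 * η) * Real.log C' ≤ (1 - 2 * η) * |Real.log C'| :=
            mul_le_mul_of_nonneg_left (le_abs_self _) h5
        _ ≤ 1 * |Real.log C'| := by
            apply mul_le_mul_of_nonneg_right _ (abs_nonneg _)
            linarith
        _ = _ := one_mul _
    have h7 := mul_le_mul_of_nonneg_left h1 h5
    rw [mul_sub] at h7
    linarith
  refine hlog.trans ?_
  have hterm : ∀ l : ℕ, (0 : ℝ) ≤ ((q : ℝ) - 1) / l := fun l => by
    apply div_nonneg (by linarith)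
    positivity
  by_cases hJ : J₁ ≤ J₂
  · have h1 := sum_intervals hη hη4 hq2 J₁ J₂ hJ (by
      intro j hj1 hj2
      by_contra hcon
      push Not at hcon
      apply hqB
      unfold BB
      rw [Finset.mem_filter]
      refine ⟨hq, j, ?_, ?_, hcon⟩
      · exact hJ1b.trans (pow_le_pow_right₀ (by linarith) hj1)
      · calc (j : ℝ) ≤ J₂ := by exact_mod_cast hj2.le
          _ ≤ _ := hJ2a.trans (min_le_right _ _))
    refine h1.trans ?_
    apply sum_mono q (by positivity) _ _ _ hterm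
    · -- q² ≤ (1+η)^J₁
      refine le_trans ?_ hJ1b
      have h2 : (q : ℝ) ≤ 2 * R := by exact_mod_cast hq2R
      calc (q : ℝ) ^ 2 ≤ (2 * R) ^ 2 := by
            apply pow_le_pow_left₀ (by linarith) h2
        _ ≤ ((R : ℝ) ^ 2) ^ 2 := by
            apply pow_le_pow_left₀ (by linarith)
            nlinarith
        _ = (R : ℝ) ^ 4 := by ring
        _ ≤ (R : ℝ) ^ 10 := pow_le_pow_right₀ (by linarith) (by norm_num)
    · -- (1+η)^J₂ ≤ z
      rw [← Real.log_le_log_iff (by positivity) (by linarith), Real.log_pow]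
      have h2 := hJ2a.trans (min_le_left _ _)
      rw [le_div_iff₀ hL] at h2
      exact h2
  · push Not at hJ
    refine le_trans ?_ (Finset.sum_nonneg (fun l _ => hterm l))
    apply mul_nonpos_of_nonneg_of_nonpos (by linarith)
    apply Real.log_nonpos (by positivity)
    rw [div_le_one (by positivity)]
    have : (J₂ : ℝ) < J₁ := by exact_mod_cast hJ
    linarith

end Pool.Agent.Lib.MP_d1f1b5_nt.TB
end

section
/-!
# Module MER: the primes `≡ 1 mod q` for a fixed odd prime `q`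
-/
set_option autoImplicit false
set_option linter.all false

namespace Pool.Agent.Lib.MP_d1f1b5_nt.TB

open Finset Filter Topology
open scoped Classical

namespace MERM

theorem mem_P1 {q l : ℕ} {x y : ℝ} (hy : 0 ≤ y) :
    l ∈ P1 q x y ↔ 1 ≤ l ∧ (l : ℝ) ≤ y ∧ l.Prime ∧ l % q = 1 ∧ x < (l : ℝ) := by
  unfold P1
  rw [Finset.mem_filter, Finset.mem_Icc, Nat.le_floor_iff hy]
  tauto

theorem split (q : ℕ) (a x y : ℝ) (hx : 0 ≤ x) (hax : a ≤ x) (hxy : x ≤ y) (f : ℕ → ℝ) :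
    ∑ l ∈ P1 q a y, f l = ∑ l ∈ P1 q a x, f l + ∑ l ∈ P1 q x y, f l := by
  have hy : 0 ≤ y := hx.trans hxy
  rw [← Finset.sum_union]
  · apply Finset.sum_congr _ (fun _ _ => rfl)
    ext l
    rw [Finset.mem_union, mem_P1 hy, mem_P1 hx, mem_P1 hy]
    constructor
    · rintro ⟨h1, h2, h3, h4, h5⟩
      rcases le_or_gt (l : ℝ) x with h | h
      · exact Or.inl ⟨h1, h, h3, h4, h5⟩
      · exact Or.inr ⟨h1, h2, h3, h4, h⟩
    · rintro (⟨h1, h2, h3, h4, h5⟩ | ⟨h1, h2, h3, h4, h5⟩)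
      · exact ⟨h1, h2.trans hxy, h3, h4, h5⟩
      · exact ⟨h1, h2, h3, h4, lt_of_le_of_lt hax h5⟩
  · rw [Finset.disjoint_left]
    intro l h1 h2
    rw [mem_P1 hx] at h1
    rw [mem_P1 hy] at h2
    linarith [h1.2.1, h2.2.2.2.2]

theorem theta_eq (q : ℕ) [NeZero q] (hq : q.Prime) (x : ℝ) (hx : 0 ≤ x) :
    PntAP.thetaAP (1 : ZMod q) x = ∑ l ∈ P1 q 0 x, Real.log l := by
  unfold PntAP.thetaAP P1
  apply Finset.sum_congr _ (fun _ _ => rfl)
  ext l
  rw [Finset.mem_filter, Finset.mem_filter, Finset.mem_Icc]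
  have h : ((l : ZMod q) = 1) ↔ l % q = 1 := by
    have := ZMod.natCast_eq_natCast_iff' l 1 q
    rw [Nat.cast_one, Nat.mod_eq_of_lt hq.one_lt] at this
    exact this
  rw [h]
  constructor
  · rintro ⟨h1, h2, h3⟩
    exact ⟨h1, h2, h3, by exact_mod_cast h1.1⟩
  · rintro ⟨h1, h2, h3, -⟩
    exact ⟨h1, h2, h3⟩

theorem step (q : ℕ) (η x : ℝ) (hq : 1 < q) (hη : 0 < η) (hη1 : η < 1) (hx : 1 < x)
    (h : (1 - η) * η / ((q : ℝ) - 1) * x ≤ ∑ l ∈ P1 q x ((1 + η) * x), Real.log l) :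
    (1 - η) / (1 + η) * (Real.log (1 + η) / Real.log ((1 + η) * x)) ≤
      ∑ l ∈ P1 q x ((1 + η) * x), ((q : ℝ) - 1) / l := by
  set y := (1 + η) * x with hy
  have hq1 : (0 : ℝ) < (q : ℝ) - 1 := by
    have : (1 : ℝ) < q := by exact_mod_cast hq
    linarith
  have hxy : x ≤ y := by rw [hy]; nlinarith
  have hy1 : 1 < y := lt_of_lt_of_le hx hxy
  have hly : 0 < Real.log y := Real.log_pos hy1
  have h1 : ∀ l ∈ P1 q x y, ((q : ℝ) - 1) / (y * Real.log y) * Real.log l ≤ ((q : ℝ) - 1) / l := by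
    intro l hl
    rw [mem_P1 (by linarith)] at hl
    obtain ⟨h1, h2, h3, h4, h5⟩ := hl
    have hl0 : (0 : ℝ) < l := by exact_mod_cast h1
    have hl1 : (1 : ℝ) ≤ l := by exact_mod_cast h1
    have h6 : Real.log l ≤ Real.log y := Real.log_le_log hl0 h2
    rw [div_mul_eq_mul_div, div_le_div_iff₀ (by positivity) hl0]
    have h7 : Real.log l * l ≤ Real.log y * y :=
      mul_le_mul h6 h2 hl0.le hly.le
    nlinarith
  have h2 := Finset.sum_le_sum h1
  rw [← Finset.mul_sum] at h2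
  refine le_trans ?_ h2
  have h3 := mul_le_mul_of_nonneg_left h (by positivity : 0 ≤ ((q : ℝ) - 1) / (y * Real.log y))
  refine le_trans ?_ h3
  have e : ((q : ℝ) - 1) / (y * Real.log y) * ((1 - η) * η / ((q : ℝ) - 1) * x) =
      (1 - η) / (1 + η) * (η / Real.log y) := by
    rw [hy]
    have : (1 + η) * x ≠ 0 := by positivity
    have hx0 : x ≠ 0 := by linarith
    have h1η : (1 + η) ≠ 0 := by linarith
    have hl : Real.log ((1 + η) * x) ≠ 0 := hly.ne'
    field_simp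
  rw [e]
  have h4 : Real.log (1 + η) ≤ η := by
    have := Real.log_le_sub_one_of_pos (show 0 < 1 + η by linarith)
    linarith
  apply mul_le_mul_of_nonneg_left _ (div_nonneg (by linarith) (by linarith))
  exact div_le_div_of_nonneg_right h4 hly.le

end MERM

open MERM in
/-- MER -/
theorem specMER : SpecMER := by
  intro q ε hq hq2 hε hε1
  haveI : NeZero q := ⟨hq.ne_zero⟩
  obtain ⟨η, hη⟩ : ∃ η, η = ε / 2 := ⟨_, rfl⟩
  have hη0 : 0 < η := by rw [hη]; linarith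
  have hη1 : η < 1 := by rw [hη]; linarith
  have hq1 : (1 : ℝ) < q := by exact_mod_cast hq.one_lt
  have hratio : 1 - ε ≤ (1 - η) / (1 + η) := by
    rw [le_div_iff₀ (by linarith), hη]
    nlinarith
  -- the prime number theorem
  have ht := PntAP.theta_ap_interval (q := q) (a := 1) isUnit_one hη0
  have hφ : (q.totient : ℝ) = (q : ℝ) - 1 := by
    rw [Nat.totient_prime hq, Nat.cast_sub hq.one_lt.le, Nat.cast_one]
  rw [hφ] at ht
  have hev := ht.eventually (lt_mem_nhds (show (1 - η) * η / ((q : ℝ) - 1) < η / ((q : ℝ) - 1) by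
    apply div_lt_div_of_pos_right _ (by linarith)
    nlinarith))
  rw [Filter.eventually_atTop] at hev
  obtain ⟨x₀, hx₀⟩ := hev
  have hl : 0 < Real.log (1 + η) := Real.log_pos (by linarith)
  -- `j₀`
  obtain ⟨j₀, hj₀⟩ := pow_unbounded_of_one_lt (max x₀ (max ((q : ℝ) ^ 2) 1))
    (show 1 < 1 + η by linarith)
  have hj1 : x₀ < (1 + η) ^ j₀ := lt_of_le_of_lt (le_max_left _ _) hj₀
  have hj2 : (q : ℝ) ^ 2 < (1 + η) ^ j₀ :=
    lt_of_le_of_lt ((le_max_left _ _).trans (le_max_right _ _)) hj₀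
  have hj3 : 1 < (1 + η) ^ j₀ :=
    lt_of_le_of_lt ((le_max_right _ _).trans (le_max_right _ _)) hj₀
  have key : ∀ J : ℕ, j₀ ≤ J → (1 - ε) * (Real.log (J + 1) - Real.log (j₀ + 1)) ≤
      ∑ l ∈ P1 q ((q : ℝ) ^ 2) ((1 + η) ^ J), ((q : ℝ) - 1) / l := by
    intro J hJ
    induction J, hJ using Nat.le_induction with
    | base =>
      rw [sub_self, mul_zero]
      exact Finset.sum_nonneg fun l _ => div_nonneg (by linarith) (by positivity)
    | succ J hJ ih =>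
      have hmono : (1 + η) ^ j₀ ≤ (1 + η) ^ J := pow_le_pow_right₀ (by linarith) hJ
      set x := (1 + η) ^ J with hx
      have hx1 : 1 < x := lt_of_lt_of_le hj3 hmono
      have hxs : (1 + η) ^ (J + 1) = (1 + η) * x := by rw [hx, pow_succ]; ring
      rw [hxs, split q ((q : ℝ) ^ 2) x ((1 + η) * x) (by linarith) (by linarith) (by nlinarith)]
      have h1 := hx₀ x (by linarith)
      rw [lt_div_iff₀ (by linarith), theta_eq q hq _ (by nlinarith), theta_eq q hq _ (by linarith),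
        split q 0 x ((1 + η) * x) (by linarith) (by linarith) (by nlinarith)] at h1
      have h2 := step q η x hq.one_lt hη0 hη1 hx1 (by linarith)
      have h3 : Real.log ((1 + η) * x) = (J + 1) * Real.log (1 + η) := by
        rw [← hxs, Real.log_pow]; push_cast; ring
      have h4 : Real.log (1 + η) / Real.log ((1 + η) * x) = 1 / ((J : ℝ) + 1) := by
        rw [h3]
        field_simp
      rw [h4] at h2
      have h5 : (1 - ε) * (1 / ((J : ℝ) + 1)) ≤ (1 - η) / (1 + η) * (1 / ((J : ℝ) + 1)) :=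
        mul_le_mul_of_nonneg_right hratio (by positivity)
      have h6 : Real.log (((J + 1 : ℕ) : ℝ) + 1) - Real.log ((J : ℝ) + 1) ≤ 1 / ((J : ℝ) + 1) := by
        have h7 : (0 : ℝ) < (J : ℝ) + 1 := by positivity
        rw [← Real.log_div (by positivity) h7.ne']
        have h8 := Real.log_le_sub_one_of_pos
          (show 0 < (((J + 1 : ℕ) : ℝ) + 1) / ((J : ℝ) + 1) by positivity)
        refine h8.trans (le_of_eq ?_)
        push_cast
        field_simp
        ring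
      have h9 := mul_le_mul_of_nonneg_left h6 (show 0 ≤ 1 - ε by linarith)
      linarith
  refine ⟨Real.log (j₀ + 1), ?_⟩
  intro z hz
  have hlz : 1 < Real.log z := by
    rw [Real.lt_log_iff_exp_lt (by linarith)]
    exact lt_of_lt_of_le Real.exp_one_lt_d9 (by linarith)
  have hllz : 0 < Real.log (Real.log z) := Real.log_pos hlz
  obtain ⟨J, hJ⟩ : ∃ J, J = ⌊Real.log z / Real.log (1 + η)⌋₊ := ⟨_, rfl⟩
  have hJ1 : (J : ℝ) * Real.log (1 + η) ≤ Real.log z := by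
    rw [← le_div_iff₀ hl, hJ]
    exact Nat.floor_le (by positivity)
  have hJ2 : Real.log z ≤ (J : ℝ) + 1 := by
    have h1 : Real.log z / Real.log (1 + η) < (J : ℝ) + 1 := by
      rw [hJ]; exact Nat.lt_floor_add_one _
    have h2 : Real.log (1 + η) ≤ 1 := by
      have := Real.log_le_sub_one_of_pos (show 0 < 1 + η by linarith)
      linarith
    have h3 : Real.log z ≤ Real.log z / Real.log (1 + η) := by
      rw [le_div_iff₀ hl]
      nlinarith
    linarith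
  have hJ3 : Real.log (Real.log z) ≤ Real.log ((J : ℝ) + 1) :=
    Real.log_le_log (by linarith) hJ2
  have hsum0 : 0 ≤ ∑ l ∈ P1 q ((q : ℝ) ^ 2) z, ((q : ℝ) - 1) / l :=
    Finset.sum_nonneg fun l _ => div_nonneg (by linarith) (by positivity)
  have hlj0 : 0 ≤ Real.log ((j₀ : ℝ) + 1) := Real.log_nonneg (by
    have : (0 : ℝ) ≤ j₀ := by positivity
    linarith)
  rcases le_or_gt j₀ J with h | h
  · have h1 := key J h
    have hxz : (1 + η) ^ J ≤ z := by
      rw [← Real.log_le_log_iff (by positivity) (by linarith), Real.log_pow]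
      exact hJ1
    have h2 : ∑ l ∈ P1 q ((q : ℝ) ^ 2) ((1 + η) ^ J), ((q : ℝ) - 1) / l ≤
        ∑ l ∈ P1 q ((q : ℝ) ^ 2) z, ((q : ℝ) - 1) / l := by
      apply Finset.sum_le_sum_of_subset_of_nonneg
      · intro l hl
        rw [mem_P1 (by positivity)] at hl
        rw [mem_P1 (by linarith)]
        exact ⟨hl.1, hl.2.1.trans hxz, hl.2.2⟩
      · intro l _ _
        exact div_nonneg (by linarith) (by positivity)
    have h3 := mul_le_mul_of_nonneg_left hJ3 (show 0 ≤ 1 - ε by linarith)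
    nlinarith
  · have h1 : (J : ℝ) + 1 ≤ (j₀ : ℝ) + 1 := by
      have : (J : ℝ) < j₀ := by exact_mod_cast h
      linarith
    have h2 : Real.log (Real.log z) ≤ Real.log ((j₀ : ℝ) + 1) :=
      hJ3.trans (Real.log_le_log (by positivity) h1)
    nlinarith

end Pool.Agent.Lib.MP_d1f1b5_nt.TB
end

section
/-!
# Module MLS of the project TB: Montgomery's large sieve
-/
set_option autoImplicit false

namespace Pool.Agent.Lib.MP_d1f1b5_nt.TB

open Finset

namespace MLSM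

/-- trigonometric polynomial -/
noncomputable def f (c : ℕ → ℂ) (A : Finset ℕ) (x : ℝ) : ℂ :=
  ∑ n ∈ A, c n * Complex.exp (2 * Real.pi * Complex.I * n * x)

lemma f_add_nat (c : ℕ → ℂ) (A : Finset ℕ) (x : ℝ) (k : ℕ) : f c A (x + k) = f c A x := by
  unfold f
  refine Finset.sum_congr rfl fun n _ => ?_
  congr 1
  have h : (2 * Real.pi * Complex.I * n * ((x + k : ℝ) : ℂ) : ℂ)
      = 2 * Real.pi * Complex.I * n * x + ((n * k : ℕ) : ℂ) * (2 * Real.pi * Complex.I) := by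
    push_cast
    ring
  rw [h, Complex.exp_add, Complex.exp_nat_mul_two_pi_mul_I, mul_one]

lemma f_shift (c : ℕ → ℂ) (A : Finset ℕ) (x y : ℝ) :
    f c A (x + y) = f (fun n => c n * Complex.exp (2 * Real.pi * Complex.I * n * x)) A y := by
  unfold f
  refine Finset.sum_congr rfl fun n _ => ?_
  have h : (2 * Real.pi * Complex.I * n * ((x + y : ℝ) : ℂ) : ℂ)
      = 2 * Real.pi * Complex.I * n * x + 2 * Real.pi * Complex.I * n * y := by
    push_cast
    ring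
  rw [h, Complex.exp_add]
  exact (mul_assoc _ _ _).symm

lemma f_zero (c : ℕ → ℂ) (A : Finset ℕ) : f c A 0 = ∑ n ∈ A, c n := by
  unfold f
  simp

lemma f_eq_std (c : ℕ → ℂ) (A : Finset ℕ) {p : ℕ} [NeZero p] (a : ℕ) :
    f c A ((a : ℝ) / p) = ∑ n ∈ A, c n * ZMod.stdAddChar ((a : ZMod p) * (n : ZMod p)) := by
  unfold f
  refine Finset.sum_congr rfl (fun n _ => ?_)
  congr 1
  have h : (a : ZMod p) * (n : ZMod p) = (((a : ℤ) * n : ℤ) : ZMod p) := by
    push_cast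
    rfl
  rw [h, ZMod.stdAddChar_coe]
  congr 1
  push_cast
  ring

lemma parseval {p : ℕ} [NeZero p] (c : ℕ → ℂ) (A : Finset ℕ) :
    ∑ a : ZMod p, ‖∑ n ∈ A, c n * (ZMod.stdAddChar (a * (n : ZMod p)) : ℂ)‖ ^ 2
      = (p : ℝ) * ∑ h ∈ range p, ‖∑ n ∈ A.filter (fun n => n % p = h), c n‖ ^ 2 := by
  have key : ((∑ a : ZMod p, ‖∑ n ∈ A, c n * (ZMod.stdAddChar (a * (n : ZMod p)) : ℂ)‖ ^ 2 : ℝ) : ℂ)
      = (((p : ℝ) * ∑ h ∈ range p, ‖∑ n ∈ A.filter (fun n => n % p = h), c n‖ ^ 2 : ℝ) : ℂ) := by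
    push_cast
    have h1 : ∀ a : ZMod p,
        ((‖∑ n ∈ A, c n * (ZMod.stdAddChar (a * (n : ZMod p)) : ℂ)‖ : ℂ)) ^ 2
        = ∑ x ∈ A ×ˢ A, (c x.1 * (starRingEnd ℂ) (c x.2)) *
          (ZMod.stdAddChar (a * ((x.1 : ZMod p) - (x.2 : ZMod p))) : ℂ) := by
      intro a
      rw [← Complex.mul_conj', map_sum, Finset.sum_mul_sum, Finset.sum_product]
      refine Finset.sum_congr rfl fun n _ => Finset.sum_congr rfl fun n' _ => ?_
      rw [mul_sub, sub_eq_add_neg, AddChar.map_add_eq_mul, AddChar.map_neg_eq_conj,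
        RingHom.map_mul]
      ring
    rw [Finset.sum_congr rfl fun a _ => h1 a, Finset.sum_comm]
    have h2 : ∀ x ∈ A ×ˢ A,
        ∑ a : ZMod p, (c x.1 * (starRingEnd ℂ) (c x.2)) *
          (ZMod.stdAddChar (a * ((x.1 : ZMod p) - (x.2 : ZMod p))) : ℂ)
          = if x.1 % p = x.2 % p then (p : ℂ) * (c x.1 * (starRingEnd ℂ) (c x.2)) else 0 := by
      intro x _
      rw [← Finset.mul_sum]
      have h3 := AddChar.sum_mulShift ((x.1 : ZMod p) - (x.2 : ZMod p))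
        (ZMod.isPrimitive_stdAddChar p)
      rw [h3, ZMod.card]
      have hiff : (x.1 : ZMod p) = (x.2 : ZMod p) ↔ x.1 % p = x.2 % p :=
        ZMod.natCast_eq_natCast_iff' x.1 x.2 p
      by_cases h : x.1 % p = x.2 % p
      · rw [if_pos h, if_pos (sub_eq_zero.mpr (hiff.2 h))]
        ring
      · rw [if_neg h, if_neg (fun h' => h (hiff.1 (sub_eq_zero.mp h')))]
        simp
    rw [Finset.sum_congr rfl h2]
    have h4 : ∀ h ∈ range p, ((‖∑ n ∈ A.filter (fun n => n % p = h), c n‖ : ℂ)) ^ 2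
        = ∑ x ∈ A ×ˢ A, if x.1 % p = h ∧ x.2 % p = h then
          (c x.1 * (starRingEnd ℂ) (c x.2)) else 0 := by
      intro h _
      rw [← Complex.mul_conj', map_sum, Finset.sum_mul_sum, Finset.sum_product,
        Finset.sum_filter]
      refine Finset.sum_congr rfl fun n _ => ?_
      by_cases hn : n % p = h
      · rw [if_pos hn, Finset.sum_filter]
        refine Finset.sum_congr rfl fun n' _ => ?_
        by_cases hn' : n' % p = h
        · rw [if_pos hn', if_pos ⟨hn, hn'⟩]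
        · rw [if_neg hn', if_neg (fun h' => hn' h'.2)]
      · rw [if_neg hn]
        symm
        apply Finset.sum_eq_zero
        intro n' _
        rw [if_neg (fun h' => hn h'.1)]
    rw [Finset.sum_congr rfl h4, Finset.sum_comm, Finset.mul_sum]
    refine Finset.sum_congr rfl fun x _ => ?_
    by_cases hx : x.1 % p = x.2 % p
    · rw [if_pos hx, Finset.sum_eq_single (x.1 % p)]
      · rw [if_pos ⟨rfl, hx.symm⟩]
      · intro b _ hb
        rw [if_neg (fun h' => hb h'.1.symm)]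
      · intro h'
        exact absurd (Finset.mem_range.2 (Nat.mod_lt _ (Nat.pos_of_ne_zero (NeZero.ne p)))) h'
    · rw [if_neg hx]
      symm
      rw [Finset.sum_eq_zero, mul_zero]
      intro b _
      rw [if_neg (fun h' => hx (h'.1.trans h'.2.symm))]
  exact_mod_cast key

lemma parseval' {p : ℕ} (hp : 0 < p) (c : ℕ → ℂ) (A : Finset ℕ) :
    ∑ a ∈ range p, ‖f c A ((a : ℝ) / p)‖ ^ 2
      = (p : ℝ) * ∑ h ∈ range p, ‖∑ n ∈ A.filter (fun n => n % p = h), c n‖ ^ 2 := by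
  have : NeZero p := ⟨hp.ne'⟩
  rw [← parseval c A]
  refine Finset.sum_nbij' (fun a : ℕ => (a : ZMod p)) (fun k => k.val) ?_ ?_ ?_ ?_ ?_
  · intro a _
    exact Finset.mem_univ _
  · intro k _
    exact Finset.mem_range.2 (ZMod.val_lt k)
  · intro a ha
    exact ZMod.val_cast_of_lt (Finset.mem_range.1 ha)
  · intro k _
    rw [ZMod.natCast_val, ZMod.cast_id', id]
  · intro a _
    rw [f_eq_std]

/-- the case of a prime -/
lemma prime_case {l : ℕ} (hl : l.Prime) (c : ℕ → ℂ) (A : Finset ℕ) (E : Finset ℕ)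
    (hE : E ⊆ range l) (hEl : E.card < l) (hA : ∀ n ∈ A, n % l ∉ E) :
    ((E.card : ℝ) / ((l : ℝ) - E.card)) * ‖f c A 0‖ ^ 2
      ≤ ∑ a ∈ (range l).filter (fun a => l.Coprime a), ‖f c A ((a : ℝ) / l)‖ ^ 2 := by
  have hl0 : (0 : ℝ) < l := by exact_mod_cast hl.pos
  have hEl' : (E.card : ℝ) < l := by exact_mod_cast hEl
  have hd : (0 : ℝ) < (l : ℝ) - E.card := by linarith
  set H := range l \ E with hH
  have hHc : (H.card : ℝ) = (l : ℝ) - E.card := by
    rw [hH, Finset.card_sdiff_of_subset hE, card_range, Nat.cast_sub hEl.le]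
  set C : ℕ → ℂ := fun h => ∑ n ∈ A.filter (fun n => n % l = h), c n with hC
  have h1 : f c A 0 = ∑ h ∈ H, C h := by
    rw [f_zero]
    rw [hC]
    rw [Finset.sum_fiberwise_of_maps_to (g := fun n => n % l) (f := c)]
    intro n hn
    rw [hH, Finset.mem_sdiff, Finset.mem_range]
    exact ⟨Nat.mod_lt _ hl.pos, hA n hn⟩
  have h2 : ‖f c A 0‖ ^ 2 ≤ (H.card : ℝ) * ∑ h ∈ H, ‖C h‖ ^ 2 := by
    rw [h1]
    have h3 : ‖∑ h ∈ H, C h‖ ≤ ∑ h ∈ H, ‖C h‖ := norm_sum_le _ _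
    have h4 := sq_sum_le_card_mul_sum_sq (s := H) (f := fun h => ‖C h‖)
    exact le_trans (pow_le_pow_left₀ (norm_nonneg _) h3 2) h4
  have h5 : ∑ h ∈ H, ‖C h‖ ^ 2 ≤ ∑ h ∈ range l, ‖C h‖ ^ 2 :=
    Finset.sum_le_sum_of_subset_of_nonneg Finset.sdiff_subset (fun i _ _ => by positivity)
  have h6 := parseval' hl.pos c A
  have h7 : ∑ a ∈ range l, ‖f c A ((a : ℝ) / l)‖ ^ 2
      = ‖f c A 0‖ ^ 2 + ∑ a ∈ (range l).filter (fun a => l.Coprime a), ‖f c A ((a : ℝ) / l)‖ ^ 2 := by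
    have h8 : (range l).filter (fun a => l.Coprime a) = (range l).erase 0 := by
      ext a
      rw [Finset.mem_filter, Finset.mem_erase, Finset.mem_range]
      constructor
      · rintro ⟨h9, h10⟩
        refine ⟨?_, h9⟩
        rintro rfl
        rw [Nat.coprime_zero_right] at h10
        exact hl.one_lt.ne' h10
      · rintro ⟨h9, h10⟩
        exact ⟨h10, (Nat.Prime.coprime_iff_not_dvd hl).2
          (Nat.not_dvd_of_pos_of_lt (Nat.pos_of_ne_zero h9) h10)⟩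
    rw [h8, ← Finset.add_sum_erase (range l) _ (Finset.mem_range.2 hl.pos)]
    simp
  have h8 : (l : ℝ) * ‖f c A 0‖ ^ 2 ≤ ((l : ℝ) - E.card) *
      (‖f c A 0‖ ^ 2 + ∑ a ∈ (range l).filter (fun a => l.Coprime a), ‖f c A ((a : ℝ) / l)‖ ^ 2) := by
    rw [← h7, h6, ← hHc]
    calc (l : ℝ) * ‖f c A 0‖ ^ 2 ≤ (l : ℝ) * ((H.card : ℝ) * ∑ h ∈ range l, ‖C h‖ ^ 2) := by
          apply mul_le_mul_of_nonneg_left _ hl0.le
          exact le_trans h2 (mul_le_mul_of_nonneg_left h5 (by positivity))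
      _ = _ := by ring
  rw [div_mul_eq_mul_div, div_le_iff₀ hd]
  linarith

/-- the reduced residues -/
def R (d : ℕ) : Finset ℕ := (range d).filter (fun a => d.Coprime a)

lemma mem_R (d a : ℕ) : a ∈ R d ↔ a < d ∧ d.Coprime a := by
  unfold R
  rw [Finset.mem_filter, Finset.mem_range]

lemma card_R (d : ℕ) : (R d).card = d.totient := by
  rw [Nat.totient_eq_card_coprime]
  rfl

/-- Chinese remainder theorem for the reduced fractions -/
lemma crt (g : ℝ → ℝ) (hg : ∀ (x : ℝ) (k : ℕ), g (x + k) = g x) (d l : ℕ) (hd : 1 ≤ d) (hl : 1 ≤ l)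
    (hc : Nat.Coprime d l) :
    ∑ a ∈ R (d * l), g ((a : ℝ) / ((d * l : ℕ) : ℝ))
      = ∑ x ∈ R d ×ˢ R l, g ((x.1 : ℝ) / d + (x.2 : ℝ) / l) := by
  have hd0 : (d : ℝ) ≠ 0 := by positivity
  have hl0 : (l : ℝ) ≠ 0 := by positivity
  have hdl : 0 < d * l := Nat.mul_pos hd hl
  set m : ℕ × ℕ → ℕ := fun x => (x.1 * l + x.2 * d) % (d * l) with hm
  have hval : ∀ x : ℕ × ℕ, g ((x.1 : ℝ) / d + (x.2 : ℝ) / l)
      = g ((m x : ℝ) / ((d * l : ℕ) : ℝ)) := by
    intro x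
    have h1 : (x.1 * l + x.2 * d) = m x + d * l * ((x.1 * l + x.2 * d) / (d * l)) :=
      (Nat.mod_add_div _ _).symm
    have h2 : (x.1 : ℝ) / d + (x.2 : ℝ) / l
        = (m x : ℝ) / ((d * l : ℕ) : ℝ) + (((x.1 * l + x.2 * d) / (d * l) : ℕ) : ℝ) := by
      have h3 : ((x.1 * l + x.2 * d : ℕ) : ℝ)
          = ((m x + d * l * ((x.1 * l + x.2 * d) / (d * l)) : ℕ) : ℝ) := by rw [← h1]
      push_cast at h3 ⊢
      field_simp
      linarith
    rw [h2, hg]
  have hinj : Set.InjOn m (R d ×ˢ R l : Finset (ℕ × ℕ)) := by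
    rintro ⟨a, b⟩ h1 ⟨a', b'⟩ h2 h3
    simp only [Finset.coe_product, Set.mem_prod, Finset.mem_coe, mem_R] at h1 h2
    have h4 : (a * l + b * d) ≡ (a' * l + b' * d) [MOD (d * l)] := h3
    have h5 : (a * l + b * d) ≡ (a' * l + b' * d) [MOD d] := h4.of_mul_right l
    have h6 : (a * l + b * d) ≡ (a' * l + b' * d) [MOD l] := h4.of_mul_left d
    have h7 : a * l ≡ a' * l [MOD d] := by
      have e1 : a * l + b * d ≡ a * l [MOD d] := by
        unfold Nat.ModEq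
        rw [Nat.add_mul_mod_self_right]
      have e2 : a' * l + b' * d ≡ a' * l [MOD d] := by
        unfold Nat.ModEq
        rw [Nat.add_mul_mod_self_right]
      exact (e1.symm.trans h5).trans e2
    have h8 : b * d ≡ b' * d [MOD l] := by
      have e1 : a * l + b * d ≡ b * d [MOD l] := by
        unfold Nat.ModEq
        rw [add_comm, Nat.add_mul_mod_self_right]
      have e2 : a' * l + b' * d ≡ b' * d [MOD l] := by
        unfold Nat.ModEq
        rw [add_comm, Nat.add_mul_mod_self_right]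
      exact (e1.symm.trans h6).trans e2
    have h9 : a ≡ a' [MOD d] := Nat.ModEq.cancel_right_of_coprime hc h7
    have h10 : b ≡ b' [MOD l] := Nat.ModEq.cancel_right_of_coprime hc.symm h8
    have h11 : a = a' := Nat.ModEq.eq_of_lt_of_lt h9 h1.1.1 h2.1.1
    have h12 : b = b' := Nat.ModEq.eq_of_lt_of_lt h10 h1.2.1 h2.2.1
    rw [h11, h12]
  have himg : (R d ×ˢ R l).image m = R (d * l) := by
    apply Finset.eq_of_subset_of_card_le
    · intro y hy
      obtain ⟨⟨a, b⟩, hab, rfl⟩ := Finset.mem_image.1 hy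
      rw [Finset.mem_product, mem_R, mem_R] at hab
      obtain ⟨⟨h1, h2⟩, h3, h4⟩ := hab
      simp only at h1 h2 h3 h4
      rw [mem_R]
      refine ⟨Nat.mod_lt _ hdl, ?_⟩
      have e0 : Nat.gcd (d * l) (a * l + b * d) = 1 := by
        apply Nat.Coprime.mul_left
        · have e1 : Nat.Coprime d (a * l) := Nat.Coprime.mul_right h2 hc
          exact (Nat.coprime_add_mul_right_right d (a * l) b).2 e1
        · have e1 : Nat.Coprime l (b * d) := Nat.Coprime.mul_right h4 hc.symm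
          rw [add_comm]
          exact (Nat.coprime_add_mul_right_right l (b * d) a).2 e1
      have e2 : Nat.gcd (d * l) ((a * l + b * d) % (d * l)) = Nat.gcd (d * l) (a * l + b * d) := by
        rw [Nat.gcd_comm (d * l) ((a * l + b * d) % (d * l)), ← Nat.gcd_rec]
      change Nat.gcd (d * l) ((a * l + b * d) % (d * l)) = 1
      rw [e2, e0]
    · rw [card_R, Finset.card_image_of_injOn hinj, Finset.card_product, card_R, card_R,
        Nat.totient_mul hc]
  rw [← himg, Finset.sum_image hinj]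
  exact Finset.sum_congr rfl fun x _ => (hval x).symm

/-- Montgomery's inequality -/
lemma mont (P : Finset ℕ) (E : ℕ → Finset ℕ) (A : Finset ℕ)
    (hP : ∀ l ∈ P, l.Prime ∧ E l ⊆ range l ∧ (E l).card < l ∧ ∀ n ∈ A, n % l ∉ E l) :
    ∀ d : ℕ, Squarefree d → d.primeFactors ⊆ P → ∀ c : ℕ → ℂ,
      (∏ l ∈ d.primeFactors, ((E l).card : ℝ) / ((l : ℝ) - (E l).card)) * ‖f c A 0‖ ^ 2
        ≤ ∑ a ∈ R d, ‖f c A ((a : ℝ) / d)‖ ^ 2 := by
  intro d
  induction d using Nat.strong_induction_on with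
  | _ d ih =>
    intro hsq hpf c
    have hd0 : d ≠ 0 := hsq.ne_zero
    by_cases h1 : d = 1
    · subst h1
      have hR : R 1 = {0} := by
        ext a
        rw [mem_R, Finset.mem_singleton]
        constructor
        · rintro ⟨h2, _⟩
          omega
        · rintro rfl
          exact ⟨one_pos, Nat.coprime_one_left 0⟩
      rw [hR]
      simp
    · set l := d.minFac with hl
      have hlp : l.Prime := Nat.minFac_prime h1
      obtain ⟨e, he⟩ := Nat.minFac_dvd d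
      rw [← hl] at he
      have he' : d = e * l := by rw [he, mul_comm]
      have hcop : Nat.Coprime e l := by
        rw [he'] at hsq
        exact (Nat.squarefree_mul_iff.mp hsq).1
      have hesq : Squarefree e := by
        rw [he'] at hsq
        exact (Nat.squarefree_mul_iff.mp hsq).2.1
      have he0 : e ≠ 0 := hesq.ne_zero
      have he1 : 1 ≤ e := Nat.pos_of_ne_zero he0
      have hlt : e < d := by
        rw [he']
        exact (Nat.lt_mul_iff_one_lt_right he1).2 hlp.one_lt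
      have hpe : d.primeFactors = e.primeFactors ∪ {l} := by
        rw [he', Nat.primeFactors_mul he0 hlp.ne_zero, Nat.Prime.primeFactors hlp]
      have hdisj : Disjoint e.primeFactors {l} := by
        rw [Finset.disjoint_singleton_right]
        intro h2
        have h3 := Nat.dvd_of_mem_primeFactors h2
        have h4 : l ∣ 1 := by
          have := Nat.dvd_gcd h3 (dvd_refl l)
          rwa [hcop] at this
        exact hlp.one_lt.ne' (Nat.dvd_one.1 h4)
      have hlP : l ∈ P := hpf (by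
        rw [hpe]
        exact Finset.mem_union_right _ (Finset.mem_singleton_self l))
      have hePf : e.primeFactors ⊆ P := fun x hx => hpf (by
        rw [hpe]
        exact Finset.mem_union_left _ hx)
      obtain ⟨_, hE1, hE2, hE3⟩ := hP l hlP
      have hg : ∀ (x : ℝ) (k : ℕ), ‖f c A (x + k)‖ ^ 2 = ‖f c A x‖ ^ 2 := by
        intro x k
        rw [f_add_nat]
      have h2 : ∑ a ∈ R d, ‖f c A ((a : ℝ) / d)‖ ^ 2
          = ∑ x ∈ R e ×ˢ R l, ‖f c A ((x.1 : ℝ) / e + (x.2 : ℝ) / l)‖ ^ 2 := by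
        rw [he']
        exact crt (fun x => ‖f c A x‖ ^ 2) hg e l he1 hlp.one_le hcop
      rw [h2, Finset.sum_product, hpe, Finset.prod_union hdisj, Finset.prod_singleton]
      have h3 : ∀ a ∈ R e, (((E l).card : ℝ) / ((l : ℝ) - (E l).card)) * ‖f c A ((a : ℝ) / e)‖ ^ 2
          ≤ ∑ b ∈ R l, ‖f c A ((a : ℝ) / e + (b : ℝ) / l)‖ ^ 2 := by
        intro a _
        have h4 := prime_case hlp
          (fun n => c n * Complex.exp (2 * Real.pi * Complex.I * n * ((a : ℝ) / e : ℝ))) A (E l)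
          hE1 hE2 hE3
        rw [← f_shift c A ((a : ℝ) / e) 0, add_zero] at h4
        refine le_trans h4 (le_of_eq ?_)
        refine Finset.sum_congr rfl fun b _ => ?_
        rw [← f_shift c A ((a : ℝ) / e) ((b : ℝ) / l)]
      have h5 := ih e hlt hesq hePf c
      have h6 : (0 : ℝ) ≤ ((E l).card : ℝ) / ((l : ℝ) - (E l).card) := by
        have : ((E l).card : ℝ) < l := by exact_mod_cast hE2
        exact div_nonneg (Nat.cast_nonneg _) (sub_nonneg.2 this.le)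
      calc (∏ l ∈ e.primeFactors, ((E l).card : ℝ) / ((l : ℝ) - (E l).card))
            * (((E l).card : ℝ) / ((l : ℝ) - (E l).card)) * ‖f c A 0‖ ^ 2
          = (((E l).card : ℝ) / ((l : ℝ) - (E l).card)) *
            ((∏ l ∈ e.primeFactors, ((E l).card : ℝ) / ((l : ℝ) - (E l).card)) * ‖f c A 0‖ ^ 2) := by
            ring
        _ ≤ (((E l).card : ℝ) / ((l : ℝ) - (E l).card)) *
            ∑ a ∈ R e, ‖f c A ((a : ℝ) / e)‖ ^ 2 := mul_le_mul_of_nonneg_left h5 h6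
        _ = ∑ a ∈ R e, (((E l).card : ℝ) / ((l : ℝ) - (E l).card)) *
            ‖f c A ((a : ℝ) / e)‖ ^ 2 := by rw [Finset.mul_sum]
        _ ≤ _ := Finset.sum_le_sum h3

/-- different reduced fractions are apart -/
lemma sep {Q d a d' a' : ℕ} (hQ : 1 ≤ Q) (hd : 1 ≤ d) (hdQ : d ≤ Q) (hd' : 1 ≤ d') (hdQ' : d' ≤ Q)
    (ha : a ∈ R d) (ha' : a' ∈ R d') (hne : (d, a) ≠ (d', a')) :
    1 / (Q : ℝ) ^ 2 ≤ |(a : ℝ) / d - (a' : ℝ) / d'| := by
  rw [mem_R] at ha ha'
  have hd0 : (0 : ℝ) < d := by exact_mod_cast hd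
  have hd0' : (0 : ℝ) < d' := by exact_mod_cast hd'
  have h1 : (a : ℤ) * d' - a' * d ≠ 0 := by
    intro h
    have h2 : a * d' = a' * d := by
      have : ((a * d' : ℕ) : ℤ) = ((a' * d : ℕ) : ℤ) := by push_cast; linarith
      exact_mod_cast this
    have h3 : d ∣ d' := by
      have : d ∣ a * d' := ⟨a', by rw [h2, mul_comm]⟩
      exact Nat.Coprime.dvd_of_dvd_mul_left ha.2 this
    have h4 : d' ∣ d := by
      have : d' ∣ a' * d := ⟨a, by rw [← h2, mul_comm]⟩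
      exact Nat.Coprime.dvd_of_dvd_mul_left ha'.2 this
    have h5 : d = d' := Nat.dvd_antisymm h3 h4
    subst h5
    have h6 : a = a' := Nat.eq_of_mul_eq_mul_right hd h2
    exact hne (by rw [h6])
  have h2 : (1 : ℝ) ≤ |(a : ℝ) * d' - a' * d| := by
    have h3 : (1 : ℤ) ≤ |(a : ℤ) * d' - a' * d| := Int.one_le_abs h1
    have h4 : ((1 : ℤ) : ℝ) ≤ ((|(a : ℤ) * d' - a' * d| : ℤ) : ℝ) := by exact_mod_cast h3
    push_cast at h4
    exact h4
  have h3 : (a : ℝ) / d - (a' : ℝ) / d' = ((a : ℝ) * d' - a' * d) / (d * d') := by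
    field_simp
  rw [h3, abs_div, abs_of_pos (mul_pos hd0 hd0')]
  apply div_le_div₀ (abs_nonneg _) h2 (mul_pos hd0 hd0')
  have i1 : (d : ℝ) ≤ Q := by exact_mod_cast hdQ
  have i2 : (d' : ℝ) ≤ Q := by exact_mod_cast hdQ'
  calc (d : ℝ) * d' ≤ Q * Q := mul_le_mul i1 i2 hd0'.le (by positivity)
    _ = (Q : ℝ) ^ 2 := by ring

end MLSM

open MLSM in
theorem specMLS : SpecMLS := by
  refine ⟨2 + 4 * Real.pi, by positivity, ?_⟩
  intro A N Q P E hN hQ hA hP
  have hNR : (1 : ℝ) ≤ N := by exact_mod_cast hN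
  have hQR : (1 : ℝ) ≤ Q := by exact_mod_cast hQ
  rcases A.eq_empty_or_nonempty with hA0 | hA0
  · rw [hA0]
    simp only [Finset.card_empty, Nat.cast_zero, zero_mul]
    positivity
  have hAc : (0 : ℝ) < A.card := by exact_mod_cast hA0.card_pos
  have hAN : (A.card : ℝ) ≤ 2 * N := by
    have h1 : A ⊆ range (N + 1) := fun n hn => Finset.mem_range.2 (by have := hA n hn; omega)
    have h2 := Finset.card_le_card h1
    rw [Finset.card_range] at h2
    have h3 : A.card ≤ 2 * N := by omega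
    exact_mod_cast h3
  set D := (Icc 1 Q).filter (fun d => Squarefree d ∧ d.primeFactors ⊆ P) with hD
  have hDm : ∀ d ∈ D, 1 ≤ d ∧ d ≤ Q ∧ Squarefree d ∧ d.primeFactors ⊆ P := by
    intro d hd
    rw [hD, Finset.mem_filter, Finset.mem_Icc] at hd
    exact ⟨hd.1.1, hd.1.2, hd.2.1, hd.2.2⟩
  set c : ℕ → ℂ := fun _ => 1 with hc
  have hf0 : ‖f c A 0‖ ^ 2 = (A.card : ℝ) ^ 2 := by
    rw [f_zero]
    simp [hc]
  have h1 : (∑ d ∈ D, ∏ l ∈ d.primeFactors, ((E l).card : ℝ) / ((l : ℝ) - (E l).card))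
      * (A.card : ℝ) ^ 2 ≤ ∑ d ∈ D, ∑ a ∈ R d, ‖f c A ((a : ℝ) / d)‖ ^ 2 := by
    rw [Finset.sum_mul]
    refine Finset.sum_le_sum fun d hd => ?_
    obtain ⟨_, _, h2, h3⟩ := hDm d hd
    rw [← hf0]
    exact mont P E A hP d h2 h3 c
  -- the points with `d ≥ 2`
  set D2 := D.filter (fun d => 2 ≤ d) with hD2
  have h2 : ∑ d ∈ D, ∑ a ∈ R d, ‖f c A ((a : ℝ) / d)‖ ^ 2
      ≤ (A.card : ℝ) ^ 2 + ∑ d ∈ D2, ∑ a ∈ R d, ‖f c A ((a : ℝ) / d)‖ ^ 2 := by
    have h3 : D ⊆ insert 1 D2 := by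
      intro d hd
      rw [Finset.mem_insert, hD2, Finset.mem_filter]
      have := (hDm d hd).1
      by_cases h4 : d = 1
      · exact Or.inl h4
      · exact Or.inr ⟨hd, by omega⟩
    refine le_trans (Finset.sum_le_sum_of_subset_of_nonneg h3
      (fun i _ _ => Finset.sum_nonneg fun _ _ => by positivity)) ?_
    rw [Finset.sum_insert (by
      rw [hD2, Finset.mem_filter]
      intro h4
      omega)]
    have h4 : ∑ a ∈ R 1, ‖f c A ((a : ℝ) / ((1 : ℕ) : ℝ))‖ ^ 2 = (A.card : ℝ) ^ 2 := by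
      have hR : R 1 = {0} := by
        ext a
        rw [mem_R, Finset.mem_singleton]
        constructor
        · rintro ⟨h2, _⟩
          omega
        · rintro rfl
          exact ⟨one_pos, Nat.coprime_one_left 0⟩
      rw [hR, Finset.sum_singleton]
      simp only [Nat.cast_zero, zero_div]
      exact hf0
    rw [h4]
  set S : Finset ℤ := A.map Nat.castEmbedding with hS
  have hF : ∀ x : ℝ, MP_cb27ba_nt.H71.F (fun _ => 1) S x = f c A x := by
    intro x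
    unfold MP_cb27ba_nt.H71.F f
    rw [hS, Finset.sum_map]
    refine Finset.sum_congr rfl fun n _ => ?_
    simp [hc]
  have h3 := MP_cb27ba_nt.H71.large_sieve (fun _ => 1) S (N := (N : ℝ)) (by linarith)
    (by
      intro n hn
      rw [hS, Finset.mem_map] at hn
      obtain ⟨k, hk, rfl⟩ := hn
      have := hA k hk
      simp only [Nat.castEmbedding_apply, Int.cast_natCast, Nat.abs_cast]
      exact_mod_cast this)
    (D2.sigma (fun d => R d)) (fun r => (r.2 : ℝ) / r.1) (δ := 1 / (Q : ℝ) ^ 2) (by positivity)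
    (by
      intro r hr s hs hrs
      rw [Finset.mem_sigma, hD2, Finset.mem_filter] at hr hs
      obtain ⟨⟨hr1, hr2⟩, hr3⟩ := hr
      obtain ⟨⟨hs1, hs2⟩, hs3⟩ := hs
      apply sep hQ (by omega) (hDm _ hr1).2.1 (by omega) (hDm _ hs1).2.1 hr3 hs3
      intro h
      apply hrs
      have h4 := congrArg Prod.fst h
      have h5 := congrArg Prod.snd h
      dsimp only at h4 h5
      exact Sigma.ext h4 (heq_of_eq h5))
    (by
      intro r hr
      rw [Finset.mem_sigma, hD2, Finset.mem_filter] at hr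
      obtain ⟨⟨hr1, hr2⟩, hr3⟩ := hr
      have hrQ := (hDm _ hr1).2.1
      rw [mem_R] at hr3
      have ha1 : 1 ≤ r.2 := by
        rcases Nat.eq_zero_or_pos r.2 with h | h
        · rw [h, Nat.coprime_zero_right] at hr3
          omega
        · exact h
      have p1 : (0 : ℝ) < r.1 := by
        have : 0 < r.1 := by omega
        exact_mod_cast this
      have i0 : (r.1 : ℝ) ≤ Q := by exact_mod_cast hrQ
      have i2 : (1 : ℝ) ≤ r.2 := by exact_mod_cast ha1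
      have i3 : (r.2 : ℝ) + 1 ≤ r.1 := by exact_mod_cast hr3.1
      have hd : 1 / (Q : ℝ) ^ 2 / 2 ≤ 1 / r.1 := by
        rw [div_div]
        apply one_div_le_one_div_of_le p1
        nlinarith
      have hd2 : 1 / (r.1 : ℝ) ≤ (r.2 : ℝ) / r.1 := div_le_div_of_nonneg_right i2 p1.le
      have hd3 : (r.2 : ℝ) / r.1 ≤ 1 - 1 / r.1 := by
        rw [div_le_iff₀ p1, sub_mul, one_mul, one_div, inv_mul_cancel₀ p1.ne']
        linarith
      constructor
      · linarith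
      · linarith)
  rw [← Finset.sum_sigma' (f := fun (d : ℕ) (a : ℕ) =>
    ‖MP_cb27ba_nt.H71.F (fun _ => 1) S ((a : ℝ) / d)‖ ^ 2), one_div_one_div] at h3
  simp only [hF, norm_one, one_pow, Finset.sum_const, nsmul_eq_mul, mul_one] at h3
  have hSc : (S.card : ℝ) = A.card := by
    rw [hS, Finset.card_map]
  rw [hSc] at h3
  have h4 := h1.trans (h2.trans (add_le_add_right h3 _))
  have h5 : ((A.card : ℝ) * ∑ d ∈ D, ∏ l ∈ d.primeFactors, ((E l).card : ℝ) / ((l : ℝ) - (E l).card))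
      * A.card ≤ ((A.card : ℝ) + ((Q : ℝ) ^ 2 + 4 * Real.pi * N)) * A.card := by
    calc _ = (∑ d ∈ D, ∏ l ∈ d.primeFactors, ((E l).card : ℝ) / ((l : ℝ) - (E l).card))
          * (A.card : ℝ) ^ 2 := by ring
      _ ≤ _ := h4
      _ = _ := by ring
  have h6 := le_of_mul_le_mul_right h5 hAc
  refine h6.trans ?_
  have hpi := Real.pi_pos
  nlinarith [mul_pos hpi (by linarith : (0 : ℝ) < (N : ℝ)), sq_nonneg (Q : ℝ)]

end Pool.Agent.Lib.MP_d1f1b5_nt.TB
end

section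
/-!
# TB, module MV: the mean value of `psiX` over the nonprincipal characters of the primes in `(R, 2R]`
-/
set_option autoImplicit false

namespace Pool.Agent.Lib.MP_d1f1b5_nt.TB.MVM

open Finset
open scoped Classical

theorem dsum_le {q : ℕ} (hq : q ≠ 0) {Φ Ψ : DirichletCharacter ℂ q → ℝ}
    (h : ∀ χ, χ ≠ 1 → Φ χ ≤ Ψ χ) : dsum q Φ ≤ dsum q Ψ := by
  haveI : NeZero q := ⟨hq⟩
  rw [dsum_eq, dsum_eq]
  exact Finset.sum_le_sum fun χ hχ => h χ (Finset.mem_filter.1 hχ).2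

theorem dsum_add {q : ℕ} (Φ Ψ : DirichletCharacter ℂ q → ℝ) :
    dsum q (fun χ => Φ χ + Ψ χ) = dsum q Φ + dsum q Ψ := by
  by_cases hq : q = 0
  · unfold dsum
    rw [dif_pos hq, dif_pos hq, dif_pos hq, add_zero]
  · haveI : NeZero q := ⟨hq⟩
    rw [dsum_eq, dsum_eq, dsum_eq, Finset.sum_add_distrib]

theorem dsum_const_le {q : ℕ} (hq : q ≠ 0) {T : ℝ} (hT : 0 ≤ T) :
    dsum q (fun _ => T) ≤ q * T := by
  haveI : NeZero q := ⟨hq⟩
  rw [dsum_eq, Finset.sum_const, nsmul_eq_mul]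
  refine mul_le_mul_of_nonneg_right ?_ hT
  have h1 : ((univ : Finset (DirichletCharacter ℂ q)).filter (fun χ => χ ≠ 1)).card ≤
      (univ : Finset (DirichletCharacter ℂ q)).card := Finset.card_filter_le _ _
  have h2 : (univ : Finset (DirichletCharacter ℂ q)).card = q.totient := by
    rw [Finset.card_univ, ← Nat.card_eq_fintype_card]
    exact DirichletCharacter.card_eq_totient_of_hasEnoughRootsOfUnity ℂ q
  have h3 : q.totient ≤ q := Nat.totient_le q
  exact_mod_cast h1.trans (h2.le.trans h3)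

theorem mem_PR {R q : ℕ} (h : q ∈ PR R) : q.Prime ∧ R < q ∧ q ≤ 2 * R := by
  unfold PR at h
  rw [Finset.mem_filter, Finset.mem_Ioc] at h
  exact ⟨h.2, h.1.1, h.1.2⟩

theorem card_PR (R : ℕ) : (PR R).card ≤ R := by
  unfold PR
  refine (Finset.card_filter_le _ _).trans ?_
  rw [Nat.card_Ioc]
  omega

/-- The pointwise bound from Vaughan's identity and the type I bound. -/
theorem psiX_le (hVAU : SpecVAU) (hTYA : SpecTYA) {q U Y₁ Y₂ : ℕ} (hq : q.Prime)
    {χ : DirichletCharacter ℂ q} (hχ : χ ≠ 1) (hU : 1 ≤ U) (hUY : U ≤ Y₁) (hY : Y₁ ≤ Y₂) :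
    ‖psiX χ Y₁ Y₂‖ ≤ 3 * q * U * U * (1 + Real.log Y₂ + Real.log (U * U)) +
      ‖∑ n ∈ Ioc Y₁ Y₂, ((v3 U U n : ℝ) : ℂ) * χ (n : ZMod q)‖ := by
  haveI : NeZero q := ⟨hq.ne_zero⟩
  have e1 : psiX χ Y₁ Y₂ = ∑ n ∈ Ioc Y₁ Y₂, ((v1 U n - v2 U U n : ℝ) : ℂ) * χ (n : ZMod q) +
      ∑ n ∈ Ioc Y₁ Y₂, ((v3 U U n : ℝ) : ℂ) * χ (n : ZMod q) := by
    unfold psiX
    rw [← Finset.sum_add_distrib]
    refine Finset.sum_congr rfl fun n hn => ?_
    have hn' : U < n := lt_of_le_of_lt hUY (Finset.mem_Ioc.1 hn).1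
    rw [hVAU U U n hU hU hn']
    push_cast
    ring
  rw [e1]
  refine (norm_add_le _ _).trans ?_
  exact add_le_add (hTYA q U U Y₁ Y₂ χ hq hχ hU hU hY (by omega)) le_rfl

end Pool.Agent.Lib.MP_d1f1b5_nt.TB.MVM

namespace Pool.Agent.Lib.MP_d1f1b5_nt.TB

open Finset MVM
open scoped Classical

theorem specMV (hVAU : SpecVAU) (hTYA : SpecTYA) (hTYB : SpecTYB) : SpecMV := by
  obtain ⟨C, hC, hB⟩ := hTYB
  refine ⟨36 + 729 * C, by positivity, ?_⟩
  intro R Y₁ Y₂ hR hRY hY hY3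
  have hY1 : 1 ≤ Y₁ := le_trans (Nat.one_le_pow _ _ hR) hRY
  have hL0 : 0 ≤ Real.log (Y₁ : ℝ) := Real.log_nonneg (by exact_mod_cast hY1)
  have hY1r : (1 : ℝ) ≤ (Y₁ : ℝ) := by exact_mod_cast hY1
  -- the trivial case
  by_cases hY2 : Y₂ < 2
  · have he : Ioc Y₁ Y₂ = ∅ := by
      apply Finset.Ioc_eq_empty
      omega
    have h0 : ∀ q ∈ PR R, dsum q (fun χ => ‖psiX χ Y₁ Y₂‖) ≤ 0 := by
      intro q hq
      have hq0 := (mem_PR hq).1.ne_zero
      refine (dsum_le hq0 (Ψ := fun _ => 0) fun χ _ => ?_).trans ?_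
      · unfold psiX
        rw [he, Finset.sum_empty, norm_zero]
      · exact (dsum_const_le hq0 le_rfl).trans (by rw [mul_zero])
    exact (Finset.sum_nonpos h0).trans (by positivity)
  push Not at hY2
  -- the parameter `U`
  obtain ⟨U, hU⟩ : ∃ U : ℕ, U = Nat.sqrt (Nat.sqrt Y₁) := ⟨_, rfl⟩
  have hUU : U * U ≤ Nat.sqrt Y₁ := by rw [hU]; exact Nat.sqrt_le _
  have hU4 : (U * U) * (U * U) ≤ Y₁ := (Nat.mul_le_mul hUU hUU).trans (Nat.sqrt_le _)
  have hR2 : R ^ 2 ≤ U := by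
    rw [hU, Nat.le_sqrt, Nat.le_sqrt]
    refine le_trans ?_ hRY
    calc R ^ 2 * R ^ 2 * (R ^ 2 * R ^ 2) = R ^ 8 := by ring
      _ ≤ R ^ 10 := Nat.pow_le_pow_right hR (by norm_num)
  have hU1 : 1 ≤ U := le_trans (Nat.one_le_pow _ _ hR) hR2
  have hUUY : U * U ≤ Y₁ := by nlinarith [Nat.mul_le_mul hU1 hU1]
  have hUY : U ≤ Y₁ := by nlinarith
  -- logarithms
  set L : ℝ := 1 + Real.log Y₁ with hL
  have hL1 : 1 ≤ L := by linarith
  have hlog3 : Real.log 3 ≤ 2 := by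
    have := Real.log_le_sub_one_of_pos (show (0 : ℝ) < 3 by norm_num)
    linarith
  have hY2r : (Y₂ : ℝ) ≤ 3 * Y₁ := by exact_mod_cast hY3
  have hlogY2 : Real.log Y₂ ≤ 2 + Real.log Y₁ := by
    have h1 : Real.log Y₂ ≤ Real.log (3 * Y₁) :=
      Real.log_le_log (by exact_mod_cast (by omega : 0 < Y₂)) hY2r
    rw [Real.log_mul (by norm_num) (by positivity)] at h1
    linarith
  have hlogU : Real.log ((U : ℝ) * U) ≤ Real.log Y₁ := by
    refine Real.log_le_log ?_ (by exact_mod_cast hUUY)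
    have : (0 : ℝ) < U := by exact_mod_cast hU1
    positivity
  have hlogU0 : 0 ≤ Real.log ((U : ℝ) * U) := by
    apply Real.log_nonneg
    exact_mod_cast Nat.mul_le_mul hU1 hU1
  have hlogY20 : 0 ≤ Real.log (Y₂ : ℝ) := Real.log_nonneg (by exact_mod_cast (by omega : 1 ≤ Y₂))
  have hL5 : L ≤ L ^ 5 := le_self_pow₀ hL1 (by norm_num)
  -- the type I part
  obtain ⟨T, hT⟩ : ∃ T : ℕ → ℝ, T = fun q : ℕ =>
    3 * (q : ℝ) * U * U * (1 + Real.log Y₂ + Real.log (U * U)) := ⟨_, rfl⟩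
  have hT0 : ∀ q, 0 ≤ T q := fun q => by rw [hT]; positivity
  have hmain : ∀ q ∈ PR R, dsum q (fun χ => ‖psiX χ Y₁ Y₂‖) ≤
      q * T q + dsum q (fun χ => ‖∑ n ∈ Ioc Y₁ Y₂, ((v3 U U n : ℝ) : ℂ) * χ (n : ZMod q)‖) := by
    intro q hq
    have hp := (mem_PR hq).1
    have h1 := dsum_le hp.ne_zero (Φ := fun χ => ‖psiX χ Y₁ Y₂‖)
      (Ψ := fun χ => T q + ‖∑ n ∈ Ioc Y₁ Y₂, ((v3 U U n : ℝ) : ℂ) * χ (n : ZMod q)‖)
      (fun χ hχ => by
        have := psiX_le hVAU hTYA hp hχ hU1 hUY hY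
        rw [hT]
        exact this)
    rw [dsum_add (fun _ => T q)] at h1
    exact h1.trans (add_le_add (dsum_const_le hp.ne_zero (hT0 q)) le_rfl)
  have hTq : ∀ q ∈ PR R, (q : ℝ) * T q ≤ 36 * R ^ 2 * U ^ 2 * L := by
    intro q hq
    have hq2 : (q : ℝ) ≤ 2 * R := by exact_mod_cast (mem_PR hq).2.2
    have hq0 : (0 : ℝ) ≤ q := Nat.cast_nonneg q
    have h3 : 1 + Real.log Y₂ + Real.log ((U : ℝ) * U) ≤ 3 * L := by
      rw [hL]
      linarith
    rw [hT]
    calc (q : ℝ) * (3 * (q : ℝ) * U * U * (1 + Real.log Y₂ + Real.log ((U : ℝ) * U)))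
        = 3 * (q * q) * (U : ℝ) ^ 2 * (1 + Real.log Y₂ + Real.log ((U : ℝ) * U)) := by ring
      _ ≤ 3 * ((2 * R) * (2 * R)) * (U : ℝ) ^ 2 * (3 * L) := by
          have h4 : (q : ℝ) * q ≤ (2 * R) * (2 * R) := mul_le_mul hq2 hq2 hq0 (by positivity)
          exact mul_le_mul (mul_le_mul_of_nonneg_right (by linarith) (by positivity)) h3
            (by positivity) (by positivity)
      _ = 36 * R ^ 2 * U ^ 2 * L := by ring
  have hI : ∑ q ∈ PR R, (q : ℝ) * T q ≤ 36 * Y₁ * L := by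
    calc ∑ q ∈ PR R, (q : ℝ) * T q ≤ ∑ q ∈ PR R, 36 * (R : ℝ) ^ 2 * U ^ 2 * L :=
          Finset.sum_le_sum hTq
      _ = (PR R).card * (36 * (R : ℝ) ^ 2 * U ^ 2 * L) := by
          rw [Finset.sum_const, nsmul_eq_mul]
      _ ≤ R * (36 * (R : ℝ) ^ 2 * U ^ 2 * L) :=
          mul_le_mul_of_nonneg_right (by exact_mod_cast card_PR R) (by positivity)
      _ = 36 * ((R : ℝ) ^ 3 * U ^ 2) * L := by ring
      _ ≤ 36 * Y₁ * L := by
          have h5 : R ^ 3 * U ^ 2 ≤ Y₁ := by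
            calc R ^ 3 * U ^ 2 ≤ R ^ 4 * U ^ 2 :=
                  Nat.mul_le_mul (Nat.pow_le_pow_right hR (by norm_num)) le_rfl
              _ = (R ^ 2 * R ^ 2) * U ^ 2 := by ring
              _ ≤ (U * U) * U ^ 2 := Nat.mul_le_mul (Nat.mul_le_mul hR2 hR2) le_rfl
              _ = (U * U) * (U * U) := by ring
              _ ≤ Y₁ := hU4
          have h6 : (R : ℝ) ^ 3 * U ^ 2 ≤ Y₁ := by exact_mod_cast h5
          exact mul_le_mul_of_nonneg_right (by linarith) (by linarith)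
  -- the type II part
  have hII := hB R U U Y₁ Y₂ hR hR2 hR2 hY hY2 (hUUY.trans hY)
  have hII2 : C * (Y₂ : ℝ) * (1 + Real.log Y₂) ^ 5 ≤ 729 * C * Y₁ * L ^ 5 := by
    have h7 : 1 + Real.log Y₂ ≤ 3 * L := by rw [hL]; linarith
    have h8 : (1 + Real.log Y₂) ^ 5 ≤ (3 * L) ^ 5 := pow_le_pow_left₀ (by positivity) h7 5
    calc C * (Y₂ : ℝ) * (1 + Real.log Y₂) ^ 5 ≤ C * (3 * Y₁) * (3 * L) ^ 5 :=
          mul_le_mul (mul_le_mul_of_nonneg_left hY2r hC.le) h8 (by positivity) (by positivity)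
      _ = 729 * C * Y₁ * L ^ 5 := by ring
  calc ∑ q ∈ PR R, dsum q (fun χ => ‖psiX χ Y₁ Y₂‖)
      ≤ ∑ q ∈ PR R, (q * T q +
        dsum q (fun χ => ‖∑ n ∈ Ioc Y₁ Y₂, ((v3 U U n : ℝ) : ℂ) * χ (n : ZMod q)‖)) :=
        Finset.sum_le_sum hmain
    _ = ∑ q ∈ PR R, (q : ℝ) * T q +
        ∑ q ∈ PR R, dsum q (fun χ => ‖∑ n ∈ Ioc Y₁ Y₂, ((v3 U U n : ℝ) : ℂ) * χ (n : ZMod q)‖) :=
        Finset.sum_add_distrib
    _ ≤ 36 * Y₁ * L + 729 * C * Y₁ * L ^ 5 := add_le_add hI (hII.trans hII2)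
    _ ≤ 36 * Y₁ * L ^ 5 + 729 * C * Y₁ * L ^ 5 := by
        have : 36 * (Y₁ : ℝ) * L ≤ 36 * Y₁ * L ^ 5 := mul_le_mul_of_nonneg_left hL5 (by positivity)
        linarith
    _ = (36 + 729 * C) * Y₁ * L ^ 5 := by ring

end Pool.Agent.Lib.MP_d1f1b5_nt.TB
end

section
/-!
# Module ONE of the project TB
-/
set_option autoImplicit false

namespace Pool.Agent.Lib.MP_d1f1b5_nt.TB.ONEM

open Finset Filter Topology
open scoped Classical

noncomputable section

/-- the exponential bound -/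
theorem exp_bound {η L r lr s C : ℝ} (hη0 : 0 < η) (hη1 : η ≤ 1 / 4) (hL : 0 < L) (hr : 0 < r)
    (hlr : 0 < lr) (h : (1 - 2 * η) * Real.log (min L r / lr) - C ≤ s) :
    Real.exp (-s) ≤ Real.exp C * ((lr / L) ^ (1 - 2 * η) + (lr / r) ^ (1 - 2 * η)) := by
  have hm : 0 < min L r := lt_min hL hr
  have hq : 0 < min L r / lr := div_pos hm hlr
  have h1 : -s ≤ C + -((1 - 2 * η) * Real.log (min L r / lr)) := by linarith
  have h2 : Real.exp (-s) ≤ Real.exp C * Real.exp (-((1 - 2 * η) * Real.log (min L r / lr))) := by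
    rw [← Real.exp_add]
    exact Real.exp_le_exp.mpr h1
  have h3 : Real.exp (-((1 - 2 * η) * Real.log (min L r / lr)))
      = (lr / min L r) ^ (1 - 2 * η) := by
    have e1 : lr / min L r = (min L r / lr)⁻¹ := by
      rw [inv_div]
    rw [e1, Real.inv_rpow hq.le, Real.rpow_def_of_pos hq, ← Real.exp_neg]
    congr 1
    ring
  rw [h3] at h2
  refine h2.trans ?_
  apply mul_le_mul_of_nonneg_left _ (Real.exp_pos C).le
  have p1 : 0 ≤ (lr / L) ^ (1 - 2 * η) := Real.rpow_nonneg (div_pos hlr hL).le _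
  have p2 : 0 ≤ (lr / r) ^ (1 - 2 * η) := Real.rpow_nonneg (div_pos hlr hr).le _
  rcases min_choice L r with hc | hc
  · rw [hc]
    linarith
  · rw [hc]
    linarith

end

end Pool.Agent.Lib.MP_d1f1b5_nt.TB.ONEM

namespace Pool.Agent.Lib.MP_d1f1b5_nt.TB

open Finset Filter Topology
open scoped Classical

noncomputable section

theorem specONE (hBQ : SpecBQ) (hBTS : SpecBTS) (hLQ : SpecLQ) : SpecONE := by
  intro η hη0 hη1
  obtain ⟨CB, hCB, HB⟩ := hBQ
  obtain ⟨C₁, hC₁, HT⟩ := hBTS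
  obtain ⟨CL, hCL, HL⟩ := hLQ η hη0 hη1
  have hden : (0 : ℝ) < 12 * C₁ + 12 := by linarith
  have hθ0 : (0 : ℝ) < 1 / (12 * C₁ + 12) := by positivity
  have hθ1 : (1 : ℝ) / (12 * C₁ + 12) ≤ 1 / 24 := by
    apply one_div_le_one_div_of_le (by norm_num)
    linarith
  set θ : ℝ := 1 / (12 * C₁ + 12) with hθdef
  refine ⟨CB * Real.exp CL * θ⁻¹, θ, by positivity, hθ0, hθ1, ?_⟩
  intro R q X hR hq hqB hRX
  have hR' : (2 : ℝ) ≤ R := by exact_mod_cast hR
  have hqp : q.Prime := (Finset.mem_filter.mp hq).2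
  have hqI := Finset.mem_Ioc.mp (Finset.mem_filter.mp hq).1
  have hqR : (q : ℝ) ≤ 2 * R := by exact_mod_cast hqI.2
  have hq2 : q ≠ 2 := by omega
  have hz10 : (2 : ℝ) ^ 10 ≤ (X : ℝ) ^ θ :=
    (pow_le_pow_left₀ (by norm_num) hR' 10).trans hRX
  have hX0 : X ≠ 0 := by
    rintro rfl
    rw [Nat.cast_zero, Real.zero_rpow hθ0.ne'] at hz10
    norm_num at hz10
  have hX1 : (1 : ℝ) ≤ X := by
    exact_mod_cast Nat.one_le_iff_ne_zero.mpr hX0
  have hXpos : (0 : ℝ) < X := by linarith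
  set z : ℝ := (X : ℝ) ^ θ with hz
  have hz2 : (2 : ℝ) ≤ z := le_trans (by norm_num) hz10
  have hlogz : Real.log z = θ * Real.log X := by
    rw [hz, Real.log_rpow hXpos]
  have hlz : 0 < Real.log z := Real.log_pos (by linarith)
  have hlX : 0 < Real.log X := by
    rw [hlogz] at hlz
    exact (pos_iff_pos_of_mul_pos hlz).mp hθ0
  -- `q ^ 10 ≤ X`
  have hqX : q ^ 10 ≤ X := by
    have e1 : (q : ℝ) ^ 10 ≤ z ^ 2 := by
      calc (q : ℝ) ^ 10 ≤ (2 * (R : ℝ)) ^ 10 := pow_le_pow_left₀ (by positivity) hqR 10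
        _ ≤ ((R : ℝ) * R) ^ 10 :=
            pow_le_pow_left₀ (by positivity) (by nlinarith) 10
        _ = ((R : ℝ) ^ 10) ^ 2 := by ring
        _ ≤ z ^ 2 := pow_le_pow_left₀ (by positivity) hRX 2
    have e2 : z ^ 2 ≤ (X : ℝ) := by
      have : z ^ 2 = (X : ℝ) ^ (θ * 2) := by
        rw [hz, Real.rpow_mul hXpos.le, ← Real.rpow_natCast]
        norm_num
      rw [this]
      calc (X : ℝ) ^ (θ * 2) ≤ (X : ℝ) ^ (1 : ℝ) :=
            Real.rpow_le_rpow_of_exponent_le hX1 (by linarith)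
        _ = X := Real.rpow_one _
    have e3 : ((q ^ 10 : ℕ) : ℝ) ≤ (X : ℝ) := by
      push_cast
      exact e1.trans e2
    exact_mod_cast e3
  have hS : ∀ l ∈ P1 q ((q : ℝ) ^ 2) z, l.Prime ∧ l % q = 1 ∧ (l : ℝ) ≤ z := by
    intro l hl
    have h1 := Finset.mem_filter.mp hl
    refine ⟨h1.2.1, h1.2.2.1, ?_⟩
    exact (Nat.le_floor_iff (by linarith)).mp (Finset.mem_Icc.mp h1.1).2
  have hBz : (12 * C₁ + 12) * Real.log z ≤ Real.log X := by
    rw [hlogz, hθdef, ← mul_assoc, mul_one_div_cancel hden.ne', one_mul]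
  have hmain := HB q X C₁ z (P1 q ((q : ℝ) ^ 2) z) hqp hq2 hqX hC₁ hz2 hS (HT q z hqp hz2) hBz
  have hlow := HL R q z hR hq hqB hz2
  have hlR : 0 < Real.log R := Real.log_pos (by linarith)
  have hrR : 0 < (R : ℝ) ^ (1 / 12 : ℝ) := Real.rpow_pos_of_pos (by linarith) _
  have hexp := ONEM.exp_bound hη0 hη1 hlz hrR hlR hlow
  have hq0 : (0 : ℝ) < q := by exact_mod_cast hqp.pos
  set e1 : ℝ := 1 - 2 * η with he1
  have hterm : (Real.log R / Real.log z) ^ e1 ≤ θ⁻¹ * (Real.log R / Real.log X) ^ e1 := by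
    have h1 : Real.log R / Real.log z = θ⁻¹ * (Real.log R / Real.log X) := by
      rw [hlogz]
      field_simp
    rw [h1, Real.mul_rpow (by positivity) (by positivity)]
    apply mul_le_mul_of_nonneg_right _ (by positivity)
    have hinv : (1 : ℝ) ≤ θ⁻¹ := by
      apply (one_le_inv₀ hθ0).mpr
      linarith
    calc θ⁻¹ ^ e1 ≤ θ⁻¹ ^ (1 : ℝ) :=
          Real.rpow_le_rpow_of_exponent_le hinv (by rw [he1]; linarith)
      _ = θ⁻¹ := Real.rpow_one _
  have hterm2 : (Real.log R / (R : ℝ) ^ (1 / 12 : ℝ)) ^ e1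
      ≤ θ⁻¹ * (Real.log R / (R : ℝ) ^ (1 / 12 : ℝ)) ^ e1 := by
    have hinv : (1 : ℝ) ≤ θ⁻¹ := by
      apply (one_le_inv₀ hθ0).mpr
      linarith
    have hp : 0 ≤ (Real.log R / (R : ℝ) ^ (1 / 12 : ℝ)) ^ e1 := by positivity
    nlinarith
  refine hmain.trans ?_
  gcongr ?_ + √(X : ℝ)
  calc CB * X / (q * Real.log X) * Real.exp (-∑ l ∈ P1 q ((q : ℝ) ^ 2) z, ((q : ℝ) - 1) / l)
      ≤ CB * X / (q * Real.log X) * (Real.exp CL *
          ((Real.log R / Real.log z) ^ e1 + (Real.log R / (R : ℝ) ^ (1 / 12 : ℝ)) ^ e1)) := by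
        apply mul_le_mul_of_nonneg_left hexp (by positivity)
    _ ≤ CB * X / (q * Real.log X) * (Real.exp CL *
          (θ⁻¹ * (Real.log R / Real.log X) ^ e1
            + θ⁻¹ * (Real.log R / (R : ℝ) ^ (1 / 12 : ℝ)) ^ e1)) := by
        apply mul_le_mul_of_nonneg_left _ (by positivity)
        apply mul_le_mul_of_nonneg_left _ (Real.exp_pos _).le
        exact add_le_add hterm hterm2
    _ = CB * Real.exp CL * θ⁻¹ * X / (q * Real.log X) *
          ((Real.log R / Real.log X) ^ e1 + (Real.log R / (R : ℝ) ^ (1 / 12 : ℝ)) ^ e1) := by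
        ring

end

end Pool.Agent.Lib.MP_d1f1b5_nt.TB
end

section
/-!
# Module PEX of the project TB
-/
set_option autoImplicit false

namespace Pool.Agent.Lib.MP_d1f1b5_nt.TB

open Finset

namespace PEXM

/-- one factor -/
lemma one (q l k : ℕ) (hq : 3 ≤ q) (hk : 1 ≤ k) (hl : l = q * k + 1) :
    ((q : ℝ) - 1) / l ≤ Real.log (1 + ((q : ℝ) - 1) / l * (1 - 1 / (l : ℝ))) + ((k : ℝ) ^ 2)⁻¹ := by
  have hqR : (3 : ℝ) ≤ q := by exact_mod_cast hq
  have hkR : (1 : ℝ) ≤ k := by exact_mod_cast hk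
  have hlR : (l : ℝ) = q * k + 1 := by rw [hl]; push_cast; ring
  have hqk : (3 : ℝ) ≤ q * k := by nlinarith
  have hl0 : (0 : ℝ) < l := by rw [hlR]; linarith
  set a : ℝ := ((q : ℝ) - 1) / l with ha
  set b : ℝ := 1 / (l : ℝ) with hb
  have ha0 : 0 ≤ a := div_nonneg (by linarith) hl0.le
  have hb0 : 0 ≤ b := by positivity
  have hb1 : b ≤ 1 := by
    rw [hb, div_le_one hl0, hlR]
    linarith
  have hak : a ≤ 1 / (k : ℝ) := by
    rw [ha, div_le_div_iff₀ hl0 (by linarith), hlR]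
    nlinarith
  have hbk : b ≤ 1 / (2 * (k : ℝ)) := by
    rw [hb, div_le_div_iff₀ hl0 (by linarith), hlR]
    nlinarith
  have hw0 : 0 ≤ a * (1 - b) := mul_nonneg ha0 (by linarith)
  have hlog := Real.le_log_one_add_of_nonneg hw0
  set w : ℝ := a * (1 - b) with hw
  have h1 : w - w ^ 2 / 2 ≤ 2 * w / (w + 2) := by
    rw [le_div_iff₀ (by linarith)]
    nlinarith [pow_nonneg hw0 3]
  have hwa : w ≤ a := by
    rw [hw]
    nlinarith
  have hk1 : 0 < 1 / (k : ℝ) := by positivity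
  have hw2 : w ^ 2 ≤ (1 / (k : ℝ)) ^ 2 := pow_le_pow_left₀ hw0 (hwa.trans hak) 2
  have hab : a * b ≤ 1 / (k : ℝ) * (1 / (2 * (k : ℝ))) := mul_le_mul hak hbk hb0 hk1.le
  have h2 : 1 / (k : ℝ) * (1 / (2 * (k : ℝ))) = ((k : ℝ) ^ 2)⁻¹ / 2 := by
    field_simp
  have h3 : (1 / (k : ℝ)) ^ 2 = ((k : ℝ) ^ 2)⁻¹ := by
    field_simp
  have h4 : a - w = a * b := by rw [hw]; ring
  rw [h2] at hab
  rw [h3] at hw2
  linarith

end PEXM

theorem specPEX : SpecPEX := by
  intro q S hq hS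
  have hq0 : 0 < q := by omega
  have hqR : (3 : ℝ) ≤ q := by exact_mod_cast hq
  have hl : ∀ l ∈ S, 1 ≤ l / q ∧ l = q * (l / q) + 1 := by
    intro l hlS
    obtain ⟨h1, h2⟩ := hS l hlS
    refine ⟨(Nat.one_le_div_iff hq0).2 h1.le, ?_⟩
    have := Nat.div_add_mod l q
    rw [h2] at this
    exact this.symm
  have hpos : ∀ l ∈ S, 0 < 1 + ((q : ℝ) - 1) / l * (1 - 1 / (l : ℝ)) := by
    intro l hlS
    have h1 : (q : ℝ) < l := by exact_mod_cast (hS l hlS).1
    have h2 : 0 ≤ ((q : ℝ) - 1) / l := div_nonneg (by linarith) (by linarith)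
    have h3 : 1 / (l : ℝ) ≤ 1 := by
      rw [div_le_one (by linarith)]
      linarith
    have := mul_nonneg h2 (sub_nonneg.2 h3)
    linarith
  have h1 : ∑ l ∈ S, ((q : ℝ) - 1) / l
      ≤ ∑ l ∈ S, Real.log (1 + ((q : ℝ) - 1) / l * (1 - 1 / (l : ℝ)))
        + ∑ l ∈ S, (((l / q : ℕ) : ℝ) ^ 2)⁻¹ := by
    rw [← Finset.sum_add_distrib]
    refine Finset.sum_le_sum fun l hlS => ?_
    obtain ⟨h2, h3⟩ := hl l hlS
    exact PEXM.one q l (l / q) hq h2 h3
  have h2 : ∑ l ∈ S, (((l / q : ℕ) : ℝ) ^ 2)⁻¹ ≤ 2 := by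
    have hinj : Set.InjOn (fun l : ℕ => l / q) (S : Set ℕ) := by
      intro a ha b hb hab
      rw [(hl a ha).2, (hl b hb).2]
      simp only at hab
      rw [hab]
    rw [← Finset.sum_image (f := fun k : ℕ => ((k : ℝ) ^ 2)⁻¹) hinj]
    have h3 : S.image (fun l : ℕ => l / q) ⊆ Ioo 0 ((S.image (fun l : ℕ => l / q)).sup id + 1) := by
      intro k hk
      rw [Finset.mem_Ioo]
      constructor
      · obtain ⟨l, hlS, rfl⟩ := Finset.mem_image.1 hk
        have := (hl l hlS).1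
        omega
      · have := Finset.le_sup (f := id) hk
        simp only [id] at this
        omega
    refine le_trans (Finset.sum_le_sum_of_subset_of_nonneg h3 (fun i _ _ => by positivity)) ?_
    refine le_trans (sum_Ioo_inv_sq_le 0 _) ?_
    norm_num
  have h3 : ∏ l ∈ S, (1 + ((q : ℝ) - 1) / l * (1 - 1 / (l : ℝ)))
      = Real.exp (∑ l ∈ S, Real.log (1 + ((q : ℝ) - 1) / l * (1 - 1 / (l : ℝ)))) := by
    rw [Real.exp_sum]
    refine Finset.prod_congr rfl fun l hlS => ?_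
    rw [Real.exp_log (hpos l hlS)]
  rw [h3]
  apply Real.exp_le_exp.2
  linarith

end Pool.Agent.Lib.MP_d1f1b5_nt.TB
end

section
/-!
# Module RAN of the project TB: Rankin's trick
-/
set_option autoImplicit false

namespace Pool.Agent.Lib.MP_d1f1b5_nt.TB

open Finset Filter Topology
open scoped Classical

noncomputable section

theorem specRAN : SpecRAN := by
  intro S w C₁ z y hC₁ hz hy hS hsum hlog
  have hlz : 0 < Real.log z := Real.log_pos (by linarith)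
  have hw : ∀ l ∈ S, 0 ≤ w l := fun l hl => (hS l hl).2.2
  -- the full sum
  have hfull : ∑ T ∈ S.powerset, ∏ l ∈ T, w l = ∏ l ∈ S, (1 + w l) :=
    (Finset.prod_one_add S).symm
  have hprod : 0 < ∏ l ∈ S, (1 + w l) := Finset.prod_pos fun l hl => by
    have := hw l hl
    linarith
  -- the complement
  set bad := S.powerset.filter (fun T => ¬ ((∏ l ∈ T, l : ℕ) : ℝ) ≤ y) with hbad
  have hsplit : ∑ T ∈ S.powerset.filter (fun T => ((∏ l ∈ T, l : ℕ) : ℝ) ≤ y), ∏ l ∈ T, w l +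
      ∑ T ∈ bad, ∏ l ∈ T, w l = ∏ l ∈ S, (1 + w l) := by
    rw [hbad, Finset.sum_filter_add_sum_filter_not, hfull]
  set t : ℕ → ℝ := fun l => Real.log l / Real.log z with ht
  have hterm : ∀ T ∈ bad, ∏ l ∈ T, w l ≤
      Real.exp (-(Real.log y / Real.log z)) * ∏ l ∈ T, (w l * Real.exp (t l)) := by
    intro T hT
    rw [hbad, Finset.mem_filter, Finset.mem_powerset, not_le] at hT
    have h0 : 0 ≤ ∏ l ∈ T, w l := Finset.prod_nonneg fun l hl => hw l (hT.1 hl)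
    have hlogprod : Real.log ((∏ l ∈ T, l : ℕ) : ℝ) = ∑ l ∈ T, Real.log l := by
      push_cast
      rw [Real.log_prod]
      intro l hl
      have := (hS l (hT.1 hl)).1
      positivity
    have hge : Real.log y ≤ ∑ l ∈ T, Real.log l := by
      rw [← hlogprod]
      exact Real.log_le_log (by linarith) hT.2.le
    have hexp : 1 ≤ Real.exp (-(Real.log y / Real.log z)) * ∏ l ∈ T, Real.exp (t l) := by
      rw [← Real.exp_sum, ← Real.exp_add]
      apply Real.one_le_exp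
      rw [ht, ← Finset.sum_div, neg_add_eq_sub, ← sub_div]
      exact div_nonneg (by linarith) hlz.le
    calc ∏ l ∈ T, w l = 1 * ∏ l ∈ T, w l := (one_mul _).symm
      _ ≤ (Real.exp (-(Real.log y / Real.log z)) * ∏ l ∈ T, Real.exp (t l)) *
          ∏ l ∈ T, w l := mul_le_mul_of_nonneg_right hexp h0
      _ = _ := by rw [Finset.prod_mul_distrib]; ring
  have hbound : ∑ T ∈ bad, ∏ l ∈ T, w l ≤
      Real.exp (-(Real.log y / Real.log z)) * ∏ l ∈ S, (1 + w l * Real.exp (t l)) := by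
    refine (Finset.sum_le_sum hterm).trans ?_
    rw [← Finset.mul_sum]
    apply mul_le_mul_of_nonneg_left _ (Real.exp_pos _).le
    rw [Finset.prod_one_add]
    refine Finset.sum_le_sum_of_subset_of_nonneg (Finset.filter_subset _ _) fun T hT _ => ?_
    exact Finset.prod_nonneg fun l hl =>
      mul_nonneg (hw l (Finset.mem_powerset.1 hT hl)) (Real.exp_pos _).le
  have hfac : ∀ l ∈ S, 1 + w l * Real.exp (t l) ≤ (1 + w l) * Real.exp (2 * (w l * t l)) := by
    intro l hl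
    obtain ⟨h2, hlz', hw0⟩ := hS l hl
    have hl0 : (0 : ℝ) < l := by
      have : 0 < l := by omega
      exact_mod_cast this
    have hl1 : (1 : ℝ) ≤ l := by
      have : 1 ≤ l := by omega
      exact_mod_cast this
    have ht0 : 0 ≤ t l := div_nonneg (Real.log_nonneg hl1) hlz.le
    have ht1 : t l ≤ 1 := (div_le_one hlz).2 (Real.log_le_log hl0 hlz')
    have he : Real.exp (t l) ≤ 1 + 2 * t l := by
      have h3 := Real.abs_exp_sub_one_le (x := t l) (by rw [abs_of_nonneg ht0]; exact ht1)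
      rw [abs_of_nonneg ht0] at h3
      have h4 := le_abs_self (Real.exp (t l) - 1)
      linarith
    have h5 : 1 + 2 * (w l * t l) ≤ Real.exp (2 * (w l * t l)) := by
      have := Real.add_one_le_exp (2 * (w l * t l))
      linarith
    have h6 : 0 ≤ w l * t l := mul_nonneg hw0 ht0
    calc 1 + w l * Real.exp (t l) ≤ 1 + w l * (1 + 2 * t l) := by
          have := mul_le_mul_of_nonneg_left he hw0
          linarith
      _ ≤ (1 + w l) * (1 + 2 * (w l * t l)) := by nlinarith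
      _ ≤ _ := mul_le_mul_of_nonneg_left h5 (by linarith)
  have hprodle : ∏ l ∈ S, (1 + w l * Real.exp (t l)) ≤
      (∏ l ∈ S, (1 + w l)) * Real.exp (2 * C₁) := by
    refine (Finset.prod_le_prod (fun l hl => ?_) hfac).trans ?_
    · have := mul_nonneg (hw l hl) (Real.exp_pos (t l)).le
      linarith
    · rw [Finset.prod_mul_distrib, ← Real.exp_sum, ← Finset.mul_sum]
      apply mul_le_mul_of_nonneg_left _ hprod.le
      apply Real.exp_le_exp.2
      have h7 : ∑ l ∈ S, w l * t l = (∑ l ∈ S, w l * Real.log l) / Real.log z := by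
        rw [Finset.sum_div]
        exact Finset.sum_congr rfl fun l _ => by rw [ht]; ring
      have h8 : (∑ l ∈ S, w l * Real.log l) / Real.log z ≤ C₁ := (div_le_iff₀ hlz).2 hsum
      rw [h7]
      linarith
  have hy' : Real.exp (-(Real.log y / Real.log z)) ≤ Real.exp (-(2 * C₁ + 1)) := by
    apply Real.exp_le_exp.2
    have : 2 * C₁ + 1 ≤ Real.log y / Real.log z := (le_div_iff₀ hlz).2 hlog
    linarith
  have hfin : ∑ T ∈ bad, ∏ l ∈ T, w l ≤ (1 / 2) * ∏ l ∈ S, (1 + w l) := by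
    refine hbound.trans ?_
    calc Real.exp (-(Real.log y / Real.log z)) * ∏ l ∈ S, (1 + w l * Real.exp (t l))
        ≤ Real.exp (-(2 * C₁ + 1)) * ((∏ l ∈ S, (1 + w l)) * Real.exp (2 * C₁)) := by
          refine mul_le_mul hy' hprodle ?_ (Real.exp_pos _).le
          exact Finset.prod_nonneg fun l hl => by
            have := mul_nonneg (hw l hl) (Real.exp_pos (t l)).le
            linarith
      _ = Real.exp (-1) * ∏ l ∈ S, (1 + w l) := by
          have : Real.exp (-(2 * C₁ + 1)) * Real.exp (2 * C₁) = Real.exp (-1) := by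
            rw [← Real.exp_add]
            congr 1
            ring
          rw [← this]
          ring
      _ ≤ _ := by
          apply mul_le_mul_of_nonneg_right _ hprod.le
          rw [Real.exp_neg]
          have h2 : (2 : ℝ) ≤ Real.exp 1 := by
            have := Real.add_one_le_exp (1 : ℝ)
            linarith
          rw [inv_eq_one_div]
          exact one_div_le_one_div_of_le (by norm_num) h2
  linarith

end

end Pool.Agent.Lib.MP_d1f1b5_nt.TB
end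

section
/-!
# SIZ: size
-/
set_option autoImplicit false

namespace Pool.Agent.Lib.MP_d1f1b5_nt.TB

namespace SIZM

theorem step {q p : ℕ} (hq : 3 ≤ q) (hp : q ≤ p) : (p + 1) ^ q < 3 * p ^ q := by
  have hp0 : (0 : ℝ) < p := by
    have : 0 < p := by omega
    exact_mod_cast this
  have h1 : (1 + 1 / (p : ℝ)) ^ q < 3 := by
    have h2 : 1 + 1 / (p : ℝ) ≤ Real.exp (1 / p) := by
      have := Real.add_one_le_exp (1 / (p : ℝ))
      linarith
    have h3 : (1 + 1 / (p : ℝ)) ^ q ≤ Real.exp (1 / p) ^ q :=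
      pow_le_pow_left₀ (by positivity) h2 q
    have h4 : Real.exp (1 / (p : ℝ)) ^ q = Real.exp (q / p) := by
      rw [← Real.exp_nat_mul]
      congr 1
      ring
    have h5 : Real.exp ((q : ℝ) / p) ≤ Real.exp 1 := by
      apply Real.exp_le_exp.2
      rw [div_le_one hp0]
      exact_mod_cast hp
    have h6 : Real.exp 1 < 3 := by
      have := Real.exp_one_lt_d9
      linarith
    rw [h4] at h3
    linarith
  have h7 : ((p : ℝ) + 1) ^ q < 3 * (p : ℝ) ^ q := by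
    have h8 : (p : ℝ) + 1 = p * (1 + 1 / p) := by
      field_simp
    rw [h8, mul_pow, mul_comm]
    exact mul_lt_mul_of_pos_right h1 (by positivity)
  exact_mod_cast h7

theorem pow_le {q : ℕ} (hq : 3 ≤ q) : ∀ p, q ≤ p → p ^ q ≤ q ^ p := by
  intro p hp
  induction p, hp using Nat.le_induction with
  | base => exact le_rfl
  | succ n hn ih =>
    have h1 := step hq hn
    calc (n + 1) ^ q ≤ 3 * n ^ q := h1.le
      _ ≤ q * q ^ n := Nat.mul_le_mul hq ih
      _ = q ^ (n + 1) := by ring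

theorem pow_lt {q p : ℕ} (hq : 3 ≤ q) (hp : q < p) : p ^ q < q ^ p := by
  obtain ⟨n, rfl⟩ : ∃ n, p = n + 1 := ⟨p - 1, by omega⟩
  have hn : q ≤ n := by omega
  have h1 := step hq hn
  calc (n + 1) ^ q < 3 * n ^ q := h1
    _ ≤ q * q ^ n := Nat.mul_le_mul hq (pow_le hq n hn)
    _ = q ^ (n + 1) := by ring

end SIZM

/-- Size. -/
theorem specSIZ : SpecSIZ := by
  intro p q _ _ hq hqp hbad
  unfold Bad at hbad
  have h1 : 0 < (p ^ q - 1) / (p - 1) := by
    rw [← Nat.geomSum_eq (by omega)]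
    apply Finset.sum_pos
    · intro i _
      exact Nat.pow_pos (by omega)
    · exact ⟨0, Finset.mem_range.2 (by omega)⟩
  have h2 := Nat.le_of_dvd h1 hbad
  have h3 : q ^ (p - 1) ≤ (q ^ p - 1) / (q - 1) := by
    rw [← Nat.geomSum_eq (by omega)]
    exact Finset.single_le_sum (f := fun i => q ^ i) (fun i _ => Nat.zero_le _)
      (Finset.mem_range.2 (by omega))
  have h4 : (p ^ q - 1) / (p - 1) * (p - 1) ≤ p ^ q - 1 := Nat.div_mul_le_self _ _
  have h5 := SIZM.pow_lt hq hqp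
  have h6 : q ^ p = q * q ^ (p - 1) := by
    rw [← pow_succ']
    congr 1
    omega
  have h7 : q * q ^ (p - 1) ≤ q ^ (p - 1) * (p - 1) := by
    rw [mul_comm]
    exact Nat.mul_le_mul_left _ (by omega)
  have h8 : q ^ (p - 1) * (p - 1) ≤ (p ^ q - 1) / (p - 1) * (p - 1) :=
    Nat.mul_le_mul_right _ (h3.trans h2)
  omega

end Pool.Agent.Lib.MP_d1f1b5_nt.TB
end

section
/-!
# SUM: the sum over the primes `q ≤ X^δ`
-/
set_option autoImplicit false

namespace Pool.Agent.Lib.MP_d1f1b5_nt.TB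

open Finset Filter Topology
open scoped Classical

namespace SUMM

theorem tele (s : ℝ) (h0 : 0 < s) (h1 : s ≤ 1) (n : ℕ) :
    ∑ i ∈ Ico 1 (n + 1), (i : ℝ) ^ (s - 1) ≤ (n : ℝ) ^ s / s := by
  induction n with
  | zero => simp [Real.zero_rpow h0.ne']
  | succ n ih =>
    rw [sum_Ico_succ_top (by omega)]
    have hn : (0 : ℝ) < (n : ℝ) + 1 := by positivity
    have h2 : (1 + (-(1 / ((n : ℝ) + 1)))) ^ s ≤ 1 + s * (-(1 / ((n : ℝ) + 1))) := by
      apply rpow_one_add_le_one_add_mul_self _ h0.le h1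
      have : 1 / ((n : ℝ) + 1) ≤ 1 := by
        rw [div_le_one hn]
        have : (0 : ℝ) ≤ n := n.cast_nonneg
        linarith
      linarith
    have h3 : (1 + (-(1 / ((n : ℝ) + 1)))) = n / (n + 1) := by field_simp; ring
    have hp : 0 < ((n : ℝ) + 1) ^ s := by positivity
    rw [h3, Real.div_rpow (by positivity) hn.le, div_le_iff₀ hp] at h2
    have h4 : ((n : ℝ) + 1) ^ (s - 1) = ((n : ℝ) + 1) ^ s / ((n : ℝ) + 1) := by
      rw [Real.rpow_sub hn, Real.rpow_one]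
    push_cast
    rw [h4]
    have h5 : (n : ℝ) ^ s / s ≤ ((n : ℝ) + 1) ^ s / s - ((n : ℝ) + 1) ^ s / ((n : ℝ) + 1) := by
      rw [div_le_iff₀ h0]
      refine h2.trans (le_of_eq ?_)
      field_simp
      ring
    linarith

theorem cover (q : ℕ) (h : 3 ≤ q) : q.Prime → q ∈ PR (2 ^ Nat.log 2 (q - 1)) := by
  intro hp
  unfold PR
  rw [mem_filter, mem_Ioc]
  have h1 := Nat.pow_log_le_self 2 (x := q - 1) (by omega)
  have h2 := Nat.lt_pow_succ_log_self (b := 2) (by norm_num) (q - 1)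
  rw [Nat.succ_eq_add_one, pow_succ] at h2
  exact ⟨⟨by omega, by omega⟩, hp⟩

/-- Dyadic decomposition. -/
theorem dyad (Y i₀ : ℕ) (f : ℕ → ℝ) (hf : ∀ q, 0 ≤ f q) (_ : 1 ≤ i₀) :
    ∑ q ∈ (Icc 1 Y).filter (fun q => q.Prime ∧ q ≠ 2), f q ≤
      ∑ q ∈ (Icc 1 (2 ^ i₀)).filter (fun q => q.Prime ∧ q ≠ 2), f q +
      ∑ i ∈ Ico i₀ (Nat.log 2 Y + 1), ∑ q ∈ (PR (2 ^ i)).filter (fun q => q ≤ Y), f q := by
  rw [← sum_filter_add_sum_filter_not ((Icc 1 Y).filter (fun q => q.Prime ∧ q ≠ 2))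
    (fun q => q ≤ 2 ^ i₀)]
  apply add_le_add
  · apply sum_le_sum_of_subset_of_nonneg _ (fun q _ _ => hf q)
    intro q hq
    rw [mem_filter, mem_filter, mem_Icc] at hq
    rw [mem_filter, mem_Icc]
    exact ⟨⟨hq.1.1.1, hq.2⟩, hq.1.2⟩
  · have h1 : ∀ q ∈ ((Icc 1 Y).filter (fun q => q.Prime ∧ q ≠ 2)).filter
        (fun q => ¬ q ≤ 2 ^ i₀), f q ≤
        ∑ i ∈ Ico i₀ (Nat.log 2 Y + 1), (if q ∈ PR (2 ^ i) then f q else 0) := by
      intro q hq
      rw [mem_filter, mem_filter, mem_Icc] at hq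
      obtain ⟨⟨⟨h2, h3⟩, h4, h5⟩, h6⟩ := hq
      push Not at h6
      have h7 : 3 ≤ q := by
        have := h4.two_le
        omega
      have h8 : Nat.log 2 (q - 1) ∈ Ico i₀ (Nat.log 2 Y + 1) := by
        rw [mem_Ico]
        constructor
        · apply Nat.le_log_of_pow_le (by norm_num)
          omega
        · have := Nat.log_mono_right (b := 2) (show q - 1 ≤ Y by omega)
          omega
      have h9 := single_le_sum (f := fun i => if q ∈ PR (2 ^ i) then f q else 0)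
        (fun i _ => by
          show (0 : ℝ) ≤ if q ∈ PR (2 ^ i) then f q else 0
          split_ifs
          · exact hf q
          · exact le_rfl) h8
      rw [if_pos (cover q h7 h4)] at h9
      exact h9
    refine (sum_le_sum h1).trans ?_
    rw [sum_comm]
    apply sum_le_sum
    intro i _
    rw [← sum_filter]
    apply sum_le_sum_of_subset_of_nonneg _ (fun q _ _ => hf q)
    intro q hq
    rw [mem_filter, mem_filter, mem_filter, mem_Icc] at hq
    rw [mem_filter]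
    exact ⟨hq.2, hq.1.1.1.2⟩

theorem small_bd (S : Finset ℕ) (n : ℕ) (f : ℕ → ℝ) (b : ℝ) (hS : S.card ≤ n)
    (h : ∀ q ∈ S, f q ≤ b) (hb : 0 ≤ b) : ∑ q ∈ S, f q ≤ n * b := by
  refine (sum_le_card_nsmul _ _ _ h).trans ?_
  rw [nsmul_eq_mul]
  exact mul_le_mul_of_nonneg_right (by exact_mod_cast hS) hb

theorem pow_split {u s : ℝ} (hu : 0 ≤ u) (h0 : 1 / 2 ≤ s) (h1 : s ≤ 1) :
    u ^ s ≤ u + u ^ (1 / 2 : ℝ) := by
  have hq : 0 ≤ u ^ (1 / 2 : ℝ) := Real.rpow_nonneg hu _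
  rcases le_total u 1 with h | h
  · rcases hu.eq_or_lt with h2 | h2
    · rw [← h2, Real.zero_rpow (by linarith), Real.zero_rpow (by norm_num)]
      norm_num
    · have := Real.rpow_le_rpow_of_exponent_ge h2 h h0
      linarith
  · have := Real.rpow_le_rpow_of_exponent_le h h1
    rw [Real.rpow_one] at this
    linarith

/-- The bound for one dyadic interval. -/
theorem part {s C₁ θ C₂ C₃ C₄ δ : ℝ} (B : Finset ℕ) (i X : ℕ) (hs0 : 1 / 2 ≤ s) (hs1 : s ≤ 1)
    (hC1 : 0 < C₁) (hC2 : 0 < C₂) (hC3 : 0 < C₃) (hC4 : 0 < C₄)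
    (hδ0 : 0 < δ) (hδ : δ ≤ θ / 20) (hθ : θ ≤ 1 / 24)
    (hONE : ∀ q ∈ PR (2 ^ i), q ∉ B → (((2 ^ i : ℕ) : ℝ)) ^ 10 ≤ (X : ℝ) ^ θ →
      ((Bq q X).card : ℝ) ≤ C₁ * X / (q * Real.log X) *
      ((Real.log (2 ^ i : ℕ) / Real.log X) ^ s
        + (Real.log (2 ^ i : ℕ) / ((2 ^ i : ℕ) : ℝ) ^ (1 / 12 : ℝ)) ^ s) + √(X : ℝ))
    (hTRV : ∀ q : ℕ, q.Prime → q ≠ 2 → q ^ 10 ≤ X →
      ((Bq q X).card : ℝ) ≤ C₂ * X / (q * Real.log X) + √(X : ℝ))
    (hCNT : (B.card : ℝ) ≤ C₃ * √((2 ^ i : ℕ) : ℝ))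
    (hCHB : ((PR (2 ^ i)).card : ℝ) ≤ C₄ * (2 ^ i : ℕ) / Real.log (2 ^ i : ℕ))
    (hi : 1 ≤ i) (hX : 3 ≤ X) (hR : ((2 ^ i : ℕ) : ℝ) ≤ (X : ℝ) ^ δ) :
    ∑ q ∈ (PR (2 ^ i)).filter (fun q => q ≤ ⌊(X : ℝ) ^ δ⌋₊), ((Bq q X).card : ℝ) ≤
      (X / Real.log X) * ((C₂ * C₃ + 3 * C₁ * C₄) * ((2 : ℝ) ^ (-(1 / 24) : ℝ)) ^ i
        + C₁ * C₄ * (Real.log 2 ^ (s - 1) / Real.log X ^ s) * (i : ℝ) ^ (s - 1))
      + (C₃ + 2 * C₄) * ((X : ℝ) ^ δ * √(X : ℝ)) := by
  have hX1 : (1 : ℝ) ≤ X := by exact_mod_cast (by omega : 1 ≤ X)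
  have hX0 : (0 : ℝ) < X := by linarith
  have hL : 0 < Real.log X := Real.log_pos (by exact_mod_cast (by omega : 1 < X))
  set L := Real.log X with hLdef
  set R : ℝ := ((2 ^ i : ℕ) : ℝ) with hRdef
  have hR2 : (2 : ℝ) ≤ R := by
    rw [hRdef]
    push_cast
    calc (2 : ℝ) = 2 ^ 1 := by norm_num
      _ ≤ 2 ^ i := pow_le_pow_right₀ (by norm_num) hi
  have hR0 : (0 : ℝ) < R := by linarith
  have hlog2 : (1 : ℝ) / 2 < Real.log 2 := by linarith [Real.log_two_gt_d9]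
  have hlogR : Real.log R = i * Real.log 2 := by
    rw [hRdef]; push_cast; rw [Real.log_pow]
  have hi0 : (0 : ℝ) < i := by exact_mod_cast hi
  have hi1 : (1 : ℝ) ≤ i := by exact_mod_cast hi
  have hlR : 1 / 2 < Real.log R := by rw [hlogR]; nlinarith
  have hlR0 : 0 < Real.log R := by linarith
  have hXd : 0 < (X : ℝ) ^ δ := Real.rpow_pos_of_pos hX0 _
  have hsX : 0 < √(X : ℝ) := Real.sqrt_pos.2 hX0
  -- powers
  have hp10 : ∀ x : ℝ, 0 ≤ x → x ≤ (X : ℝ) ^ δ → x ^ 10 ≤ (X : ℝ) ^ (10 * δ) := by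
    intro x h0 hx
    calc x ^ 10 ≤ ((X : ℝ) ^ δ) ^ 10 := pow_le_pow_left₀ h0 hx 10
      _ = (X : ℝ) ^ (10 * δ) := by
        rw [← Real.rpow_natCast, ← Real.rpow_mul hX0.le]
        congr 1
        push_cast
        ring
  have hqY : ∀ q ∈ (PR (2 ^ i)).filter (fun q => q ≤ ⌊(X : ℝ) ^ δ⌋₊),
      q ∈ PR (2 ^ i) ∧ q.Prime ∧ R < q ∧ q ≠ 2 ∧ q ^ 10 ≤ X := by
    intro q hq
    rw [mem_filter] at hq
    obtain ⟨h1, h2⟩ := hq
    have h1' := h1
    unfold PR at h1'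
    rw [mem_filter, mem_Ioc] at h1'
    have h3 : R < (q : ℝ) := by rw [hRdef]; exact_mod_cast h1'.1.1
    have h4 : (q : ℝ) ≤ (X : ℝ) ^ δ := (Nat.le_floor_iff hXd.le).1 h2
    have h5 : (q : ℝ) ^ 10 ≤ X := by
      refine (hp10 q (by positivity) h4).trans ?_
      calc (X : ℝ) ^ (10 * δ) ≤ (X : ℝ) ^ (1 : ℝ) :=
            Real.rpow_le_rpow_of_exponent_le hX1 (by linarith)
        _ = X := Real.rpow_one _
    refine ⟨h1, h1'.2, h3, ?_, by exact_mod_cast h5⟩
    rintro rfl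
    push_cast at h3
    linarith
  -- the two parts
  rw [← sum_filter_add_sum_filter_not _ (fun q => q ∈ B)]
  set F := (PR (2 ^ i)).filter (fun q => q ≤ ⌊(X : ℝ) ^ δ⌋₊) with hF
  set ρ : ℝ := ((2 : ℝ) ^ (-(1 / 24) : ℝ)) ^ i with hρ
  have hρR : ρ = R ^ (-(1 / 24) : ℝ) := by
    rw [hρ, hRdef]
    push_cast
    rw [← Real.rpow_natCast, ← Real.rpow_natCast, ← Real.rpow_mul (by norm_num),
      ← Real.rpow_mul (by norm_num), mul_comm]
  have hρ0 : 0 < ρ := by rw [hρR]; exact Real.rpow_pos_of_pos hR0 _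
  have hXL : 0 < X / L := by positivity
  have hbad : ∑ q ∈ F.filter (fun q => q ∈ B), ((Bq q X).card : ℝ) ≤
      X / L * (C₂ * C₃ * ρ) + C₃ * ((X : ℝ) ^ δ * √(X : ℝ)) := by
    have h1 : ∀ q ∈ F.filter (fun q => q ∈ B), ((Bq q X).card : ℝ) ≤
        C₂ * X / (R * L) + √(X : ℝ) := by
      intro q hq
      rw [mem_filter] at hq
      obtain ⟨_, h2, h3, h4, h5⟩ := hqY q hq.1
      refine (hTRV q h2 h4 h5).trans ?_
      gcongr
    refine (sum_le_card_nsmul _ _ _ h1).trans ?_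
    rw [nsmul_eq_mul]
    have h2 : ((F.filter (fun q => q ∈ B)).card : ℝ) ≤ C₃ * √R := by
      refine le_trans ?_ hCNT
      exact_mod_cast card_le_card (fun q hq => (mem_filter.1 hq).2)
    have h3 : √R ≤ (X : ℝ) ^ δ := by
      refine le_trans ?_ hR
      rw [Real.sqrt_le_left hR0.le]
      nlinarith
    have h4 : √R / R ≤ ρ := by
      rw [hρR, Real.sqrt_eq_rpow, ← Real.rpow_sub_one hR0.ne']
      exact Real.rpow_le_rpow_of_exponent_le (by linarith) (by norm_num)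
    calc ((F.filter (fun q => q ∈ B)).card : ℝ) * (C₂ * X / (R * L) + √(X : ℝ))
        ≤ (C₃ * √R) * (C₂ * X / (R * L) + √(X : ℝ)) :=
          mul_le_mul_of_nonneg_right h2 (by positivity)
      _ = X / L * (C₂ * C₃ * (√R / R)) + C₃ * (√R * √(X : ℝ)) := by
          field_simp
      _ ≤ X / L * (C₂ * C₃ * ρ) + C₃ * ((X : ℝ) ^ δ * √(X : ℝ)) := by
          gcongr
  have hgood : ∑ q ∈ F.filter (fun q => ¬ q ∈ B), ((Bq q X).card : ℝ) ≤
      X / L * (3 * C₁ * C₄ * ρ + C₁ * C₄ * (Real.log 2 ^ (s - 1) / L ^ s) * (i : ℝ) ^ (s - 1))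
        + 2 * C₄ * ((X : ℝ) ^ δ * √(X : ℝ)) := by
    set W := (Real.log R / L) ^ s + (Real.log R / R ^ (1 / 12 : ℝ)) ^ s with hW
    have hW0 : 0 ≤ W := by positivity
    have h1 : ∀ q ∈ F.filter (fun q => ¬ q ∈ B), ((Bq q X).card : ℝ) ≤
        C₁ * X / (R * L) * W + √(X : ℝ) := by
      intro q hq
      rw [mem_filter] at hq
      obtain ⟨h2, _, h3, _, _⟩ := hqY q hq.1
      refine (hONE q h2 hq.2 ?_).trans ?_
      · refine (hp10 R hR0.le hR).trans ?_
        exact Real.rpow_le_rpow_of_exponent_le hX1 (by linarith)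
      · gcongr
    refine (sum_le_card_nsmul _ _ _ h1).trans ?_
    rw [nsmul_eq_mul]
    have h2 : ((F.filter (fun q => ¬ q ∈ B)).card : ℝ) ≤ C₄ * R / Real.log R := by
      refine le_trans ?_ hCHB
      exact_mod_cast card_le_card ((filter_subset _ _).trans (filter_subset _ _))
    have h3 : R / Real.log R ≤ 2 * (X : ℝ) ^ δ := by
      rw [div_le_iff₀ hlR0]
      nlinarith
    have h4 : (Real.log R / L) ^ s / Real.log R =
        (Real.log 2 ^ (s - 1) / L ^ s) * (i : ℝ) ^ (s - 1) := by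
      rw [Real.div_rpow hlR0.le hL.le, div_right_comm, ← Real.rpow_sub_one hlR0.ne', hlogR,
        Real.mul_rpow hi0.le (by linarith)]
      ring
    have h5 : (Real.log R / R ^ (1 / 12 : ℝ)) ^ s / Real.log R ≤ 3 * ρ := by
      have hR12 : 0 < R ^ (1 / 12 : ℝ) := by positivity
      have h6 := pow_split (u := Real.log R / R ^ (1 / 12 : ℝ)) (by positivity) hs0 hs1
      have h7 : Real.log R / R ^ (1 / 12 : ℝ) / Real.log R ≤ ρ := by
        rw [div_right_comm, div_self hlR0.ne', hρR, one_div, ← Real.rpow_neg hR0.le]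
        exact Real.rpow_le_rpow_of_exponent_le (by linarith) (by norm_num)
      have h8 : (Real.log R / R ^ (1 / 12 : ℝ)) ^ (1 / 2 : ℝ) / Real.log R ≤ 2 * ρ := by
        rw [Real.div_rpow hlR0.le hR12.le, ← Real.rpow_mul hR0.le, div_div, mul_comm, ← div_div,
          ← Real.sqrt_eq_rpow, Real.sqrt_div_self', div_eq_mul_inv, ← Real.rpow_neg hR0.le]
        have h9 : 1 / √(Real.log R) ≤ 2 := by
          rw [div_le_iff₀ (Real.sqrt_pos.2 hlR0)]
          have h10 : 1 / 2 ≤ √(Real.log R) := by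
            apply Real.le_sqrt_of_sq_le
            linarith
          linarith
        have h11 : (-(1 / 12 * (1 / 2)) : ℝ) = -(1 / 24) := by norm_num
        rw [h11, ← hρR]
        exact mul_le_mul_of_nonneg_right h9 hρ0.le
      calc (Real.log R / R ^ (1 / 12 : ℝ)) ^ s / Real.log R
          ≤ (Real.log R / R ^ (1 / 12 : ℝ) + (Real.log R / R ^ (1 / 12 : ℝ)) ^ (1 / 2 : ℝ)) /
            Real.log R := div_le_div_of_nonneg_right h6 hlR0.le
        _ ≤ 3 * ρ := by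
          rw [add_div]; linarith
    calc ((F.filter (fun q => ¬ q ∈ B)).card : ℝ) * (C₁ * X / (R * L) * W + √(X : ℝ))
        ≤ (C₄ * R / Real.log R) * (C₁ * X / (R * L) * W + √(X : ℝ)) :=
          mul_le_mul_of_nonneg_right h2 (by positivity)
      _ = X / L * (C₁ * C₄ * ((Real.log R / L) ^ s / Real.log R +
            (Real.log R / R ^ (1 / 12 : ℝ)) ^ s / Real.log R))
          + C₄ * (R / Real.log R * √(X : ℝ)) := by
          rw [hW]
          field_simp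
      _ ≤ X / L * (C₁ * C₄ * ((Real.log 2 ^ (s - 1) / L ^ s) * (i : ℝ) ^ (s - 1) + 3 * ρ))
          + C₄ * ((2 * (X : ℝ) ^ δ) * √(X : ℝ)) := by
          rw [h4]
          gcongr
      _ = _ := by ring
  refine (add_le_add hbad hgood).trans (le_of_eq ?_)
  ring

end SUMM

open SUMM in
set_option maxHeartbeats 1000000 in
theorem specSUM (hONE : SpecONE) (hTRV : SpecTRV) (hCNT : SpecCNT) (hCHB : SpecCHB)
    (hFXQ : SpecFXQ) : SpecSUM := by
  intro ε hε0 hε1
  obtain ⟨C₁, θ, hC1, hθ0, hθ1, hONE'⟩ := hONE (ε / 4) (by linarith) (by linarith)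
  obtain ⟨C₂, hC2, hTRV'⟩ := hTRV
  obtain ⟨C₃, hC3, hCNT'⟩ := hCNT (ε / 4) (by linarith) (by linarith)
  obtain ⟨C₄, hC4, hCHB', -⟩ := hCHB
  generalize hs : 1 - 2 * (ε / 4) = s at hONE'
  have hs0 : 1 / 2 ≤ s := by linarith
  have hs1 : s ≤ 1 := by linarith
  have hsε : 1 - ε ≤ s := by linarith
  have hl2 : 1 / 2 < Real.log 2 := by linarith [Real.log_two_gt_d9]
  have hl20 : 0 < Real.log 2 := by linarith
  refine ⟨2 + (C₂ * C₃ + 3 * C₁ * C₄) + C₁ * C₄ * (2 / Real.log 2), θ / 20, by positivity,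
    by positivity, by linarith, ?_⟩
  intro δ hδ0 hδ
  have hδ20 : δ ≤ 1 / 20 := by linarith
  set ρ : ℝ := (2 : ℝ) ^ (-(1 / 24) : ℝ) with hρ
  have hρ0 : 0 < ρ := Real.rpow_pos_of_pos (by norm_num) _
  have hρ1 : ρ < 1 := Real.rpow_lt_one_of_one_lt_of_neg (by norm_num) (by norm_num)
  obtain ⟨i₀, hi1, hi2⟩ : ∃ i₀ : ℕ, 1 ≤ i₀ ∧ ρ ^ i₀ / (1 - ρ) ≤ δ := by
    have h1 := tendsto_pow_atTop_nhds_zero_of_lt_one hρ0.le hρ1
    have h2 : ∀ᶠ n : ℕ in atTop, ρ ^ n < δ * (1 - ρ) :=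
      h1.eventually_lt_const (by have : 0 < 1 - ρ := by linarith
                                 positivity)
    obtain ⟨n, h3, h4⟩ := (h2.and (eventually_ge_atTop 1)).exists
    refine ⟨n, h4, ?_⟩
    rw [div_le_iff₀ (by linarith)]
    exact h3.le
  -- conditions on X
  have hlog : Tendsto (fun X : ℕ => Real.log (X : ℝ)) atTop atTop :=
    Real.tendsto_log_atTop.comp tendsto_natCast_atTop_atTop
  have E2 : ∀ᶠ X : ℕ in atTop, ∀ q ∈ (Icc 1 (2 ^ i₀)).filter (fun q => q.Prime ∧ q ≠ 2),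
      ((Bq q X).card : ℝ) ≤ X / (Real.log X) ^ (2 - 1 / 2 : ℝ) := by
    rw [eventually_all_finset]
    intro q hq
    rw [mem_filter] at hq
    obtain ⟨X₀, h1⟩ := hFXQ q (1 / 2) hq.2.1 hq.2.2 (by norm_num) (by norm_num)
    exact eventually_atTop.2 ⟨X₀, h1⟩
  have E3 : ∀ᶠ X : ℕ in atTop, (2 : ℝ) ^ i₀ / δ ≤ (Real.log X) ^ (1 / 2 : ℝ) := by
    have h1 := (tendsto_rpow_atTop (show (0 : ℝ) < 1 / 2 by norm_num)).comp hlog
    exact h1.eventually_ge_atTop _
  have E4 : ∀ᶠ X : ℕ in atTop, (Real.log X) ^ 2 ≤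
      δ / (2 * (C₃ + 2 * C₄)) * (X : ℝ) ^ (9 / 20 : ℝ) := by
    have h1 := (isLittleO_log_rpow_rpow_atTop 2 (show (0 : ℝ) < 9 / 20 by norm_num)).def
      (show 0 < δ / (2 * (C₃ + 2 * C₄)) by positivity)
    have h2 := tendsto_natCast_atTop_atTop (R := ℝ) |>.eventually h1
    filter_upwards [h2, eventually_ge_atTop 1] with X h3 h4
    have h5 : (0 : ℝ) ≤ X := by positivity
    rw [Real.norm_of_nonneg (Real.rpow_nonneg (Real.log_natCast_nonneg X) _),
      Real.norm_of_nonneg (Real.rpow_nonneg h5 _), Real.rpow_ofNat] at h3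
    exact h3
  obtain ⟨X₀, hX₀⟩ := eventually_atTop.1 (E2.and (E3.and (E4.and (eventually_ge_atTop 3))))
  refine ⟨X₀, fun X hX => ?_⟩
  obtain ⟨e2, e3, e4, e5⟩ := hX₀ X hX
  have hX1 : (1 : ℝ) ≤ X := by exact_mod_cast (by omega : 1 ≤ X)
  have hX0 : (0 : ℝ) < X := by linarith
  have hL1 : 1 ≤ Real.log X := by
    have h1 : Real.log 3 ≤ Real.log X := Real.log_le_log (by norm_num) (by exact_mod_cast e5)
    have h2 : 1 < Real.log 3 := by
      rw [Real.lt_log_iff_exp_lt (by norm_num)]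
      linarith [Real.exp_one_lt_d9]
    linarith
  generalize hL : Real.log (X : ℝ) = L at *
  have hL0 : 0 < L := by linarith
  have hXd : 1 ≤ (X : ℝ) ^ δ := Real.one_le_rpow hX1 hδ0.le
  set Y := ⌊(X : ℝ) ^ δ⌋₊ with hY
  have hY1 : 1 ≤ Y := Nat.le_floor (by simpa using hXd)
  have hYX : (Y : ℝ) ≤ (X : ℝ) ^ δ := Nat.floor_le (by linarith)
  set K := Nat.log 2 Y with hK
  have hKY : (2 : ℝ) ^ K ≤ (X : ℝ) ^ δ := by
    refine le_trans ?_ hYX
    exact_mod_cast Nat.pow_log_le_self 2 (x := Y) (by omega)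
  have hKL : (K : ℝ) * Real.log 2 ≤ δ * L := by
    have h1 := Real.log_le_log (by positivity) hKY
    rwa [Real.log_pow, Real.log_rpow hX0, hL] at h1
  have hKL2 : (K : ℝ) ≤ δ * L / Real.log 2 := by
    rw [le_div_iff₀ hl20]; exact hKL
  have hdy := dyad Y i₀ (fun q => ((Bq q X).card : ℝ)) (fun q => by positivity) hi1
  refine hdy.trans ?_
  -- small primes
  have hsmall : ∑ q ∈ (Icc 1 (2 ^ i₀)).filter (fun q => q.Prime ∧ q ≠ 2), ((Bq q X).card : ℝ) ≤
      δ * (X / L) := by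
    have h2 : L ^ (2 - 1 / 2 : ℝ) = L * L ^ (1 / 2 : ℝ) := by
      rw [← Real.rpow_one_add' hL0.le (by norm_num)]
      congr 1
      norm_num
    have h3 : 0 < L ^ (1 / 2 : ℝ) := by positivity
    have h4 : (2 : ℝ) ^ i₀ ≤ δ * L ^ (1 / 2 : ℝ) := by
      rw [div_le_iff₀ hδ0] at e3
      linarith
    refine (small_bd _ (2 ^ i₀) _ _ ?_ e2 (by positivity)).trans ?_
    · refine (card_filter_le _ _).trans ?_
      rw [Nat.card_Icc]
      exact le_rfl
    rw [h2]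
    push_cast
    calc (2 : ℝ) ^ i₀ * (X / (L * L ^ (1 / 2 : ℝ)))
        ≤ (δ * L ^ (1 / 2 : ℝ)) * (X / (L * L ^ (1 / 2 : ℝ))) :=
          mul_le_mul_of_nonneg_right h4 (by positivity)
      _ = δ * (X / L) := by field_simp
  -- the dyadic intervals
  have hlarge : ∑ i ∈ Ico i₀ (K + 1), ∑ q ∈ (PR (2 ^ i)).filter (fun q => q ≤ Y),
      ((Bq q X).card : ℝ) ≤
      ∑ i ∈ Ico i₀ (K + 1), ((X / L) * ((C₂ * C₃ + 3 * C₁ * C₄) * ρ ^ i
        + C₁ * C₄ * (Real.log 2 ^ (s - 1) / L ^ s) * (i : ℝ) ^ (s - 1))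
      + (C₃ + 2 * C₄) * ((X : ℝ) ^ δ * √(X : ℝ))) := by
    apply sum_le_sum
    intro i hi
    rw [mem_Ico] at hi
    have hi' : 1 ≤ i := by omega
    have h2i : 2 ≤ 2 ^ i := by
      calc 2 = 2 ^ 1 := by norm_num
        _ ≤ 2 ^ i := Nat.pow_le_pow_right (by norm_num) hi'
    have hR : ((2 ^ i : ℕ) : ℝ) ≤ (X : ℝ) ^ δ := by
      refine le_trans ?_ hKY
      push_cast
      exact pow_le_pow_right₀ (by norm_num) (by omega)
    have h := part (s := s) (C₁ := C₁) (θ := θ) (C₂ := C₂) (C₃ := C₃) (C₄ := C₄) (δ := δ)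
      (BB (ε / 4) (2 ^ i)) i X hs0 hs1 hC1 hC2 hC3 hC4 hδ0 hδ hθ1
      (fun q h1 h2 h3 => hONE' (2 ^ i) q X h2i h1 h2 h3) (fun q h1 h2 h3 => hTRV' q X h1 h2 h3)
      (hCNT' (2 ^ i) (by omega)) (hCHB' (2 ^ i) h2i) hi' e5 hR
    rw [hL] at h
    exact h
  refine (add_le_add hsmall hlarge).trans ?_
  rw [sum_add_distrib, ← mul_sum, sum_add_distrib, ← mul_sum, ← mul_sum, sum_const, Nat.card_Ico,
    nsmul_eq_mul]
  have hg : ∑ i ∈ Ico i₀ (K + 1), ρ ^ i ≤ δ :=
    (geom_sum_Ico_le_of_lt_one hρ0.le hρ1).trans hi2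
  have ht : Real.log 2 ^ (s - 1) / L ^ s * ∑ i ∈ Ico i₀ (K + 1), (i : ℝ) ^ (s - 1) ≤
      2 / Real.log 2 * δ ^ s := by
    have h1 : ∑ i ∈ Ico i₀ (K + 1), (i : ℝ) ^ (s - 1) ≤ ∑ i ∈ Ico 1 (K + 1), (i : ℝ) ^ (s - 1) :=
      sum_le_sum_of_subset_of_nonneg (Ico_subset_Ico_left hi1)
        (fun i _ _ => Real.rpow_nonneg (by positivity) _)
    have h2 := h1.trans (tele s (by linarith) hs1 K)
    have h3 : (K : ℝ) ^ s / s ≤ 2 * (δ * L / Real.log 2) ^ s := by
      have h4 : (K : ℝ) ^ s ≤ (δ * L / Real.log 2) ^ s :=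
        Real.rpow_le_rpow (by positivity) hKL2 (by linarith)
      rw [div_le_iff₀ (by linarith)]
      have h5 : 0 ≤ (δ * L / Real.log 2) ^ s := by positivity
      nlinarith
    have h6 : 0 < L ^ s := by positivity
    calc Real.log 2 ^ (s - 1) / L ^ s * ∑ i ∈ Ico i₀ (K + 1), (i : ℝ) ^ (s - 1)
        ≤ Real.log 2 ^ (s - 1) / L ^ s * (2 * (δ * L / Real.log 2) ^ s) :=
          mul_le_mul_of_nonneg_left (h2.trans h3) (by positivity)
      _ = 2 / Real.log 2 * δ ^ s := by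
          rw [Real.div_rpow (by positivity) hl20.le, Real.mul_rpow hδ0.le hL0.le,
            Real.rpow_sub_one hl20.ne']
          have : 0 < Real.log 2 ^ s := by positivity
          field_simp
  have hcard : (((K + 1 - i₀ : ℕ)) : ℝ) ≤ 2 * L := by
    have h1 : ((K + 1 - i₀ : ℕ) : ℝ) ≤ (K : ℝ) + 1 := by
      exact_mod_cast (by omega : K + 1 - i₀ ≤ K + 1)
    have h2 : (K : ℝ) ≤ L := by
      have h3 : (K : ℝ) * Real.log 2 ≤ L * Real.log 2 := by
        have h4 : δ * L ≤ (1 / 20) * L := mul_le_mul_of_nonneg_right hδ20 hL0.le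
        nlinarith
      exact le_of_mul_le_mul_right h3 hl20
    linarith
  have hXX : (X : ℝ) ^ δ * √(X : ℝ) ≤ (X : ℝ) ^ (11 / 20 : ℝ) := by
    rw [Real.sqrt_eq_rpow, ← Real.rpow_add hX0]
    exact Real.rpow_le_rpow_of_exponent_le hX1 (by linarith)
  have herr : ((K + 1 - i₀ : ℕ) : ℝ) * ((C₃ + 2 * C₄) * ((X : ℝ) ^ δ * √(X : ℝ))) ≤
      δ * (X / L) := by
    have h1 : 0 ≤ (X : ℝ) ^ (11 / 20 : ℝ) := by positivity
    have h2 : (X : ℝ) ^ (9 / 20 : ℝ) * (X : ℝ) ^ (11 / 20 : ℝ) = X := by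
      rw [← Real.rpow_add hX0]
      norm_num
    calc ((K + 1 - i₀ : ℕ) : ℝ) * ((C₃ + 2 * C₄) * ((X : ℝ) ^ δ * √(X : ℝ)))
        ≤ (2 * L) * ((C₃ + 2 * C₄) * (X : ℝ) ^ (11 / 20 : ℝ)) := by gcongr
      _ = (2 * (C₃ + 2 * C₄)) * (L ^ 2 * (X : ℝ) ^ (11 / 20 : ℝ)) / L := by
          field_simp
      _ ≤ (2 * (C₃ + 2 * C₄)) * ((δ / (2 * (C₃ + 2 * C₄)) * (X : ℝ) ^ (9 / 20 : ℝ)) *
          (X : ℝ) ^ (11 / 20 : ℝ)) / L := by gcongr
      _ = δ * (((X : ℝ) ^ (9 / 20 : ℝ) * (X : ℝ) ^ (11 / 20 : ℝ)) / L) := by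
          field_simp
      _ = δ * (X / L) := by rw [h2]
  have hδ1 : δ ≤ 1 := by linarith
  have hd1 : δ ≤ δ ^ (1 - ε) := by
    calc δ = δ ^ (1 : ℝ) := (Real.rpow_one δ).symm
      _ ≤ δ ^ (1 - ε) := Real.rpow_le_rpow_of_exponent_ge hδ0 hδ1 (by linarith)
  have hd2 : δ ^ s ≤ δ ^ (1 - ε) := Real.rpow_le_rpow_of_exponent_ge hδ0 hδ1 hsε
  have hXL : 0 < X / L := by positivity
  have hA : 0 < C₂ * C₃ + 3 * C₁ * C₄ := by positivity
  have hB : 0 < C₁ * C₄ := by positivity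
  calc _ = δ * (X / L) + (X / L * ((C₂ * C₃ + 3 * C₁ * C₄) * ∑ i ∈ Ico i₀ (K + 1), ρ ^ i +
        C₁ * C₄ * (Real.log 2 ^ (s - 1) / L ^ s * ∑ i ∈ Ico i₀ (K + 1), (i : ℝ) ^ (s - 1))) +
        ((K + 1 - i₀ : ℕ) : ℝ) * ((C₃ + 2 * C₄) * ((X : ℝ) ^ δ * √(X : ℝ)))) := by
        ring
    _ ≤ δ * (X / L) + (X / L * ((C₂ * C₃ + 3 * C₁ * C₄) * δ +
        C₁ * C₄ * (2 / Real.log 2 * δ ^ s)) + δ * (X / L)) := by
        gcongr
    _ ≤ δ ^ (1 - ε) * (X / L) + (X / L * ((C₂ * C₃ + 3 * C₁ * C₄) * δ ^ (1 - ε) +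
        C₁ * C₄ * (2 / Real.log 2 * δ ^ (1 - ε))) + δ ^ (1 - ε) * (X / L)) := by
        gcongr
    _ = _ := by ring

end Pool.Agent.Lib.MP_d1f1b5_nt.TB
end

section
set_option autoImplicit false

namespace Pool.Agent.Lib.MP_d1f1b5_nt.TB

open Finset
open scoped Classical

theorem specTRV (hBQ : SpecBQ) : SpecTRV := by
  obtain ⟨C, hC, h⟩ := hBQ
  refine ⟨C + 200, by linarith, fun q X hq hq2 hqX => ?_⟩
  have hq3 : 3 ≤ q := by
    have := hq.two_le
    omega
  have hX59 : 59049 ≤ X := by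
    calc 59049 = 3 ^ 10 := by norm_num
      _ ≤ q ^ 10 := Nat.pow_le_pow_left hq3 10
      _ ≤ X := hqX
  have hXR : (59049 : ℝ) ≤ X := by exact_mod_cast hX59
  have hlog : 0 < Real.log X := Real.log_pos (by linarith)
  have hqR : (3 : ℝ) ≤ q := by exact_mod_cast hq3
  have hq0 : (0 : ℝ) < q := by linarith
  by_cases hX : (2 : ℝ) ^ 24 ≤ X
  · have h1 := h q X 1 2 ∅ hq hq2 hqX le_rfl le_rfl (by simp) (by
      simp only [Finset.sum_empty, one_mul]
      exact Real.log_nonneg (by norm_num)) (by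
      have h2 : Real.log ((2 : ℝ) ^ 24) ≤ Real.log X := Real.log_le_log (by positivity) hX
      rw [Real.log_pow] at h2
      push_cast at h2
      linarith)
    simp only [Finset.sum_empty, neg_zero, Real.exp_zero, mul_one] at h1
    refine h1.trans ?_
    have : C * X / (q * Real.log X) ≤ (C + 200) * X / (q * Real.log X) := by
      apply div_le_div_of_nonneg_right _ (by positivity)
      nlinarith
    linarith
  · push Not at hX
    have hq6 : q < 6 := by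
      by_contra hcon
      push Not at hcon
      have h2 : 6 ^ 10 ≤ q ^ 10 := Nat.pow_le_pow_left hcon 10
      have h3 : (6 ^ 10 : ℝ) ≤ X := by exact_mod_cast (h2.trans hqX)
      norm_num at h3 hX
      linarith
    have hq5 : (q : ℝ) ≤ 5 := by
      have : q ≤ 5 := by omega
      exact_mod_cast this
    have h2 : Real.log X ≤ 24 := by
      have h3 : Real.log X ≤ Real.log ((2 : ℝ) ^ 24) := Real.log_le_log (by linarith) hX.le
      rw [Real.log_pow] at h3
      have h4 := Real.log_two_lt_d9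
      push_cast at h3
      linarith
    have h3 : ((Bq q X).card : ℝ) ≤ X := by
      have : (Bq q X).card ≤ X := by
        refine (Finset.card_filter_le _ _).trans ?_
        simp
      exact_mod_cast this
    have h4 : (X : ℝ) ≤ (C + 200) * X / (q * Real.log X) := by
      rw [le_div_iff₀ (by positivity)]
      have h5 : (q : ℝ) * Real.log X ≤ 5 * 24 := mul_le_mul hq5 h2 hlog.le (by norm_num)
      nlinarith
    have := Real.sqrt_nonneg (X : ℝ)
    linarith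

end Pool.Agent.Lib.MP_d1f1b5_nt.TB
end
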