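import Pool.Agent.Lib.MP_d1f1b5_nt.TB.Spec
import Pool.Agent.Lib.MP_391708_nt.QPA.Bt
import Pool.Agent.Lib.MP_391708_nt.QPA.Selb
import Pool.Agent.Lib.MP_d1f1b5_nt.TB.KUM
import Pool.Agent.Lib.MP_d1f1b5_nt.TB.TRV
import Pool.Agent.Lib.MP_d1f1b5_nt.TB.LSI
import Pool.Agent.Lib.MP_d1f1b5_nt.TB.VAU

section
/-!
# BTS: primes in an arithmetic progression, upper bound for the sum of `q log l / l`
-/
set_option autoImplicit false

namespace Pool.Agent.Lib.MP_d1f1b5_nt.TB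

open Finset Filter Topology
open scoped Classical

noncomputable section

namespace BTSM

/-- the primes in a dyadic interval -/
def dset (q Y : ℕ) : Finset ℕ := (Ioc Y (Y + Y)).filter (fun l => l.Prime ∧ l % q = 1)

theorem small (q Y : ℕ) (hq : q.Prime) (hY : q ^ 2 ≤ Y) (h16 : Y < 16 * q) :
    ∑ l ∈ dset q Y, (q : ℝ) * Real.log l / l ≤ 131072 := by
  have hq0 : 0 < q := hq.pos
  have h1 : q < 16 := by
    by_contra h
    have : 16 * q ≤ q ^ 2 := by nlinarith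
    omega
  have h2 : Y < 256 := by omega
  have h3 : ∀ l ∈ dset q Y, (q : ℝ) * Real.log l / l ≤ 512 := by
    intro l hl
    rw [dset, Finset.mem_filter, Finset.mem_Ioc] at hl
    have hql : q ≤ l := by nlinarith [hl.1.1]
    have hl0 : (0 : ℝ) < l := by
      have : 0 < l := by omega
      exact_mod_cast this
    have hql' : (q : ℝ) ≤ l := by exact_mod_cast hql
    have hl5 : (l : ℝ) ≤ 512 := by
      have : l ≤ 512 := by omega
      exact_mod_cast this
    have hl1 : (1 : ℝ) ≤ l := by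
      have : 1 ≤ l := by omega
      exact_mod_cast this
    have hlog : 0 ≤ Real.log l := Real.log_nonneg hl1
    have hlog2 : Real.log l ≤ l := (Real.log_le_sub_one_of_pos hl0).trans (by linarith)
    rw [div_le_iff₀ hl0]
    nlinarith
  have h4 := Finset.sum_le_card_nsmul _ _ _ h3
  have h5 : (dset q Y).card ≤ 256 := by
    refine (Finset.card_filter_le _ _).trans ?_
    rw [Nat.card_Ioc]
    omega
  have h6 : ((dset q Y).card : ℝ) ≤ 256 := by exact_mod_cast h5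
  rw [nsmul_eq_mul] at h4
  linarith

theorem big (C : ℝ) (hC : 0 < C)
    (h : ∀ (y z : ℝ) (q c x H : ℕ), 2 ≤ y → y < z → 1 ≤ q →
      (((Ioc x (x + H)).filter (fun u => u % q = c ∧ Pool.Agent.Lib.MP391708.QPA.Rough z u)).card : ℝ)
      ≤ C * H / ((q.totient : ℝ) * Real.log y) + C * y ^ 2)
    (q Y : ℕ) (hq : q.Prime) (hY : q ^ 2 ≤ Y) (h16 : 16 * q ≤ Y) :
    ∑ l ∈ dset q Y, (q : ℝ) * Real.log l / l ≤ 40 * C := by
  have hq0 : (0 : ℝ) < q := by exact_mod_cast hq.pos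
  have hq2 : (2 : ℝ) ≤ q := by exact_mod_cast hq.two_le
  have hYR : (q : ℝ) ^ 2 ≤ Y := by exact_mod_cast hY
  have h16R : 16 * (q : ℝ) ≤ Y := by exact_mod_cast h16
  have hY32 : (32 : ℝ) ≤ Y := by linarith
  have hY0 : (0 : ℝ) < Y := by linarith
  set T : ℝ := (Y : ℝ) / q with hT
  have hT16 : 16 ≤ T := by
    rw [hT, le_div_iff₀ hq0]
    exact h16R
  have hT0 : 0 < T := by linarith
  have hTY : T ≤ Y := by
    rw [hT, div_le_iff₀ hq0]
    nlinarith
  have hTY2 : (Y : ℝ) ≤ T ^ 2 := by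
    rw [hT, div_pow, le_div_iff₀ (by positivity)]
    nlinarith
  have hL0 : 0 < Real.log Y := Real.log_pos (by linarith)
  have hLT : Real.log Y ≤ 2 * Real.log T := by
    have h1 := Real.log_le_log hY0 hTY2
    rw [Real.log_pow] at h1
    exact_mod_cast h1
  set r : ℝ := Real.sqrt T with hr
  have hr2 : r ^ 2 = T := Real.sq_sqrt hT0.le
  have hr4 : 4 ≤ r := by
    rw [hr, show (4 : ℝ) = Real.sqrt (4 ^ 2) by rw [Real.sqrt_sq (by norm_num)]]
    exact Real.sqrt_le_sqrt (by linarith)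
  have hr0 : 0 < r := by linarith
  set y : ℝ := Real.sqrt r with hy
  have hy2 : y ^ 2 = r := Real.sq_sqrt hr0.le
  have hy4 : 2 ≤ y := by
    rw [hy, show (2 : ℝ) = Real.sqrt (2 ^ 2) by rw [Real.sqrt_sq (by norm_num)]]
    exact Real.sqrt_le_sqrt (by linarith)
  have hyY : y < Y := by
    have h1 : y < r := by nlinarith
    have h2 : r < T := by nlinarith
    linarith
  have hlogr : Real.log r = Real.log T / 2 := Real.log_sqrt hT0.le
  have hlogy : Real.log y = Real.log T / 4 := by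
    rw [hy, Real.log_sqrt hr0.le, hlogr]
    ring
  have hlogTr : Real.log T ≤ 2 * r := by
    have h1 := Real.log_le_sub_one_of_pos hr0
    linarith
  have h1 := h y Y q 1 Y Y hy4 hyY hq.one_lt.le
  have hsub : dset q Y ⊆ (Ioc Y (Y + Y)).filter
      (fun u => u % q = 1 ∧ Pool.Agent.Lib.MP391708.QPA.Rough (Y : ℝ) u) := by
    intro l hl
    rw [dset, Finset.mem_filter] at hl
    rw [Finset.mem_filter]
    refine ⟨hl.1, hl.2.2, ?_⟩
    intro p hp hpl
    have h2 : p = l := (Nat.prime_dvd_prime_iff_eq hp hl.2.1).1 hpl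
    rw [h2]
    exact_mod_cast (Finset.mem_Ioc.1 hl.1).1.le
  have hcard : ((dset q Y).card : ℝ) ≤ C * Y / ((q.totient : ℝ) * Real.log y) + C * y ^ 2 :=
    le_trans (by exact_mod_cast Finset.card_le_card hsub) h1
  have htot : (q : ℝ) / 2 ≤ (q.totient : ℝ) := by
    rw [Nat.totient_prime hq, Nat.cast_sub hq.one_lt.le, Nat.cast_one]
    linarith
  have hden : (q : ℝ) * Real.log Y / 16 ≤ (q.totient : ℝ) * Real.log y := by
    rw [hlogy]
    have h2 : Real.log Y / 8 ≤ Real.log T / 4 := by linarith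
    calc (q : ℝ) * Real.log Y / 16 = (q : ℝ) / 2 * (Real.log Y / 8) := by ring
      _ ≤ (q.totient : ℝ) * (Real.log T / 4) :=
        mul_le_mul htot h2 (by positivity) (by positivity)
  have hfirst : C * Y / ((q.totient : ℝ) * Real.log y) ≤ C * Y / ((q : ℝ) * Real.log Y / 16) :=
    div_le_div_of_nonneg_left (by positivity) (by positivity) hden
  have hcard2 : ((dset q Y).card : ℝ) ≤ C * Y / ((q : ℝ) * Real.log Y / 16) + C * r := by
    rw [hy2] at hcard
    linarith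
  have hterm : ∀ l ∈ dset q Y, (q : ℝ) * Real.log l / l ≤ q * (2 * Real.log Y) / Y := by
    intro l hl
    rw [dset, Finset.mem_filter, Finset.mem_Ioc] at hl
    have hl1 : (Y : ℝ) ≤ l := by exact_mod_cast hl.1.1.le
    have hl2 : (l : ℝ) ≤ Y * Y := by
      have : (l : ℝ) ≤ Y + Y := by exact_mod_cast hl.1.2
      nlinarith
    have hl0 : (0 : ℝ) < l := by linarith
    have hlog : Real.log l ≤ 2 * Real.log Y := by
      have h3 := Real.log_le_log hl0 hl2
      rw [Real.log_mul hY0.ne' hY0.ne'] at h3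
      linarith
    have hlog0 : 0 ≤ Real.log l := Real.log_nonneg (by linarith)
    rw [div_le_div_iff₀ hl0 hY0]
    calc (q : ℝ) * Real.log l * Y ≤ (q : ℝ) * (2 * Real.log Y) * Y := by
          have := mul_le_mul_of_nonneg_left hlog hq0.le
          nlinarith
      _ ≤ (q : ℝ) * (2 * Real.log Y) * l := by
          refine mul_le_mul_of_nonneg_left hl1 (by positivity)
  have h4 := Finset.sum_le_card_nsmul _ _ _ hterm
  rw [nsmul_eq_mul] at h4
  have h5 : ((dset q Y).card : ℝ) * (q * (2 * Real.log Y) / Y) ≤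
      (C * Y / ((q : ℝ) * Real.log Y / 16) + C * r) * (q * (2 * Real.log Y) / Y) :=
    mul_le_mul_of_nonneg_right hcard2 (by positivity)
  have h6 : (C * Y / ((q : ℝ) * Real.log Y / 16) + C * r) * (q * (2 * Real.log Y) / Y) =
      32 * C + C * (2 * r * Real.log Y / T) := by
    rw [hT]
    field_simp
    ring
  have h7 : 2 * r * Real.log Y / T ≤ 8 := by
    have h8 : Real.log Y ≤ 4 * r := by linarith
    rw [div_le_iff₀ hT0]
    calc 2 * r * Real.log Y ≤ 2 * r * (4 * r) := mul_le_mul_of_nonneg_left h8 (by positivity)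
      _ = 8 * r ^ 2 := by ring
      _ = 8 * T := by rw [hr2]
  have h9 : C * (2 * r * Real.log Y / T) ≤ C * 8 := mul_le_mul_of_nonneg_left h7 hC.le
  linarith

theorem dy : ∃ C : ℝ, 1 ≤ C ∧ ∀ q Y : ℕ, q.Prime → q ^ 2 ≤ Y →
    ∑ l ∈ dset q Y, (q : ℝ) * Real.log l / l ≤ C := by
  obtain ⟨C, hC, h⟩ := Pool.Agent.Lib.MP391708.QPA.specBT Pool.Agent.Lib.MP391708.QPA.specSELB
  refine ⟨131072 + 40 * C, by linarith, fun q Y hq hY => ?_⟩
  by_cases h16 : Y < 16 * q
  · have := small q Y hq hY h16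
    linarith
  · have := big C hC h q Y hq hY (not_lt.1 h16)
    linarith

theorem count (z : ℝ) (hz : 2 ≤ z) : ((Nat.log 2 ⌊z⌋₊ + 1 : ℕ) : ℝ) ≤ 3 * Real.log z := by
  have hz0 : 0 < z := by linarith
  have hlog2 : (0.6931471803 : ℝ) < Real.log 2 := Real.log_two_gt_d9
  have hlogz : Real.log 2 ≤ Real.log z := Real.log_le_log (by norm_num) hz
  have h1 : ((Nat.log 2 ⌊z⌋₊ : ℕ) : ℝ) ≤ Real.logb 2 (⌊z⌋₊ : ℝ) := by
    exact_mod_cast Real.natLog_le_logb ⌊z⌋₊ 2
  have hf : (1 : ℝ) ≤ (⌊z⌋₊ : ℝ) := by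
    have : 1 ≤ ⌊z⌋₊ := Nat.le_floor (by push_cast; linarith)
    exact_mod_cast this
  have h2 : Real.log (⌊z⌋₊ : ℝ) ≤ Real.log z :=
    Real.log_le_log (by linarith) (Nat.floor_le hz0.le)
  rw [Real.logb] at h1
  have h3 : Real.log (⌊z⌋₊ : ℝ) / Real.log 2 ≤ 3 / 2 * Real.log z := by
    rw [div_le_iff₀ (by linarith)]
    nlinarith
  push_cast
  linarith

end BTSM

open BTSM in
theorem specBTS : SpecBTS := by
  obtain ⟨C, hC, h⟩ := dy
  refine ⟨3 * C, by linarith, fun q z hq hz => ?_⟩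
  have hq0 : 0 < q := hq.pos
  have hq2 : 0 < q ^ 2 := by positivity
  set g : ℕ → ℕ := fun l => Nat.log 2 ((l - 1) / q ^ 2) with hg
  have hfac : ∀ l ∈ P1 q ((q : ℝ) ^ 2) z, q ^ 2 < l ∧ l ≤ ⌊z⌋₊ ∧ l.Prime ∧ l % q = 1 := by
    intro l hl
    rw [P1, Finset.mem_filter, Finset.mem_Icc] at hl
    refine ⟨by exact_mod_cast hl.2.2.2, hl.1.2, hl.2.1, hl.2.2.1⟩
  have hint : ∀ l ∈ P1 q ((q : ℝ) ^ 2) z, 2 ^ g l * q ^ 2 < l ∧ l ≤ 2 ^ g l * q ^ 2 + 2 ^ g l * q ^ 2 := by
    intro l hl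
    obtain ⟨h1, -, -, -⟩ := hfac l hl
    have h2 : (l - 1) / q ^ 2 ≠ 0 := by
      have : 1 ≤ (l - 1) / q ^ 2 := (Nat.one_le_div_iff hq2).2 (by omega)
      omega
    have h3 : 2 ^ g l ≤ (l - 1) / q ^ 2 := Nat.pow_log_le_self 2 h2
    have h4 : (l - 1) / q ^ 2 < 2 ^ (g l + 1) := Nat.lt_pow_succ_log_self (by norm_num) _
    have h5 : 2 ^ g l * q ^ 2 ≤ l - 1 := (Nat.le_div_iff_mul_le hq2).1 h3
    have h6 : l - 1 < 2 ^ (g l + 1) * q ^ 2 := (Nat.div_lt_iff_lt_mul hq2).1 h4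
    rw [pow_succ] at h6
    constructor
    · omega
    · have : 2 ^ g l * 2 * q ^ 2 = 2 ^ g l * q ^ 2 + 2 ^ g l * q ^ 2 := by ring
      omega
  have hmaps : ∀ l ∈ P1 q ((q : ℝ) ^ 2) z, g l ∈ range (Nat.log 2 ⌊z⌋₊ + 1) := by
    intro l hl
    obtain ⟨-, h2, -, -⟩ := hfac l hl
    have h3 := (hint l hl).1
    rw [Finset.mem_range, Nat.lt_succ_iff]
    refine Nat.le_log_of_pow_le (by norm_num) ?_
    have : 2 ^ g l ≤ 2 ^ g l * q ^ 2 := Nat.le_mul_of_pos_right _ hq2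
    omega
  rw [← Finset.sum_fiberwise_of_maps_to hmaps]
  have hfib : ∀ i ∈ range (Nat.log 2 ⌊z⌋₊ + 1),
      ∑ l ∈ (P1 q ((q : ℝ) ^ 2) z).filter (fun l => g l = i), (q : ℝ) * Real.log l / l ≤ C := by
    intro i _
    refine le_trans (Finset.sum_le_sum_of_subset_of_nonneg (t := dset q (2 ^ i * q ^ 2)) ?_ ?_)
      (h q (2 ^ i * q ^ 2) hq (Nat.le_mul_of_pos_left _ (by positivity)))
    · intro l hl
      rw [Finset.mem_filter] at hl
      have h1 := hint l hl.1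
      rw [hl.2] at h1
      obtain ⟨-, -, h4, h5⟩ := hfac l hl.1
      rw [dset, Finset.mem_filter, Finset.mem_Ioc]
      exact ⟨h1, h4, h5⟩
    · intro l _ _
      refine div_nonneg (mul_nonneg (Nat.cast_nonneg _) (Real.log_natCast_nonneg _))
        (Nat.cast_nonneg _)
  have h8 := Finset.sum_le_card_nsmul _ _ _ hfib
  rw [Finset.card_range, nsmul_eq_mul] at h8
  have h9 := count z hz
  calc _ ≤ _ := h8
    _ ≤ 3 * Real.log z * C := mul_le_mul_of_nonneg_right h9 (by linarith)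
    _ = 3 * C * Real.log z := by ring

end

end Pool.Agent.Lib.MP_d1f1b5_nt.TB
end

section
/-!
# Module SEL of the project TB
-/
set_option autoImplicit false

namespace Pool.Agent.Lib.MP_d1f1b5_nt.TB

open Finset

theorem specSEL : SpecSEL := by
  intro m x hm hx
  have hx0 : (0 : ℝ) ≤ x := by linarith
  have h1 := Pool.Agent.Lib.MP391708.QPA.SELB.S_ge ⌊x⌋₊ m hm
  have h2 : Real.log x ≤ ∑ n ∈ Icc 1 ⌊x⌋₊, ((n : ℝ))⁻¹ := by
    have h3 := log_le_harmonic_floor x hx0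
    have h4 : (((harmonic ⌊x⌋₊ : ℚ)) : ℝ) = ∑ n ∈ Icc 1 ⌊x⌋₊, ((n : ℝ))⁻¹ := by
      rw [harmonic_eq_sum_Icc]
      push_cast
      rfl
    rw [h4] at h3
    exact h3
  have h5 : Pool.Agent.Lib.MP391708.QPA.SELB.S ⌊x⌋₊ m
      = ∑ b ∈ (Icc 1 ⌊x⌋₊).filter (fun b => Squarefree b ∧ Nat.Coprime b m), 1 / (b.totient : ℝ) := by
    unfold Pool.Agent.Lib.MP391708.QPA.SELB.S
    apply Finset.sum_congr
    · ext r
      rw [Pool.Agent.Lib.MP391708.QPA.SELB.mem_R]
      simp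
    · intro r _
      rfl
  rw [← h5]
  have hm0 : (0 : ℝ) < (m : ℝ) := by exact_mod_cast hm
  have ht0 : (0 : ℝ) < (m.totient : ℝ) := by exact_mod_cast Nat.totient_pos.mpr hm
  have h6 : Real.log x ≤ (m : ℝ) / (m.totient : ℝ) * Pool.Agent.Lib.MP391708.QPA.SELB.S ⌊x⌋₊ m :=
    le_trans h2 h1
  calc ((m.totient : ℝ) / m) * Real.log x
      ≤ ((m.totient : ℝ) / m) *
        ((m : ℝ) / (m.totient : ℝ) * Pool.Agent.Lib.MP391708.QPA.SELB.S ⌊x⌋₊ m) :=
        mul_le_mul_of_nonneg_left h6 (by positivity)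
    _ = Pool.Agent.Lib.MP391708.QPA.SELB.S ⌊x⌋₊ m := by
        field_simp

end Pool.Agent.Lib.MP_d1f1b5_nt.TB
end

section
/-!
# Assembly of the project TB
-/
set_option autoImplicit false

namespace Pool.Agent.Lib.MP_d1f1b5_nt.TB

theorem allGLB : SpecGLB := specGLB specSEL
theorem allCCB : SpecCCB := specCCB
theorem allTYA : SpecTYA := specTYA specCCB
theorem allBIL : SpecBIL := specBIL specLSI specDFT
theorem allTYB : SpecTYB := specTYB allBIL specDIV allCCB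
theorem allMV : SpecMV := specMV specVAU allTYA allTYB
theorem allGOO : SpecGOO := specGOO allMV
theorem allCNT : SpecCNT := specCNT allGOO
theorem allBQ : SpecBQ := specBQ specCLS specECD specKUM specMLS specRAN allGLB specPEX
theorem allTRV : SpecTRV := specTRV allBQ
theorem allFXQ : SpecFXQ := specFXQ allBQ specBTS specMER
theorem allONE : SpecONE := specONE allBQ specBTS specLQ
theorem allSUM : SpecSUM := specSUM allONE allTRV allCNT specCHB allFXQ
theorem allFIN : SpecFIN := specFIN allSUM allFXQ specSIZ specCHB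

end Pool.Agent.Lib.MP_d1f1b5_nt.TB
end
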