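import Mathlib
import Pool.Agent.Lib.MP_d1f1b5_nt.KU.Count
import Pool.Agent.Lib.PntAP.Main
import Pool.Agent.Lib.MP_cb27ba_nt.H71.LSChar

/-!
# Definitions for the project TB

THEOREM. For every `ε > 0` there is `C` such that for all `0 < δ ≤ 1` and all large `X` the number of
odd primes `p ≤ X` for which `F(p,q) ∣ F(q,p)` or `F(q,p) ∣ F(p,q)` for some odd prime `q ≠ p`,
`q ≤ X^δ`, is at most `C δ^(1-ε) X / log X`; and for every fixed odd prime `q` the number of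
`p ≤ X` with `F(p,q) ∣ F(q,p)` is at most `X / (log X)^(2-ε)` for large `X`.
-/

set_option autoImplicit false

namespace Pool.Agent.Lib.MP_d1f1b5_nt.TB

open Finset Filter Topology
open scoped Classical

noncomputable section

/-- `F(p,q)` divides `F(q,p)` -/
def Bad (p q : ℕ) : Prop := (p ^ q - 1) / (p - 1) ∣ (q ^ p - 1) / (q - 1)

/-- the odd primes `p ≤ X`, `p ≠ q`, with `F(p,q) ∣ F(q,p)` -/
def Bq (q X : ℕ) : Finset ℕ := (Icc 1 X).filter (fun p => p.Prime ∧ p ≠ 2 ∧ p ≠ q ∧ Bad p q)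

/-- the residues modulo the prime `l` which a prime `p > l` with `F(p,q) ∣ F(q,p)` avoids: `0`, and
the `q - 1` residues of order `q` when `l ≡ 1 mod q` -/
def EE (q l : ℕ) : Finset ℕ :=
  (range l).filter (fun r => r = 0 ∨ (l % q = 1 ∧ r ≠ 1 ∧ r ^ q % l = 1))

/-- the primes `l ≡ 1 mod q` with `x < l ≤ y` -/
def P1 (q : ℕ) (x y : ℝ) : Finset ℕ :=
  (Icc 1 ⌊y⌋₊).filter (fun l => l.Prime ∧ l % q = 1 ∧ x < (l : ℝ))

/-- the primes in `(R, 2R]` -/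
def PR (R : ℕ) : Finset ℕ := (Ioc R (2 * R)).filter Nat.Prime

/-- the sum of `Φ χ` over the nonprincipal characters modulo `q` -/
def dsum (q : ℕ) (Φ : DirichletCharacter ℂ q → ℝ) : ℝ :=
  if h : q = 0 then 0
  else
    haveI : NeZero q := ⟨h⟩
    ∑ χ ∈ (univ : Finset (DirichletCharacter ℂ q)).filter (fun χ => χ ≠ 1), Φ χ

theorem dsum_eq (q : ℕ) [NeZero q] (Φ : DirichletCharacter ℂ q → ℝ) :
    dsum q Φ = ∑ χ ∈ (univ : Finset (DirichletCharacter ℂ q)).filter (fun χ => χ ≠ 1), Φ χ := by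
  unfold dsum
  rw [dif_neg (NeZero.ne q)]

/-- `∑_{Y₁ < n ≤ Y₂} Λ(n) χ(n)` -/
def psiX {q : ℕ} (χ : DirichletCharacter ℂ q) (Y₁ Y₂ : ℕ) : ℂ :=
  ∑ n ∈ Ioc Y₁ Y₂, (ArithmeticFunction.vonMangoldt n : ℂ) * χ (n : ZMod q)

/-- `(μ_{≤V} * log)(n)` -/
def v1 (V n : ℕ) : ℝ :=
  ∑ d ∈ n.divisors.filter (fun d => d ≤ V),
    (ArithmeticFunction.moebius d : ℝ) * Real.log ((n / d : ℕ) : ℝ)

/-- `(μ_{≤V} * Λ_{≤U})(e)` -/
def cc (U V e : ℕ) : ℝ :=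
  ∑ d ∈ e.divisors.filter (fun d => d ≤ V ∧ e / d ≤ U),
    (ArithmeticFunction.moebius d : ℝ) * ArithmeticFunction.vonMangoldt (e / d)

/-- `(μ_{≤V} * Λ_{≤U} * 1)(n)` -/
def v2 (U V n : ℕ) : ℝ := ∑ e ∈ n.divisors.filter (fun e => e ≤ U * V), cc U V e

/-- `(μ_{>V} * 1)(k)` -/
def bb (V k : ℕ) : ℝ :=
  ∑ d ∈ k.divisors.filter (fun d => V < d), (ArithmeticFunction.moebius d : ℝ)

/-- `((μ_{>V} * 1) * Λ_{>U})(n)` -/
def v3 (U V n : ℕ) : ℝ :=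
  ∑ d ∈ n.divisors.filter (fun d => U < d ∧ V < n / d),
    ArithmeticFunction.vonMangoldt d * bb V (n / d)

/-- the primes `q ∈ (R, 2R]` for which the lower bound
`∑_{l ≡ 1 (q), y < l ≤ (1+η)y} log l ≥ (1-η) η y/(q-1)` fails for some `y = (1+η)^j ≥ R^10`
with `j ≤ R^(1/12)` -/
def BB (η : ℝ) (R : ℕ) : Finset ℕ :=
  (PR R).filter (fun q => ∃ j : ℕ, (R : ℝ) ^ 10 ≤ (1 + η) ^ j ∧ (j : ℝ) ≤ (R : ℝ) ^ (1 / 12 : ℝ) ∧
    ∑ l ∈ P1 q ((1 + η) ^ j) ((1 + η) ^ (j + 1)), Real.log l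
      < (1 - η) * (η * (1 + η) ^ j) / ((q : ℝ) - 1))

end

end Pool.Agent.Lib.MP_d1f1b5_nt.TB
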